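import Mathlib

/-!
# Polylogarithmic sign changes: definitions of the analytic core

`ee t = exp(2 pi i t)`, Fourier coefficients on `[0,1]`, step functions on the circle `ℝ/ℤ` and the
abstract system `(M, ang, nm, g)` of directions with a completely multiplicative sign.
-/

set_option autoImplicit false

namespace Pool.Agent.Lib.MP_648c71_nt.HP

open Finset MeasureTheory

/-- `e(t)` -/
noncomputable def ee (t : ℝ) : ℂ := Complex.exp (((2 * Real.pi * t : ℝ) : ℂ) * Complex.I)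

theorem ee_add (x y : ℝ) : ee (x + y) = ee x * ee y := by
  rw [ee, ee, ee, ← Complex.exp_add]; congr 1; push_cast; ring

theorem norm_ee (x : ℝ) : ‖ee x‖ = 1 := by
  rw [ee, Complex.norm_exp_ofReal_mul_I]

theorem ee_zero : ee 0 = 1 := by simp [ee]

theorem ee_int (n : ℤ) : ee n = 1 := by
  rw [ee]
  have : (((2 * Real.pi * (n : ℝ) : ℝ) : ℂ) * Complex.I) = n * (2 * Real.pi * Complex.I) := by
    push_cast; ring
  rw [this, Complex.exp_int_mul_two_pi_mul_I]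

theorem ee_add_int (x : ℝ) (n : ℤ) : ee (x + n) = ee x := by
  rw [ee_add, ee_int, mul_one]

theorem ee_neg (x : ℝ) : ee (-x) = (starRingEnd ℂ) (ee x) := by
  rw [ee, ee, ← Complex.exp_conj]; congr 1
  rw [map_mul, Complex.conj_ofReal, Complex.conj_I]; push_cast; ring

theorem ee_mul_neg (x : ℝ) : ee x * ee (-x) = 1 := by
  rw [← ee_add, add_neg_cancel, ee_zero]

theorem continuous_ee : Continuous ee := by
  unfold ee; fun_prop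

/-- the `k`-th Fourier coefficient on `[0,1]` -/
noncomputable def cf (u : ℝ → ℂ) (k : ℤ) : ℂ := ∫ t in (0 : ℝ)..1, ee (-(k * t)) * u t

/-- `S` is a measurable, 1-periodic step function with values `±1` which does not change its value
on an interval `(a,b]` free of points congruent mod 1 to a point of the finite set `Js`. -/
structure Step (S : ℝ → ℝ) (Js : Finset ℝ) : Prop where
  meas : Measurable S
  per : ∀ t, S (t + 1) = S t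
  val : ∀ t, S t = 1 ∨ S t = -1
  const : ∀ a b : ℝ, a ≤ b → (∀ j ∈ Js, ∀ k : ℤ, ¬ (a < j + k ∧ j + k ≤ b)) → S a = S b

/-- A commutative monoid with an angle modulo 1, a multiplicative norm and a multiplicative sign. -/
structure Sys where
  M : Type
  mon : CommMonoid M
  ang : M → ℝ
  nm : M → ℕ
  g : M → ℝ
  nm_pos : ∀ z, 0 < nm z
  nm_mul : ∀ z w, nm (z * w) = nm z * nm w
  ang_mul : ∀ z w, ∃ k : ℤ, ang (z * w) = ang z + ang w + k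
  g_mul : ∀ z w, g (z * w) = g z * g w
  g_or : ∀ z, g z = 1 ∨ g z = -1
  c0 : ℝ
  c0_pos : 0 < c0
  sep : ∀ z w, (∃ k : ℤ, ang z - ang w = k) ∨
    ∀ k : ℤ, c0 ≤ |ang z - ang w - k| * Real.sqrt (nm z * nm w)
  dir : ∀ z w, (∃ k : ℤ, ang z - ang w = k) →
    ∃ a b : ℕ, 0 < a ∧ 0 < b ∧ a ^ 2 * nm z = b ^ 2 * nm w

attribute [instance] Sys.mon

/-- The step function `S` agrees with the sign `g` on all directions of norm `≤ X` and does not jump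
directly behind them. -/
def Fits (𝒮 : Sys) (X c1 : ℝ) (S : ℝ → ℝ) (Js : Finset ℝ) : Prop :=
  (∀ z : 𝒮.M, (𝒮.nm z : ℝ) ≤ X → S (𝒮.ang z) = 𝒮.g z) ∧
  ∀ z : 𝒮.M, (𝒮.nm z : ℝ) ≤ X → ∀ j ∈ Js, ∀ k : ℤ,
    ¬ (𝒮.ang z < j + k ∧ j + k < 𝒮.ang z + c1 / X)

/-- Directions of norm `≤ x` are within `Λ/x` of all but measure `C/Λ` of the circle. -/
def Gap (𝒮 : Sys) (C : ℝ) : Prop :=
  ∀ x Λ : ℝ, 1 ≤ x → 1 ≤ Λ →
    volume {θ : ℝ | θ ∈ Set.Ico (0 : ℝ) 1 ∧ ∀ z : 𝒮.M, (𝒮.nm z : ℝ) ≤ x → ∀ k : ℤ,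
      Λ / x < |𝒮.ang z - θ - k|} ≤ ENNReal.ofReal (C / Λ)

/-- Every direction is approximated within `δ` by one of norm `≤ C/δ²`. -/
def Dense (𝒮 : Sys) (C : ℝ) : Prop :=
  ∀ θ δ : ℝ, 0 < δ → δ ≤ 1 → ∃ z : 𝒮.M, ∃ k : ℤ, |𝒮.ang z - θ - k| ≤ δ ∧ (𝒮.nm z : ℝ) ≤ C / δ ^ 2

open Classical in
/-- The boxes: `B × B` covers a positive proportion of the directions of norm `≤ X`, has small
multiplicative energy and small exponential sums. -/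
def Box (𝒮 : Sys) (κ C σ : ℝ) (D : ℕ) (X : ℝ) (B : Finset 𝒮.M) : Prop :=
  (∀ z ∈ B, ∀ w ∈ B, (𝒮.nm z * 𝒮.nm w : ℝ) ≤ X) ∧
  κ * X ≤ (B.card : ℝ) ^ 2 ∧
  ((((B ×ˢ B) ×ˢ (B ×ˢ B)).filter (fun t =>
      ∃ k : ℤ, 𝒮.ang t.1.1 + 𝒮.ang t.1.2 - (𝒮.ang t.2.1 + 𝒮.ang t.2.2) = k)).card : ℝ) ≤
    X * (Real.log X) ^ D ∧
  ∀ m : ℤ, m ≠ 0 → |(m : ℝ)| ≤ 2 * X →
    ‖∑ z ∈ B, ee (m * 𝒮.ang z)‖ ≤ C * B.card * (1 / |(m : ℝ)| + X ^ (-σ))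

/-- many primes `p ≤ P` such that a bounded multiple of `p` is a norm -/
def PrimeSet (𝒮 : Sys) (c : ℝ) (C : ℕ) (P : ℝ) (Pr : Finset ℕ) : Prop :=
  (∀ p ∈ Pr, p.Prime ∧ C < p ∧ (p : ℝ) ≤ P ∧ ∃ z : 𝒮.M, ∃ t : ℕ, 𝒮.nm z = p * t ∧ 1 ≤ t ∧ t ≤ C) ∧
  c * (P / Real.log P) ≤ Pr.card

/-- everything the core theorem needs -/
structure Good (𝒮 : Sys) : Prop where
  gap : ∃ C : ℝ, 0 < C ∧ Gap 𝒮 C
  dense : ∃ C : ℝ, 0 < C ∧ Dense 𝒮 C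
  box : ∃ κ C σ : ℝ, ∃ D : ℕ, 0 < κ ∧ 0 < C ∧ 0 < σ ∧ σ ≤ 1 ∧ ∃ X₀ : ℝ, ∀ X : ℝ, X₀ ≤ X →
    ∃ B : Finset 𝒮.M, Box 𝒮 κ C σ D X B
  primes : ∃ c : ℝ, ∃ C b : ℕ, 0 < c ∧ 1 ≤ C ∧ 1 ≤ b ∧ ∃ y₀ : ℝ, ∀ y : ℝ, y₀ ≤ y → ∃ P : ℝ,
    y ≤ P ∧ P ≤ y ^ b ∧ ∃ Pr : Finset ℕ, PrimeSet 𝒮 c C P Pr
  neg : ∃ z : 𝒮.M, 𝒮.g z = -1

end Pool.Agent.Lib.MP_648c71_nt.HP
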