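import Pool.Agent.Lib.MP_648c71_nt.HP.Defs

/-! Row F1 (about 60 lines): Parseval, shifts, conjugation for the coefficients `cf`. -/

set_option autoImplicit false

namespace Pool.Agent.Lib.MP_648c71_nt.HP

open Finset MeasureTheory

private theorem F1_int (u : ℝ → ℂ) (hm : Measurable u) (C : ℝ) (hb : ∀ t, ‖u t‖ ≤ C) (k : ℤ) :
    IntervalIntegrable (fun t : ℝ => ee (-(k * t)) * u t) volume 0 1 := by
  rw [intervalIntegrable_iff_integrableOn_Ioc_of_le zero_le_one]
  have hc : Continuous fun t : ℝ => ee (-(k * t)) :=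
    continuous_ee.comp (continuous_const.mul continuous_id).neg
  refine Measure.integrableOn_of_bounded (M := C) (by simp) ?_ ?_
  · exact (hc.measurable.mul hm).aestronglyMeasurable
  · refine Filter.Eventually.of_forall fun t => ?_
    rw [norm_mul, norm_ee, one_mul]
    exact hb t

/-- ROW F1.  Parseval.  `cf u k = fourierCoeffOn zero_lt_one u k` (`fourierCoeffOn_eq_integral`,
`fourier_coe_apply`; `b - a = 1`), then `hasSum_sq_fourierCoeffOn` (a bounded measurable function is in
`L²` of the finite measure `volume.restrict (Ioc 0 1)`). -/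
theorem parseval (u : ℝ → ℂ) (hm : Measurable u) (C : ℝ) (hb : ∀ t, ‖u t‖ ≤ C) :
    HasSum (fun k : ℤ => ‖cf u k‖ ^ 2) (∫ t in (0 : ℝ)..1, ‖u t‖ ^ 2) := by
  have h : ∀ k : ℤ, cf u k = fourierCoeffOn (zero_lt_one (α := ℝ)) u k := by
    intro k
    rw [fourierCoeffOn_eq_integral]
    have h1 : (1 / ((1 : ℝ) - 0)) = 1 := by norm_num
    rw [h1, one_smul]
    refine intervalIntegral.integral_congr fun t _ => ?_
    show ee (-(k * t)) * u t = _
    rw [fourier_coe_apply, smul_eq_mul, ee]
    congr 2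
    push_cast
    ring
  have hL : MemLp u 2 (volume.restrict (Set.Ioc (0 : ℝ) 1)) :=
    MemLp.of_bound hm.aestronglyMeasurable C (Filter.Eventually.of_forall hb)
  have h2 := hasSum_sq_fourierCoeffOn (zero_lt_one (α := ℝ)) hL
  simp only [← h, sub_zero, inv_one, one_smul] at h2
  exact h2

/-- ROW F1.  Coefficients of a translate of a 1-periodic function.  Substitute `t ↦ t + α`
(`intervalIntegral.integral_comp_add_right`), then `Function.Periodic.intervalIntegral_add_eq` for the
periodic function `ee (-(k*t)) * u t` (`ee` of an integer is 1). -/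
theorem cf_shift (u : ℝ → ℂ) (hp : ∀ t, u (t + 1) = u t) (α : ℝ) (k : ℤ) :
    cf (fun t => u (t + α)) k = ee (k * α) * cf u k := by
  have h1 : ∀ t : ℝ, ee (-(k * t)) * u (t + α) =
      (fun s : ℝ => ee (k * α) * (ee (-(k * s)) * u s)) (t + α) := by
    intro t
    show ee (-(k * t)) * u (t + α) = ee (k * α) * (ee (-(k * (t + α))) * u (t + α))
    rw [← mul_assoc, ← ee_add]
    congr 2
    ring
  have hper : Function.Periodic (fun s : ℝ => ee (-(k * s)) * u s) 1 := by
    intro s
    show ee (-(k * (s + 1))) * u (s + 1) = ee (-(k * s)) * u s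
    rw [hp]
    congr 1
    have h2 : -((k : ℝ) * (s + 1)) = -(k * s) + ((-k : ℤ) : ℝ) := by
      push_cast
      ring
    rw [h2, ee_add_int]
  rw [cf, cf]
  rw [intervalIntegral.integral_congr (g := fun t : ℝ =>
    (fun s : ℝ => ee (k * α) * (ee (-(k * s)) * u s)) (t + α)) fun t _ => h1 t]
  rw [intervalIntegral.integral_comp_add_right
    (fun s : ℝ => ee (k * α) * (ee (-(k * s)) * u s)) α, intervalIntegral.integral_const_mul]
  congr 1
  have h3 := hper.intervalIntegral_add_eq (0 + α) 0
  rw [zero_add] at h3 ⊢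
  rw [zero_add] at h3
  rw [add_comm 1 α]
  exact h3

/-- ROW F1.  Linearity. -/
theorem cf_sub_smul (u v : ℝ → ℂ) (hu : Measurable u) (hv : Measurable v) (C : ℝ)
    (hbu : ∀ t, ‖u t‖ ≤ C) (hbv : ∀ t, ‖v t‖ ≤ C) (s : ℂ) (k : ℤ) :
    cf (fun t => u t - s * v t) k = cf u k - s * cf v k := by
  rw [cf, cf, cf, ← intervalIntegral.integral_const_mul,
    ← intervalIntegral.integral_sub (F1_int u hu C hbu k) ((F1_int v hv C hbv k).const_mul s)]
  refine intervalIntegral.integral_congr fun t _ => ?_
  show ee (-(k * t)) * (u t - s * v t) = ee (-(k * t)) * u t - s * (ee (-(k * t)) * v t)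
  ring

/-- ROW F1.  Real functions have conjugate coefficients. -/
theorem cf_neg (S : ℝ → ℝ) (k : ℤ) :
    cf (fun t => (S t : ℂ)) (-k) = (starRingEnd ℂ) (cf (fun t => (S t : ℂ)) k) := by
  rw [cf, cf, intervalIntegral.integral_of_le zero_le_one,
    intervalIntegral.integral_of_le zero_le_one, ← integral_conj]
  refine integral_congr_ae (Filter.Eventually.of_forall fun t => ?_)
  show ee (-(((-k : ℤ) : ℝ) * t)) * (S t : ℂ) = (starRingEnd ℂ) (ee (-(k * t)) * (S t : ℂ))
  rw [map_mul, Complex.conj_ofReal, ← ee_neg]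
  congr 2
  push_cast
  ring

end Pool.Agent.Lib.MP_648c71_nt.HP
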