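import Pool.Agent.Lib.MP_648c71_nt.HP.Defs

/-! Row F10 (about 60 lines): elements separating frequencies at distance m. -/

set_option autoImplicit false

namespace Pool.Agent.Lib.MP_648c71_nt.HP

open Finset MeasureTheory

private theorem f10_ee_half : ee (1 / 2) = -1 := by
  rw [ee]
  have : (((2 * Real.pi * (1 / 2) : ℝ) : ℂ) * Complex.I) = Real.pi * Complex.I := by
    push_cast; ring
  rw [this, Complex.exp_pi_mul_I]

private theorem f10_ee_sub_one (r : ℝ) : ‖ee r - 1‖ ≤ 2 * Real.pi * |r| := by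
  rw [ee, mul_comm _ Complex.I]
  have h := Real.norm_exp_I_mul_ofReal_sub_one_le (x := 2 * Real.pi * r)
  rw [Real.norm_eq_abs, abs_mul, abs_of_pos (by positivity : (0 : ℝ) < 2 * Real.pi)] at h
  exact h

private theorem f10_aux (a : ℝ) (m : ℕ) (h : 8 / 5 ≤ ‖ee (m * a) - 1‖) (g : ℂ) (k k' : ℤ)
    (hk : k - k' = m) (h1 : ‖ee (k * a) - g‖ ≤ 1 / 10) (h2 : ‖ee (k' * a) - g‖ ≤ 1 / 10) :
    False := by
  have e1 : ee (k * a) = ee (k' * a) * ee (m * a) := by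
    rw [← ee_add]
    congr 1
    have : (k : ℝ) = k' + m := by
      have h3 : k = k' + m := by omega
      rw [h3]; push_cast; ring
    rw [this]; ring
  have e2 : ‖ee (k * a) - ee (k' * a)‖ = ‖ee (m * a) - 1‖ := by
    have : ee (k * a) - ee (k' * a) = ee (k' * a) * (ee (m * a) - 1) := by rw [e1]; ring
    rw [this, norm_mul, norm_ee, one_mul]
  have e3 : ‖ee (k * a) - ee (k' * a)‖ ≤ ‖ee (k * a) - g‖ + ‖ee (k' * a) - g‖ := by
    have : ee (k * a) - ee (k' * a) = (ee (k * a) - g) - (ee (k' * a) - g) := by ring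
    rw [this]
    exact norm_sub_le _ _
  rw [e2] at e3
  linarith

/-- ROW F10.  Take `u` from `Dense` with `θ = 1/(2m)`, `δ = 1/(16m)`: then `m ang u = 1/2 + (integer) + r`,
`|r| ≤ 1/16`, so `|e(m ang u) + 1| = |e(r) - 1| ≤ 2π/16 ≤ 2/5`, `|e(m ang u) - 1| ≥ 8/5`.  But if
`|e(k ang u) - g| ≤ 1/10`, `|e(k' ang u) - g| ≤ 1/10` then `|e((k-k') ang u) - 1| = |e(k ang u) - e(k' ang u)|
≤ 1/5`; `k - k' = ± m` (conjugate). -/
theorem separator (𝒮 : Sys) (C : ℝ) (hD : Dense 𝒮 C) (m : ℕ) (hm : 0 < m) :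
    ∃ u : 𝒮.M, (𝒮.nm u : ℝ) ≤ 256 * C * m ^ 2 ∧ ∀ k k' : ℤ, |k - k'| = m →
      ‖ee (k * 𝒮.ang u) - 𝒮.g u‖ ≤ 1 / 10 → ‖ee (k' * 𝒮.ang u) - 𝒮.g u‖ ≤ 1 / 10 → False := by
  have hm1 : (1 : ℝ) ≤ (m : ℝ) := by exact_mod_cast hm
  have hm0 : (0 : ℝ) < (m : ℝ) := by linarith
  obtain ⟨u, k, hu, hn⟩ := hD (1 / (2 * m)) (1 / (16 * m)) (by positivity)
    (by rw [div_le_one (by positivity)]; linarith)
  have hlow : 8 / 5 ≤ ‖ee (m * 𝒮.ang u) - 1‖ := by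
    set r : ℝ := m * (𝒮.ang u - 1 / (2 * m) - k) with hr
    have hr' : |r| ≤ 1 / 16 := by
      rw [hr, abs_mul, abs_of_pos hm0]
      calc (m : ℝ) * |𝒮.ang u - 1 / (2 * m) - k| ≤ m * (1 / (16 * m)) :=
            mul_le_mul_of_nonneg_left hu hm0.le
        _ = 1 / 16 := by field_simp
    have e1 : (m : ℝ) * 𝒮.ang u = (1 / 2 + r) + ((m * k : ℤ) : ℝ) := by
      rw [hr]; push_cast; field_simp; ring
    have e2 : ee (m * 𝒮.ang u) = -ee r := by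
      rw [e1, ee_add_int, ee_add, f10_ee_half]; ring
    have h1 : ‖ee r - 1‖ ≤ 2 / 5 := by
      refine (f10_ee_sub_one r).trans ?_
      have hpi : Real.pi < 3.15 := Real.pi_lt_d2
      have hpi0 : 0 < Real.pi := Real.pi_pos
      calc 2 * Real.pi * |r| ≤ 2 * Real.pi * (1 / 16) := by gcongr
        _ ≤ 2 / 5 := by linarith
    have h2 : (2 : ℝ) ≤ ‖ee (m * 𝒮.ang u) - 1‖ + ‖ee r - 1‖ := by
      have h3 : ‖(2 : ℂ)‖ ≤ ‖ee (m * 𝒮.ang u) - 1‖ + ‖ee r - 1‖ := by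
        have : (2 : ℂ) = -((ee (m * 𝒮.ang u) - 1) + (ee r - 1)) := by rw [e2]; ring
        rw [this, norm_neg]
        exact norm_add_le _ _
      simpa using h3
    linarith
  refine ⟨u, ?_, ?_⟩
  · refine hn.trans (le_of_eq ?_)
    field_simp
    ring
  · intro k₁ k₂ hkk h1 h2
    rcases abs_cases (k₁ - k₂) with ⟨h, _⟩ | ⟨h, _⟩
    · exact f10_aux _ m hlow _ k₁ k₂ (by omega) h1 h2
    · exact f10_aux _ m hlow _ k₂ k₁ (by omega) h2 h1

end Pool.Agent.Lib.MP_648c71_nt.HP
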