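import Pool.Agent.Lib.MP_648c71_nt.HP.Defs

/-! Row F11 (about 80 lines): Selberg-Halasz inequality. -/

set_option autoImplicit false

namespace Pool.Agent.Lib.MP_648c71_nt.HP

open Finset MeasureTheory

/-- the quadratic form bound -/
theorem f11_quad {ι : Type} (B : Finset ι) (th : ι → ℝ) (K : Finset ℤ) (A : ℝ)
    (hA : ∀ k ∈ K, ∑ k' ∈ K, ‖∑ z ∈ B, ee (((k - k' : ℤ) : ℝ) * th z)‖ ≤ A) (x : ℤ → ℂ) :
    ∑ z ∈ B, ‖∑ k ∈ K, x k * ee (k * th z)‖ ^ 2 ≤ A * ∑ k ∈ K, ‖x k‖ ^ 2 := by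
  set W : ℤ → ℂ := fun m => ∑ z ∈ B, ee ((m : ℝ) * th z) with hW
  have hsymm : ∀ m : ℤ, ‖W (-m)‖ = ‖W m‖ := by
    intro m
    have h1 : W (-m) = (starRingEnd ℂ) (W m) := by
      simp only [hW]
      rw [map_sum]
      refine Finset.sum_congr rfl fun z _ => ?_
      rw [← ee_neg]
      congr 1
      push_cast
      ring
    rw [h1, RCLike.norm_conj]
  have hexp : ((∑ z ∈ B, ‖∑ k ∈ K, x k * ee (k * th z)‖ ^ 2 : ℝ) : ℂ) =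
      ∑ k ∈ K, ∑ k' ∈ K, x k * (starRingEnd ℂ) (x k') * W (k - k') := by
    have h1 : ∀ z ∈ B, ((‖∑ k ∈ K, x k * ee (k * th z)‖ ^ 2 : ℝ) : ℂ) =
        ∑ k ∈ K, ∑ k' ∈ K, x k * (starRingEnd ℂ) (x k') * ee (((k - k' : ℤ) : ℝ) * th z) := by
      intro z _
      rw [Complex.ofReal_pow, ← Complex.mul_conj', map_sum, Finset.sum_mul_sum]
      refine Finset.sum_congr rfl fun k _ => Finset.sum_congr rfl fun k' _ => ?_
      rw [map_mul, ← ee_neg]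
      have : ee (((k - k' : ℤ) : ℝ) * th z) = ee (k * th z) * ee (-(k' * th z)) := by
        rw [← ee_add]
        congr 1
        push_cast
        ring
      rw [this]
      ring
    push_cast
    have h2 : ∀ z ∈ B, ((‖∑ k ∈ K, x k * ee (k * th z)‖ : ℝ) : ℂ) ^ 2 =
        ∑ k ∈ K, ∑ k' ∈ K, x k * (starRingEnd ℂ) (x k') * ee (((k - k' : ℤ) : ℝ) * th z) := by
      intro z hz
      rw [← h1 z hz]
      push_cast
      rfl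
    rw [Finset.sum_congr rfl h2, Finset.sum_comm]
    refine Finset.sum_congr rfl fun k _ => ?_
    rw [Finset.sum_comm]
    refine Finset.sum_congr rfl fun k' _ => ?_
    simp only [hW]
    rw [Finset.mul_sum]
  have hQ0 : 0 ≤ ∑ z ∈ B, ‖∑ k ∈ K, x k * ee (k * th z)‖ ^ 2 :=
    Finset.sum_nonneg fun z _ => by positivity
  have hQ : ∑ z ∈ B, ‖∑ k ∈ K, x k * ee (k * th z)‖ ^ 2 =
      ‖((∑ z ∈ B, ‖∑ k ∈ K, x k * ee (k * th z)‖ ^ 2 : ℝ) : ℂ)‖ := by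
    rw [Complex.norm_real, Real.norm_of_nonneg hQ0]
  rw [hQ, hexp]
  have hb : ∀ k ∈ K, ∀ k' ∈ K, ‖x k * (starRingEnd ℂ) (x k') * W (k - k')‖ ≤
      (1 / 2) * (‖x k‖ ^ 2 * ‖W (k - k')‖) + (1 / 2) * (‖x k'‖ ^ 2 * ‖W (k - k')‖) := by
    intro k _ k' _
    rw [norm_mul, norm_mul, RCLike.norm_conj]
    nlinarith [mul_nonneg (norm_nonneg (W (k - k'))) (sq_nonneg (‖x k‖ - ‖x k'‖))]
  calc ‖∑ k ∈ K, ∑ k' ∈ K, x k * (starRingEnd ℂ) (x k') * W (k - k')‖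
      ≤ ∑ k ∈ K, ∑ k' ∈ K, ‖x k * (starRingEnd ℂ) (x k') * W (k - k')‖ :=
        (norm_sum_le _ _).trans (Finset.sum_le_sum fun k _ => norm_sum_le _ _)
    _ ≤ ∑ k ∈ K, ∑ k' ∈ K, ((1 / 2) * (‖x k‖ ^ 2 * ‖W (k - k')‖) +
          (1 / 2) * (‖x k'‖ ^ 2 * ‖W (k - k')‖)) :=
        Finset.sum_le_sum fun k hk => Finset.sum_le_sum fun k' hk' => hb k hk k' hk'
    _ = (1 / 2) * ∑ k ∈ K, ‖x k‖ ^ 2 * ∑ k' ∈ K, ‖W (k - k')‖ +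
          (1 / 2) * ∑ k' ∈ K, ‖x k'‖ ^ 2 * ∑ k ∈ K, ‖W (k' - k)‖ := by
        simp only [Finset.sum_add_distrib, Finset.mul_sum]
        congr 1
        rw [Finset.sum_comm]
        refine Finset.sum_congr rfl fun k' _ => Finset.sum_congr rfl fun k _ => ?_
        have : ‖W (k - k')‖ = ‖W (k' - k)‖ := by
          rw [← hsymm (k' - k), neg_sub]
        rw [this]
    _ ≤ (1 / 2) * ∑ k ∈ K, ‖x k‖ ^ 2 * A + (1 / 2) * ∑ k' ∈ K, ‖x k'‖ ^ 2 * A := by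
        have h1 : ∑ k ∈ K, ‖x k‖ ^ 2 * ∑ k' ∈ K, ‖W (k - k')‖ ≤ ∑ k ∈ K, ‖x k‖ ^ 2 * A :=
          Finset.sum_le_sum fun k hk => mul_le_mul_of_nonneg_left (hA k hk) (by positivity)
        linarith
    _ = A * ∑ k ∈ K, ‖x k‖ ^ 2 := by
        rw [← Finset.sum_mul]
        ring

/-- ROW F11.  Put `F k = ∑_{z∈B} g z e(k ang z)`, `x k = conj (F k)`.
`∑ |F k|² = ∑_z g z ∑_k x k e(k ang z) ≤ |B|^{1/2} (∑_z |∑_k x k e(k ang z)|²)^{1/2}` and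
`∑_z |∑_k x k e(k ang z)|² = ∑_{k,k'} x k conj(x k') ∑_z e((k-k') ang z) ≤ A ∑ |x k|²` by
`|x k x k'| ≤ (|x k|² + |x k'|²)/2` and symmetry (`W(-m) = conj W(m)`). -/
theorem selberg (𝒮 : Sys) (B : Finset 𝒮.M) (K : Finset ℤ) (A : ℝ) (hA0 : 0 ≤ A)
    (hA : ∀ k ∈ K, ∑ k' ∈ K, ‖∑ z ∈ B, ee (((k - k' : ℤ) : ℝ) * 𝒮.ang z)‖ ≤ A) :
    ∑ k ∈ K, ‖∑ z ∈ B, (𝒮.g z : ℂ) * ee (k * 𝒮.ang z)‖ ^ 2 ≤ B.card * A := by
  set F : ℤ → ℂ := fun k => ∑ z ∈ B, (𝒮.g z : ℂ) * ee (k * 𝒮.ang z) with hF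
  set T : ℝ := ∑ k ∈ K, ‖F k‖ ^ 2 with hT
  set x : ℤ → ℂ := fun k => (starRingEnd ℂ) (F k) with hx
  have hT0 : 0 ≤ T := Finset.sum_nonneg fun k _ => by positivity
  have hq := f11_quad B 𝒮.ang K A hA x
  have hxn : ∀ k, ‖x k‖ = ‖F k‖ := fun k => by simp only [hx]; rw [RCLike.norm_conj]
  have hq' : ∑ z ∈ B, ‖∑ k ∈ K, x k * ee (k * 𝒮.ang z)‖ ^ 2 ≤ A * T := by
    refine hq.trans (le_of_eq ?_)
    rw [hT]
    congr 1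
    exact Finset.sum_congr rfl fun k _ => by rw [hxn]
  have hTc : (T : ℂ) = ∑ z ∈ B, (𝒮.g z : ℂ) * ∑ k ∈ K, x k * ee (k * 𝒮.ang z) := by
    have h1 : (T : ℂ) = ∑ k ∈ K, F k * x k := by
      rw [hT]
      push_cast
      refine Finset.sum_congr rfl fun k _ => ?_
      simp only [hx]
      rw [Complex.mul_conj']
    rw [h1]
    simp only [hF, Finset.sum_mul, Finset.mul_sum]
    rw [Finset.sum_comm]
    refine Finset.sum_congr rfl fun z _ => Finset.sum_congr rfl fun k _ => ?_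
    ring
  have hg : ∀ z, ‖(𝒮.g z : ℂ)‖ = 1 := by
    intro z
    rcases 𝒮.g_or z with h | h <;> rw [h] <;> simp
  have hTle : T ≤ ∑ z ∈ B, ‖∑ k ∈ K, x k * ee (k * 𝒮.ang z)‖ := by
    calc T = ‖(T : ℂ)‖ := by rw [Complex.norm_real, Real.norm_of_nonneg hT0]
      _ ≤ ∑ z ∈ B, ‖(𝒮.g z : ℂ) * ∑ k ∈ K, x k * ee (k * 𝒮.ang z)‖ := by
          rw [hTc]
          exact norm_sum_le _ _
      _ = ∑ z ∈ B, ‖∑ k ∈ K, x k * ee (k * 𝒮.ang z)‖ := by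
          refine Finset.sum_congr rfl fun z _ => ?_
          rw [norm_mul, hg, one_mul]
  have hcs : (∑ z ∈ B, ‖∑ k ∈ K, x k * ee (k * 𝒮.ang z)‖) ^ 2 ≤
      B.card * ∑ z ∈ B, ‖∑ k ∈ K, x k * ee (k * 𝒮.ang z)‖ ^ 2 := sq_sum_le_card_mul_sum_sq
  have hT2 : T * T ≤ B.card * A * T := by
    have h1 : T ^ 2 ≤ (∑ z ∈ B, ‖∑ k ∈ K, x k * ee (k * 𝒮.ang z)‖) ^ 2 :=
      pow_le_pow_left₀ hT0 hTle 2
    have h2 : (B.card : ℝ) * ∑ z ∈ B, ‖∑ k ∈ K, x k * ee (k * 𝒮.ang z)‖ ^ 2 ≤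
        B.card * (A * T) := mul_le_mul_of_nonneg_left hq' (Nat.cast_nonneg _)
    nlinarith
  rcases hT0.eq_or_lt with h | h
  · rw [← h]
    exact mul_nonneg (Nat.cast_nonneg _) hA0
  · exact le_of_mul_le_mul_right hT2 h

end Pool.Agent.Lib.MP_648c71_nt.HP
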