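import Mathlib

/-! Row F12 (about 90 lines): row sums of the Gram matrix. -/

set_option autoImplicit false

namespace Pool.Agent.Lib.MP_648c71_nt.HP

open Finset MeasureTheory

/-- a separated set of positive integers has a small sum of reciprocals -/
private theorem gram_aux (T : Finset ℤ) (M₀ Y : ℝ) (hM : 1 ≤ M₀) (hY : 1 ≤ Y)
    (h1 : ∀ t ∈ T, M₀ ≤ (t : ℝ)) (h2 : ∀ t ∈ T, (t : ℝ) ≤ Y)
    (h3 : ∀ t ∈ T, ∀ s ∈ T, t ≠ s → M₀ ≤ |(t : ℝ) - s|) :
    ∑ t ∈ T, 1 / (t : ℝ) ≤ 1 / M₀ * (1 + Real.log Y) := by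
  classical
  have hM0 : 0 < M₀ := lt_of_lt_of_le one_pos hM
  have hj1 : ∀ t ∈ T, 1 ≤ ⌊(t : ℝ) / M₀⌋₊ := by
    intro t ht
    rw [Nat.one_le_floor_iff, le_div_iff₀ hM0, one_mul]
    exact h1 t ht
  have hpos : ∀ t ∈ T, 0 < (t : ℝ) := fun t ht => lt_of_lt_of_le hM0 (h1 t ht)
  have hinj : Set.InjOn (fun t : ℤ => ⌊(t : ℝ) / M₀⌋₊) (T : Set ℤ) := by
    intro t ht s hs hts
    by_contra hne
    have h := h3 t ht s hs hne
    have ht0 : 0 ≤ (t : ℝ) / M₀ := (div_pos (hpos t ht) hM0).le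
    have hs0 : 0 ≤ (s : ℝ) / M₀ := (div_pos (hpos s hs) hM0).le
    have e : ⌊(t : ℝ) / M₀⌋₊ = ⌊(s : ℝ) / M₀⌋₊ := hts
    have a1 := Nat.floor_le ht0
    have a2 := Nat.lt_floor_add_one ((t : ℝ) / M₀)
    have b1 := Nat.floor_le hs0
    have b2 := Nat.lt_floor_add_one ((s : ℝ) / M₀)
    rw [e] at a1 a2
    have hlt : |(t : ℝ) / M₀ - (s : ℝ) / M₀| < 1 := by
      rw [abs_lt]; constructor <;> linarith
    rw [← sub_div, abs_div, abs_of_pos hM0, div_lt_one hM0] at hlt
    linarith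
  have hterm : ∀ t ∈ T, 1 / (t : ℝ) ≤ 1 / M₀ * ((⌊(t : ℝ) / M₀⌋₊ : ℝ))⁻¹ := by
    intro t ht
    have hj : (0 : ℝ) < (⌊(t : ℝ) / M₀⌋₊ : ℝ) := by exact_mod_cast hj1 t ht
    have hle : (⌊(t : ℝ) / M₀⌋₊ : ℝ) ≤ (t : ℝ) / M₀ := Nat.floor_le (div_pos (hpos t ht) hM0).le
    have : M₀ * (⌊(t : ℝ) / M₀⌋₊ : ℝ) ≤ t := by
      rw [le_div_iff₀ hM0] at hle
      linarith
    rw [← one_div, one_div_mul_one_div]
    exact one_div_le_one_div_of_le (mul_pos hM0 hj) this
  calc ∑ t ∈ T, 1 / (t : ℝ) ≤ ∑ t ∈ T, 1 / M₀ * ((⌊(t : ℝ) / M₀⌋₊ : ℝ))⁻¹ := sum_le_sum hterm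
    _ = 1 / M₀ * ∑ t ∈ T, ((⌊(t : ℝ) / M₀⌋₊ : ℝ))⁻¹ := by rw [mul_sum]
    _ = 1 / M₀ * ∑ j ∈ T.image (fun t : ℤ => ⌊(t : ℝ) / M₀⌋₊), ((j : ℝ))⁻¹ := by
        rw [sum_image hinj]
    _ ≤ 1 / M₀ * ∑ j ∈ Icc 1 ⌊Y⌋₊, ((j : ℝ))⁻¹ := by
        apply mul_le_mul_of_nonneg_left _ (by positivity)
        apply sum_le_sum_of_subset_of_nonneg
        · intro j hj
          rw [mem_image] at hj
          obtain ⟨t, ht, rfl⟩ := hj
          rw [mem_Icc]
          refine ⟨hj1 t ht, Nat.floor_le_floor ?_⟩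
          exact (div_le_self (hpos t ht).le hM).trans (h2 t ht)
        · intro j _ _
          positivity
    _ ≤ 1 / M₀ * (1 + Real.log Y) := by
        apply mul_le_mul_of_nonneg_left _ (by positivity)
        have h := harmonic_floor_le_one_add_log Y hY
        rw [harmonic_eq_sum_Icc] at h
        push_cast at h
        exact h

/-- ROW F12.  `k' = k` contributes `≤ b`.  For `k' > k` the integer `j = ⌊(k'-k)/M₀⌋ ≥ 1` is different for
different `k'` (distances `≥ M₀`), `1/(k'-k) ≤ 1/(j M₀)`, `j ≤ 2X`, so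
`∑_{k' > k} 1/(k'-k) ≤ (1/M₀)(1 + log(2X))` (`harmonic_le_one_add_log` or an induction); the same for
`k' < k`. -/
theorem gram (K : Finset ℤ) (X M₀ : ℝ) (hX : 1 ≤ X) (hM : 1 ≤ M₀) (hK : ∀ k ∈ K, |(k : ℝ)| ≤ X)
    (hsep : ∀ k ∈ K, ∀ k' ∈ K, k ≠ k' → M₀ ≤ |(k : ℝ) - k'|) (w : ℤ → ℝ) (b C τ : ℝ)
    (hb : 0 ≤ b) (hC : 0 ≤ C) (hτ : 0 ≤ τ) (hw0 : w 0 ≤ b)
    (hw : ∀ m : ℤ, m ≠ 0 → |(m : ℝ)| ≤ 2 * X → w m ≤ C * b * (1 / |(m : ℝ)| + τ)) :
    ∀ k ∈ K, ∑ k' ∈ K, w (k - k') ≤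
      b * (1 + C * (2 / M₀ * (1 + Real.log (2 * X)) + K.card * τ)) := by
  classical
  intro k hk
  have hM0 : 0 < M₀ := lt_of_lt_of_le one_pos hM
  -- the two sides
  have hup : ∑ k' ∈ K.filter (fun k' => k < k'), 1 / |((k - k' : ℤ) : ℝ)| ≤
      1 / M₀ * (1 + Real.log (2 * X)) := by
    have hinj : Set.InjOn (fun k' : ℤ => k' - k) ((K.filter (fun k' => k < k') : Finset ℤ) : Set ℤ) := by
      intro a _ c _ h
      have : a - k = c - k := h
      linarith
    have h := gram_aux ((K.filter (fun k' => k < k')).image (fun k' => k' - k)) M₀ (2 * X) hM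
      (by linarith) ?_ ?_ ?_
    · rw [sum_image hinj] at h
      refine le_trans (le_of_eq ?_) h
      refine sum_congr rfl ?_
      intro k' hk'
      rw [mem_filter] at hk'
      have : (0 : ℝ) < ((k' - k : ℤ) : ℝ) := by
        have := hk'.2
        exact_mod_cast (by linarith : (0 : ℤ) < k' - k)
      have e : ((k - k' : ℤ) : ℝ) = -((k' - k : ℤ) : ℝ) := by push_cast; ring
      rw [e, abs_neg, abs_of_pos this]
    · intro t ht
      rw [mem_image] at ht
      obtain ⟨k', hk', rfl⟩ := ht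
      rw [mem_filter] at hk'
      have h := hsep k' hk'.1 k hk (ne_of_gt hk'.2)
      have : (0 : ℝ) < (k' : ℝ) - k := by
        have : (k : ℝ) < k' := by exact_mod_cast hk'.2
        linarith
      rw [abs_of_pos this] at h
      push_cast
      exact h
    · intro t ht
      rw [mem_image] at ht
      obtain ⟨k', hk', rfl⟩ := ht
      rw [mem_filter] at hk'
      have a := abs_le.mp (hK k' hk'.1)
      have c := abs_le.mp (hK k hk)
      push_cast
      linarith [a.2, c.1]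
    · intro t ht s hs hts
      rw [mem_image] at ht hs
      obtain ⟨k', hk', rfl⟩ := ht
      obtain ⟨k'', hk'', rfl⟩ := hs
      rw [mem_filter] at hk' hk''
      have hne : k' ≠ k'' := fun h => hts (by rw [h])
      have h := hsep k' hk'.1 k'' hk''.1 hne
      push_cast
      have e : (k' : ℝ) - k - (k'' - k) = k' - k'' := by ring
      rw [e]
      exact h
  have hdn : ∑ k' ∈ K.filter (fun k' => k' < k), 1 / |((k - k' : ℤ) : ℝ)| ≤
      1 / M₀ * (1 + Real.log (2 * X)) := by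
    have hinj : Set.InjOn (fun k' : ℤ => k - k') ((K.filter (fun k' => k' < k) : Finset ℤ) : Set ℤ) := by
      intro a _ c _ h
      have : k - a = k - c := h
      linarith
    have h := gram_aux ((K.filter (fun k' => k' < k)).image (fun k' => k - k')) M₀ (2 * X) hM
      (by linarith) ?_ ?_ ?_
    · rw [sum_image hinj] at h
      refine le_trans (le_of_eq ?_) h
      refine sum_congr rfl ?_
      intro k' hk'
      rw [mem_filter] at hk'
      have : (0 : ℝ) < ((k - k' : ℤ) : ℝ) := by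
        have := hk'.2
        exact_mod_cast (by linarith : (0 : ℤ) < k - k')
      rw [abs_of_pos this]
    · intro t ht
      rw [mem_image] at ht
      obtain ⟨k', hk', rfl⟩ := ht
      rw [mem_filter] at hk'
      have h := hsep k hk k' hk'.1 (ne_of_gt hk'.2)
      have : (0 : ℝ) < (k : ℝ) - k' := by
        have : (k' : ℝ) < k := by exact_mod_cast hk'.2
        linarith
      rw [abs_of_pos this] at h
      push_cast
      exact h
    · intro t ht
      rw [mem_image] at ht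
      obtain ⟨k', hk', rfl⟩ := ht
      rw [mem_filter] at hk'
      have a := abs_le.mp (hK k' hk'.1)
      have c := abs_le.mp (hK k hk)
      push_cast
      linarith [a.1, c.2]
    · intro t ht s hs hts
      rw [mem_image] at ht hs
      obtain ⟨k', hk', rfl⟩ := ht
      obtain ⟨k'', hk'', rfl⟩ := hs
      rw [mem_filter] at hk' hk''
      have hne : k'' ≠ k' := fun h => hts (by rw [h])
      have h := hsep k'' hk''.1 k' hk'.1 hne
      push_cast
      have e : (k : ℝ) - k' - (k - k'') = k'' - k' := by ring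
      rw [e]
      exact h
  -- the off-diagonal terms
  have hoff : ∑ k' ∈ K.erase k, w (k - k') ≤
      C * b * (2 / M₀ * (1 + Real.log (2 * X)) + K.card * τ) := by
    have hterm : ∀ k' ∈ K.erase k, w (k - k') ≤ C * b * (1 / |((k - k' : ℤ) : ℝ)| + τ) := by
      intro k' hk'
      rw [mem_erase] at hk'
      apply hw (k - k') (sub_ne_zero.mpr (Ne.symm hk'.1))
      have a := abs_le.mp (hK k' hk'.2)
      have c := abs_le.mp (hK k hk)
      push_cast
      rw [abs_le]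
      constructor <;> linarith [a.1, a.2, c.1, c.2]
    have hsplit : K.erase k = (K.filter (fun k' => k < k')) ∪ (K.filter (fun k' => k' < k)) := by
      ext k'
      simp only [mem_erase, mem_union, mem_filter]
      constructor
      · rintro ⟨h1, h2⟩
        rcases lt_or_gt_of_ne h1 with h | h
        · exact Or.inr ⟨h2, h⟩
        · exact Or.inl ⟨h2, h⟩
      · rintro (⟨h1, h2⟩ | ⟨h1, h2⟩)
        · exact ⟨ne_of_gt h2, h1⟩
        · exact ⟨ne_of_lt h2, h1⟩
    have hdisj : Disjoint (K.filter (fun k' => k < k')) (K.filter (fun k' => k' < k)) := by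
      rw [disjoint_left]
      intro a h1 h2
      rw [mem_filter] at h1 h2
      exact lt_asymm h1.2 h2.2
    have hsum : ∑ k' ∈ K.erase k, 1 / |((k - k' : ℤ) : ℝ)| ≤ 2 / M₀ * (1 + Real.log (2 * X)) := by
      rw [hsplit, sum_union hdisj]
      have : 2 / M₀ * (1 + Real.log (2 * X)) =
          1 / M₀ * (1 + Real.log (2 * X)) + 1 / M₀ * (1 + Real.log (2 * X)) := by ring
      rw [this]
      exact add_le_add hup hdn
    have hcard : ((K.erase k).card : ℝ) ≤ K.card := by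
      exact_mod_cast card_le_card (erase_subset k K)
    calc ∑ k' ∈ K.erase k, w (k - k')
        ≤ ∑ k' ∈ K.erase k, C * b * (1 / |((k - k' : ℤ) : ℝ)| + τ) := sum_le_sum hterm
      _ = C * b * (∑ k' ∈ K.erase k, 1 / |((k - k' : ℤ) : ℝ)| + (K.erase k).card * τ) := by
          rw [← mul_sum, sum_add_distrib, sum_const, nsmul_eq_mul]
      _ ≤ C * b * (2 / M₀ * (1 + Real.log (2 * X)) + K.card * τ) := by
          apply mul_le_mul_of_nonneg_left _ (mul_nonneg hC hb)
          exact add_le_add hsum (mul_le_mul_of_nonneg_right hcard hτ)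
  rw [← add_sum_erase K _ hk]
  have h0 : w (k - k) ≤ b := by rw [sub_self]; exact hw0
  calc w (k - k) + ∑ k' ∈ K.erase k, w (k - k')
      ≤ b + C * b * (2 / M₀ * (1 + Real.log (2 * X)) + K.card * τ) := add_le_add h0 hoff
    _ = b * (1 + C * (2 / M₀ * (1 + Real.log (2 * X)) + K.card * τ)) := by ring

end Pool.Agent.Lib.MP_648c71_nt.HP
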