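import Pool.Agent.Lib.MP_648c71_nt.HP.Defs

/-! Row F13 (about 90 lines): the smoothed step function, transfer of L2 norms. -/

set_option autoImplicit false

namespace Pool.Agent.Lib.MP_648c71_nt.HP

open Finset MeasureTheory

/-- average over `[θ, θ+δ]` -/
noncomputable def av (δ : ℝ) (u : ℝ → ℂ) (θ : ℝ) : ℂ := (1 / δ : ℝ) * ∫ t in (0 : ℝ)..δ, u (θ + t)

/-- ROW F13.  For `0 ≤ t < δ = c1/X` there is no jump in `(ang(zw), ang(zw)+t]` (`Fits`), so
`S(ang(zw) + t) = S(ang(zw)) = g(zw) = g z g w`; `ang z + ang w` differs from `ang (z w)` by an integer. -/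
theorem av_pair (𝒮 : Sys) (X c1 : ℝ) (hX : 0 < X) (hc1 : 0 < c1) (S : ℝ → ℝ) (Js : Finset ℝ)
    (hS : Step S Js) (hF : Fits 𝒮 X c1 S Js) (z w : 𝒮.M) (hzw : (𝒮.nm z * 𝒮.nm w : ℝ) ≤ X) :
    av (c1 / X) (fun t => (S t : ℂ)) (𝒮.ang z + 𝒮.ang w) = (𝒮.g z * 𝒮.g w : ℝ) := by
  have hδ : 0 < c1 / X := by positivity
  obtain ⟨k, hk⟩ := 𝒮.ang_mul z w
  have hper : Function.Periodic S 1 := hS.per
  have hnm : (𝒮.nm (z * w) : ℝ) ≤ X := by
    rw [𝒮.nm_mul]
    push_cast
    exact hzw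
  have hval : ∀ t : ℝ, 0 ≤ t → t < c1 / X → S (𝒮.ang z + 𝒮.ang w + t) = 𝒮.g z * 𝒮.g w := by
    intro t ht0 ht1
    have h1 : S (𝒮.ang z + 𝒮.ang w + t) = S (𝒮.ang (z * w) + t) := by
      have h2 := (hper.int_mul k) (𝒮.ang z + 𝒮.ang w + t)
      rw [mul_one] at h2
      rw [← h2, hk]
      congr 1
      ring
    have h3 : S (𝒮.ang (z * w)) = S (𝒮.ang (z * w) + t) := by
      apply hS.const _ _ (by linarith)
      intro j hj m hm
      exact hF.2 (z * w) hnm j hj m ⟨hm.1, by linarith [hm.2]⟩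
    rw [h1, ← h3, hF.1 (z * w) hnm, 𝒮.g_mul]
  have hint : ∫ t in (0 : ℝ)..(c1 / X), ((S (𝒮.ang z + 𝒮.ang w + t) : ℝ) : ℂ) =
      ∫ _t in (0 : ℝ)..(c1 / X), ((𝒮.g z * 𝒮.g w : ℝ) : ℂ) := by
    apply intervalIntegral.integral_congr_ae
    filter_upwards [(Set.finite_singleton (c1 / X)).countable.ae_notMem volume] with t ht hm
    rw [Set.uIoc_of_le hδ.le] at hm
    have hlt : t < c1 / X := lt_of_le_of_ne hm.2 (fun h => ht (by rw [h]; rfl))
    rw [hval t hm.1.le hlt]
  unfold av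
  simp only []
  rw [hint, intervalIntegral.integral_const, sub_zero, Complex.real_smul, ← mul_assoc,
    ← Complex.ofReal_mul, one_div, inv_mul_cancel₀ hδ.ne', Complex.ofReal_one, one_mul]

theorem f13_cs (f : ℝ → ℝ) (hm : Measurable f) (C : ℝ) (hb : ∀ t, |f t| ≤ C) (δ : ℝ) (hδ : 0 < δ) :
    ((1 / δ) * ∫ t in (0 : ℝ)..δ, f t) ^ 2 ≤ (1 / δ) * ∫ t in (0 : ℝ)..δ, f t ^ 2 := by
  have hi : ∀ g : ℝ → ℝ, Measurable g → (∃ M, ∀ t, |g t| ≤ M) → IntervalIntegrable g volume 0 δ := by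
    intro g hg ⟨M, hM⟩
    rw [intervalIntegrable_iff]
    exact MeasureTheory.Measure.integrableOn_of_bounded (M := M) (by simp)
      hg.aestronglyMeasurable (Filter.Eventually.of_forall fun t => by
        rw [Real.norm_eq_abs]; exact hM t)
  set m := (1 / δ) * ∫ t in (0 : ℝ)..δ, f t with hmdef
  have hif := hi f hm ⟨C, hb⟩
  have hif2 := hi (fun t => f t ^ 2) (hm.pow_const 2) ⟨C ^ 2, fun t => by
    rw [abs_pow]; exact pow_le_pow_left₀ (abs_nonneg _) (hb t) 2⟩
  have h0 : 0 ≤ ∫ t in (0 : ℝ)..δ, (f t - m) ^ 2 :=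
    intervalIntegral.integral_nonneg hδ.le fun t _ => by positivity
  have h1 : ∫ t in (0 : ℝ)..δ, (f t - m) ^ 2 =
      (∫ t in (0 : ℝ)..δ, f t ^ 2) - 2 * m * (∫ t in (0 : ℝ)..δ, f t) + m ^ 2 * δ := by
    have h2 : ∀ t, (f t - m) ^ 2 = (f t ^ 2 - 2 * m * f t) + m ^ 2 := fun t => by ring
    simp_rw [h2]
    rw [intervalIntegral.integral_add (hif2.sub (hif.const_mul _)) intervalIntegrable_const,
      intervalIntegral.integral_sub hif2 (hif.const_mul _), intervalIntegral.integral_const_mul,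
      intervalIntegral.integral_const]
    simp
    ring
  have h3 : ∫ t in (0 : ℝ)..δ, f t = δ * m := by
    rw [hmdef]
    field_simp
  rw [h1, h3] at h0
  have h4 : m ^ 2 * δ ≤ ∫ t in (0 : ℝ)..δ, f t ^ 2 := by nlinarith
  rw [one_div, inv_mul_eq_div, le_div_iff₀ hδ]
  exact h4

/-- ROW F13.  `|(1/δ)∫_0^δ u(v+t)dt|² ≤ (1/δ)∫_v^{v+δ}|u|²` (Cauchy-Schwarz) and the intervals `[v,v+δ)` are
disjoint mod 1: with `1_v(θ) = 1` if `θ - v - k ∈ [0,δ)` for some integer `k`, else `0`,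
`∫_v^{v+δ}|u|² = ∫_v^{v+1} 1_v |u|² = ∫_0^1 1_v |u|²` (periodic) and `∑_v 1_v ≤ 1`. -/
theorem transfer (u : ℝ → ℂ) (hm : Measurable u) (C : ℝ) (hb : ∀ t, ‖u t‖ ≤ C)
    (hp : ∀ t, u (t + 1) = u t) (δ : ℝ) (hδ : 0 < δ) (hδ1 : δ ≤ 1) (V : Finset ℝ)
    (hV : ∀ v ∈ V, ∀ v' ∈ V, v ≠ v' → ∀ k : ℤ, δ ≤ |v - v' - k|) :
    ∑ v ∈ V, ‖av δ u v‖ ^ 2 ≤ (1 / δ) * ∫ t in (0 : ℝ)..1, ‖u t‖ ^ 2 := by
  classical
  set f : ℝ → ℝ := fun t => ‖u t‖ ^ 2 with hf
  have hfm : Measurable f := hm.norm.pow_const 2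
  have hf0 : ∀ t, 0 ≤ f t := fun t => by simp only [hf]; positivity
  have hfC : ∀ t, f t ≤ C ^ 2 := fun t => pow_le_pow_left₀ (norm_nonneg _) (hb t) 2
  have hfp : ∀ t, f (t + 1) = f t := fun t => by simp only [hf]; rw [hp]
  -- step a
  have ha : ∀ v, ‖av δ u v‖ ^ 2 ≤ (1 / δ) * ∫ t in (0 : ℝ)..δ, f (v + t) := by
    intro v
    have h1 : ‖av δ u v‖ ≤ (1 / δ) * ∫ t in (0 : ℝ)..δ, ‖u (v + t)‖ := by
      unfold av
      rw [norm_mul, Complex.norm_real, Real.norm_of_nonneg (by positivity)]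
      exact mul_le_mul_of_nonneg_left (intervalIntegral.norm_integral_le_integral_norm hδ.le)
        (by positivity)
    have h2 := f13_cs (fun t => ‖u (v + t)‖) ((hm.comp (measurable_const_add v)).norm) C
      (fun t => by rw [abs_of_nonneg (norm_nonneg _)]; exact hb _) δ hδ
    exact (pow_le_pow_left₀ (norm_nonneg _) h1 2).trans h2
  -- the indicator
  set h : ℝ → ℝ → ℝ := fun v θ => if Int.fract (θ - v) < δ then f θ else 0 with hh
  have hhm : ∀ v, Measurable (h v) := by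
    intro v
    apply Measurable.ite _ hfm measurable_const
    exact measurableSet_lt ((measurable_id.sub_const v).fract) measurable_const
  have hh0 : ∀ v θ, 0 ≤ h v θ := by
    intro v θ
    simp only [hh]
    split_ifs
    · exact hf0 θ
    · exact le_rfl
  have hhb : ∀ v θ, |h v θ| ≤ C ^ 2 := by
    intro v θ
    rw [abs_of_nonneg (hh0 v θ)]
    simp only [hh]
    split_ifs
    · exact hfC θ
    · positivity
  have hii : ∀ (g : ℝ → ℝ), Measurable g → (∃ M, ∀ t, |g t| ≤ M) → ∀ a b : ℝ,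
      IntervalIntegrable g volume a b := by
    intro g hg ⟨M, hM⟩ a b
    rw [intervalIntegrable_iff]
    exact MeasureTheory.Measure.integrableOn_of_bounded (M := M) (by simp)
      hg.aestronglyMeasurable (Filter.Eventually.of_forall fun t => by
        rw [Real.norm_eq_abs]; exact hM t)
  have hhp : ∀ v, Function.Periodic (h v) 1 := by
    intro v θ
    simp only [hh]
    have h1 : θ + 1 - v = θ - v + 1 := by ring
    rw [h1, Int.fract_add_one, hfp]
  -- step b
  have hbv : ∀ v, ∫ t in (0 : ℝ)..δ, f (v + t) = ∫ t in (0 : ℝ)..1, h v t := by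
    intro v
    have h1 : ∫ t in (0 : ℝ)..δ, f (v + t) = ∫ t in v..(v + δ), f t := by
      rw [intervalIntegral.integral_comp_add_left (f := f) v, add_zero]
    have h2 : ∫ t in (0 : ℝ)..1, h v t = ∫ t in v..(v + 1), h v t := by
      have := (hhp v).intervalIntegral_add_eq 0 v
      rw [zero_add] at this
      exact this
    have h3 : ∫ t in v..(v + 1), h v t = (∫ t in v..(v + δ), h v t) + ∫ t in (v + δ)..(v + 1), h v t := by
      rw [intervalIntegral.integral_add_adjacent_intervals]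
      · exact hii _ (hhm v) ⟨_, hhb v⟩ _ _
      · exact hii _ (hhm v) ⟨_, hhb v⟩ _ _
    have h4 : ∫ t in v..(v + δ), h v t = ∫ t in v..(v + δ), f t := by
      apply intervalIntegral.integral_congr_ae
      filter_upwards [(Set.finite_singleton (v + δ)).countable.ae_notMem volume] with t ht hm'
      rw [Set.uIoc_of_le (by linarith)] at hm'
      have hlt : t < v + δ := lt_of_le_of_ne hm'.2 (fun h => ht (by rw [h]; rfl))
      simp only [hh]
      have hfr : Int.fract (t - v) = t - v :=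
        Int.fract_eq_self.2 ⟨by linarith [hm'.1], by linarith⟩
      rw [hfr, if_pos (by linarith)]
    have h5 : ∫ t in (v + δ)..(v + 1), h v t = ∫ _t in (v + δ)..(v + 1), (0 : ℝ) := by
      apply intervalIntegral.integral_congr_ae
      filter_upwards [(Set.finite_singleton (v + 1)).countable.ae_notMem volume] with t ht hm'
      rw [Set.uIoc_of_le (by linarith)] at hm'
      have hlt : t < v + 1 := lt_of_le_of_ne hm'.2 (fun h => ht (by rw [h]; rfl))
      simp only [hh]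
      have hfr : Int.fract (t - v) = t - v :=
        Int.fract_eq_self.2 ⟨by linarith [hm'.1], by linarith⟩
      rw [hfr, if_neg (by linarith [hm'.1])]
    rw [h1, h2, h3, h4, h5]
    simp
  have hsum : ∀ θ, ∑ v ∈ V, h v θ ≤ f θ := by
    intro θ
    by_cases hex : ∃ v ∈ V, Int.fract (θ - v) < δ
    · obtain ⟨v, hv, hvδ⟩ := hex
      have hother : ∀ v' ∈ V, v' ≠ v → h v' θ = 0 := by
        intro v' hv' hne
        simp only [hh]
        rw [if_neg]
        intro hlt
        have h1 := hV v hv v' hv' (Ne.symm hne) (⌊θ - v'⌋ - ⌊θ - v⌋)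
        have h2 : v - v' - ((⌊θ - v'⌋ - ⌊θ - v⌋ : ℤ) : ℝ) = Int.fract (θ - v') - Int.fract (θ - v) := by
          rw [Int.fract, Int.fract]
          push_cast
          ring
        rw [h2] at h1
        have h3 := Int.fract_nonneg (θ - v')
        have h4 := Int.fract_nonneg (θ - v)
        have h5 : |Int.fract (θ - v') - Int.fract (θ - v)| < δ := by
          rw [abs_lt]
          constructor <;> linarith
        linarith
      rw [Finset.sum_eq_single_of_mem v hv hother]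
      simp only [hh]
      rw [if_pos hvδ]
    · push Not at hex
      rw [Finset.sum_eq_zero]
      · exact hf0 θ
      · intro v hv
        simp only [hh]
        rw [if_neg (not_lt.2 (hex v hv))]
  calc ∑ v ∈ V, ‖av δ u v‖ ^ 2 ≤ ∑ v ∈ V, (1 / δ) * ∫ t in (0 : ℝ)..1, h v t :=
        Finset.sum_le_sum fun v _ => by rw [← hbv v]; exact ha v
    _ = (1 / δ) * ∫ t in (0 : ℝ)..1, ∑ v ∈ V, h v t := by
        rw [← Finset.mul_sum, intervalIntegral.integral_finsetSum]
        intro v _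
        exact hii _ (hhm v) ⟨_, hhb v⟩ _ _
    _ ≤ (1 / δ) * ∫ t in (0 : ℝ)..1, f t := by
        apply mul_le_mul_of_nonneg_left _ (by positivity)
        apply intervalIntegral.integral_mono_on zero_le_one
        · exact hii _ (Finset.measurable_sum _ fun v _ => hhm v)
            ⟨∑ _v ∈ V, C ^ 2, fun t => (Finset.abs_sum_le_sum_abs _ _).trans
              (Finset.sum_le_sum fun v _ => hhb v t)⟩ _ _
        · exact hii _ hfm ⟨C ^ 2, fun t => by rw [abs_of_nonneg (hf0 t)]; exact hfC t⟩ _ _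
        · intro t _
          exact hsum t

end Pool.Agent.Lib.MP_648c71_nt.HP
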