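import Pool.Agent.Lib.MP_648c71_nt.HP.F2

/-! Row F14 (about 70 lines): the remainder of the Fourier series. -/

set_option autoImplicit false

namespace Pool.Agent.Lib.MP_648c71_nt.HP

open Finset MeasureTheory

/-- ROW F14.  The trigonometric polynomial with the coefficients of `S` in the finite set `K`. -/
noncomputable def part (S : ℝ → ℝ) (K : Finset ℤ) (t : ℝ) : ℂ :=
  ∑ k ∈ K, cf (fun t => (S t : ℂ)) k * ee (k * t)

theorem F14_int (m : ℤ) (hm : m ≠ 0) : ∫ t in (0 : ℝ)..1, ee (m * t) = 0 := by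
  have hc : (2 * Real.pi * m * Complex.I : ℂ) ≠ 0 := by
    have h1 : (m : ℂ) ≠ 0 := by exact_mod_cast hm
    have h2 : (Real.pi : ℂ) ≠ 0 := by exact_mod_cast Real.pi_ne_zero
    have h3 := Complex.I_ne_zero
    simp [h1, h2, h3]
  have h : (fun t : ℝ => ee (m * t)) = fun t : ℝ => Complex.exp ((2 * Real.pi * m * Complex.I : ℂ) * t) := by
    funext t
    rw [ee]
    congr 1
    push_cast
    ring
  rw [h, integral_exp_mul_complex hc]
  have h1 : ((2 * Real.pi * m * Complex.I : ℂ) * ((1 : ℝ) : ℂ)) = m * (2 * Real.pi * Complex.I) := by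
    push_cast; ring
  rw [h1, Complex.exp_int_mul_two_pi_mul_I]
  simp

theorem F14_cf_ee (k m : ℤ) : cf (fun t => ee (m * t)) k = if m = k then 1 else 0 := by
  have h : (fun t : ℝ => ee (-(k * t)) * ee (m * t)) = fun t : ℝ => ee (((m - k : ℤ) : ℝ) * t) := by
    funext t
    rw [← ee_add]
    congr 1
    push_cast
    ring
  rw [cf, h]
  by_cases hmk : m = k
  · rw [if_pos hmk, hmk, sub_self]
    simp [ee_zero]
  · rw [if_neg hmk]
    exact F14_int _ (sub_ne_zero.2 hmk)

theorem F14_cf_part (S : ℝ → ℝ) (K : Finset ℤ) (k : ℤ) :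
    cf (part S K) k = if k ∈ K then cf (fun t => (S t : ℂ)) k else 0 := by
  have h1 : cf (part S K) k = ∑ m ∈ K, cf (fun t => (S t : ℂ)) m * cf (fun t => ee (m * t)) k := by
    change (∫ t in (0 : ℝ)..1, ee (-(k * t)) * part S K t) =
      ∑ m ∈ K, cf (fun t => (S t : ℂ)) m * ∫ t in (0 : ℝ)..1, ee (-(k * t)) * ee (m * t)
    unfold part
    simp_rw [Finset.mul_sum]
    rw [intervalIntegral.integral_finsetSum]
    · refine Finset.sum_congr rfl fun m _ => ?_
      rw [← intervalIntegral.integral_const_mul]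
      refine intervalIntegral.integral_congr fun t _ => ?_
      ring
    · intro m _
      apply Continuous.intervalIntegrable
      have h2 : Continuous fun t : ℝ => ee (-(k * t)) := continuous_ee.comp (by fun_prop)
      have h3 : Continuous fun t : ℝ => ee (m * t) := continuous_ee.comp (by fun_prop)
      exact h2.mul (continuous_const.mul h3)
  rw [h1]
  simp_rw [F14_cf_ee, mul_ite, mul_one, mul_zero]
  rw [Finset.sum_ite_eq' K k]

/-- ROW F14.  `∫_0^1 |S - part|² = 1 - ∑_{k∈K} |c_k|²`: `parseval` for `S - part`, whose coefficients are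
`c_k` for `k ∉ K` and `0` for `k ∈ K` (`∫_0^1 e((k-k')t) dt = [k = k']`), and `mass`.  (Or expand the
square.) -/
theorem remainder (S : ℝ → ℝ) (Js : Finset ℝ) (hS : Step S Js) (K : Finset ℤ) (η : ℝ)
    (hK : 1 - ∑ k ∈ K, ‖cf (fun t => (S t : ℂ)) k‖ ^ 2 ≤ η) :
    ∫ t in (0 : ℝ)..1, ‖(S t : ℂ) - part S K t‖ ^ 2 ≤ η := by
  have hSm : Measurable fun t => (S t : ℂ) := Complex.measurable_ofReal.comp hS.meas
  have hpc : Continuous (part S K) := by
    unfold part
    refine continuous_finsetSum _ fun k _ => continuous_const.mul ?_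
    exact continuous_ee.comp (by fun_prop)
  have hSb : ∀ t, ‖(S t : ℂ)‖ ≤ 1 := by
    intro t
    rcases hS.val t with h | h <;> rw [h] <;> simp
  set B : ℝ := ∑ k ∈ K, ‖cf (fun t => (S t : ℂ)) k‖ with hB
  have hB0 : 0 ≤ B := Finset.sum_nonneg fun _ _ => norm_nonneg _
  have hpb : ∀ t, ‖part S K t‖ ≤ B := by
    intro t
    refine (norm_sum_le _ _).trans ?_
    refine Finset.sum_le_sum fun k _ => ?_
    rw [norm_mul, norm_ee, mul_one]
  have hum : Measurable fun t => (S t : ℂ) - 1 * part S K t :=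
    hSm.sub (measurable_const.mul hpc.measurable)
  have hub : ∀ t, ‖(S t : ℂ) - 1 * part S K t‖ ≤ 1 + B := by
    intro t
    rw [one_mul]
    exact (norm_sub_le _ _).trans (add_le_add (hSb t) (hpb t))
  have h1 := parseval (fun t => (S t : ℂ) - 1 * part S K t) hum (1 + B) hub
  have h2 : ∀ k : ℤ, ‖cf (fun t => (S t : ℂ) - 1 * part S K t) k‖ ^ 2 =
      ‖cf (fun t => (S t : ℂ)) k‖ ^ 2 - if k ∈ K then ‖cf (fun t => (S t : ℂ)) k‖ ^ 2 else 0 := by
    intro k
    rw [cf_sub_smul (fun t => (S t : ℂ)) (part S K) hSm hpc.measurable (1 + B)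
      (fun t => (hSb t).trans (by linarith)) (fun t => (hpb t).trans (by linarith)) 1 k, F14_cf_part]
    by_cases hk : k ∈ K
    · simp [hk]
    · simp [hk]
  have h3 : HasSum (fun k : ℤ => if k ∈ K then ‖cf (fun t => (S t : ℂ)) k‖ ^ 2 else 0)
      (∑ k ∈ K, ‖cf (fun t => (S t : ℂ)) k‖ ^ 2) := by
    have h4 : HasSum (fun k : ℤ => if k ∈ K then ‖cf (fun t => (S t : ℂ)) k‖ ^ 2 else 0)
        (∑ k ∈ K, if k ∈ K then ‖cf (fun t => (S t : ℂ)) k‖ ^ 2 else 0) :=
      hasSum_sum_of_ne_finset_zero fun k hk => if_neg hk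
    rwa [Finset.sum_congr rfl fun k hk => if_pos hk] at h4
  have h5 := (mass S Js hS).sub h3
  simp_rw [h2] at h1
  have h6 := h1.unique h5
  simp_rw [one_mul] at h6
  rw [h6]
  exact hK

end Pool.Agent.Lib.MP_648c71_nt.HP
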