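import Pool.Agent.Lib.MP_648c71_nt.HP.F13
import Pool.Agent.Lib.MP_648c71_nt.HP.F14

/-! Row F15 (about 140 lines): the bilinear inequality. -/

set_option autoImplicit false

namespace Pool.Agent.Lib.MP_648c71_nt.HP

open Finset MeasureTheory

/-- the remainder `S - part S K` -/
noncomputable def F15_h (S : ℝ → ℝ) (K : Finset ℤ) (t : ℝ) : ℂ := (S t : ℂ) - part S K t

theorem F15_continuous_part (S : ℝ → ℝ) (K : Finset ℤ) : Continuous (part S K) := by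
  unfold part
  refine continuous_finsetSum K fun k _ => ?_
  exact continuous_const.mul (continuous_ee.comp (continuous_const.mul continuous_id))

theorem F15_part_per (S : ℝ → ℝ) (K : Finset ℤ) (t : ℝ) : part S K (t + 1) = part S K t := by
  unfold part
  refine Finset.sum_congr rfl fun k _ => ?_
  have : (k : ℝ) * (t + 1) = k * t + k := by ring
  rw [this, ee_add_int]

theorem F15_part_bound (S : ℝ → ℝ) (K : Finset ℤ) (t : ℝ) :
    ‖part S K t‖ ≤ ∑ k ∈ K, ‖cf (fun t => (S t : ℂ)) k‖ := by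
  unfold part
  refine (norm_sum_le _ _).trans (le_of_eq (Finset.sum_congr rfl fun k _ => ?_))
  rw [norm_mul, norm_ee, mul_one]

theorem F15_h_meas (S : ℝ → ℝ) (Js : Finset ℝ) (hS : Step S Js) (K : Finset ℤ) :
    Measurable (F15_h S K) := by
  unfold F15_h
  exact (Complex.measurable_ofReal.comp hS.meas).sub (F15_continuous_part S K).measurable

theorem F15_S_norm (S : ℝ → ℝ) (Js : Finset ℝ) (hS : Step S Js) (t : ℝ) : ‖(S t : ℂ)‖ = 1 := by
  rcases hS.val t with h | h <;> simp [h]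

theorem F15_h_bound (S : ℝ → ℝ) (Js : Finset ℝ) (hS : Step S Js) (K : Finset ℤ) (t : ℝ) :
    ‖F15_h S K t‖ ≤ 1 + ∑ k ∈ K, ‖cf (fun t => (S t : ℂ)) k‖ := by
  unfold F15_h
  refine (norm_sub_le _ _).trans ?_
  rw [F15_S_norm S Js hS t]
  have := F15_part_bound S K t
  linarith

theorem F15_h_per (S : ℝ → ℝ) (Js : Finset ℝ) (hS : Step S Js) (K : Finset ℤ) (t : ℝ) :
    F15_h S K (t + 1) = F15_h S K t := by
  unfold F15_h
  rw [hS.per, F15_part_per]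

theorem F15_intble (u : ℝ → ℂ) (hm : Measurable u) (C : ℝ) (hb : ∀ t, ‖u t‖ ≤ C) (θ a b : ℝ) :
    IntervalIntegrable (fun t => u (θ + t)) volume a b := by
  have hm' : Measurable (fun t => u (θ + t)) := hm.comp (measurable_const.add measurable_id)
  exact (intervalIntegrable_const (c := C)).mono_fun' hm'.aestronglyMeasurable
    (Filter.Eventually.of_forall fun t => hb _)

theorem F15_per_int (u : ℝ → ℂ) (hp : ∀ t, u (t + 1) = u t) (t : ℝ) (n : ℤ) : u (t + n) = u t := by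
  have h : Function.Periodic u 1 := hp
  have := h.int_mul n t
  rwa [mul_one] at this

/-- `ψ_k` -/
noncomputable def F15_psi (δ : ℝ) (k : ℤ) : ℂ := (1 / δ : ℝ) * ∫ t in (0 : ℝ)..δ, ee (k * t)

theorem F15_psi_le (δ : ℝ) (hδ : 0 < δ) (k : ℤ) : ‖F15_psi δ k‖ ≤ 1 := by
  unfold F15_psi
  rw [norm_mul, Complex.norm_real, Real.norm_of_nonneg (by positivity)]
  have h := intervalIntegral.norm_integral_le_of_norm_le_const (a := (0 : ℝ)) (b := δ)
    (f := fun t => ee (k * t)) (C := 1) (fun t _ => (norm_ee _).le)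
  rw [sub_zero, abs_of_pos hδ, one_mul] at h
  calc 1 / δ * ‖∫ t in (0 : ℝ)..δ, ee (k * t)‖ ≤ 1 / δ * δ :=
        mul_le_mul_of_nonneg_left h (by positivity)
    _ = 1 := by field_simp

theorem F15_av_part (S : ℝ → ℝ) (K : Finset ℤ) (δ θ : ℝ) :
    av δ (part S K) θ = ∑ k ∈ K, cf (fun t => (S t : ℂ)) k * F15_psi δ k * ee (k * θ) := by
  unfold av part F15_psi
  have hcont : ∀ k ∈ K, IntervalIntegrable
      (fun t => cf (fun t => (S t : ℂ)) k * ee (k * (θ + t))) volume 0 δ := by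
    intro k _
    apply Continuous.intervalIntegrable
    exact continuous_const.mul (continuous_ee.comp (by fun_prop))
  rw [intervalIntegral.integral_finsetSum hcont, Finset.mul_sum]
  refine Finset.sum_congr rfl fun k _ => ?_
  have : ∀ t : ℝ, cf (fun t => (S t : ℂ)) k * ee (k * (θ + t)) =
      (cf (fun t => (S t : ℂ)) k * ee (k * θ)) * ee (k * t) := by
    intro t
    rw [mul_add, ee_add]; ring
  simp_rw [this]
  rw [intervalIntegral.integral_const_mul]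
  ring

theorem F15_av_split (S : ℝ → ℝ) (Js : Finset ℝ) (hS : Step S Js) (K : Finset ℤ) (δ θ : ℝ) :
    av δ (fun t => (S t : ℂ)) θ = av δ (part S K) θ + av δ (F15_h S K) θ := by
  unfold av
  rw [← mul_add, ← intervalIntegral.integral_add]
  · congr 1
    refine intervalIntegral.integral_congr fun t _ => ?_
    simp only [F15_h]
    ring
  · exact F15_intble _ (F15_continuous_part S K).measurable _ (F15_part_bound S K) _ _ _
  · exact F15_intble _ (F15_h_meas S Js hS K) _ (F15_h_bound S Js hS K) _ _ _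

theorem F15_av_fract (S : ℝ → ℝ) (Js : Finset ℝ) (hS : Step S Js) (K : Finset ℤ) (δ θ : ℝ) :
    av δ (F15_h S K) θ = av δ (F15_h S K) (Int.fract θ) := by
  unfold av
  congr 1
  refine intervalIntegral.integral_congr fun t _ => ?_
  have h := F15_per_int _ (F15_h_per S Js hS K) (Int.fract θ + t) ⌊θ⌋
  have h2 : Int.fract θ + t + (⌊θ⌋ : ℝ) = θ + t := by
    have := Int.fract_add_floor θ
    linarith
  rw [h2] at h
  exact h

theorem F15_fract_iff (x y : ℝ) : (∃ k : ℤ, x - y = k) ↔ Int.fract x = Int.fract y := by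
  rw [Int.fract_eq_fract]

open Classical in
/-- ROW F15.  Put `δ = c1/X`, `h = S - part S K`, `F k = ∑_{z∈B} g z e(k ang z)`, `θ_p = ang z + ang w` for
`p = (z,w)`.  `av_pair`: `g z g w = av δ S θ_p = ∑_k c_k ψ_k e(kθ_p) + av δ h θ_p`,
`ψ_k = (1/δ)∫_0^δ e(kt)dt`, `|ψ_k| ≤ 1`.  Multiply by `g z g w` and sum over `p`:
`|B|² = ∑_k c_k ψ_k F(k)² + ∑_p g g (av δ h θ_p)`.  The first sum is at most `a ∑ |F k|²`.  In the second,
`av δ h θ_p = av δ h (fract θ_p)`; group by `v = fract θ_p ∈ V`: `∑_p |av| = ∑_v r(v)|av δ h v|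
≤ (∑ r(v)²)^{1/2} (∑_v |av δ h v|²)^{1/2}`, `∑ r(v)²` is the number of quadruples counted in the statement,
and `∑_v |av δ h v|² ≤ (1/δ) η` by `transfer` and `remainder` (`V` is `δ`-separated by `sep`: the points are
angles of elements of norm `≤ X`, and `c1 ≤ c0`). -/
theorem bilinear (𝒮 : Sys) (X c1 : ℝ) (hX : 0 < X) (hc1 : 0 < c1) (hc : c1 ≤ 𝒮.c0) (hcX : c1 ≤ X)
    (S : ℝ → ℝ) (Js : Finset ℝ) (hS : Step S Js) (hF : Fits 𝒮 X c1 S Js) (B : Finset 𝒮.M)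
    (hB : ∀ z ∈ B, ∀ w ∈ B, (𝒮.nm z * 𝒮.nm w : ℝ) ≤ X) (K : Finset ℤ) (η : ℝ)
    (hK : 1 - ∑ k ∈ K, ‖cf (fun t => (S t : ℂ)) k‖ ^ 2 ≤ η) (a : ℝ)
    (ha : ∀ k ∈ K, ‖cf (fun t => (S t : ℂ)) k‖ ≤ a) :
    (B.card : ℝ) ^ 2 ≤ a * ∑ k ∈ K, ‖∑ z ∈ B, (𝒮.g z : ℂ) * ee (k * 𝒮.ang z)‖ ^ 2 +
      Real.sqrt ((((B ×ˢ B) ×ˢ (B ×ˢ B)).filter (fun t =>
        ∃ k : ℤ, 𝒮.ang t.1.1 + 𝒮.ang t.1.2 - (𝒮.ang t.2.1 + 𝒮.ang t.2.2) = k)).card *
        (η * X / c1)) := by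
  set δ : ℝ := c1 / X with hδdef
  have hδ : 0 < δ := div_pos hc1 hX
  have hδ1 : δ ≤ 1 := (div_le_one hX).2 hcX
  have hgg : ∀ z : 𝒮.M, 𝒮.g z * 𝒮.g z = 1 := by
    intro z
    rcases 𝒮.g_or z with h | h <;> simp [h]
  set Fk : ℤ → ℂ := fun k => ∑ z ∈ B, (𝒮.g z : ℂ) * ee (k * 𝒮.ang z) with hFk
  set θ : 𝒮.M × 𝒮.M → ℝ := fun p => 𝒮.ang p.1 + 𝒮.ang p.2 with hθ
  set gg : 𝒮.M × 𝒮.M → ℂ := fun p => (𝒮.g p.1 : ℂ) * (𝒮.g p.2 : ℂ) with hggdef
  have hgg1 : ∀ p, gg p * gg p = 1 := by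
    intro p
    have h1 : ((𝒮.g p.1 : ℂ) * (𝒮.g p.1 : ℂ)) = 1 := by exact_mod_cast hgg p.1
    have h2 : ((𝒮.g p.2 : ℂ) * (𝒮.g p.2 : ℂ)) = 1 := by exact_mod_cast hgg p.2
    calc gg p * gg p = ((𝒮.g p.1 : ℂ) * (𝒮.g p.1 : ℂ)) * ((𝒮.g p.2 : ℂ) * (𝒮.g p.2 : ℂ)) := by
          simp only [hggdef]; ring
      _ = 1 := by rw [h1, h2, one_mul]
  have hggn : ∀ p, ‖gg p‖ = 1 := by
    intro p
    have h := congrArg norm (hgg1 p)
    rw [norm_mul, norm_one] at h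
    nlinarith [norm_nonneg (gg p)]
  -- the basic identity
  have key : ∀ p ∈ B ×ˢ B, gg p =
      (∑ k ∈ K, cf (fun t => (S t : ℂ)) k * F15_psi δ k * ee (k * θ p)) +
        av δ (F15_h S K) (θ p) := by
    intro p hp
    rw [Finset.mem_product] at hp
    have h := av_pair 𝒮 X c1 hX hc1 S Js hS hF p.1 p.2 (hB _ hp.1 _ hp.2)
    rw [← F15_av_part, ← F15_av_split S Js hS K]
    simp only [hggdef, hθ, hδdef]
    rw [h]
    push_cast
    rfl
  have hsum : ((B.card : ℂ)) ^ 2 =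
      ∑ k ∈ K, cf (fun t => (S t : ℂ)) k * F15_psi δ k * (Fk k) ^ 2 +
        ∑ p ∈ B ×ˢ B, gg p * av δ (F15_h S K) (θ p) := by
    have h1 : ((B.card : ℂ)) ^ 2 = ∑ p ∈ B ×ˢ B, gg p * gg p := by
      rw [Finset.sum_congr rfl fun p _ => hgg1 p]
      simp [Finset.card_product, sq]
    rw [h1]
    have h2 : ∀ p ∈ B ×ˢ B, gg p * gg p =
        (∑ k ∈ K, cf (fun t => (S t : ℂ)) k * F15_psi δ k * (gg p * ee (k * θ p))) +
          gg p * av δ (F15_h S K) (θ p) := by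
      intro p hp
      have h3 : gg p * gg p = gg p * ((∑ k ∈ K, cf (fun t => (S t : ℂ)) k * F15_psi δ k *
          ee (k * θ p)) + av δ (F15_h S K) (θ p)) := congrArg (fun x => gg p * x) (key p hp)
      rw [h3, mul_add, Finset.mul_sum]
      congr 1
      refine Finset.sum_congr rfl fun k _ => ?_
      ring
    rw [Finset.sum_congr rfl h2, Finset.sum_add_distrib, Finset.sum_comm]
    congr 1
    refine Finset.sum_congr rfl fun k _ => ?_
    rw [← Finset.mul_sum]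
    congr 1
    rw [sq, hFk]
    simp only
    rw [Finset.sum_mul_sum, Finset.sum_product]
    refine Finset.sum_congr rfl fun z _ => Finset.sum_congr rfl fun w _ => ?_
    simp only [hggdef, hθ]
    rw [mul_add, ee_add]
    ring
  -- the first sum
  have hfirst : ‖∑ k ∈ K, cf (fun t => (S t : ℂ)) k * F15_psi δ k * (Fk k) ^ 2‖ ≤
      a * ∑ k ∈ K, ‖Fk k‖ ^ 2 := by
    rw [Finset.mul_sum]
    refine (norm_sum_le _ _).trans (Finset.sum_le_sum fun k hk => ?_)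
    rw [norm_mul, norm_mul, norm_pow]
    have h1 := ha k hk
    have h2 := F15_psi_le δ hδ k
    have h3 : ‖cf (fun t => (S t : ℂ)) k‖ * ‖F15_psi δ k‖ ≤ a := by
      calc ‖cf (fun t => (S t : ℂ)) k‖ * ‖F15_psi δ k‖ ≤ ‖cf (fun t => (S t : ℂ)) k‖ * 1 :=
            mul_le_mul_of_nonneg_left h2 (norm_nonneg _)
        _ ≤ a := by rw [mul_one]; exact h1
    exact mul_le_mul_of_nonneg_right h3 (by positivity)
  -- the second sum
  set A : Finset (𝒮.M × 𝒮.M) := B ×ˢ B with hA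
  set vf : 𝒮.M × 𝒮.M → ℝ := fun p => Int.fract (θ p) with hvf
  set V : Finset ℝ := A.image vf with hV
  set r : ℝ → ℕ := fun v => (A.filter (fun p => vf p = v)).card with hr
  have hVsep : ∀ v ∈ V, ∀ v' ∈ V, v ≠ v' → ∀ k : ℤ, δ ≤ |v - v' - k| := by
    intro v hv v' hv' hne k
    rw [hV, Finset.mem_image] at hv hv'
    obtain ⟨p, hp, rfl⟩ := hv
    obtain ⟨q, hq, rfl⟩ := hv'
    rw [hA, Finset.mem_product] at hp hq
    obtain ⟨n1, hn1⟩ := 𝒮.ang_mul p.1 p.2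
    obtain ⟨n2, hn2⟩ := 𝒮.ang_mul q.1 q.2
    have e1 : Int.fract (θ p) + ⌊θ p⌋ = 𝒮.ang p.1 + 𝒮.ang p.2 := Int.fract_add_floor _
    have e2 : Int.fract (θ q) + ⌊θ q⌋ = 𝒮.ang q.1 + 𝒮.ang q.2 := Int.fract_add_floor _
    rcases 𝒮.sep (p.1 * p.2) (q.1 * q.2) with ⟨m, hm⟩ | hsep
    · exfalso
      apply hne
      simp only [hvf]
      rw [← F15_fract_iff]
      refine ⟨m - n1 + n2, ?_⟩
      push_cast
      simp only [hθ]
      linarith
    · have h := hsep (k + n1 - n2 + ⌊θ p⌋ - ⌊θ q⌋)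
      have e3 : 𝒮.ang (p.1 * p.2) - 𝒮.ang (q.1 * q.2) -
          ((k + n1 - n2 + ⌊θ p⌋ - ⌊θ q⌋ : ℤ) : ℝ) = vf p - vf q - k := by
        push_cast
        simp only [hvf]
        linarith
      rw [e3] at h
      have hp1 : (𝒮.nm (p.1 * p.2) : ℝ) ≤ X := by
        rw [𝒮.nm_mul]; push_cast; exact hB _ hp.1 _ hp.2
      have hq1 : (𝒮.nm (q.1 * q.2) : ℝ) ≤ X := by
        rw [𝒮.nm_mul]; push_cast; exact hB _ hq.1 _ hq.2
      have hs : Real.sqrt ((𝒮.nm (p.1 * p.2) : ℝ) * 𝒮.nm (q.1 * q.2)) ≤ X := by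
        rw [Real.sqrt_le_left hX.le]
        have h0 : (0 : ℝ) ≤ (𝒮.nm (p.1 * p.2) : ℝ) := Nat.cast_nonneg _
        have h0' : (0 : ℝ) ≤ (𝒮.nm (q.1 * q.2) : ℝ) := Nat.cast_nonneg _
        nlinarith
      rw [hδdef, div_le_iff₀ hX]
      calc c1 ≤ 𝒮.c0 := hc
        _ ≤ _ := h
        _ ≤ |vf p - vf q - k| * X := mul_le_mul_of_nonneg_left hs (abs_nonneg _)
  have htr : ∑ v ∈ V, ‖av δ (F15_h S K) v‖ ^ 2 ≤ η * X / c1 := by
    have h1 := transfer (F15_h S K) (F15_h_meas S Js hS K) _ (F15_h_bound S Js hS K)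
      (F15_h_per S Js hS K) δ hδ hδ1 V hVsep
    have h2 := remainder S Js hS K η hK
    have h3 : (1 / δ) * ∫ t in (0 : ℝ)..1, ‖F15_h S K t‖ ^ 2 ≤ (1 / δ) * η :=
      mul_le_mul_of_nonneg_left h2 (by positivity)
    have h4 : (1 / δ) * η = η * X / c1 := by
      rw [hδdef]; field_simp
    linarith
  have hen : ∑ v ∈ V, (r v : ℝ) ^ 2 ≤ ((((B ×ˢ B) ×ˢ (B ×ˢ B)).filter (fun t =>
        ∃ k : ℤ, 𝒮.ang t.1.1 + 𝒮.ang t.1.2 - (𝒮.ang t.2.1 + 𝒮.ang t.2.2) = k)).card : ℝ) := by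
    have h1 : ∑ v ∈ V, (r v) * (r v) = ∑ p ∈ A, r (vf p) := by
      rw [Finset.sum_comp r vf]
      refine Finset.sum_congr rfl fun v _ => ?_
      simp only [hr, smul_eq_mul]
    have h2 : (((B ×ˢ B) ×ˢ (B ×ˢ B)).filter (fun t =>
        ∃ k : ℤ, 𝒮.ang t.1.1 + 𝒮.ang t.1.2 - (𝒮.ang t.2.1 + 𝒮.ang t.2.2) = k)).card =
        ∑ p ∈ A, r (vf p) := by
      rw [Finset.card_filter, Finset.sum_product]
      refine Finset.sum_congr rfl fun p _ => ?_
      rw [hr]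
      simp only
      rw [Finset.card_filter]
      refine Finset.sum_congr rfl fun q _ => ?_
      have h3 : (∃ k : ℤ, 𝒮.ang p.1 + 𝒮.ang p.2 - (𝒮.ang q.1 + 𝒮.ang q.2) = k) ↔ vf q = vf p := by
        rw [F15_fract_iff]
        exact eq_comm
      simp only [h3]
    rw [h2, ← h1]
    push_cast
    refine le_of_eq (Finset.sum_congr rfl fun v _ => ?_)
    rw [sq]
  have hsecond : ‖∑ p ∈ A, gg p * av δ (F15_h S K) (θ p)‖ ≤
      Real.sqrt ((((B ×ˢ B) ×ˢ (B ×ˢ B)).filter (fun t =>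
        ∃ k : ℤ, 𝒮.ang t.1.1 + 𝒮.ang t.1.2 - (𝒮.ang t.2.1 + 𝒮.ang t.2.2) = k)).card *
        (η * X / c1)) := by
    have h1 : ‖∑ p ∈ A, gg p * av δ (F15_h S K) (θ p)‖ ≤
        ∑ p ∈ A, ‖av δ (F15_h S K) (vf p)‖ := by
      refine (norm_sum_le _ _).trans (le_of_eq (Finset.sum_congr rfl fun p _ => ?_))
      rw [norm_mul, hggn, one_mul, F15_av_fract S Js hS K δ (θ p)]
    have h2 : ∑ p ∈ A, ‖av δ (F15_h S K) (vf p)‖ = ∑ v ∈ V, (r v : ℝ) * ‖av δ (F15_h S K) v‖ := by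
      rw [Finset.sum_comp (fun v => ‖av δ (F15_h S K) v‖) vf]
      refine Finset.sum_congr rfl fun v _ => ?_
      simp only [hr, nsmul_eq_mul]
    have h3 := Real.sum_mul_le_sqrt_mul_sqrt V (fun v => (r v : ℝ))
      (fun v => ‖av δ (F15_h S K) v‖)
    have h4 : Real.sqrt (∑ v ∈ V, (r v : ℝ) ^ 2) * Real.sqrt (∑ v ∈ V, ‖av δ (F15_h S K) v‖ ^ 2) =
        Real.sqrt ((∑ v ∈ V, (r v : ℝ) ^ 2) * (∑ v ∈ V, ‖av δ (F15_h S K) v‖ ^ 2)) := by
      rw [Real.sqrt_mul (Finset.sum_nonneg fun v _ => by positivity)]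
    rw [h2] at h1
    refine h1.trans (h3.trans ?_)
    rw [h4]
    apply Real.sqrt_le_sqrt
    exact mul_le_mul hen htr (Finset.sum_nonneg fun v _ => by positivity) (Nat.cast_nonneg _)
  have hfin : ((B.card : ℝ)) ^ 2 = ‖((B.card : ℂ)) ^ 2‖ := by
    rw [norm_pow, Complex.norm_natCast]
  rw [hfin, hsum]
  exact (norm_add_le _ _).trans (add_le_add hfirst hsecond)

end Pool.Agent.Lib.MP_648c71_nt.HP
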