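import Mathlib

/-! Row F16a (about 140 lines): the numerical estimate for the sparse spectrum. -/

set_option autoImplicit false

namespace Pool.Agent.Lib.MP_648c71_nt.HP

open Finset MeasureTheory

/-- the conditions on `L = log X` used in `numeric`, valid for all large `L` -/
private theorem F16a_large (c D σ : ℝ) (hc : 0 < c) (hD : 0 < D) (hσ : 0 < σ) (C E : ℕ) :
    ∃ L₀ : ℝ, ∀ L : ℝ, L₀ ≤ L → 3 ≤ L ∧ 8 * C / c ≤ L ∧
      Real.log C + E * Real.log L ≤ L ∧ E * Real.log L ≤ c * L ∧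
      D * L ^ E ≤ Real.exp (σ * L) := by
  have h1 : ∀ᶠ L : ℝ in Filter.atTop, 3 ≤ L := Filter.eventually_ge_atTop 3
  have h2 : ∀ᶠ L : ℝ in Filter.atTop, 8 * C / c ≤ L := Filter.eventually_ge_atTop _
  have h2' : ∀ᶠ L : ℝ in Filter.atTop, 2 * Real.log C ≤ L := Filter.eventually_ge_atTop _
  have hlog : ∀ ε : ℝ, 0 < ε → ∀ᶠ L : ℝ in Filter.atTop, Real.log L ≤ ε * L := by
    intro ε hε
    have h := Real.isLittleO_log_id_atTop.bound hε
    filter_upwards [h, h1] with L hL h3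
    have h4 : ‖Real.log L‖ = Real.log L := by
      rw [Real.norm_eq_abs, abs_of_nonneg (Real.log_nonneg (by linarith))]
    have h5 : ‖id L‖ = L := by
      rw [Real.norm_eq_abs, id, abs_of_nonneg (by linarith)]
    rw [h4, h5] at hL
    exact hL
  have hE : (0 : ℝ) < E + 1 := by positivity
  have h3 := hlog (1 / (2 * (E + 1))) (by positivity)
  have h4 := hlog (c / (E + 1)) (by positivity)
  have h5 : ∀ᶠ L : ℝ in Filter.atTop, L ^ E ≤ (1 / D) * Real.exp (σ * L) := by
    have h := (isLittleO_pow_exp_pos_mul_atTop (k := E) hσ).bound (show (0 : ℝ) < 1 / D by positivity)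
    filter_upwards [h, h1] with L hL h3
    have h4 : ‖L ^ E‖ = L ^ E := by
      rw [Real.norm_eq_abs, abs_of_nonneg (pow_nonneg (by linarith) _)]
    have h5 : ‖Real.exp (σ * L)‖ = Real.exp (σ * L) := by
      rw [Real.norm_eq_abs, abs_of_nonneg (Real.exp_nonneg _)]
    rw [h4, h5] at hL
    exact hL
  have hall := (h1.and (h2.and (h2'.and (h3.and (h4.and h5)))))
  obtain ⟨L₀, hL₀⟩ := Filter.eventually_atTop.1 hall
  refine ⟨L₀, fun L hL => ?_⟩
  obtain ⟨a1, a2, a3, a4, a5, a6⟩ := hL₀ L hL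
  have hL0 : 0 < L := by linarith
  have hlogL : 0 ≤ Real.log L := Real.log_nonneg (by linarith)
  have b1 : E * Real.log L ≤ L / 2 := by
    have h : (E : ℝ) * Real.log L ≤ (E + 1) * (1 / (2 * (E + 1)) * L) :=
      mul_le_mul (by linarith) a4 hlogL (by positivity)
    have h' : ((E : ℝ) + 1) * (1 / (2 * (E + 1)) * L) = L / 2 := by field_simp
    rw [h'] at h
    exact h
  have b2 : E * Real.log L ≤ c * L := by
    have h : (E : ℝ) * Real.log L ≤ (E + 1) * (c / (E + 1) * L) :=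
      mul_le_mul (by linarith) a5 hlogL (by positivity)
    have h' : ((E : ℝ) + 1) * (c / (E + 1) * L) = c * L := by field_simp
    rw [h'] at h
    exact h
  refine ⟨a1, a2, by linarith, b2, ?_⟩
  have h := mul_le_mul_of_nonneg_left a6 hD.le
  have h' : D * (1 / D * Real.exp (σ * L)) = Real.exp (σ * L) := by field_simp
  rw [h'] at h
  exact h

/-- ROW F16a.  Notation `L = log X`, `R = C P`, `l = ⌊L / log R⌋`, `N = n / l` (natural division),
`K = ⌊X⌋`; `e₀ ≥ 8/σ`.  For large `X`: `log P ≤ e₀ b log L` is much smaller than `L`, so `1 ≤ l ≤ L`, `n ≥ 2l`,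
so `N ≥ n/(2l) ≥ c P/(2 l log P)`.  `R^l ≤ X < R^(l+1)`.
`4^l (12K + 4R^{2l}/(c₀²K)) / N^l ≤ C₁ X (4/N)^l ≤ C₁ R^{l+1} (8 l log P/(cP))^l = C₁ R (8 C l log P/c)^l`,
`l log P ≤ L`, so this is `≤ C₁ R (8CL/c)^l ≤ C₁ R L^{2l}` and `L^{2l} = exp(2 l log L) ≤
exp(2 L log L/log P) ≤ exp(2L/e₀) ≤ X^{σ/4}`, `C₁ R ≤ C₁ C L^{e₀ b} ≤ X^{σ/4}`. -/
theorem numeric (c c₀ σ : ℝ) (hc : 0 < c) (hc₀ : 0 < c₀) (hσ : 0 < σ) (hσ1 : σ ≤ 1) (C b : ℕ) (hC : 1 ≤ C)
    (hb : 1 ≤ b) : ∃ e₀ : ℕ, 0 < e₀ ∧ ∃ X₀ : ℝ, ∀ X : ℝ, X₀ ≤ X → ∀ P : ℝ,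
      (Real.log X) ^ e₀ ≤ P → P ≤ ((Real.log X) ^ e₀) ^ b → ∀ n : ℕ, c * (P / Real.log P) ≤ n →
      ∃ l N : ℕ, 0 < l ∧ 0 < N ∧ l * N ≤ n ∧ (l : ℝ) ≤ Real.log X ∧
        4 ^ l * (12 * (⌊X⌋₊ : ℝ) + 4 * (C * P) ^ (2 * l) / (c₀ ^ 2 * ⌊X⌋₊)) / N ^ l ≤ X ^ (σ / 2) := by
  set e₀ : ℕ := max 2 ⌈8 / σ⌉₊ with he₀
  have he2 : 2 ≤ e₀ := le_max_left _ _
  have heσ : 8 / σ ≤ e₀ := (Nat.le_ceil _).trans (by exact_mod_cast le_max_right 2 ⌈8 / σ⌉₊)
  have he8 : 8 ≤ e₀ * σ := by
    rw [div_le_iff₀ hσ] at heσ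
    exact heσ
  refine ⟨e₀, by omega, ?_⟩
  set C₁ : ℝ := 12 + 8 / c₀ ^ 2 with hC₁
  have hC₁0 : 0 < C₁ := by positivity
  have hC' : (1 : ℝ) ≤ C := by exact_mod_cast hC
  obtain ⟨L₀, hL₀⟩ := F16a_large c (C₁ * C) (σ / 4) hc (by positivity) (by positivity) C (e₀ * b)
  refine ⟨Real.exp (max L₀ 3), fun X hX P hP1 hP2 n hn => ?_⟩
  have hX0 : 0 < X := (Real.exp_pos _).trans_le hX
  set L := Real.log X with hL
  have hLmax : max L₀ 3 ≤ L := by
    rw [hL, Real.le_log_iff_exp_le hX0]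
    exact hX
  obtain ⟨a1, a2, a3, a4, a5⟩ := hL₀ L ((le_max_left _ _).trans hLmax)
  have hL0 : 0 < L := by linarith
  have hXexp : X = Real.exp L := (Real.exp_log hX0).symm
  have hX4 : 4 ≤ X := by
    rw [hXexp]
    have := Real.add_one_le_exp L
    linarith
  -- P
  have hLe : L ≤ L ^ e₀ := by
    calc L = L ^ 1 := (pow_one L).symm
      _ ≤ L ^ e₀ := pow_le_pow_right₀ (by linarith) (by omega)
  have hP3 : 3 ≤ P := by linarith
  have hP0 : 0 < P := by linarith
  have hlogL1 : 1 ≤ Real.log L := by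
    rw [Real.le_log_iff_exp_le hL0]
    have := Real.exp_one_lt_d9
    linarith
  have hlogP1 : e₀ * Real.log L ≤ Real.log P := by
    have h := Real.log_le_log (by positivity) hP1
    rw [Real.log_pow] at h
    exact h
  have hlogP2 : Real.log P ≤ (e₀ * b : ℕ) * Real.log L := by
    have h := Real.log_le_log hP0 hP2
    rw [← pow_mul, Real.log_pow] at h
    exact h
  have hlogP0 : 1 ≤ Real.log P := by
    have h2e : (2 : ℝ) ≤ e₀ := by exact_mod_cast he2
    have h3e := mul_le_mul h2e hlogL1 zero_le_one (by linarith)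
    linarith
  set R : ℝ := C * P with hR
  have hR0 : 0 < R := by positivity
  have hPR : P ≤ R := by
    rw [hR]
    exact le_mul_of_one_le_left hP0.le hC'
  have hlogR : Real.log R = Real.log C + Real.log P := by
    rw [hR, Real.log_mul (by positivity) (by positivity)]
  have hlogC : 0 ≤ Real.log C := Real.log_nonneg hC'
  have hlogR1 : 1 ≤ Real.log R := by linarith
  have hlogR0 : 0 < Real.log R := by linarith
  have hlogRL : Real.log R ≤ L := by
    rw [hlogR]
    linarith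
  set l : ℕ := ⌊L / Real.log R⌋₊ with hl
  have hl1 : 1 ≤ l := by
    rw [hl, Nat.one_le_floor_iff, one_le_div hlogR0]
    exact hlogRL
  have hlle : (l : ℝ) ≤ L / Real.log R := Nat.floor_le (by positivity)
  have hllt : L / Real.log R < l + 1 := Nat.lt_floor_add_one _
  have hl0 : (0 : ℝ) < l := by exact_mod_cast hl1
  have hlR : l * Real.log R ≤ L := by
    rw [le_div_iff₀ hlogR0] at hlle
    exact hlle
  have hlL : (l : ℝ) ≤ L := (le_mul_of_one_le_right hl0.le hlogR1).trans hlR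
  have hLlR : L < (l + 1) * Real.log R := by
    rw [div_lt_iff₀ hlogR0] at hllt
    exact hllt
  -- n ≥ l
  have hlogPpos : 0 < Real.log P := by linarith
  have hnl : (L : ℝ) ≤ n := by
    refine le_trans ?_ hn
    rw [mul_div_assoc', le_div_iff₀ hlogPpos]
    have h1 : L * Real.log P ≤ L * (c * L) := by
      refine mul_le_mul_of_nonneg_left ?_ hL0.le
      linarith
    have h2 : L ^ 2 ≤ L ^ e₀ := pow_le_pow_right₀ (by linarith) he2
    have h3 : c * L ^ 2 ≤ c * P := mul_le_mul_of_nonneg_left (h2.trans hP1) hc.le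
    calc L * Real.log P ≤ L * (c * L) := h1
      _ = c * L ^ 2 := by ring
      _ ≤ c * P := h3
  have hln : l ≤ n := by
    have : (l : ℝ) ≤ n := hlL.trans hnl
    exact_mod_cast this
  set N : ℕ := n / l with hN
  have hN1 : 1 ≤ N := (Nat.one_le_div_iff (by omega)).2 hln
  have hlN : l * N ≤ n := Nat.mul_div_le n l
  have hN2 : (n : ℝ) ≤ 2 * l * N := by
    have h1 : n < l * N + l := by
      have := Nat.lt_mul_div_succ n (show 0 < l by omega)
      rw [hN]
      calc n < l * (n / l + 1) := this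
        _ = _ := by ring
    have h2 : l * N + l ≤ 2 * l * N := by
      have h2l : l ≤ l * N := Nat.le_mul_of_pos_right l hN1
      calc l * N + l ≤ l * N + l * N := Nat.add_le_add_left h2l _
        _ = _ := by ring
    have h3 : n ≤ 2 * l * N := by omega
    exact_mod_cast h3
  have hN0 : (0 : ℝ) < N := by exact_mod_cast hN1
  refine ⟨l, N, by omega, by omega, hlN, hlL, ?_⟩
  -- K
  set K : ℝ := (⌊X⌋₊ : ℝ) with hK
  have hK1 : K ≤ X := Nat.floor_le hX0.le
  have hK2 : X / 2 ≤ K := by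
    have := Nat.lt_floor_add_one X
    rw [← hK] at this
    linarith
  have hK0 : 0 < K := by linarith
  have hRl : R ^ l ≤ X := by
    rw [hXexp, ← Real.exp_log hR0, ← Real.exp_nat_mul]
    exact Real.exp_le_exp.2 hlR
  have hR2l : R ^ (2 * l) ≤ X ^ 2 := by
    rw [mul_comm 2 l, pow_mul]
    exact pow_le_pow_left₀ (by positivity) hRl 2
  have hXR : X ≤ R ^ (l + 1) := by
    rw [hXexp, ← Real.exp_log hR0, ← Real.exp_nat_mul]
    refine Real.exp_le_exp.2 ?_
    push_cast
    exact hLlR.le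
  have hbr : 12 * K + 4 * R ^ (2 * l) / (c₀ ^ 2 * K) ≤ C₁ * X := by
    have h1 : 4 * R ^ (2 * l) / (c₀ ^ 2 * K) ≤ 4 * X ^ 2 / (c₀ ^ 2 * (X / 2)) := by
      refine div_le_div₀ (by positivity) (by linarith) (by positivity) ?_
      exact mul_le_mul_of_nonneg_left hK2 (by positivity)
    have h2 : 4 * X ^ 2 / (c₀ ^ 2 * (X / 2)) = 8 / c₀ ^ 2 * X := by
      field_simp
      ring
    rw [h2] at h1
    rw [hC₁]
    linarith
  have hNP : 1 / (N : ℝ) ≤ 2 * l * Real.log P / (c * P) := by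
    rw [div_le_div_iff₀ hN0 (by positivity)]
    have h1 : c * P ≤ n * Real.log P := by
      rw [mul_div_assoc', div_le_iff₀ hlogPpos] at hn
      exact hn
    have h2 : (n : ℝ) * Real.log P ≤ 2 * l * N * Real.log P :=
      mul_le_mul_of_nonneg_right hN2 hlogPpos.le
    linarith
  have hstep : 4 ^ l * (12 * K + 4 * R ^ (2 * l) / (c₀ ^ 2 * K)) / (N : ℝ) ^ l ≤
      C₁ * R * (L ^ 2) ^ l := by
    calc 4 ^ l * (12 * K + 4 * R ^ (2 * l) / (c₀ ^ 2 * K)) / (N : ℝ) ^ l
        ≤ 4 ^ l * (C₁ * X) / (N : ℝ) ^ l := by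
          refine div_le_div_of_nonneg_right ?_ (by positivity)
          exact mul_le_mul_of_nonneg_left hbr (by positivity)
      _ ≤ 4 ^ l * (C₁ * R ^ (l + 1)) / (N : ℝ) ^ l := by
          refine div_le_div_of_nonneg_right ?_ (by positivity)
          refine mul_le_mul_of_nonneg_left ?_ (by positivity)
          exact mul_le_mul_of_nonneg_left hXR hC₁0.le
      _ = C₁ * R * (4 * R * (1 / (N : ℝ))) ^ l := by
          rw [mul_pow, mul_pow, one_div, inv_pow, pow_succ]
          ring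
      _ ≤ C₁ * R * (L ^ 2) ^ l := by
          refine mul_le_mul_of_nonneg_left ?_ (by positivity)
          refine pow_le_pow_left₀ (by positivity) ?_ l
          calc 4 * R * (1 / (N : ℝ)) ≤ 4 * R * (2 * l * Real.log P / (c * P)) :=
                mul_le_mul_of_nonneg_left hNP (by positivity)
            _ = 8 * C / c * (l * Real.log P) := by
                rw [hR]
                field_simp
                ring
            _ ≤ L * L := by
                refine mul_le_mul a2 ?_ (by positivity) hL0.le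
                have : (l : ℝ) * Real.log P ≤ l * Real.log R := by
                  refine mul_le_mul_of_nonneg_left ?_ hl0.le
                  linarith
                linarith
            _ = L ^ 2 := by ring
  have hL2l : (L ^ 2) ^ l ≤ Real.exp (σ / 4 * L) := by
    rw [← pow_mul, ← Real.exp_log (show 0 < L from hL0), ← Real.exp_nat_mul]
    rw [Real.exp_log hL0]
    refine Real.exp_le_exp.2 ?_
    push_cast
    have h1 : (l : ℝ) * (e₀ * Real.log L) ≤ L := by
      calc (l : ℝ) * (e₀ * Real.log L) ≤ l * Real.log R :=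
            mul_le_mul_of_nonneg_left (by linarith) hl0.le
        _ ≤ L := hlR
    have h3 : 0 ≤ (l : ℝ) * Real.log L := by positivity
    have h2 : 8 * ((l : ℝ) * Real.log L) ≤ σ * L := by
      calc 8 * ((l : ℝ) * Real.log L) ≤ (e₀ * σ) * ((l : ℝ) * Real.log L) :=
            mul_le_mul_of_nonneg_right he8 h3
        _ = σ * (l * (e₀ * Real.log L)) := by ring
        _ ≤ σ * L := mul_le_mul_of_nonneg_left h1 hσ.le
    linarith
  have hCR : C₁ * R ≤ Real.exp (σ / 4 * L) := by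
    refine le_trans ?_ a5
    rw [hR, ← mul_assoc]
    refine mul_le_mul_of_nonneg_left ?_ (by positivity)
    rw [pow_mul]
    exact hP2
  have hfin : X ^ (σ / 2) = Real.exp (σ / 4 * L) * Real.exp (σ / 4 * L) := by
    rw [← Real.exp_add, Real.rpow_def_of_pos hX0, ← hL]
    congr 1
    ring
  rw [hfin]
  refine hstep.trans ?_
  exact mul_le_mul hCR hL2l (by positivity) (Real.exp_nonneg _)

end Pool.Agent.Lib.MP_648c71_nt.HP
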