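import Pool.Agent.Lib.MP_648c71_nt.HP.F7

/-! Row F8 (about 100 lines): counting the large values of a product of blocks. -/

set_option autoImplicit false

namespace Pool.Agent.Lib.MP_648c71_nt.HP

open Finset MeasureTheory


/-- the block polynomial -/
noncomputable def GG (𝒮 : Sys) {N : ℕ} (Z : Fin N → 𝒮.M) (k : ℤ) : ℂ :=
  (∑ j, (𝒮.g (Z j) : ℂ) * ee (k * 𝒮.ang (Z j))) / N

/-- norm of a product -/
theorem F8_nm_prod (𝒮 : Sys) (P : ℝ) (hP : 1 ≤ P) : ∀ (l : ℕ) (w : Fin l → 𝒮.M),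
    (∀ i, (𝒮.nm (w i) : ℝ) ≤ P) → (𝒮.nm 1 : ℝ) ≤ 1 → (𝒮.nm (∏ i, w i) : ℝ) ≤ P ^ l := by
  intro l
  induction l with
  | zero =>
    intro w _ h1
    simpa using h1
  | succ l ih =>
    intro w hw h1
    rw [Fin.prod_univ_succ, 𝒮.nm_mul, pow_succ']
    push_cast
    have h2 := ih (fun i => w i.succ) (fun i => hw i.succ) h1
    exact mul_le_mul (hw 0) h2 (by positivity) (by linarith)

/-- the norm of one is one -/
theorem F8_nm_one (𝒮 : Sys) : 𝒮.nm 1 = 1 := by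
  have h := 𝒮.nm_mul 1 1
  rw [mul_one] at h
  have hp := 𝒮.nm_pos 1
  nlinarith

/-- angle of a product -/
theorem F8_ang_prod (𝒮 : Sys) : ∀ (l : ℕ) (w : Fin l → 𝒮.M),
    ∃ n : ℤ, 𝒮.ang (∏ i, w i) = ∑ i, 𝒮.ang (w i) + n := by
  intro l
  induction l with
  | zero =>
    intro w
    obtain ⟨k, hk⟩ := 𝒮.ang_mul 1 1
    rw [mul_one] at hk
    refine ⟨-k, ?_⟩
    simp only [Finset.univ_eq_empty, Finset.prod_empty, Finset.sum_empty]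
    push_cast
    linarith
  | succ l ih =>
    intro w
    obtain ⟨n, hn⟩ := ih (fun i => w i.succ)
    obtain ⟨k, hk⟩ := 𝒮.ang_mul (w 0) (∏ i : Fin l, w i.succ)
    refine ⟨n + k, ?_⟩
    rw [Fin.prod_univ_succ, Fin.sum_univ_succ, hk, hn]
    push_cast
    ring

/-- `e` of a sum -/
theorem F8_ee_sum : ∀ (l : ℕ) (x : Fin l → ℝ), ee (∑ i, x i) = ∏ i, ee (x i) := by
  intro l
  induction l with
  | zero =>
    intro x
    simp [ee_zero]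
  | succ l ih =>
    intro x
    rw [Fin.sum_univ_succ, Fin.prod_univ_succ, ee_add, ih]

/-- the character of a product -/
theorem F8_ee_prod (𝒮 : Sys) (l : ℕ) (w : Fin l → 𝒮.M) (k : ℤ) :
    ee (k * 𝒮.ang (∏ i, w i)) = ∏ i, ee (k * 𝒮.ang (w i)) := by
  obtain ⟨n, hn⟩ := F8_ang_prod 𝒮 l w
  rw [hn, mul_add]
  have h1 : (k : ℝ) * (n : ℝ) = ((k * n : ℤ) : ℝ) := by push_cast; ring
  rw [h1, ee_add_int, Finset.mul_sum, F8_ee_sum]

/-- the product of the blocks as a single exponential sum -/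
theorem F8_prod_eq (𝒮 : Sys) (l N : ℕ) (Z : Fin l → Fin N → 𝒮.M) (k : ℤ) :
    ∑ t : Fin l → Fin N, (((∏ i, 𝒮.g (Z i (t i)) : ℝ)) : ℂ) * ee (k * 𝒮.ang (∏ i, Z i (t i))) =
      ∏ i, ∑ j, (𝒮.g (Z i j) : ℂ) * ee (k * 𝒮.ang (Z i j)) := by
  rw [Finset.prod_univ_sum]
  rw [Fintype.piFinset_univ]
  refine Finset.sum_congr rfl (fun t _ => ?_)
  rw [F8_ee_prod, Complex.ofReal_prod, ← Finset.prod_mul_distrib]

/-- ROW F8.  `∏_i GG(Z i) k = N^{-l} ∑_t (∏_i g(Z i (t i))) e(k ang(∏_i Z i (t i)))` over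
`t : Fin l → Fin N` (`Finset.prod_univ_sum`; `ang` of a product is the sum mod 1, `ee_add_int`), the
angles of the products are separated by `δ = c0 / P^l` (`sep`, `hind`, norms `≤ P^l`), so by `large_sieve`
`∑_{|k| ≤ K} ∏_i |GG|² ≤ (12K + 4P^{2l}/(c0² K)) N^{-l}`; each counted `k` contributes `≥ 4^{-l}`. -/
theorem count_large (𝒮 : Sys) (l N : ℕ) (hN : 0 < N) (Z : Fin l → Fin N → 𝒮.M) (P : ℝ) (hP : 1 ≤ P)
    (hnm : ∀ i j, (𝒮.nm (Z i j) : ℝ) ≤ P)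
    (hind : ∀ t t' : Fin l → Fin N,
      (∃ k : ℤ, 𝒮.ang (∏ i, Z i (t i)) - 𝒮.ang (∏ i, Z i (t' i)) = k) → t = t')
    (K : ℕ) (hK : 0 < K) :
    (((Finset.Icc (-(K : ℤ)) K).filter (fun k => ∀ i, 1 / 2 ≤ (GG 𝒮 (Z i) k).re)).card : ℝ) ≤
      4 ^ l * (12 * K + 4 * P ^ (2 * l) / (𝒮.c0 ^ 2 * K)) / N ^ l := by
  have hPl : (0 : ℝ) < P ^ l := by positivity
  have hc0 := 𝒮.c0_pos
  have hNr : (0 : ℝ) < N := by exact_mod_cast hN
  have hNl : (0 : ℝ) < (N : ℝ) ^ l := by positivity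
  have h1 : (𝒮.nm 1 : ℝ) ≤ 1 := by rw [F8_nm_one]; norm_num
  have hnorm : ∀ t : Fin l → Fin N, (𝒮.nm (∏ i, Z i (t i)) : ℝ) ≤ P ^ l := fun t =>
    F8_nm_prod 𝒮 P hP l (fun i => Z i (t i)) (fun i => hnm i (t i)) h1
  have hsep : ∀ t t' : Fin l → Fin N, t ≠ t' → ∀ k : ℤ,
      𝒮.c0 / P ^ l ≤ |𝒮.ang (∏ i, Z i (t i)) - 𝒮.ang (∏ i, Z i (t' i)) - k| := by
    intro t t' htt k
    rcases 𝒮.sep (∏ i, Z i (t i)) (∏ i, Z i (t' i)) with h | h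
    · exact absurd (hind t t' h) htt
    · have h2 := h k
      have h3 : Real.sqrt ((𝒮.nm (∏ i, Z i (t i)) : ℝ) * 𝒮.nm (∏ i, Z i (t' i))) ≤ P ^ l := by
        rw [show P ^ l = Real.sqrt (P ^ l * P ^ l) from (Real.sqrt_mul_self hPl.le).symm]
        apply Real.sqrt_le_sqrt
        exact mul_le_mul (hnorm t) (hnorm t') (by positivity) hPl.le
      rw [div_le_iff₀ hPl]
      exact h2.trans (mul_le_mul_of_nonneg_left h3 (abs_nonneg _))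
  have hls := large_sieve (ι := Fin l → Fin N) (fun t => 𝒮.ang (∏ i, Z i (t i)))
    (𝒮.c0 / P ^ l) (by positivity) hsep
    (fun t => (((∏ i, 𝒮.g (Z i (t i)) : ℝ)) : ℂ)) K hK
  have ha : ∀ t : Fin l → Fin N, ‖(((∏ i, 𝒮.g (Z i (t i)) : ℝ)) : ℂ)‖ ^ 2 = 1 := by
    intro t
    rw [Complex.norm_real, Real.norm_eq_abs, sq_abs, ← Finset.prod_pow]
    refine Finset.prod_eq_one (fun i _ => ?_)
    rcases 𝒮.g_or (Z i (t i)) with h | h <;> rw [h] <;> norm_num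
  have hsum : ∑ t : Fin l → Fin N, ‖(((∏ i, 𝒮.g (Z i (t i)) : ℝ)) : ℂ)‖ ^ 2 = (N : ℝ) ^ l := by
    rw [Finset.sum_congr rfl (fun t _ => ha t)]
    simp
  rw [hsum] at hls
  have hterm : ∀ k : ℤ,
      ‖∑ t : Fin l → Fin N, (((∏ i, 𝒮.g (Z i (t i)) : ℝ)) : ℂ) *
        ee (k * 𝒮.ang (∏ i, Z i (t i)))‖ ^ 2 = ((N : ℝ) ^ l) ^ 2 * ∏ i, ‖GG 𝒮 (Z i) k‖ ^ 2 := by
    intro k
    rw [F8_prod_eq]
    have h4 : ∀ i, ∑ j, (𝒮.g (Z i j) : ℂ) * ee (k * 𝒮.ang (Z i j)) = (N : ℂ) * GG 𝒮 (Z i) k := by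
      intro i
      rw [GG]
      have : (N : ℂ) ≠ 0 := by exact_mod_cast hN.ne'
      field_simp
    rw [Finset.prod_congr rfl (fun i _ => h4 i), Finset.prod_mul_distrib, norm_mul, mul_pow,
      norm_prod]
    rw [Finset.prod_const, Finset.card_univ, Fintype.card_fin, Complex.norm_natCast, norm_prod,
      Finset.prod_pow]
  simp only [hterm] at hls
  rw [← Finset.mul_sum] at hls
  -- lower bound for the sum
  have hlow : (((Finset.Icc (-(K : ℤ)) K).filter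
      (fun k => ∀ i, 1 / 2 ≤ (GG 𝒮 (Z i) k).re)).card : ℝ) * (1 / 4) ^ l ≤
      ∑ k ∈ Finset.Icc (-(K : ℤ)) K, ∏ i, ‖GG 𝒮 (Z i) k‖ ^ 2 := by
    rw [← nsmul_eq_mul, ← Finset.sum_const]
    calc ∑ k ∈ (Finset.Icc (-(K : ℤ)) K).filter (fun k => ∀ i, 1 / 2 ≤ (GG 𝒮 (Z i) k).re),
          ((1 : ℝ) / 4) ^ l
        ≤ ∑ k ∈ (Finset.Icc (-(K : ℤ)) K).filter (fun k => ∀ i, 1 / 2 ≤ (GG 𝒮 (Z i) k).re),
          ∏ i, ‖GG 𝒮 (Z i) k‖ ^ 2 := by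
          refine Finset.sum_le_sum (fun k hk => ?_)
          rw [Finset.mem_filter] at hk
          calc ((1 : ℝ) / 4) ^ l = ∏ _i : Fin l, ((1 : ℝ) / 4) := by simp
            _ ≤ ∏ i, ‖GG 𝒮 (Z i) k‖ ^ 2 := by
              refine Finset.prod_le_prod (fun _ _ => by norm_num) (fun i _ => ?_)
              have h5 := hk.2 i
              have h6 : (1 : ℝ) / 2 ≤ ‖GG 𝒮 (Z i) k‖ := h5.trans (Complex.re_le_norm _)
              nlinarith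
      _ ≤ _ := by
          refine Finset.sum_le_sum_of_subset_of_nonneg (Finset.filter_subset _ _) ?_
          intro k _ _
          positivity
  have hfin : (∑ k ∈ Finset.Icc (-(K : ℤ)) K, ∏ i, ‖GG 𝒮 (Z i) k‖ ^ 2) ≤
      (12 * K + 4 / ((𝒮.c0 / P ^ l) ^ 2 * K)) / (N : ℝ) ^ l := by
    rw [le_div_iff₀ hNl]
    have h7 : ((N : ℝ) ^ l) * ((∑ k ∈ Finset.Icc (-(K : ℤ)) K, ∏ i, ‖GG 𝒮 (Z i) k‖ ^ 2) *
        (N : ℝ) ^ l) ≤ (N : ℝ) ^ l * (12 * K + 4 / ((𝒮.c0 / P ^ l) ^ 2 * K)) := by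
      nlinarith [hls]
    exact le_of_mul_le_mul_left h7 hNl
  have hKr : (0 : ℝ) < K := by exact_mod_cast hK
  have h8 : 4 / ((𝒮.c0 / P ^ l) ^ 2 * K) = 4 * P ^ (2 * l) / (𝒮.c0 ^ 2 * K) := by
    rw [div_pow, pow_mul']
    field_simp
  rw [h8] at hfin
  have h9 := hlow.trans hfin
  have h10 : ((1 : ℝ) / 4) ^ l = 1 / 4 ^ l := by rw [div_pow, one_pow]
  rw [h10, mul_one_div, div_le_iff₀ (by positivity)] at h9
  calc _ ≤ _ := h9
    _ = _ := by ring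

end Pool.Agent.Lib.MP_648c71_nt.HP
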