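import Pool.Agent.Lib.MP_648c71_nt.HP.F6
import Pool.Agent.Lib.MP_648c71_nt.HP.F8
import Pool.Agent.Lib.MP_648c71_nt.HP.F16a

set_option autoImplicit false

namespace Pool.Agent.Lib.MP_648c71_nt.HP

/-! Row F16b (about 120 lines): the prime family. -/

open Finset MeasureTheory

theorem f16b_nm_one (𝒮 : Sys) : 𝒮.nm 1 = 1 := by
  have h1 := 𝒮.nm_mul 1 1
  rw [mul_one] at h1
  have h2 := 𝒮.nm_pos 1
  exact (Nat.eq_of_mul_eq_mul_left h2 (by rw [mul_one]; exact h1)).symm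

theorem f16b_nm_prod (𝒮 : Sys) {ι : Type} (A : Finset ι) (f : ι → 𝒮.M) :
    𝒮.nm (∏ i ∈ A, f i) = ∏ i ∈ A, 𝒮.nm (f i) := by
  classical
  induction A using Finset.induction_on with
  | empty => simp [f16b_nm_one]
  | insert a A ha ih => rw [prod_insert ha, prod_insert ha, 𝒮.nm_mul, ih]

theorem family (𝒮 : Sys) (hpr : ∃ c : ℝ, ∃ C b : ℕ, 0 < c ∧ 1 ≤ C ∧ 1 ≤ b ∧ ∃ y₀ : ℝ, ∀ y : ℝ, y₀ ≤ y →
      ∃ P : ℝ, y ≤ P ∧ P ≤ y ^ b ∧ ∃ Pr : Finset ℕ, PrimeSet 𝒮 c C P Pr)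
    (σ : ℝ) (hσ : 0 < σ) (hσ1 : σ ≤ 1) :
    ∃ E : ℕ, ∃ X₀ : ℝ, ∀ X : ℝ, X₀ ≤ X → ∃ l N : ℕ, 0 < l ∧ 0 < N ∧ (l : ℝ) ≤ Real.log X ∧
      ∃ Z : Fin l → Fin N → 𝒮.M, (∀ i j, (𝒮.nm (Z i j) : ℝ) ≤ (Real.log X) ^ E) ∧
        (((Finset.Icc (-(⌊X⌋₊ : ℤ)) ⌊X⌋₊).filter (fun k => ∀ i, 1 / 2 ≤ (GG 𝒮 (Z i) k).re)).card : ℝ) ≤
          X ^ (σ / 2) := by
  classical
  obtain ⟨c, C, b, hc, hC, hb, y₀, hy₀⟩ := hpr
  obtain ⟨e₀, he₀, X₁, hX₁⟩ := numeric c 𝒮.c0 σ hc 𝒮.c0_pos hσ hσ1 C b hC hb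
  refine ⟨e₀ * b + 1, max X₁ (Real.exp (max (max 1 C) y₀)), fun X hX => ?_⟩
  have hXX₁ : X₁ ≤ X := (le_max_left _ _).trans hX
  have hXe : Real.exp (max (max 1 C) y₀) ≤ X := (le_max_right _ _).trans hX
  have hXp : 0 < X := lt_of_lt_of_le (Real.exp_pos _) hXe
  have hlog : max (max 1 (C : ℝ)) y₀ ≤ Real.log X := (Real.le_log_iff_exp_le hXp).mpr hXe
  have hlog1 : 1 ≤ Real.log X := ((le_max_left _ _).trans (le_max_left _ _)).trans hlog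
  have hlogC : (C : ℝ) ≤ Real.log X := ((le_max_right _ _).trans (le_max_left _ _)).trans hlog
  have hlogy : y₀ ≤ Real.log X := (le_max_right _ _).trans hlog
  have hX1 : 1 ≤ X := by
    by_contra hcon
    rw [not_le] at hcon
    have := Real.log_nonpos hXp.le hcon.le
    linarith
  have hy : y₀ ≤ (Real.log X) ^ e₀ := hlogy.trans (le_self_pow₀ hlog1 he₀.ne')
  obtain ⟨P, hP1, hP2, Pr, hPr, hcard⟩ := hy₀ _ hy
  obtain ⟨l, N, hl, hN, hlN, hll, hbound⟩ := hX₁ X hXX₁ P hP1 hP2 Pr.card hcard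
  have hCr : (1 : ℝ) ≤ C := by exact_mod_cast hC
  have hPge : 1 ≤ P := (one_le_pow₀ hlog1).trans hP1
  have hCP : 1 ≤ C * P := by nlinarith
  have hCPle : C * P ≤ (Real.log X) ^ (e₀ * b + 1) := by
    rw [pow_succ, pow_mul, mul_comm]
    exact mul_le_mul hP2 hlogC (by positivity) (by positivity)
  -- the injection
  obtain ⟨f⟩ : Nonempty (Fin l × Fin N ↪ Pr) := by
    apply Function.Embedding.nonempty_of_card_le
    rw [Fintype.card_prod, Fintype.card_fin, Fintype.card_fin, Fintype.card_coe]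
    exact hlN
  obtain ⟨e, he⟩ : ∃ e : Fin l × Fin N → ℕ, e = fun x => (f x : ℕ) := ⟨_, rfl⟩
  have heinj : Function.Injective e := by
    intro x y hxy
    rw [he] at hxy
    exact f.injective (Subtype.ext hxy)
  have hemem : ∀ x, e x ∈ Pr := by
    intro x
    rw [he]
    exact (f x).2
  have hch : ∀ x : Fin l × Fin N, ∃ z : 𝒮.M, ∃ t : ℕ, 𝒮.nm z = e x * t ∧ 1 ≤ t ∧ t ≤ C :=
    fun x => (hPr (e x) (hemem x)).2.2.2
  choose z s hzs using hch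
  refine ⟨l, N, hl, hN, hll, fun i j => z (i, j), ?_, ?_⟩
  · intro i j
    refine le_trans ?_ hCPle
    rw [(hzs (i, j)).1]
    push_cast
    have h1 : (e (i, j) : ℝ) ≤ P := (hPr _ (hemem (i, j))).2.2.1
    have h2 : (s (i, j) : ℝ) ≤ C := by exact_mod_cast (hzs (i, j)).2.2
    calc (e (i, j) : ℝ) * s (i, j) ≤ P * C := mul_le_mul h1 h2 (by positivity) (by linarith)
      _ = C * P := by ring
  · have hnm : ∀ (i : Fin l) (j : Fin N), (𝒮.nm (z (i, j)) : ℝ) ≤ C * P := by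
      intro i j
      rw [(hzs (i, j)).1]
      push_cast
      have h1 : (e (i, j) : ℝ) ≤ P := (hPr _ (hemem (i, j))).2.2.1
      have h2 : (s (i, j) : ℝ) ≤ C := by exact_mod_cast (hzs (i, j)).2.2
      calc (e (i, j) : ℝ) * s (i, j) ≤ P * C := mul_le_mul h1 h2 (by positivity) (by linarith)
        _ = C * P := by ring
    have hind : ∀ t t' : Fin l → Fin N,
        (∃ k : ℤ, 𝒮.ang (∏ i, z (i, t i)) - 𝒮.ang (∏ i, z (i, t' i)) = k) → t = t' := by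
      intro t t' h
      obtain ⟨a, b', ha, hb', hab⟩ := 𝒮.dir _ _ h
      refine indep l N e heinj (fun x => (hPr _ (hemem x)).1) s (fun x y => ?_) a b' ha hb' t t' ?_
      · exact ⟨(hzs x).2.1, lt_of_le_of_lt (hzs x).2.2 (hPr _ (hemem y)).2.1⟩
      · rw [f16b_nm_prod, f16b_nm_prod] at hab
        rw [prod_congr rfl fun i _ => (hzs (i, t i)).1,
          prod_congr rfl fun i _ => (hzs (i, t' i)).1] at hab
        exact hab
    have hK : 0 < ⌊X⌋₊ := Nat.floor_pos.mpr hX1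
    exact (count_large 𝒮 l N hN (fun i j => z (i, j)) (C * P) hCP hnm hind ⌊X⌋₊ hK).trans hbound

end Pool.Agent.Lib.MP_648c71_nt.HP
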