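import Pool.Agent.Lib.MP_648c71_nt.HP.Defs

/-! Row F3 (about 60 lines): measure of a neighbourhood of a point of the circle. -/

set_option autoImplicit false

namespace Pool.Agent.Lib.MP_648c71_nt.HP

open Finset MeasureTheory

/-- ROW F3.  The set of `θ ∈ [0,1)` within `δ` of `β` modulo 1 has measure at most `2δ`.
The set is the union over `k` of the translates of `[k, k+1) ∩ [β-δ, β+δ]`, which are disjoint. -/
theorem volume_near (β δ : ℝ) (hδ : 0 ≤ δ) :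
    volume {θ : ℝ | θ ∈ Set.Ico (0 : ℝ) 1 ∧ ∃ k : ℤ, |θ - β - k| ≤ δ} ≤ ENNReal.ofReal (2 * δ) := by
  let T : ℤ → Set ℝ := fun k => Set.Ico (k : ℝ) (k + 1) ∩ Set.Icc (β - δ) (β + δ)
  have hsub : {θ : ℝ | θ ∈ Set.Ico (0 : ℝ) 1 ∧ ∃ k : ℤ, |θ - β - k| ≤ δ} ⊆
      ⋃ k : ℤ, (fun θ : ℝ => θ + (k : ℝ)) ⁻¹' T k := by
    rintro θ ⟨h1, k, hk⟩
    rw [Set.mem_iUnion]
    refine ⟨-k, ?_⟩
    rw [abs_le] at hk
    have h2 := h1.1
    have h3 := h1.2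
    simp only [T, Set.mem_preimage, Set.mem_inter_iff, Set.mem_Ico, Set.mem_Icc]
    push_cast
    refine ⟨⟨by linarith, by linarith⟩, by linarith, by linarith⟩
  have hdis : Pairwise (Function.onFun Disjoint T) := by
    intro i j hij
    exact (Set.pairwise_disjoint_Ico_intCast ℝ hij).mono Set.inter_subset_left
      Set.inter_subset_left
  have hmeas : ∀ k, MeasurableSet (T k) := fun k => measurableSet_Ico.inter measurableSet_Icc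
  calc volume {θ : ℝ | θ ∈ Set.Ico (0 : ℝ) 1 ∧ ∃ k : ℤ, |θ - β - k| ≤ δ}
      ≤ volume (⋃ k : ℤ, (fun θ : ℝ => θ + (k : ℝ)) ⁻¹' T k) := measure_mono hsub
    _ ≤ ∑' k : ℤ, volume ((fun θ : ℝ => θ + (k : ℝ)) ⁻¹' T k) := measure_iUnion_le _
    _ = ∑' k : ℤ, volume (T k) := by
        refine tsum_congr fun k => measure_preimage_add_right _ _ _
    _ = volume (⋃ k : ℤ, T k) := (measure_iUnion hdis hmeas).symm
    _ ≤ volume (Set.Icc (β - δ) (β + δ)) :=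
        measure_mono (Set.iUnion_subset fun k => Set.inter_subset_right)
    _ = ENNReal.ofReal (2 * δ) := by
        rw [Real.volume_Icc]
        congr 1
        ring

/-- ROW F3.  Union over a finite set of points. -/
theorem volume_near_finset (Js : Finset ℝ) (α δ : ℝ) (hδ : 0 ≤ δ) :
    volume {θ : ℝ | θ ∈ Set.Ico (0 : ℝ) 1 ∧ ∃ j ∈ Js, ∃ k : ℤ, |θ + α - j - k| ≤ δ} ≤
      ENNReal.ofReal (2 * δ * Js.card) := by
  have hsub : {θ : ℝ | θ ∈ Set.Ico (0 : ℝ) 1 ∧ ∃ j ∈ Js, ∃ k : ℤ, |θ + α - j - k| ≤ δ} ⊆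
      ⋃ j ∈ Js, {θ : ℝ | θ ∈ Set.Ico (0 : ℝ) 1 ∧ ∃ k : ℤ, |θ - (j - α) - k| ≤ δ} := by
    rintro θ ⟨h1, j, hj, k, hk⟩
    rw [Set.mem_iUnion₂]
    refine ⟨j, hj, h1, k, ?_⟩
    have h2 : θ - (j - α) - k = θ + α - j - k := by ring
    rw [h2]
    exact hk
  calc volume {θ : ℝ | θ ∈ Set.Ico (0 : ℝ) 1 ∧ ∃ j ∈ Js, ∃ k : ℤ, |θ + α - j - k| ≤ δ}
      ≤ volume (⋃ j ∈ Js, {θ : ℝ | θ ∈ Set.Ico (0 : ℝ) 1 ∧ ∃ k : ℤ, |θ - (j - α) - k| ≤ δ}) :=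
        measure_mono hsub
    _ ≤ ∑ j ∈ Js, volume {θ : ℝ | θ ∈ Set.Ico (0 : ℝ) 1 ∧ ∃ k : ℤ, |θ - (j - α) - k| ≤ δ} :=
        measure_biUnion_finset_le _ _
    _ ≤ ∑ _j ∈ Js, ENNReal.ofReal (2 * δ) := Finset.sum_le_sum fun j _ => volume_near _ _ hδ
    _ = ENNReal.ofReal (2 * δ * Js.card) := by
        rw [Finset.sum_const, nsmul_eq_mul, mul_comm (2 * δ) _,
          ENNReal.ofReal_mul (Nat.cast_nonneg _), ENNReal.ofReal_natCast]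

end Pool.Agent.Lib.MP_648c71_nt.HP
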