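import Pool.Agent.Lib.MP_648c71_nt.HP.Defs
import Pool.Agent.Lib.MP_648c71_nt.HP.F3

/-! Row F4 (about 90 lines): rigidity, the measure bound. -/

set_option autoImplicit false

namespace Pool.Agent.Lib.MP_648c71_nt.HP

open Finset MeasureTheory

theorem F4_per_int {S : ℝ → ℝ} {Js : Finset ℝ} (hS : Step S Js) (t : ℝ) (k : ℤ) :
    S (t + k) = S t := by
  have hp : Function.Periodic S 1 := hS.per
  have h := hp.int_mul k t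
  rwa [mul_one] at h

theorem F4_close {S : ℝ → ℝ} {Js : Finset ℝ} (hS : Step S Js) {θ φ δ : ℝ} (h : |φ - θ| ≤ δ)
    (hn : ¬ ∃ j ∈ Js, ∃ k : ℤ, |θ - j - k| ≤ δ) : S θ = S φ := by
  have key : ∀ j ∈ Js, ∀ k : ℤ, ¬ (min θ φ < j + k ∧ j + k ≤ max θ φ) := by
    intro j hj k hjk
    refine hn ⟨j, hj, k, ?_⟩
    rw [abs_le] at h ⊢
    rcases le_total θ φ with hle | hle
    · rw [min_eq_left hle, max_eq_right hle] at hjk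
      constructor <;> linarith [hjk.1, hjk.2, h.1, h.2]
    · rw [min_eq_right hle, max_eq_left hle] at hjk
      constructor <;> linarith [hjk.1, hjk.2, h.1, h.2]
  have h1 := hS.const (min θ φ) (max θ φ) (min_le_max) key
  rcases le_total θ φ with hle | hle
  · rwa [min_eq_left hle, max_eq_right hle] at h1
  · rw [min_eq_right hle, max_eq_left hle] at h1
    exact h1.symm

/-- ROW F4.  Rigidity.  Let `x = X / nm w`, `δ = Λ/x = Λ nm w / X`.  A point `θ ∈ [0,1)` outside the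
three sets
* no `z` with `nm z ≤ x`, `|ang z - θ - k| ≤ δ` (measure `≤ C/Λ` by `Gap`),
* `θ` within `δ` of a jump mod 1, `θ + ang w` within `δ` of a jump mod 1 (`volume_near_finset`)
satisfies `S(θ + ang w) = g(w) S(θ)`: with `φ = ang z - k`, `S φ = S (ang z) = g z`,
`S(φ + ang w) = S(ang (z*w)) = g z * g w` (`nm (z*w) ≤ X`, `ang_mul`, periodicity),
and `S θ = S φ`, `S(θ + ang w) = S(φ + ang w)` because there is no jump between. -/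
theorem rigid_volume (𝒮 : Sys) (C : ℝ) (hC : 0 < C) (hgap : Gap 𝒮 C) (X c1 : ℝ) (S : ℝ → ℝ)
    (Js : Finset ℝ) (hS : Step S Js) (hF : Fits 𝒮 X c1 S Js) (w : 𝒮.M) (hw : (𝒮.nm w : ℝ) ≤ X)
    (Λ : ℝ) (hΛ : 1 ≤ Λ) :
    volume {θ : ℝ | θ ∈ Set.Ico (0 : ℝ) 1 ∧ S (θ + 𝒮.ang w) ≠ 𝒮.g w * S θ} ≤
      ENNReal.ofReal (C / Λ + 4 * Js.card * Λ * 𝒮.nm w / X) := by
  have hn0 : (0 : ℝ) < 𝒮.nm w := by exact_mod_cast 𝒮.nm_pos w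
  have hX : 0 < X := lt_of_lt_of_le hn0 hw
  have hΛ0 : 0 < Λ := lt_of_lt_of_le one_pos hΛ
  have hx1 : 1 ≤ X / 𝒮.nm w := by rwa [le_div_iff₀ hn0, one_mul]
  have hδ0 : 0 ≤ Λ / (X / 𝒮.nm w) := div_nonneg hΛ0.le (le_trans zero_le_one hx1)
  have hA1 := hgap (X / 𝒮.nm w) Λ hx1 hΛ
  have hA2 := volume_near_finset Js 0 (Λ / (X / 𝒮.nm w)) hδ0
  have hA3 := volume_near_finset Js (𝒮.ang w) (Λ / (X / 𝒮.nm w)) hδ0
  have hsub : {θ : ℝ | θ ∈ Set.Ico (0 : ℝ) 1 ∧ S (θ + 𝒮.ang w) ≠ 𝒮.g w * S θ} ⊆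
      ({θ : ℝ | θ ∈ Set.Ico (0 : ℝ) 1 ∧ ∀ z : 𝒮.M, (𝒮.nm z : ℝ) ≤ X / 𝒮.nm w → ∀ k : ℤ,
        Λ / (X / 𝒮.nm w) < |𝒮.ang z - θ - k|} ∪
      {θ : ℝ | θ ∈ Set.Ico (0 : ℝ) 1 ∧ ∃ j ∈ Js, ∃ k : ℤ, |θ + 0 - j - k| ≤ Λ / (X / 𝒮.nm w)}) ∪
      {θ : ℝ | θ ∈ Set.Ico (0 : ℝ) 1 ∧ ∃ j ∈ Js, ∃ k : ℤ,
        |θ + 𝒮.ang w - j - k| ≤ Λ / (X / 𝒮.nm w)} := by
    rintro θ ⟨hθ, hne⟩
    by_contra hcon
    simp only [Set.mem_union, not_or] at hcon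
    obtain ⟨⟨h1, h2⟩, h3⟩ := hcon
    have h1' : ∃ z : 𝒮.M, (𝒮.nm z : ℝ) ≤ X / 𝒮.nm w ∧ ∃ k : ℤ,
        |𝒮.ang z - θ - k| ≤ Λ / (X / 𝒮.nm w) := by
      by_contra hc
      refine h1 ⟨hθ, fun z hz k => ?_⟩
      by_contra hk
      exact hc ⟨z, hz, k, not_lt.mp hk⟩
    obtain ⟨z, hz, k, hk⟩ := h1'
    have hφ : |(𝒮.ang z - k) - θ| ≤ Λ / (X / 𝒮.nm w) := by
      rwa [sub_right_comm]
    have h2' : ¬ ∃ j ∈ Js, ∃ k : ℤ, |θ - j - k| ≤ Λ / (X / 𝒮.nm w) := by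
      rintro ⟨j, hj, l, hl⟩
      exact h2 ⟨hθ, j, hj, l, by rwa [add_zero]⟩
    have h3' : ¬ ∃ j ∈ Js, ∃ k : ℤ, |θ + 𝒮.ang w - j - k| ≤ Λ / (X / 𝒮.nm w) := by
      rintro ⟨j, hj, l, hl⟩
      exact h3 ⟨hθ, j, hj, l, hl⟩
    have e1 : S θ = S (𝒮.ang z - k) := F4_close hS hφ h2'
    have hφ2 : |(𝒮.ang z - k + 𝒮.ang w) - (θ + 𝒮.ang w)| ≤ Λ / (X / 𝒮.nm w) := by
      rwa [add_sub_add_right_eq_sub]
    have e2 : S (θ + 𝒮.ang w) = S (𝒮.ang z - k + 𝒮.ang w) := F4_close hS hφ2 h3'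
    have hzX : (𝒮.nm z : ℝ) ≤ X :=
      hz.trans (div_le_self hX.le (by exact_mod_cast 𝒮.nm_pos w))
    have e3 : S (𝒮.ang z - k) = 𝒮.g z := by
      rw [← hF.1 z hzX]
      have := F4_per_int hS (𝒮.ang z) (-k)
      rw [← this]
      congr 1
      push_cast
      ring
    have hzw : ((𝒮.nm (z * w) : ℕ) : ℝ) ≤ X := by
      rw [𝒮.nm_mul, Nat.cast_mul]
      exact (le_div_iff₀ hn0).mp hz
    obtain ⟨l, hl⟩ := 𝒮.ang_mul z w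
    have e4 : S (𝒮.ang z - k + 𝒮.ang w) = 𝒮.g z * 𝒮.g w := by
      rw [← 𝒮.g_mul, ← hF.1 (z * w) hzw, hl]
      have := F4_per_int hS (𝒮.ang z - k + 𝒮.ang w) (k + l)
      rw [← this]
      congr 1
      push_cast
      ring
    refine hne ?_
    rw [e2, e4, e1, e3, mul_comm]
  refine (measure_mono hsub).trans ((measure_union_le _ _).trans
    ((add_le_add ((measure_union_le _ _).trans (add_le_add hA1 hA2)) hA3).trans ?_))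
  have hc1 : 0 ≤ C / Λ := div_nonneg hC.le hΛ0.le
  have hc2 : 0 ≤ 2 * (Λ / (X / 𝒮.nm w)) * (Js.card : ℝ) :=
    mul_nonneg (mul_nonneg zero_le_two hδ0) (Nat.cast_nonneg _)
  rw [← ENNReal.ofReal_add hc1 hc2, ← ENNReal.ofReal_add (add_nonneg hc1 hc2) hc2]
  refine ENNReal.ofReal_le_ofReal (le_of_eq ?_)
  field_simp
  ring

end Pool.Agent.Lib.MP_648c71_nt.HP
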