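import Pool.Agent.Lib.MP_648c71_nt.HP.F2
import Pool.Agent.Lib.MP_648c71_nt.HP.F3

/-! Row F5 (about 90 lines): high frequencies. -/

set_option autoImplicit false

namespace Pool.Agent.Lib.MP_648c71_nt.HP

open Finset MeasureTheory

theorem F5_normSq (x : ℝ) : ‖ee x - 1‖ ^ 2 = 2 - 2 * Real.cos (2 * Real.pi * x) := by
  have h1 : (ee x).re = Real.cos (2 * Real.pi * x) := by
    rw [ee, Complex.exp_ofReal_mul_I_re]
  have h3 : (ee x).im = Real.sin (2 * Real.pi * x) := by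
    rw [ee, Complex.exp_ofReal_mul_I_im]
  have h2 := Real.sin_sq_add_cos_sq (2 * Real.pi * x)
  rw [← Complex.normSq_eq_norm_sq, Complex.normSq_apply]
  simp only [Complex.sub_re, Complex.sub_im, Complex.one_re, Complex.one_im]
  rw [h1, h3]
  linear_combination h2

theorem F5_integral (k : ℤ) (hk : k ≠ 0) (b : ℝ) :
    ∫ t in (0 : ℝ)..b, ‖ee (k * t) - 1‖ ^ 2 =
      2 * b - Real.sin (2 * Real.pi * (k * b)) / (Real.pi * k) := by
  have hπ := Real.pi_ne_zero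
  have hk0 : (k : ℝ) ≠ 0 := by exact_mod_cast hk
  have h1 : ∀ t : ℝ, HasDerivAt
      (fun t : ℝ => 2 * t - Real.sin (2 * Real.pi * (k * t)) / (Real.pi * k))
      (‖ee (k * t) - 1‖ ^ 2) t := by
    intro t
    rw [F5_normSq]
    have h2 : HasDerivAt (fun t : ℝ => 2 * Real.pi * (k * t)) (2 * Real.pi * k) t := by
      have := ((hasDerivAt_id t).const_mul (k : ℝ)).const_mul (2 * Real.pi)
      simpa using this
    have h3 := (h2.sin.div_const (Real.pi * k))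
    have h4 := ((hasDerivAt_id t).const_mul (2 : ℝ)).sub h3
    have h5 : 2 - 2 * Real.cos (2 * Real.pi * (k * t)) =
        2 * 1 - Real.cos (2 * Real.pi * (k * t)) * (2 * Real.pi * k) / (Real.pi * k) := by
      field_simp
    rw [h5]
    exact h4
  rw [intervalIntegral.integral_eq_sub_of_hasDerivAt (fun t _ => h1 t)]
  · simp
  · apply Continuous.intervalIntegrable
    have := continuous_ee
    fun_prop

theorem F5_lower (K : ℕ) (hK : 0 < K) (k : ℤ) (hk : (K : ℤ) < |k|) :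
    1 / (K : ℝ) ≤ ∫ t in (0 : ℝ)..(1 / K), ‖ee (k * t) - 1‖ ^ 2 := by
  have hπ := Real.pi_pos
  have hK' : (0 : ℝ) < K := by exact_mod_cast hK
  have hk0 : k ≠ 0 := by
    rintro rfl
    rw [abs_zero] at hk
    omega
  have hkr : (K : ℝ) < |(k : ℝ)| := by exact_mod_cast hk
  rw [F5_integral k hk0]
  have h1 : |Real.sin (2 * Real.pi * (k * (1 / K))) / (Real.pi * k)| ≤ 1 / K := by
    rw [abs_div, abs_mul, abs_of_pos hπ]
    have h2 := Real.abs_sin_le_one (2 * Real.pi * (k * (1 / K)))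
    have h3 : (K : ℝ) ≤ Real.pi * |(k : ℝ)| := by
      have h4 := Real.pi_gt_three
      nlinarith
    exact div_le_div₀ zero_le_one h2 hK' h3
  have h5 := (abs_le.mp h1).2
  have h6 : 2 * (1 / (K : ℝ)) = 1 / K + 1 / K := by ring
  linarith

theorem F5_vol (S : ℝ → ℝ) (Js : Finset ℝ) (hS : Step S Js) (t : ℝ) (ht : 0 ≤ t) :
    volume {θ : ℝ | θ ∈ Set.Ico (0 : ℝ) 1 ∧ S (θ + t) ≠ 1 * S θ} ≤
      ENNReal.ofReal (Js.card * t) := by
  have h1 := volume_near_finset Js (t / 2) (t / 2) (by positivity)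
  have h2 : 2 * (t / 2) * (Js.card : ℝ) = Js.card * t := by ring
  rw [h2] at h1
  refine (measure_mono ?_).trans h1
  rintro θ ⟨h3, h4⟩
  refine ⟨h3, ?_⟩
  rw [one_mul] at h4
  by_contra hcon
  push Not at hcon
  apply h4
  refine (hS.const θ (θ + t) (by linarith) ?_).symm
  rintro j hj k ⟨h5, h6⟩
  have h7 := hcon j hj k
  have h8 : |θ + t / 2 - j - k| ≤ t / 2 := by
    rw [abs_le]
    constructor <;> linarith
  linarith

/-- ROW F5.  The mass of the frequencies `|k| > K` is at most `2 J / K`.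
For `0 ≤ t`: `S(θ+t) ≠ S(θ)` only if there is a jump in `(θ, θ+t]`, measure `≤ J t`
(`volume_near_finset` with `δ = t/2`, `α = t/2`).  So `∑_{k∈T} |c_k|² |e(kt) - 1|² ≤ 4 J t` (`spectral`, `s = 1`).
Integrate over `t ∈ [0, 1/K]`: for `|k| > K`,
`∫_0^{1/K} |e(kt)-1|² dt = ∫ (2 - 2cos(2πkt)) dt = 2/K - sin(2πk/K)/(πk) ≥ 2/K - 1/(πK) ≥ 1/K`, and the
right side is `2J/K²`. -/
theorem high (S : ℝ → ℝ) (Js : Finset ℝ) (hS : Step S Js) (K : ℕ) (hK : 0 < K) (T : Finset ℤ)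
    (hT : ∀ k ∈ T, (K : ℤ) < |k|) :
    ∑ k ∈ T, ‖cf (fun t => (S t : ℂ)) k‖ ^ 2 ≤ 2 * Js.card / K := by
  have hK' : (0 : ℝ) < K := by exact_mod_cast hK
  have hpt : ∀ t ∈ Set.Icc (0 : ℝ) (1 / K),
      ∑ k ∈ T, ‖cf (fun t => (S t : ℂ)) k‖ ^ 2 * ‖ee (k * t) - 1‖ ^ 2 ≤ 4 * (Js.card * t) := by
    intro t ht
    have h1 := spectral S Js hS t 1 (Or.inl rfl) (Js.card * t)
      (mul_nonneg (Nat.cast_nonneg _) ht.1) (F5_vol S Js hS t ht.1) T
    simpa using h1
  have hcont : ∀ k : ℤ, Continuous fun t : ℝ =>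
      ‖cf (fun t => (S t : ℂ)) k‖ ^ 2 * ‖ee (k * t) - 1‖ ^ 2 := by
    intro k
    have := continuous_ee
    fun_prop
  have h1 : ∫ t in (0 : ℝ)..(1 / K),
      ∑ k ∈ T, ‖cf (fun t => (S t : ℂ)) k‖ ^ 2 * ‖ee (k * t) - 1‖ ^ 2 ≤
      ∫ t in (0 : ℝ)..(1 / K), 4 * (Js.card * t) := by
    refine intervalIntegral.integral_mono_on (by positivity) ?_ ?_ hpt
    · exact (continuous_finsetSum _ fun k _ => hcont k).intervalIntegrable _ _
    · apply Continuous.intervalIntegrable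
      fun_prop
  rw [intervalIntegral.integral_finsetSum (fun k _ => (hcont k).intervalIntegrable _ _)] at h1
  have h2 : ∫ t in (0 : ℝ)..(1 / K), 4 * ((Js.card : ℝ) * t) = 2 * Js.card / K * (1 / K) := by
    have h3 : ∀ t : ℝ, 4 * ((Js.card : ℝ) * t) = 4 * Js.card * t := fun t => by ring
    simp only [h3]
    rw [intervalIntegral.integral_const_mul, integral_id]
    field_simp
    ring
  rw [h2] at h1
  have h4 : (∑ k ∈ T, ‖cf (fun t => (S t : ℂ)) k‖ ^ 2) * (1 / K) ≤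
      ∑ k ∈ T, ∫ t in (0 : ℝ)..(1 / K),
        ‖cf (fun t => (S t : ℂ)) k‖ ^ 2 * ‖ee (k * t) - 1‖ ^ 2 := by
    rw [Finset.sum_mul]
    refine Finset.sum_le_sum fun k hk => ?_
    rw [intervalIntegral.integral_const_mul]
    exact mul_le_mul_of_nonneg_left (F5_lower K hK k (hT k hk)) (by positivity)
  exact le_of_mul_le_mul_right (h4.trans h1) (by positivity)

end Pool.Agent.Lib.MP_648c71_nt.HP
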