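import Pool.Agent.Lib.MP_648c71_nt.HP.F8

/-! Row F9 (about 50 lines): mass outside the large values of a block polynomial. -/

set_option autoImplicit false

namespace Pool.Agent.Lib.MP_648c71_nt.HP

open Finset MeasureTheory

private theorem f9_norm_sq (𝒮 : Sys) (z : 𝒮.M) (x : ℝ) :
    ‖ee x - (𝒮.g z : ℂ)‖ ^ 2 = 2 - 2 * (((𝒮.g z : ℝ) : ℂ) * ee x).re := by
  have h1 : ‖ee x - (𝒮.g z : ℂ)‖ ^ 2 = Complex.normSq (ee x - (𝒮.g z : ℂ)) :=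
    (Complex.normSq_eq_norm_sq _).symm
  have h2 : Complex.normSq (ee x) = 1 := by
    rw [Complex.normSq_eq_norm_sq, norm_ee]; norm_num
  have hg : 𝒮.g z * 𝒮.g z = 1 := by
    rcases 𝒮.g_or z with h | h <;> rw [h] <;> norm_num
  rw [h1]
  rw [Complex.normSq_apply] at h2 ⊢
  simp only [Complex.sub_re, Complex.sub_im, Complex.ofReal_re, Complex.ofReal_im,
    Complex.mul_re, zero_mul, sub_zero]
  nlinarith [h2, hg]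

/-- ROW F9.  Average over `j` of `|e(k ang Z_j) - g(Z_j)|² = 2 - 2 Re(g(Z_j) e(k ang Z_j))` is
`2 - 2 Re GG(k) > 1` for `k ∈ T`. -/
theorem outside (𝒮 : Sys) (S : ℝ → ℝ) {N : ℕ} (hN : 0 < N) (Z : Fin N → 𝒮.M) (η : ℝ)
    (hη : ∀ j, ∀ T : Finset ℤ, ∑ k ∈ T, ‖cf (fun t => (S t : ℂ)) k‖ ^ 2 *
      ‖ee (k * 𝒮.ang (Z j)) - 𝒮.g (Z j)‖ ^ 2 ≤ η)
    (T : Finset ℤ) (hT : ∀ k ∈ T, (GG 𝒮 Z k).re < 1 / 2) :
    ∑ k ∈ T, ‖cf (fun t => (S t : ℂ)) k‖ ^ 2 ≤ η := by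
  have hN' : (0 : ℝ) < (N : ℝ) := by exact_mod_cast hN
  have hsum : ∑ j : Fin N, ∑ k ∈ T, ‖cf (fun t => (S t : ℂ)) k‖ ^ 2 *
      ‖ee (k * 𝒮.ang (Z j)) - 𝒮.g (Z j)‖ ^ 2 ≤ N * η := by
    calc ∑ j : Fin N, ∑ k ∈ T, ‖cf (fun t => (S t : ℂ)) k‖ ^ 2 *
          ‖ee (k * 𝒮.ang (Z j)) - 𝒮.g (Z j)‖ ^ 2 ≤ ∑ _j : Fin N, η :=
          Finset.sum_le_sum (fun j _ => hη j T)
      _ = N * η := by simp
  rw [Finset.sum_comm] at hsum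
  have hk : ∀ k ∈ T, ‖cf (fun t => (S t : ℂ)) k‖ ^ 2 * N ≤
      ∑ j : Fin N, ‖cf (fun t => (S t : ℂ)) k‖ ^ 2 *
        ‖ee (k * 𝒮.ang (Z j)) - 𝒮.g (Z j)‖ ^ 2 := by
    intro k hkT
    rw [← Finset.mul_sum]
    apply mul_le_mul_of_nonneg_left _ (by positivity)
    have e1 : ∑ j : Fin N, ‖ee (k * 𝒮.ang (Z j)) - 𝒮.g (Z j)‖ ^ 2 =
        2 * N - 2 * (∑ j : Fin N, (((𝒮.g (Z j) : ℝ) : ℂ) * ee (k * 𝒮.ang (Z j))).re) := by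
      rw [Finset.sum_congr rfl (fun j _ => f9_norm_sq 𝒮 (Z j) (k * 𝒮.ang (Z j)))]
      rw [Finset.sum_sub_distrib, Finset.mul_sum]
      simp [mul_comm]
    have e2 : (GG 𝒮 Z k).re * N =
        ∑ j : Fin N, (((𝒮.g (Z j) : ℝ) : ℂ) * ee (k * 𝒮.ang (Z j))).re := by
      rw [GG, ← Complex.re_sum]
      have : ((∑ j, (𝒮.g (Z j) : ℂ) * ee (k * 𝒮.ang (Z j))) / (N : ℂ)).re =
          (∑ j, (𝒮.g (Z j) : ℂ) * ee (k * 𝒮.ang (Z j))).re / N := by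
        rw [← Complex.ofReal_natCast, Complex.div_ofReal_re]
      rw [this, div_mul_cancel₀ _ hN'.ne']
    have h3 := hT k hkT
    rw [e1, ← e2]
    nlinarith
  have h4 : (∑ k ∈ T, ‖cf (fun t => (S t : ℂ)) k‖ ^ 2) * N ≤ η * N := by
    rw [Finset.sum_mul, mul_comm η]
    exact (Finset.sum_le_sum hk).trans hsum
  exact le_of_mul_le_mul_right h4 hN'

/-- ROW F9.  Chebyshev for one element: the mass of the `k` with `|e(k ang u) - g u| > 1/10` is at most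
`100 η`. -/
theorem outside_one (𝒮 : Sys) (S : ℝ → ℝ) (u : 𝒮.M) (η : ℝ)
    (hη : ∀ T : Finset ℤ, ∑ k ∈ T, ‖cf (fun t => (S t : ℂ)) k‖ ^ 2 *
      ‖ee (k * 𝒮.ang u) - 𝒮.g u‖ ^ 2 ≤ η)
    (T : Finset ℤ) (hT : ∀ k ∈ T, 1 / 10 < ‖ee (k * 𝒮.ang u) - 𝒮.g u‖) :
    ∑ k ∈ T, ‖cf (fun t => (S t : ℂ)) k‖ ^ 2 ≤ 100 * η := by
  have h := hη T
  have h2 : ∑ k ∈ T, ‖cf (fun t => (S t : ℂ)) k‖ ^ 2 * (1 / 100) ≤
      ∑ k ∈ T, ‖cf (fun t => (S t : ℂ)) k‖ ^ 2 * ‖ee (k * 𝒮.ang u) - 𝒮.g u‖ ^ 2 := by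
    apply Finset.sum_le_sum
    intro k hk
    apply mul_le_mul_of_nonneg_left _ (by positivity)
    have := hT k hk
    nlinarith
  rw [← Finset.sum_mul] at h2
  linarith

end Pool.Agent.Lib.MP_648c71_nt.HP
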