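import Pool.Agent.Lib.MP_648c71_nt.HP.F2
import Pool.Agent.Lib.MP_648c71_nt.HP.F4
import Pool.Agent.Lib.MP_648c71_nt.HP.F5
import Pool.Agent.Lib.MP_648c71_nt.HP.F9
import Pool.Agent.Lib.MP_648c71_nt.HP.F10
import Pool.Agent.Lib.MP_648c71_nt.HP.F16b

/-! Row F17a (about 170 lines): the spectral set of the step function. -/

set_option autoImplicit false

namespace Pool.Agent.Lib.MP_648c71_nt.HP

open Finset MeasureTheory

private theorem F17a_log_pow_le (n : ℕ) : ∃ X₀ : ℝ, ∀ X : ℝ, X₀ ≤ X → (Real.log X) ^ n ≤ X := by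
  have h := Real.isLittleO_pow_log_id_atTop (n := n)
  have h2 := h.def (c := 1) one_pos
  rw [Filter.eventually_atTop] at h2
  obtain ⟨X₀, hX₀⟩ := h2
  refine ⟨max X₀ 1, fun X hX => ?_⟩
  have h3 := hX₀ X (le_trans (le_max_left _ _) hX)
  have hX1 : (1 : ℝ) ≤ X := le_trans (le_max_right _ _) hX
  rw [one_mul, id, Real.norm_eq_abs, Real.norm_eq_abs, abs_of_nonneg (by linarith : (0 : ℝ) ≤ X)] at h3
  exact le_trans (le_abs_self _) h3

private theorem F17a_log_ge (c : ℝ) : ∃ X₀ : ℝ, ∀ X : ℝ, X₀ ≤ X → c ≤ Real.log X := by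
  have h := (Real.tendsto_log_atTop.eventually_ge_atTop c)
  rw [Filter.eventually_atTop] at h
  exact h

private theorem F17a_exists_filter (K : ℕ) (P : ℤ → Prop) :
    ∃ Ks : Finset ℤ, ∀ k, k ∈ Ks ↔ ((-(K : ℤ) ≤ k ∧ k ≤ K) ∧ P k) := by
  classical
  exact ⟨(Finset.Icc (-(K : ℤ)) K).filter P, fun k => by rw [Finset.mem_filter, Finset.mem_Icc]⟩

/-- ROW F17a.  Constants: `C_g` (gap), `C_d` (dense), `z₀` with `g z₀ = -1`, `E₁` from `family`.  Let `E` be such that for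
large `X`, with `L = log X`, `Q = L^E` bounds the norms of the `Z i j` (`≤ L^E₁`), of `z₀`, and of the separators
`u_m`, `1 ≤ m ≤ ⌊L²⌋` (`separator`: `≤ 256 C_d L^4`), and add 1 (so that `J L^{..}` below has room).
For `w` of norm `≤ L^(E-1)`: `rigid_volume` with `Λ = L^A` and `J < X/L^(2A+E)` gives volume
`≤ C_g/L^A + 4 J L^A L^(E-1)/X ≤ (C_g + 4)/L^A`, so by `spectral` (`s = g w`)
`∑_{k∈T} |c_k|² |e(k ang w) - g w|² ≤ η := 4(C_g + 4)/L^A` for all finite `T`.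
`K = ⌊X⌋`.  `Ks` = the `k ∈ Icc (-K) K` with `1/2 ≤ Re GG(Z i) k` for all `i` and `|e(k ang u_m) - g u_m| ≤ 1/10` for all
`1 ≤ m ≤ ⌊L²⌋`.
* `|Ks| ≤ X^(σ/2)` by `family`.
* two different elements are at distance `≥ ⌊L²⌋ + 1 ≥ L²` by `separator`.
* Mass: for every finite `T`, `∑_{T \ Ks} |c_k|² ≤ 2J/K + l η + 100 L² η` (`high`; `outside` for each `i`;
`outside_one` for each `m`), `l ≤ L`, `2J/K ≤ 4/L^A`; with `mass` (`hasSum_le_of_sum_le`-type argument:
`1 ≤ ∑_{Ks} + bound`) this gives the claim.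
* `|c_0|² |e(0) - g z₀|² = 4|c_0|² ≤ η`. -/
theorem spectrum (𝒮 : Sys) (hG : Good 𝒮) (c1 : ℝ) (σ : ℝ) (hσ : 0 < σ) (hσ1 : σ ≤ 1) :
    ∃ E : ℕ, ∀ A : ℕ, ∃ Ca X₀ : ℝ, 0 < Ca ∧ ∀ X : ℝ, X₀ ≤ X → ∀ (S : ℝ → ℝ) (Js : Finset ℝ), Step S Js →
      Fits 𝒮 X c1 S Js → (Js.card : ℝ) < X / (Real.log X) ^ (2 * A + E) →
      ∃ Ks : Finset ℤ, (∀ k ∈ Ks, |(k : ℝ)| ≤ X) ∧
        (∀ k ∈ Ks, ∀ k' ∈ Ks, k ≠ k' → (Real.log X) ^ 2 ≤ |(k : ℝ) - k'|) ∧
        (Ks.card : ℝ) ≤ X ^ (σ / 2) ∧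
        1 - ∑ k ∈ Ks, ‖cf (fun t => (S t : ℂ)) k‖ ^ 2 ≤ Ca * (Real.log X) ^ 2 / (Real.log X) ^ A ∧
        ‖cf (fun t => (S t : ℂ)) 0‖ ^ 2 ≤ Ca / (Real.log X) ^ A := by
  classical
  obtain ⟨Cg, hCg, hgap⟩ := hG.gap
  obtain ⟨Cd, hCd, hdense⟩ := hG.dense
  obtain ⟨z0, hz0⟩ := hG.neg
  obtain ⟨E1, X1, hfam⟩ := family 𝒮 hG.primes σ hσ hσ1
  refine ⟨E1 + 6, fun A => ?_⟩
  obtain ⟨X2, hX2⟩ := F17a_log_pow_le (E1 + 5)
  obtain ⟨X3, hX3⟩ := F17a_log_ge (max (256 * Cd) (max (𝒮.nm z0 : ℝ) 1))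
  refine ⟨4 + 404 * (Cg + 4), max (max X1 X2) (max X3 2), by positivity, ?_⟩
  intro X hX S Js hS hF hJ
  have hXX1 : X1 ≤ X := le_trans (le_trans (le_max_left _ _) (le_max_left _ _)) hX
  have hXX2 : X2 ≤ X := le_trans (le_trans (le_max_right _ _) (le_max_left _ _)) hX
  have hXX3 : X3 ≤ X := le_trans (le_trans (le_max_left _ _) (le_max_right _ _)) hX
  have hXX4 : (2 : ℝ) ≤ X := le_trans (le_trans (le_max_right _ _) (le_max_right _ _)) hX
  have hX0 : 0 < X := by linarith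
  set L : ℝ := Real.log X with hLdef
  have hL3 := hX3 X hXX3
  have hLd : 256 * Cd ≤ L := le_trans (le_max_left _ _) hL3
  have hLz : (𝒮.nm z0 : ℝ) ≤ L := le_trans (le_trans (le_max_left _ _) (le_max_right _ _)) hL3
  have hL1 : (1 : ℝ) ≤ L := le_trans (le_trans (le_max_right _ _) (le_max_right _ _)) hL3
  have hL0 : 0 < L := by linarith
  have hW : L ^ (E1 + 5) ≤ X := hX2 X hXX2
  obtain ⟨l, N, hl, hN, hlL, Z, hZ, hcount⟩ := hfam X hXX1
  -- the separators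
  have hsep : ∀ m : ℕ, ∃ u : 𝒮.M, 0 < m → ((𝒮.nm u : ℝ) ≤ 256 * Cd * m ^ 2 ∧
      ∀ k k' : ℤ, |k - k'| = m →
      ‖ee (k * 𝒮.ang u) - 𝒮.g u‖ ≤ 1 / 10 → ‖ee (k' * 𝒮.ang u) - 𝒮.g u‖ ≤ 1 / 10 → False) := by
    intro m
    by_cases hm : 0 < m
    · obtain ⟨u, hu⟩ := separator 𝒮 Cd hdense m hm
      exact ⟨u, fun _ => hu⟩
    · exact ⟨z0, fun h => absurd h hm⟩
  choose u hu using hsep
  set η0 : ℝ := (Cg + 4) / L ^ A with hη0
  have hη0nn : 0 ≤ η0 := by positivity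
  -- the spectral inequality for every element of small norm
  have hspec : ∀ w : 𝒮.M, (𝒮.nm w : ℝ) ≤ L ^ (E1 + 5) → ∀ T : Finset ℤ,
      ∑ k ∈ T, ‖cf (fun t => (S t : ℂ)) k‖ ^ 2 * ‖ee (k * 𝒮.ang w) - 𝒮.g w‖ ^ 2 ≤ 4 * η0 := by
    intro w hw T
    refine spectral S Js hS (𝒮.ang w) (𝒮.g w) (𝒮.g_or w) η0 hη0nn ?_ T
    refine le_trans (rigid_volume 𝒮 Cg hCg hgap X c1 S Js hS hF w (le_trans hw hW) (L ^ A)
      (one_le_pow₀ hL1)) ?_
    apply ENNReal.ofReal_le_ofReal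
    have h1 : 4 * (Js.card : ℝ) * L ^ A * 𝒮.nm w / X ≤ 4 / L ^ A := by
      rw [div_le_div_iff₀ hX0 (by positivity)]
      have hJ' : (Js.card : ℝ) * L ^ (2 * A + (E1 + 6)) ≤ X := by
        have := hJ.le
        rw [le_div_iff₀ (by positivity)] at this
        exact this
      have h2 : (Js.card : ℝ) * L ^ A * 𝒮.nm w * L ^ A ≤
          (Js.card : ℝ) * L ^ (2 * A + (E1 + 6)) := by
        have e1 : L ^ (2 * A + (E1 + 6)) = L ^ A * L ^ (E1 + 5) * L ^ A * L := by ring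
        rw [e1]
        have h3 : (Js.card : ℝ) * L ^ A * 𝒮.nm w * L ^ A ≤
            (Js.card : ℝ) * L ^ A * L ^ (E1 + 5) * L ^ A := by gcongr
        have h4 : (Js.card : ℝ) * L ^ A * L ^ (E1 + 5) * L ^ A ≤
            (Js.card : ℝ) * L ^ A * L ^ (E1 + 5) * L ^ A * L :=
          le_mul_of_one_le_right (by positivity) hL1
        calc _ ≤ _ := h3
          _ ≤ _ := h4
          _ = _ := by ring
      calc 4 * (Js.card : ℝ) * L ^ A * 𝒮.nm w * L ^ A
          = 4 * ((Js.card : ℝ) * L ^ A * 𝒮.nm w * L ^ A) := by ring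
        _ ≤ 4 * X := by linarith
    have h5 : η0 = Cg / L ^ A + 4 / L ^ A := by rw [hη0]; ring
    rw [h5]
    linarith
  set K : ℕ := ⌊X⌋₊ with hK
  have hKX : (K : ℝ) ≤ X := Nat.floor_le hX0.le
  have hK2 : X / 2 ≤ (K : ℝ) := by
    have : X < (K : ℝ) + 1 := Nat.lt_floor_add_one X
    linarith
  have hK0 : 0 < K := by
    have : (0 : ℝ) < K := by linarith
    exact_mod_cast this
  set M : ℕ := ⌊L ^ 2⌋₊ with hM
  have hML : (M : ℝ) ≤ L ^ 2 := Nat.floor_le (by positivity)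
  obtain ⟨Ks, hKs⟩ := F17a_exists_filter K (fun k =>
    (∀ i, 1 / 2 ≤ (GG 𝒮 (Z i) k).re) ∧
      ∀ m ∈ Finset.Icc 1 M, ‖ee (k * 𝒮.ang (u m)) - 𝒮.g (u m)‖ ≤ 1 / 10)
  have hmem : ∀ k ∈ Ks, |k| ≤ (K : ℤ) := by
    intro k hk
    rw [hKs] at hk
    exact abs_le.mpr hk.1
  -- norms of the separators
  have hum : ∀ m ∈ Finset.Icc 1 M, (𝒮.nm (u m) : ℝ) ≤ L ^ (E1 + 5) := by
    intro m hm
    rw [Finset.mem_Icc] at hm
    have h1 := (hu m hm.1).1
    have hm2 : (m : ℝ) ≤ L ^ 2 := le_trans (by exact_mod_cast hm.2) hML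
    have h2 : (m : ℝ) ^ 2 ≤ (L ^ 2) ^ 2 := by gcongr
    calc (𝒮.nm (u m) : ℝ) ≤ 256 * Cd * m ^ 2 := h1
      _ ≤ L * (L ^ 2) ^ 2 := by gcongr
      _ = L ^ 5 := by ring
      _ ≤ L ^ (E1 + 5) := pow_le_pow_right₀ hL1 (by omega)
  have hzn : (𝒮.nm z0 : ℝ) ≤ L ^ (E1 + 5) :=
    le_trans hLz (by
      calc L = L ^ 1 := (pow_one L).symm
        _ ≤ L ^ (E1 + 5) := pow_le_pow_right₀ hL1 (by omega))
  refine ⟨Ks, ?_, ?_, ?_, ?_, ?_⟩
  · intro k hk
    have h1 := hmem k hk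
    have h2 : |(k : ℝ)| ≤ (K : ℝ) := by
      have h3 : ((|k| : ℤ) : ℝ) ≤ ((K : ℤ) : ℝ) := by exact_mod_cast h1
      rw [Int.cast_abs] at h3
      exact_mod_cast h3
    linarith
  · intro k hk k' hk' hne
    by_contra hlt
    rw [not_le] at hlt
    obtain ⟨m, hm⟩ : ∃ m : ℕ, |k - k'| = (m : ℤ) := ⟨(k - k').natAbs, by rw [Int.natCast_natAbs]⟩
    have hm0 : 0 < m := by
      have h1 : 0 < |k - k'| := abs_pos.mpr (sub_ne_zero.mpr hne)
      rw [hm] at h1
      exact_mod_cast h1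
    have hmR : (m : ℝ) = |(k : ℝ) - k'| := by
      have h1 : ((|k - k'| : ℤ) : ℝ) = ((m : ℤ) : ℝ) := by rw [hm]
      rw [Int.cast_abs] at h1
      push_cast at h1
      exact h1.symm
    have hmM : m ≤ M := by
      apply Nat.le_floor
      rw [hmR]
      exact hlt.le
    have hmI : m ∈ Finset.Icc 1 M := Finset.mem_Icc.mpr ⟨hm0, hmM⟩
    rw [hKs] at hk hk'
    exact (hu m hm0).2 k k' hm (hk.2.2 m hmI) (hk'.2.2 m hmI)
  · refine le_trans ?_ hcount
    have hsub : Ks ⊆ (Finset.Icc (-(K : ℤ)) K).filter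
        (fun k => ∀ i, 1 / 2 ≤ (GG 𝒮 (Z i) k).re) := by
      intro k hk
      rw [hKs] at hk
      rw [Finset.mem_filter, Finset.mem_Icc]
      exact ⟨hk.1, hk.2.1⟩
    exact_mod_cast Finset.card_le_card hsub
  · -- the mass
    set f : ℤ → ℝ := fun k => ‖cf (fun t => (S t : ℂ)) k‖ ^ 2 with hf
    have hfn : ∀ k, 0 ≤ f k := fun k => by positivity
    have hmass : HasSum f 1 := mass S Js hS
    have hout : ∀ T : Finset ℤ, ∑ k ∈ T, f k ≤ ∑ k ∈ Ks, f k +
        (2 * Js.card / K + l * (4 * η0) + M * (100 * (4 * η0))) := by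
      intro T
      have h1 : ∑ k ∈ T, f k ≤ ∑ k ∈ Ks, f k + ∑ k ∈ T \ Ks, f k := by
        have h2 : ∑ k ∈ T, f k = ∑ k ∈ T ∩ Ks, f k + ∑ k ∈ T \ Ks, f k :=
          (Finset.sum_inter_add_sum_sdiff T Ks f).symm
        have h3 : ∑ k ∈ T ∩ Ks, f k ≤ ∑ k ∈ Ks, f k :=
          Finset.sum_le_sum_of_subset_of_nonneg Finset.inter_subset_right (fun k _ _ => hfn k)
        linarith
      refine le_trans h1 ?_
      gcongr
      -- pointwise bound
      have hpt : ∀ k ∈ T \ Ks, f k ≤ (if (K : ℤ) < |k| then f k else 0) +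
          ∑ i : Fin l, (if (GG 𝒮 (Z i) k).re < 1 / 2 then f k else 0) +
          ∑ m ∈ Finset.Icc 1 M,
            (if 1 / 10 < ‖ee (k * 𝒮.ang (u m)) - 𝒮.g (u m)‖ then f k else 0) := by
        intro k hk
        rw [Finset.mem_sdiff, hKs] at hk
        have a1 : 0 ≤ (if (K : ℤ) < |k| then f k else 0) := by
          split_ifs
          · exact hfn k
          · exact le_rfl
        have a2 : 0 ≤ ∑ i : Fin l, (if (GG 𝒮 (Z i) k).re < 1 / 2 then f k else 0) := by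
          apply Finset.sum_nonneg
          intro i _
          split_ifs
          · exact hfn k
          · exact le_rfl
        have a3 : 0 ≤ ∑ m ∈ Finset.Icc 1 M,
            (if 1 / 10 < ‖ee (k * 𝒮.ang (u m)) - 𝒮.g (u m)‖ then f k else 0) := by
          apply Finset.sum_nonneg
          intro i _
          split_ifs
          · exact hfn k
          · exact le_rfl
        by_cases c1' : (K : ℤ) < |k|
        · rw [if_pos c1']
          linarith
        · have hkI : -(K : ℤ) ≤ k ∧ k ≤ K := abs_le.mp (not_lt.mp c1')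
          by_cases c2' : ∀ i, 1 / 2 ≤ (GG 𝒮 (Z i) k).re
          · have c3' : ¬ ∀ m ∈ Finset.Icc 1 M, ‖ee (k * 𝒮.ang (u m)) - 𝒮.g (u m)‖ ≤ 1 / 10 :=
              fun h => hk.2 ⟨hkI, c2', h⟩
            push Not at c3'
            obtain ⟨m, hm, hm2⟩ := c3'
            have h4 : f k ≤ ∑ m ∈ Finset.Icc 1 M,
                (if 1 / 10 < ‖ee (k * 𝒮.ang (u m)) - 𝒮.g (u m)‖ then f k else 0) := by
              refine le_trans ?_ (Finset.single_le_sum (f := fun m =>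
                (if 1 / 10 < ‖ee (k * 𝒮.ang (u m)) - 𝒮.g (u m)‖ then f k else 0)) ?_ hm)
              · show f k ≤ (if 1 / 10 < ‖ee (k * 𝒮.ang (u m)) - 𝒮.g (u m)‖ then f k else 0)
                rw [if_pos hm2]
              · intro i _
                show 0 ≤ (if 1 / 10 < ‖ee (k * 𝒮.ang (u i)) - 𝒮.g (u i)‖ then f k else 0)
                split_ifs
                · exact hfn k
                · exact le_rfl
            linarith
          · push Not at c2'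
            obtain ⟨i, hi⟩ := c2'
            have h4 : f k ≤ ∑ i : Fin l, (if (GG 𝒮 (Z i) k).re < 1 / 2 then f k else 0) := by
              refine le_trans ?_ (Finset.single_le_sum (f := fun i : Fin l =>
                (if (GG 𝒮 (Z i) k).re < 1 / 2 then f k else 0)) ?_ (Finset.mem_univ i))
              · show f k ≤ (if (GG 𝒮 (Z i) k).re < 1 / 2 then f k else 0)
                rw [if_pos hi]
              · intro j _
                show 0 ≤ (if (GG 𝒮 (Z j) k).re < 1 / 2 then f k else 0)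
                split_ifs
                · exact hfn k
                · exact le_rfl
            linarith
      refine le_trans (Finset.sum_le_sum hpt) ?_
      rw [Finset.sum_add_distrib, Finset.sum_add_distrib]
      have b1 : ∑ k ∈ T \ Ks, (if (K : ℤ) < |k| then f k else 0) ≤ 2 * Js.card / K := by
        rw [← Finset.sum_filter]
        exact high S Js hS K hK0 _ (fun k hk => (Finset.mem_filter.mp hk).2)
      have b2 : ∑ k ∈ T \ Ks, ∑ i : Fin l, (if (GG 𝒮 (Z i) k).re < 1 / 2 then f k else 0) ≤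
          l * (4 * η0) := by
        rw [Finset.sum_comm]
        have : ∑ i : Fin l, ∑ k ∈ T \ Ks, (if (GG 𝒮 (Z i) k).re < 1 / 2 then f k else 0) ≤
            ∑ _i : Fin l, (4 * η0) := by
          apply Finset.sum_le_sum
          intro i _
          rw [← Finset.sum_filter]
          refine outside 𝒮 S hN (Z i) (4 * η0) ?_ _ (fun k hk => (Finset.mem_filter.mp hk).2)
          intro j T'
          refine hspec (Z i j) ?_ T'
          exact le_trans (hZ i j) (pow_le_pow_right₀ hL1 (by omega))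
        refine le_trans this ?_
        rw [Finset.sum_const, Finset.card_univ, Fintype.card_fin, nsmul_eq_mul]
      have b3 : ∑ k ∈ T \ Ks, ∑ m ∈ Finset.Icc 1 M,
            (if 1 / 10 < ‖ee (k * 𝒮.ang (u m)) - 𝒮.g (u m)‖ then f k else 0) ≤
          M * (100 * (4 * η0)) := by
        rw [Finset.sum_comm]
        have : ∑ m ∈ Finset.Icc 1 M, ∑ k ∈ T \ Ks,
            (if 1 / 10 < ‖ee (k * 𝒮.ang (u m)) - 𝒮.g (u m)‖ then f k else 0) ≤
            ∑ _m ∈ Finset.Icc 1 M, (100 * (4 * η0)) := by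
          apply Finset.sum_le_sum
          intro m hm
          rw [← Finset.sum_filter]
          exact outside_one 𝒮 S (u m) (4 * η0) (hspec (u m) (hum m hm)) _
            (fun k hk => (Finset.mem_filter.mp hk).2)
        refine le_trans this ?_
        rw [Finset.sum_const, Nat.card_Icc, nsmul_eq_mul, Nat.add_sub_cancel]
      linarith
    have h1le : (1 : ℝ) ≤ ∑ k ∈ Ks, f k +
        (2 * Js.card / K + l * (4 * η0) + M * (100 * (4 * η0))) :=
      hasSum_le_of_sum_le hmass hout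
    have hJ2 : 2 * (Js.card : ℝ) / K ≤ 4 * (L ^ 2 / L ^ A) := by
      have hJ' : (Js.card : ℝ) ≤ X / L ^ (2 * A + (E1 + 6)) := hJ.le
      have hKpos : (0 : ℝ) < K := by exact_mod_cast hK0
      rw [div_le_iff₀ hKpos]
      have h2 : X / L ^ (2 * A + (E1 + 6)) ≤ X / L ^ A := by
        apply div_le_div_of_nonneg_left hX0.le (by positivity)
        exact pow_le_pow_right₀ hL1 (by omega)
      have h3 : X / L ^ A ≤ X * (L ^ 2 / L ^ A) := by
        rw [mul_div_assoc', div_le_div_iff_of_pos_right (by positivity)]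
        nlinarith [one_le_pow₀ (n := 2) hL1]
      have h4 : 0 ≤ L ^ 2 / L ^ A := by positivity
      nlinarith
    have hη2 : η0 = (Cg + 4) * (1 / L ^ A) := by rw [hη0]; ring
    have h1A : 0 < 1 / L ^ A := by positivity
    have hl2 : (l : ℝ) * (4 * η0) ≤ 4 * (Cg + 4) * (L ^ 2 / L ^ A) := by
      have h5 : (l : ℝ) ≤ L ^ 2 := by nlinarith
      calc (l : ℝ) * (4 * η0) ≤ L ^ 2 * (4 * η0) := by gcongr
        _ = 4 * (Cg + 4) * (L ^ 2 / L ^ A) := by rw [hη2]; ring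
    have hM2 : (M : ℝ) * (100 * (4 * η0)) ≤ 400 * (Cg + 4) * (L ^ 2 / L ^ A) := by
      calc (M : ℝ) * (100 * (4 * η0)) ≤ L ^ 2 * (100 * (4 * η0)) := by gcongr
        _ = 400 * (Cg + 4) * (L ^ 2 / L ^ A) := by rw [hη2]; ring
    have hfin : (4 + 404 * (Cg + 4)) * L ^ 2 / L ^ A =
        4 * (L ^ 2 / L ^ A) + 4 * (Cg + 4) * (L ^ 2 / L ^ A) +
          400 * (Cg + 4) * (L ^ 2 / L ^ A) := by ring
    rw [hfin]
    linarith
  · -- the zeroth coefficient
    have h1 := hspec z0 hzn {0}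
    rw [Finset.sum_singleton] at h1
    rw [hz0] at h1
    have h2 : ‖ee (((0 : ℤ) : ℝ) * 𝒮.ang z0) - (((-1 : ℝ)) : ℂ)‖ = 2 := by
      rw [Int.cast_zero, zero_mul, ee_zero]
      push_cast
      norm_num
    rw [h2] at h1
    have h3 : ‖cf (fun t => (S t : ℂ)) 0‖ ^ 2 ≤ η0 := by nlinarith
    refine le_trans h3 ?_
    rw [hη0]
    apply div_le_div_of_nonneg_right _ (by positivity)
    linarith

end Pool.Agent.Lib.MP_648c71_nt.HP
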