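import Pool.Agent.Lib.MP_648c71_nt.HP.F11
import Pool.Agent.Lib.MP_648c71_nt.HP.F12
import Pool.Agent.Lib.MP_648c71_nt.HP.F15
import Pool.Agent.Lib.MP_648c71_nt.HP.F17a

/-! Row F17 (about 150 lines): the core theorem. -/

set_option autoImplicit false

namespace Pool.Agent.Lib.MP_648c71_nt.HP

open Finset MeasureTheory Filter Topology

/-- two different indices carry total mass at most one -/
theorem f17_two (S : ℝ → ℝ) (Js : Finset ℝ) (hS : Step S Js) (k : ℤ) (hk : k ≠ 0) :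
    ‖cf (fun t => (S t : ℂ)) k‖ ≤ 98 / 100 := by
  by_contra hcon
  push Not at hcon
  have h := mass S Js hS
  have hne : k ≠ -k := by omega
  have hle := sum_le_hasSum ({k, -k} : Finset ℤ) (fun i _ => by positivity) h
  rw [Finset.sum_pair hne, cf_neg, RCLike.norm_conj] at hle
  nlinarith [hcon, hle, norm_nonneg (cf (fun t => (S t : ℂ)) k)]

/-- asymptotics used in the core theorem -/
theorem f17_large (κ C σ c1 Ca : ℝ) (D : ℕ) (hκ : 0 < κ) (hC : 0 < C) (hσ : 0 < σ) (hc1 : 0 < c1)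
    (hCa : 0 < Ca) : ∃ X₁ : ℝ, ∀ X : ℝ, X₁ ≤ X →
      1 ≤ X ∧ c1 ≤ X ∧ 1 ≤ Real.log X ∧
      C * (2 / (Real.log X) ^ 2 * (1 + Real.log (2 * X)) + X ^ (-(σ / 2))) ≤ 1 / 100 ∧
      Real.sqrt (Ca / c1) ≤ κ * (1 / 200) * Real.log X ∧
      Ca / (Real.log X) ^ (D + 4) ≤ 1 / 2 := by
  have hlog : Tendsto Real.log atTop atTop := Real.tendsto_log_atTop
  have e1 : ∀ᶠ X : ℝ in atTop, 1 ≤ X := eventually_ge_atTop 1
  have e2 : ∀ᶠ X : ℝ in atTop, c1 ≤ X := eventually_ge_atTop c1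
  have e3 : ∀ᶠ X : ℝ in atTop, 1 ≤ Real.log X := hlog.eventually_ge_atTop 1
  have e3' : ∀ᶠ X : ℝ in atTop, 1600 * C ≤ Real.log X := hlog.eventually_ge_atTop _
  have e4 : ∀ᶠ X : ℝ in atTop, X ^ (-(σ / 2)) ≤ 1 / (200 * C) := by
    have h := tendsto_rpow_neg_atTop (y := σ / 2) (by positivity)
    exact h.eventually_le_const (by positivity)
  have e5 : ∀ᶠ X : ℝ in atTop, Real.sqrt (Ca / c1) / (κ * (1 / 200)) ≤ Real.log X :=
    hlog.eventually_ge_atTop _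
  have e6 : ∀ᶠ X : ℝ in atTop, 2 * Ca ≤ Real.log X := hlog.eventually_ge_atTop _
  have hall := ((((((e1.and e2).and e3).and e3').and e4).and e5).and e6)
  obtain ⟨X₁, hX₁⟩ := eventually_atTop.1 hall
  refine ⟨X₁, fun X hX => ?_⟩
  obtain ⟨⟨⟨⟨⟨⟨h1, h2⟩, h3⟩, h3'⟩, h4⟩, h5⟩, h6⟩ := hX₁ X hX
  set L := Real.log X with hL
  have hL0 : 0 < L := by linarith
  refine ⟨h1, h2, h3, ?_, ?_, ?_⟩
  · have hlog2 : Real.log (2 * X) ≤ 1 + L := by
      rw [Real.log_mul (by norm_num) (by linarith)]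
      have : Real.log 2 ≤ 1 := by
        have := Real.log_two_lt_d9
        linarith
      linarith
    have hA : 2 / L ^ 2 * (1 + Real.log (2 * X)) ≤ 8 / L := by
      have h8 : 1 + Real.log (2 * X) ≤ 4 * L := by linarith
      calc 2 / L ^ 2 * (1 + Real.log (2 * X)) ≤ 2 / L ^ 2 * (4 * L) := by gcongr
        _ = 8 / L := by field_simp; norm_num
    have hB : C * (8 / L) ≤ 1 / 200 := by
      rw [← mul_div_assoc, div_le_iff₀ hL0]
      linarith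
    have hD : C * X ^ (-(σ / 2)) ≤ 1 / 200 := by
      calc C * X ^ (-(σ / 2)) ≤ C * (1 / (200 * C)) := by gcongr
        _ = 1 / 200 := by field_simp
    have hE : C * (2 / L ^ 2 * (1 + Real.log (2 * X))) ≤ C * (8 / L) := by gcongr
    rw [mul_add]
    linarith
  · rw [div_le_iff₀ (by positivity)] at h5
    linarith
  · have h7 : L ≤ L ^ (D + 4) := le_self_pow₀ h3 (by omega)
    rw [div_le_iff₀ (by positivity)]
    linarith

/-- ROW F17.  The core theorem.  Constants `κ, C, σ, D` of `hG.box`, `E` of `spectrum` for this `σ`, `A = D + 4`,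
`C1 = 2A + E`.  Suppose `J < X/L^C1` for a large `X`; take `Ks` from `spectrum`, `B` from `box`, `b = |B|`.
`gram` with `w m = ‖∑_{z∈B} ee(m ang z)‖`, `M₀ = L²`, `τ = X^(-σ)`: row sums `≤ b(1 + C(2/L²(1 + log 2X) + X^(-σ/2)))
≤ 1.01 b`; `selberg`: `∑_{Ks} ‖F k‖² ≤ 1.01 b²`.  If `‖c_k‖ ≤ 0.98` for all `k ∈ Ks`, `bilinear` with `a = 0.98`,
`η = Ca L²/L^A` gives `b² ≤ 0.9898 b² + √(X L^D η X/c1)` and `X ≤ b²/κ`, `L^D η = Ca L^(D+2-A) = Ca/L²`, so the root is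
`≤ (b²/κ) √(Ca/(c1 L²)) ≤ 0.005 b²`: contradiction (`b > 0`).  So `‖c_k‖ > 0.98` for some `k ∈ Ks`.  If `k ≠ 0` then
`‖c_{-k}‖ = ‖c_k‖` (`cf_neg`) and `mass` (sum over `{k,-k}`) gives `2 (0.98)² ≤ 1`, false.  If `k = 0`: `0.96 ≤ Ca/L^A`,
false for large `X`. -/
theorem core (𝒮 : Sys) (hG : Good 𝒮) (c1 : ℝ) (hc1 : 0 < c1) (hc : c1 ≤ 𝒮.c0) :
    ∃ C1 : ℕ, ∃ X₀ : ℝ, ∀ X : ℝ, X₀ ≤ X → ∀ (S : ℝ → ℝ) (Js : Finset ℝ), Step S Js →
      Fits 𝒮 X c1 S Js → X / (Real.log X) ^ C1 ≤ Js.card := by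
  classical
  obtain ⟨κ, C, σ, D, hκ, hC, hσ, hσ1, Xb, hbox⟩ := hG.box
  obtain ⟨E, hE⟩ := spectrum 𝒮 hG c1 σ hσ hσ1
  obtain ⟨Ca, Xs, hCa, hspec⟩ := hE (D + 4)
  obtain ⟨X₁, hX₁⟩ := f17_large κ C σ c1 Ca D hκ hC hσ hc1 hCa
  refine ⟨2 * (D + 4) + E, max X₁ (max Xb Xs), fun X hX S Js hS hF => ?_⟩
  by_contra hcon
  push Not at hcon
  obtain ⟨hX1, hcX, hL1, hgr, hsq, hCaL⟩ := hX₁ X (le_trans (le_max_left _ _) hX)
  have hXb : Xb ≤ X := le_trans (le_trans (le_max_left _ _) (le_max_right _ _)) hX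
  have hXs : Xs ≤ X := le_trans (le_trans (le_max_right _ _) (le_max_right _ _)) hX
  obtain ⟨B, hBn, hBc, hBe, hBx⟩ := hbox X hXb
  obtain ⟨Ks, hK1, hK2, hK3, hK4, hK5⟩ := hspec X hXs S Js hS hF hcon
  set L := Real.log X with hL
  have hX0 : 0 < X := by linarith
  have hL0 : 0 < L := by linarith
  set b : ℝ := (B.card : ℝ) with hb
  have hb0 : 0 ≤ b := by positivity
  have hb2 : 0 < b ^ 2 := lt_of_lt_of_le (by positivity) hBc
  -- the zero coefficient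
  have hc0 : ‖cf (fun t => (S t : ℂ)) 0‖ ≤ 98 / 100 := by
    by_contra hc'
    push Not at hc'
    nlinarith [hK5, hCaL, norm_nonneg (cf (fun t => (S t : ℂ)) 0)]
  have ha : ∀ k ∈ Ks, ‖cf (fun t => (S t : ℂ)) k‖ ≤ 98 / 100 := by
    intro k _
    by_cases hk : k = 0
    · rw [hk]; exact hc0
    · exact f17_two S Js hS k hk
  -- row sums
  have hrow := gram Ks X (L ^ 2) hX1 (one_le_pow₀ hL1) hK1 hK2
    (fun m => ‖∑ z ∈ B, ee (m * 𝒮.ang z)‖) b C (X ^ (-σ)) hb0 hC.le (by positivity)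
    (by simp [ee_zero, hb]) (fun m hm hmX => hBx m hm hmX)
  have hτ : (Ks.card : ℝ) * X ^ (-σ) ≤ X ^ (-(σ / 2)) := by
    calc (Ks.card : ℝ) * X ^ (-σ) ≤ X ^ (σ / 2) * X ^ (-σ) := by gcongr
      _ = X ^ (-(σ / 2)) := by
        rw [← Real.rpow_add hX0]; congr 1; ring
  have hA : ∀ k ∈ Ks, ∑ k' ∈ Ks, ‖∑ z ∈ B, ee (((k - k' : ℤ) : ℝ) * 𝒮.ang z)‖ ≤
      b * (101 / 100) := by
    intro k hk
    refine le_trans (hrow k hk) ?_
    apply mul_le_mul_of_nonneg_left _ hb0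
    have : C * (2 / L ^ 2 * (1 + Real.log (2 * X)) + (Ks.card : ℝ) * X ^ (-σ)) ≤
        C * (2 / L ^ 2 * (1 + Real.log (2 * X)) + X ^ (-(σ / 2))) := by gcongr
    linarith
  have hsel := selberg 𝒮 B Ks (b * (101 / 100)) (by positivity) hA
  have hbil := bilinear 𝒮 X c1 hX0 hc1 hc hcX S Js hS hF B hBn Ks _ hK4 (98 / 100) ha
  -- the error term
  have hroot : Real.sqrt ((((B ×ˢ B) ×ˢ (B ×ˢ B)).filter (fun t =>
        ∃ k : ℤ, 𝒮.ang t.1.1 + 𝒮.ang t.1.2 - (𝒮.ang t.2.1 + 𝒮.ang t.2.2) = k)).card *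
        (Ca * L ^ 2 / L ^ (D + 4) * X / c1)) ≤ b ^ 2 * (1 / 200) := by
    have h1 : ((((B ×ˢ B) ×ˢ (B ×ˢ B)).filter (fun t =>
        ∃ k : ℤ, 𝒮.ang t.1.1 + 𝒮.ang t.1.2 - (𝒮.ang t.2.1 + 𝒮.ang t.2.2) = k)).card : ℝ) *
        (Ca * L ^ 2 / L ^ (D + 4) * X / c1) ≤
        (X * L ^ D) * (Ca * L ^ 2 / L ^ (D + 4) * X / c1) := by
      apply mul_le_mul_of_nonneg_right hBe
      positivity
    have h2 : (X * L ^ D) * (Ca * L ^ 2 / L ^ (D + 4) * X / c1) = (X / L) ^ 2 * (Ca / c1) := by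
      have : L ^ (D + 4) = L ^ D * L ^ 4 := pow_add _ _ _
      rw [this]
      field_simp
    calc _ ≤ Real.sqrt ((X / L) ^ 2 * (Ca / c1)) := Real.sqrt_le_sqrt (h1.trans h2.le)
      _ = (X / L) * Real.sqrt (Ca / c1) := by
        rw [Real.sqrt_mul (by positivity), Real.sqrt_sq (by positivity)]
      _ ≤ (X / L) * (κ * (1 / 200) * L) := by gcongr
      _ = κ * X * (1 / 200) := by field_simp
      _ ≤ b ^ 2 * (1 / 200) := by gcongr
  have hfin : b ^ 2 ≤ 98 / 100 * (b * (b * (101 / 100))) + b ^ 2 * (1 / 200) := by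
    refine le_trans hbil (add_le_add ?_ hroot)
    exact mul_le_mul_of_nonneg_left hsel (by norm_num)
  nlinarith [hfin, hb2]

end Pool.Agent.Lib.MP_648c71_nt.HP
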