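import Pool.Agent.Lib.MP_648c71_nt.HP.F1

/-! Row F2 (about 70 lines): the spectral form of an L2 distance. -/

set_option autoImplicit false

namespace Pool.Agent.Lib.MP_648c71_nt.HP

open Finset MeasureTheory

private theorem F2_norm_le (S : ℝ → ℝ) (Js : Finset ℝ) (hS : Step S Js) (t : ℝ) :
    ‖((S t : ℝ) : ℂ)‖ ≤ 1 := by
  rcases hS.val t with h | h <;> simp [h]

private theorem F2_meas (S : ℝ → ℝ) (Js : Finset ℝ) (hS : Step S Js) :
    Measurable (fun t => (S t : ℂ)) :=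
  Complex.measurable_ofReal.comp hS.meas

/-- ROW F2.  For a step function `S` (values `±1`, 1-periodic, measurable) and `s = ±1`
`∑_k |c_k|² |e(kα) - s|² = ∫_0^1 (S(t+α) - s S(t))² dt`; stated as a bound for finite sets `T`.
`parseval` for `u t = S(t+α) - s S(t)`, `cf u k = (ee(kα) - s) cf S k` (`cf_shift`, `cf_sub_smul`), and
`(S(t+α) - s S(t))² = 4` where `S(t+α) ≠ s S(t)` and `0` elsewhere. -/
theorem spectral (S : ℝ → ℝ) (Js : Finset ℝ) (hS : Step S Js) (α s : ℝ) (hs : s = 1 ∨ s = -1)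
    (η : ℝ) (hη : 0 ≤ η)
    (hvol : volume {θ : ℝ | θ ∈ Set.Ico (0 : ℝ) 1 ∧ S (θ + α) ≠ s * S θ} ≤ ENNReal.ofReal η)
    (T : Finset ℤ) :
    ∑ k ∈ T, ‖cf (fun t => (S t : ℂ)) k‖ ^ 2 * ‖ee (k * α) - s‖ ^ 2 ≤ 4 * η := by
  have hm0 := F2_meas S Js hS
  have hm1 : Measurable (fun t => (S (t + α) : ℂ)) := hm0.comp (measurable_id.add_const α)
  have hb0 : ∀ t, ‖((S t : ℝ) : ℂ)‖ ≤ 1 := F2_norm_le S Js hS
  have hb1 : ∀ t, ‖((S (t + α) : ℝ) : ℂ)‖ ≤ 1 := fun t => hb0 (t + α)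
  have hcf : ∀ k : ℤ, cf (fun t => (S (t + α) : ℂ) - (s : ℂ) * (S t : ℂ)) k
      = (ee (k * α) - s) * cf (fun t => (S t : ℂ)) k := by
    intro k
    rw [cf_sub_smul (fun t => (S (t + α) : ℂ)) (fun t => (S t : ℂ)) hm1 hm0 1 hb1 hb0 (s : ℂ) k,
      cf_shift (fun t => (S t : ℂ)) (fun t => by simp only [hS.per]) α k]
    ring
  have hsn : ‖(s : ℂ)‖ = 1 := by rcases hs with h | h <;> simp [h]
  have hmu : Measurable (fun t => (S (t + α) : ℂ) - (s : ℂ) * (S t : ℂ)) :=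
    hm1.sub (hm0.const_mul _)
  have hbu : ∀ t, ‖(S (t + α) : ℂ) - (s : ℂ) * (S t : ℂ)‖ ≤ 2 := by
    intro t
    refine (norm_sub_le _ _).trans ?_
    rw [norm_mul, hsn, one_mul]
    linarith [hb0 t, hb1 t]
  have hP := parseval (fun t => (S (t + α) : ℂ) - (s : ℂ) * (S t : ℂ)) hmu 2 hbu
  have h1 : ∑ k ∈ T, ‖cf (fun t => (S t : ℂ)) k‖ ^ 2 * ‖ee (k * α) - s‖ ^ 2
      ≤ ∫ t in (0 : ℝ)..1, ‖(S (t + α) : ℂ) - (s : ℂ) * (S t : ℂ)‖ ^ 2 := by
    refine le_trans (le_of_eq ?_) (sum_le_hasSum T (fun k _ => by positivity) hP)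
    refine Finset.sum_congr rfl fun k _ => ?_
    rw [hcf k, norm_mul, mul_pow]; ring
  refine h1.trans ?_
  -- the integrand is four times an indicator function
  set A : Set ℝ := {θ : ℝ | S (θ + α) ≠ s * S θ} with hA
  have hAm : MeasurableSet A := by
    have : A = {θ : ℝ | S (θ + α) = s * S θ}ᶜ := rfl
    rw [this]
    exact (measurableSet_eq_fun (hS.meas.comp (measurable_id.add_const α))
      (hS.meas.const_mul s)).compl
  have hind : ∀ t, ‖(S (t + α) : ℂ) - (s : ℂ) * (S t : ℂ)‖ ^ 2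
      = A.indicator (fun _ => (4 : ℝ)) t := by
    intro t
    have e1 : ‖(S (t + α) : ℂ) - (s : ℂ) * (S t : ℂ)‖ ^ 2 = (S (t + α) - s * S t) ^ 2 := by
      have : (S (t + α) : ℂ) - (s : ℂ) * (S t : ℂ) = ((S (t + α) - s * S t : ℝ) : ℂ) := by
        push_cast; ring
      rw [this, Complex.norm_real, Real.norm_eq_abs, sq_abs]
    rw [e1]
    by_cases ht : t ∈ A
    · rw [Set.indicator_of_mem ht]
      have ht' : S (t + α) ≠ s * S t := ht
      rcases hs with h | h <;> rcases hS.val t with h2 | h2 <;> rcases hS.val (t + α) with h3 | h3 <;>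
        rw [h, h2, h3] at ht' ⊢ <;> first | (exfalso; apply ht'; norm_num; done) | norm_num
    · rw [Set.indicator_of_notMem ht]
      have ht' : S (t + α) = s * S t := by
        by_contra hcon; exact ht hcon
      rw [ht', sub_self]; norm_num
  have h2 : ∫ t in (0 : ℝ)..1, ‖(S (t + α) : ℂ) - (s : ℂ) * (S t : ℂ)‖ ^ 2
      = 4 * (volume (A ∩ Set.Ico (0 : ℝ) 1)).toReal := by
    rw [intervalIntegral.integral_of_le zero_le_one, ← integral_Ico_eq_integral_Ioc]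
    simp_rw [hind]
    rw [integral_indicator hAm, Measure.restrict_restrict hAm, setIntegral_const, smul_eq_mul,
      mul_comm, Measure.real]
  rw [h2]
  have h3 : volume (A ∩ Set.Ico (0 : ℝ) 1) ≤ ENNReal.ofReal η := by
    refine le_trans (measure_mono ?_) hvol
    rintro t ⟨ht1, ht2⟩
    exact ⟨ht2, ht1⟩
  have h4 : (volume (A ∩ Set.Ico (0 : ℝ) 1)).toReal ≤ η :=
    ENNReal.toReal_le_of_le_ofReal hη h3
  linarith

/-- ROW F2.  The total mass is 1. -/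
theorem mass (S : ℝ → ℝ) (Js : Finset ℝ) (hS : Step S Js) :
    HasSum (fun k : ℤ => ‖cf (fun t => (S t : ℂ)) k‖ ^ 2) 1 := by
  have hP := parseval (fun t => (S t : ℂ)) (F2_meas S Js hS) 1 (F2_norm_le S Js hS)
  have h1 : ∀ t, ‖((S t : ℝ) : ℂ)‖ ^ 2 = 1 := by
    intro t
    rcases hS.val t with h | h <;> simp [h]
  simp_rw [h1] at hP
  simpa using hP

end Pool.Agent.Lib.MP_648c71_nt.HP
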