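import Mathlib

/-! Row F6 (about 60 lines): independence of products of primes from disjoint blocks. -/

set_option autoImplicit false

namespace Pool.Agent.Lib.MP_648c71_nt.HP

open Finset MeasureTheory

/-- exponent of a prime in one factor -/
theorem indep_one (l N : ℕ) (e : Fin l × Fin N → ℕ) (he : Function.Injective e)
    (hp : ∀ x, (e x).Prime) (s : Fin l × Fin N → ℕ) (hs : ∀ x y, 0 < s x ∧ s x < e y)
    (x y : Fin l × Fin N) :
    (e x * s x).factorization (e y) = if x = y then 1 else 0 := by
  have h1 : (s x).factorization (e y) = 0 := by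
    apply Nat.factorization_eq_zero_of_not_dvd
    intro h
    exact absurd (Nat.le_of_dvd (hs x y).1 h) (not_le.2 (hs x y).2)
  rw [Nat.factorization_mul (hp x).ne_zero (hs x y).1.ne', Finsupp.add_apply, h1, add_zero,
    (hp x).factorization]
  by_cases hxy : x = y
  · rw [hxy]; simp
  · rw [if_neg hxy, Finsupp.single_apply, if_neg]
    intro h
    exact hxy (he h)

/-- exponent of a prime in one side -/
theorem indep_side (l N : ℕ) (e : Fin l × Fin N → ℕ) (he : Function.Injective e)
    (hp : ∀ x, (e x).Prime) (s : Fin l × Fin N → ℕ) (hs : ∀ x y, 0 < s x ∧ s x < e y)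
    (a : ℕ) (ha : 0 < a) (t : Fin l → Fin N) (i : Fin l) (n : Fin N) :
    (a ^ 2 * ∏ j, (e (j, t j) * s (j, t j))).factorization (e (i, n)) =
      2 * a.factorization (e (i, n)) + if t i = n then 1 else 0 := by
  have h0 : ∀ j ∈ (Finset.univ : Finset (Fin l)), e (j, t j) * s (j, t j) ≠ 0 := fun j _ =>
    mul_ne_zero (hp _).ne_zero (hs (j, t j) (j, t j)).1.ne'
  rw [Nat.factorization_mul (pow_ne_zero 2 ha.ne') (Finset.prod_ne_zero_iff.2 h0),
    Finsupp.add_apply, Nat.factorization_pow, Finsupp.smul_apply, smul_eq_mul,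
    Nat.factorization_prod h0, Finset.sum_apply']
  congr 1
  simp_rw [indep_one l N e he hp s hs]
  rw [Finset.sum_eq_single i]
  · simp
  · intro j _ hj
    rw [if_neg]
    intro h
    exact hj (congrArg Prod.fst h)
  · intro h
    exact absurd (Finset.mem_univ i) h

/-- ROW F6.  For each `i` compare the exponent of the prime `p = e (i, t i)`: on the left
`2 v_p(a) + 1` (the other primes `e (i', t i')` are different because `e` is injective, and `p` does not
divide any `s`, as `0 < s < p`), so `v_p` of the right side is odd, so `p` is one of the primes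
`e (i', t' i')`, so `i = i'` and `t i = t' i`. -/
theorem indep (l N : ℕ) (e : Fin l × Fin N → ℕ) (he : Function.Injective e)
    (hp : ∀ x, (e x).Prime) (s : Fin l × Fin N → ℕ) (hs : ∀ x y, 0 < s x ∧ s x < e y)
    (a b : ℕ) (ha : 0 < a) (hb : 0 < b) (t t' : Fin l → Fin N)
    (h : a ^ 2 * ∏ i, (e (i, t i) * s (i, t i)) = b ^ 2 * ∏ i, (e (i, t' i) * s (i, t' i))) :
    t = t' := by
  funext i
  have h1 := indep_side l N e he hp s hs a ha t i (t i)
  have h2 := indep_side l N e he hp s hs b hb t' i (t i)
  rw [h, h2, if_pos rfl] at h1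
  by_contra hne
  rw [if_neg (fun h3 => hne h3.symm)] at h1
  omega

end Pool.Agent.Lib.MP_648c71_nt.HP
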