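import Pool.Agent.Lib.MP_648c71_nt.HP.Defs
import Pool.Agent.Lib.MP_d9bc60_nt.TH.L3Dual

/-! Row F7 (about 110 lines): large sieve for separated angles. -/

set_option autoImplicit false

namespace Pool.Agent.Lib.MP_648c71_nt.HP

open Finset MeasureTheory

/-- ROW F7.  `4 * dist(t, ℤ) ≤ |e(t) - 1|`, in the form: if `|t - k| ≥ d` for all integers `k` then
`4 d ≤ |e(t) - 1|` (`|e(t)-1| = 2|sin πt|`, `|sin πt| ≥ 2 |t - round t|`; `Real.mul_le_sin`). -/
theorem four_mul_le (t d : ℝ) (h : ∀ k : ℤ, d ≤ |t - k|) : 4 * d ≤ ‖ee t - 1‖ := by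
  have hx := h (round t)
  set x : ℝ := t - round t with hxdef
  have hx2 : |x| ≤ 1 / 2 := abs_sub_round t
  have h1 : ee t = ee x := by
    have h2 : t = x + ((round t : ℤ) : ℝ) := by rw [hxdef]; ring
    conv_lhs => rw [h2]
    rw [ee_add_int]
  have h2 : ‖ee x - 1‖ = 2 * |Real.sin (Real.pi * x)| := by
    have h3 := Complex.norm_exp_I_mul_ofReal_sub_one (2 * Real.pi * x)
    rw [mul_comm Complex.I] at h3
    rw [ee, h3, Real.norm_eq_abs, abs_mul, abs_of_pos (by norm_num : (0 : ℝ) < 2)]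
    congr 3
    ring
  rw [h1, h2]
  have h3 : |Real.sin (Real.pi * x)| = Real.sin (Real.pi * |x|) := by
    rcases abs_cases x with ⟨hx1, hx3⟩ | ⟨hx1, hx3⟩
    · rw [hx1, abs_of_nonneg]
      apply Real.sin_nonneg_of_nonneg_of_le_pi
      · positivity
      · nlinarith [Real.pi_pos]
    · rw [hx1, mul_neg, Real.sin_neg, abs_of_nonpos]
      have : 0 ≤ Real.sin (Real.pi * (-x)) := by
        apply Real.sin_nonneg_of_nonneg_of_le_pi
        · have : 0 ≤ -x := by linarith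
          positivity
        · nlinarith [Real.pi_pos]
      rw [mul_neg, Real.sin_neg] at this
      linarith
  rw [h3]
  have h4 : 2 / Real.pi * (Real.pi * |x|) ≤ Real.sin (Real.pi * |x|) := by
    apply Real.mul_le_sin
    · positivity
    · nlinarith [Real.pi_pos]
  have h5 : 2 / Real.pi * (Real.pi * |x|) = 2 * |x| := by
    field_simp
  linarith

/-- distinct positive integers: `∑ 1/n² ≤ 2`. -/
theorem F7_sum_le {κ : Type} (s : Finset κ) (n : κ → ℕ) (hpos : ∀ j ∈ s, 1 ≤ n j)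
    (hinj : Set.InjOn n (s : Set κ)) : ∑ j ∈ s, ((n j : ℝ) ^ 2)⁻¹ ≤ 2 := by
  classical
  have h1 : ∑ j ∈ s, ((n j : ℝ) ^ 2)⁻¹ = ∑ m ∈ s.image n, ((m : ℝ) ^ 2)⁻¹ := by
    rw [Finset.sum_image hinj]
  rw [h1]
  have h2 : s.image n ⊆ Finset.Ioo 0 ((s.image n).sup id + 1) := by
    intro m hm
    rw [Finset.mem_Ioo]
    refine ⟨?_, Nat.lt_succ_of_le (Finset.le_sup (f := id) hm)⟩
    obtain ⟨j, hj, rfl⟩ := Finset.mem_image.1 hm
    exact hpos j hj
  calc ∑ m ∈ s.image n, ((m : ℝ) ^ 2)⁻¹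
      ≤ ∑ m ∈ Finset.Ioo 0 ((s.image n).sup id + 1), ((m : ℝ) ^ 2)⁻¹ :=
        Finset.sum_le_sum_of_subset_of_nonneg h2 fun _ _ _ => by positivity
    _ ≤ 2 / ((0 : ℕ) + 1) := sum_Ioo_inv_sq_le 0 _
    _ = 2 := by norm_num

/-- positive `δ`-separated numbers `≥ δ`: `∑ 1/x² ≤ 2/δ²`. -/
theorem F7_sum_le' {κ : Type} (s : Finset κ) (x : κ → ℝ) (δ : ℝ) (hδ : 0 < δ)
    (hpos : ∀ j ∈ s, δ ≤ x j) (hsep : ∀ i ∈ s, ∀ j ∈ s, i ≠ j → δ ≤ |x i - x j|) :
    ∑ j ∈ s, (x j ^ 2)⁻¹ ≤ 2 / δ ^ 2 := by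
  have hn1 : ∀ j ∈ s, 1 ≤ ⌊x j / δ⌋₊ := by
    intro j hj
    rw [Nat.one_le_floor_iff, le_div_iff₀ hδ, one_mul]
    exact hpos j hj
  have hinj : Set.InjOn (fun j => ⌊x j / δ⌋₊) (s : Set κ) := by
    intro i hi j hj hij
    by_contra hne
    have h1 := hsep i hi j hj hne
    have hi0 : 0 ≤ x i / δ := div_nonneg (hδ.le.trans (hpos i hi)) hδ.le
    have hj0 : 0 ≤ x j / δ := div_nonneg (hδ.le.trans (hpos j hj)) hδ.le
    have a1 := Nat.floor_le hi0
    have a2 := Nat.lt_floor_add_one (x i / δ)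
    have a3 := Nat.floor_le hj0
    have a4 := Nat.lt_floor_add_one (x j / δ)
    simp only at hij
    rw [hij] at a1 a2
    have h2 : |x i / δ - x j / δ| < 1 := by
      rw [abs_lt]
      constructor <;> linarith
    rw [← sub_div, abs_div, abs_of_pos hδ, div_lt_one hδ] at h2
    linarith
  have h3 : ∀ j ∈ s, (x j ^ 2)⁻¹ ≤ (1 / δ ^ 2) * ((⌊x j / δ⌋₊ : ℝ) ^ 2)⁻¹ := by
    intro j hj
    have hj0 : 0 ≤ x j / δ := div_nonneg (hδ.le.trans (hpos j hj)) hδ.le
    have a3 := Nat.floor_le hj0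
    have a1 : (0 : ℝ) < (⌊x j / δ⌋₊ : ℝ) := by exact_mod_cast hn1 j hj
    have a2 : (⌊x j / δ⌋₊ : ℝ) * δ ≤ x j := by
      rwa [le_div_iff₀ hδ] at a3
    rw [one_div, ← mul_inv, ← mul_pow, mul_comm δ]
    apply inv_anti₀
    · positivity
    · exact pow_le_pow_left₀ (by positivity) a2 2
  calc ∑ j ∈ s, (x j ^ 2)⁻¹ ≤ ∑ j ∈ s, (1 / δ ^ 2) * ((⌊x j / δ⌋₊ : ℝ) ^ 2)⁻¹ :=
        Finset.sum_le_sum h3
    _ = (1 / δ ^ 2) * ∑ j ∈ s, ((⌊x j / δ⌋₊ : ℝ) ^ 2)⁻¹ := by rw [Finset.mul_sum]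
    _ ≤ (1 / δ ^ 2) * 2 :=
        mul_le_mul_of_nonneg_left (F7_sum_le s _ hn1 hinj) (by positivity)
    _ = 2 / δ ^ 2 := by ring

/-- ROW F7.  `δ`-separated points mod 1: `∑_{j ≠ i} 1/|e(θ_j) - e(θ_i)|² ≤ 1/δ²`.
Let `x_j = θ_j - θ_i - round(..) ∈ [-1/2,1/2]`; `|x_j| ≥ δ` and the `x_j` of one sign are `δ`-separated, so
`j ↦ ⌊|x_j|/δ⌋ ≥ 1` is injective on each sign; `1/|e(x)-1|² ≤ 1/(16 x²)` and `∑ 2/(16 n²δ²) ≤ 4/(16δ²)`
(`∑_{n=1}^N 1/n² ≤ 2`). -/
theorem sum_inv_sq_le {ι : Type} [Fintype ι] [DecidableEq ι] (θ : ι → ℝ) (δ : ℝ) (hδ : 0 < δ)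
    (hsep : ∀ i j, i ≠ j → ∀ k : ℤ, δ ≤ |θ i - θ j - k|) (i : ι) :
    ∑ j ∈ Finset.univ.erase i, 1 / ‖ee (θ j) - ee (θ i)‖ ^ 2 ≤ 1 / δ ^ 2 := by
  set x : ι → ℝ := fun j => θ j - θ i - round (θ j - θ i) with hx
  have hxδ : ∀ j ∈ Finset.univ.erase i, δ ≤ |x j| := by
    intro j hj
    exact hsep j i (Finset.ne_of_mem_erase hj) _
  have hxx : ∀ j j', j ≠ j' → δ ≤ |x j - x j'| := by
    intro j j' hne
    have h := hsep j j' hne (round (θ j - θ i) - round (θ j' - θ i))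
    have e : x j - x j' = θ j - θ j' - ((round (θ j - θ i) - round (θ j' - θ i) : ℤ) : ℝ) := by
      simp only [hx]
      push_cast
      ring
    rw [e]
    exact h
  have hnorm : ∀ j, 4 * |x j| ≤ ‖ee (θ j) - ee (θ i)‖ := by
    intro j
    have h1 : ‖ee (θ j) - ee (θ i)‖ = ‖ee (θ j - θ i) - 1‖ := by
      have h2 : ee (θ j) - ee (θ i) = ee (θ i) * (ee (θ j - θ i) - 1) := by
        rw [mul_sub, ← ee_add, mul_one]
        congr 2
        ring
      rw [h2, norm_mul, norm_ee, one_mul]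
    rw [h1]
    exact four_mul_le _ _ fun k => round_le _ k
  have hterm : ∀ j ∈ Finset.univ.erase i, 1 / ‖ee (θ j) - ee (θ i)‖ ^ 2 ≤
      (1 / 16) * (|x j| ^ 2)⁻¹ := by
    intro j hj
    have h1 : 0 < |x j| := hδ.trans_le (hxδ j hj)
    have h2 := hnorm j
    have h3 : (1 / 16) * (|x j| ^ 2)⁻¹ = 1 / (4 * |x j|) ^ 2 := by
      field_simp
      norm_num
    rw [h3]
    apply one_div_le_one_div_of_le
    · positivity
    · exact pow_le_pow_left₀ (by positivity) h2 2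
  have hpos := F7_sum_le' ((Finset.univ.erase i).filter fun j => 0 ≤ x j) (fun j => |x j|) δ hδ
    (fun j hj => hxδ j (Finset.mem_filter.1 hj).1) (by
      intro j hj j' hj' hne
      rw [abs_of_nonneg (Finset.mem_filter.1 hj).2, abs_of_nonneg (Finset.mem_filter.1 hj').2]
      exact hxx j j' hne)
  have hneg := F7_sum_le' ((Finset.univ.erase i).filter fun j => ¬ 0 ≤ x j) (fun j => |x j|) δ hδ
    (fun j hj => hxδ j (Finset.mem_filter.1 hj).1) (by
      intro j hj j' hj' hne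
      have h1 := (Finset.mem_filter.1 hj).2
      have h2 := (Finset.mem_filter.1 hj').2
      push Not at h1 h2
      rw [abs_of_neg h1, abs_of_neg h2]
      have h3 : -x j - -x j' = x j' - x j := by ring
      rw [h3]
      exact hxx j' j (Ne.symm hne))
  calc ∑ j ∈ Finset.univ.erase i, 1 / ‖ee (θ j) - ee (θ i)‖ ^ 2
      ≤ ∑ j ∈ Finset.univ.erase i, (1 / 16) * (|x j| ^ 2)⁻¹ := Finset.sum_le_sum hterm
    _ = (1 / 16) * (∑ j ∈ (Finset.univ.erase i).filter (fun j => 0 ≤ x j), (|x j| ^ 2)⁻¹ +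
          ∑ j ∈ (Finset.univ.erase i).filter (fun j => ¬ 0 ≤ x j), (|x j| ^ 2)⁻¹) := by
        rw [Finset.sum_filter_add_sum_filter_not, Finset.mul_sum]
    _ ≤ (1 / 16) * (2 / δ ^ 2 + 2 / δ ^ 2) := by
        apply mul_le_mul_of_nonneg_left (add_le_add hpos hneg) (by norm_num)
    _ ≤ 1 / δ ^ 2 := by
        have : (1 / 16) * (2 / δ ^ 2 + 2 / δ ^ 2) = (1 / 4) * (1 / δ ^ 2) := by ring
        rw [this]
        have h1 : 0 < 1 / δ ^ 2 := by positivity
        linarith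

/-- ROW F7.  Large sieve: apply `MP_d9bc60_nt.TH.dual_sieve` with `R` the image of `i ↦ ee (θ i)`
(injective by separation), `D = 1/δ²`, `M = 2K+1 ≤ 3K`, `u = 0` and coefficients
`a_i ee(-(K+1) θ_i)` (so that `k ∈ Ioc 0 (2K+1)` corresponds to `k - K - 1 ∈ Icc (-K) K`). -/
theorem large_sieve {ι : Type} [Fintype ι] [DecidableEq ι] (θ : ι → ℝ) (δ : ℝ) (hδ : 0 < δ)
    (hsep : ∀ i j, i ≠ j → ∀ k : ℤ, δ ≤ |θ i - θ j - k|) (a : ι → ℂ) (K : ℕ) (hK : 0 < K) :
    ∑ k ∈ Finset.Icc (-(K : ℤ)) K, ‖∑ i, a i * ee (k * θ i)‖ ^ 2 ≤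
      (12 * K + 4 / (δ ^ 2 * K)) * ∑ i, ‖a i‖ ^ 2 := by
  have hinj : Function.Injective (fun i => ee (θ i)) := by
    intro i j hij
    by_contra hne
    have h1 : 4 * δ ≤ ‖ee (θ i - θ j) - 1‖ := four_mul_le _ _ fun k => hsep i j hne k
    have h2 : ee (θ i - θ j) = 1 := by
      have h3 : ee (θ i - θ j) * ee (θ j) = ee (θ j) := by
        rw [← ee_add, sub_add_cancel]
        exact hij
      have h4 : ee (θ j) ≠ 0 := by
        intro h0
        have := norm_ee (θ j)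
        rw [h0, norm_zero] at this
        exact zero_ne_one this
      exact mul_right_cancel₀ h4 (by rw [h3, one_mul])
    rw [h2, sub_self, norm_zero] at h1
    linarith
  set c : ℂ → ℂ := Function.extend (fun i => ee (θ i))
    (fun i => a i * ee (-((K : ℝ) + 1) * θ i)) 0 with hc
  have hcv : ∀ i, c (ee (θ i)) = a i * ee (-((K : ℝ) + 1) * θ i) := by
    intro i
    rw [hc]
    exact hinj.extend_apply _ _ i
  have hpow : ∀ (t : ℝ) (k : ℕ), ee t ^ k = ee (k * t) := by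
    intro t k
    induction k with
    | zero => simp [ee_zero]
    | succ n ih =>
      rw [pow_succ, ih, ← ee_add]
      congr 1
      push_cast
      ring
  have hM : 0 < 2 * K + 1 := by omega
  have hmain := Pool.Agent.Lib.MP_d9bc60_nt.TH.dual_sieve (Finset.univ.image fun i => ee (θ i))
    (by
      intro r hr
      obtain ⟨i, -, rfl⟩ := Finset.mem_image.1 hr
      exact norm_ee _) (1 / δ ^ 2)
    (by
      intro r hr
      obtain ⟨i, -, rfl⟩ := Finset.mem_image.1 hr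
      have h1 : (Finset.univ.image fun i => ee (θ i)).erase (ee (θ i)) =
          (Finset.univ.erase i).image fun i => ee (θ i) := by
        rw [Finset.image_erase hinj]
      rw [h1, Finset.sum_image (fun x _ y _ h => hinj h)]
      exact sum_inv_sq_le θ δ hδ hsep i) c 0 (2 * K + 1) hM
  have hsum : ∑ k ∈ Finset.Icc (-(K : ℤ)) K, ‖∑ i, a i * ee (k * θ i)‖ ^ 2 =
      ∑ k ∈ Finset.Ioc 0 (0 + (2 * K + 1)),
        ‖∑ r ∈ Finset.univ.image (fun i => ee (θ i)), c r * r ^ k‖ ^ 2 := by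
    symm
    refine Finset.sum_nbij' (fun k : ℕ => (k : ℤ) - K - 1) (fun m : ℤ => (m + K + 1).toNat)
      ?_ ?_ ?_ ?_ ?_
    · intro k hk
      rw [Finset.mem_Ioc] at hk
      rw [Finset.mem_Icc]
      constructor <;> omega
    · intro m hm
      rw [Finset.mem_Icc] at hm
      rw [Finset.mem_Ioc]
      constructor <;> omega
    · intro k hk
      rw [Finset.mem_Ioc] at hk
      omega
    · intro m hm
      rw [Finset.mem_Icc] at hm
      omega
    · intro k hk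
      rw [Finset.sum_image (fun x _ y _ h => hinj h)]
      congr 2
      refine Finset.sum_congr rfl fun i _ => ?_
      rw [hcv, hpow, mul_assoc, ← ee_add]
      congr 2
      push_cast
      ring
  have hnorm : ∑ r ∈ Finset.univ.image (fun i => ee (θ i)), ‖c r‖ ^ 2 = ∑ i, ‖a i‖ ^ 2 := by
    rw [Finset.sum_image (fun x _ y _ h => hinj h)]
    refine Finset.sum_congr rfl fun i _ => ?_
    rw [hcv, norm_mul, norm_ee, mul_one]
  rw [hsum]
  refine hmain.trans ?_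
  rw [hnorm]
  refine mul_le_mul_of_nonneg_right ?_ (Finset.sum_nonneg fun _ _ => by positivity)
  have hK1 : (1 : ℝ) ≤ K := by exact_mod_cast hK
  refine add_le_add ?_ ?_
  · push_cast
    linarith
  · push_cast
    rw [mul_one_div, div_div]
    apply div_le_div_of_nonneg_left (by norm_num) (by positivity)
    have : 0 < δ ^ 2 := by positivity
    nlinarith

end Pool.Agent.Lib.MP_648c71_nt.HP
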