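import Pool.Agent.Lib.MP_648c71_nt.HP.Geo

/-! Row G1 (about 120 lines): the Farey set is finite, neighbours are unimodular. -/

set_option autoImplicit false

namespace Pool.Agent.Lib.MP_648c71_nt.HP

open Finset MeasureTheory

variable {b c : ℤ} (Γ : Geo b c)

namespace Geo

private theorem g1_dt_swap (v w : O b c) : dt w v = - dt v w := by
  simp only [dt]; ring

private theorem g1_cop_of_dt_left {v u : O b c} (h : dt v u = 1) : IsCoprime v.re v.im :=
  ⟨u.im, -u.re, by simp only [dt] at h; linarith⟩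

private theorem g1_cop_of_dt_right {v u : O b c} (h : dt v u = 1) : IsCoprime u.re u.im :=
  ⟨-v.im, v.re, by simp only [dt] at h; linarith⟩

/-- a nonnegative multiple of a vector which is primitive -/
private theorem g1_unit {u w : O b c} {D : ℤ} (hD : D • u = w) (hw : IsCoprime w.re w.im) :
    D = 1 ∨ D = -1 := by
  obtain ⟨x, y, hxy⟩ := hw
  rw [← hD] at hxy
  simp only [QuadraticAlgebra.re_smul, QuadraticAlgebra.im_smul, smul_eq_mul] at hxy
  have h1 : D * (x * u.re + y * u.im) = 1 := by linarith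
  exact Int.isUnit_iff.1 (IsUnit.of_mul_eq_one _ h1)

private theorem g1_e1_prim : IsCoprime Γ.e1.re Γ.e1.im := by
  have h := Γ.nm_e1
  refine ⟨Γ.e1.re + b * Γ.e1.im, c * Γ.e1.im, ?_⟩
  rw [nm] at h
  linarith

private theorem g1_Y_pos {Y : ℝ} (hY : Γ.Y0 ≤ Y) : 0 < Y := by
  have h1 : Γ.rho 1 ≤ Γ.Y0 := le_trans (le_max_left _ _) (le_max_left _ _)
  have h2 := Γ.le_rho 1 (Or.inl Γ.one_sec)
  rw [nm_one] at h2
  simp only [Int.cast_one, Real.sqrt_one] at h2
  have h3 := Γ.Cr_one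
  by_contra hc
  push Not at hc
  have h4 : Γ.rho 1 ≤ 0 := by linarith
  nlinarith

private theorem g1_rho_e1 {Y : ℝ} (hY : Γ.Y0 ≤ Y) : Γ.rho Γ.e1 ≤ Y :=
  le_trans (le_trans (le_max_right _ _) (le_max_left _ _)) hY

private theorem g1_rho_mid {Y : ℝ} (hY : Γ.Y0 ≤ Y) : Γ.rho Γ.mid ≤ Y :=
  le_trans (le_trans (le_max_right _ _) (le_max_right _ _)) hY

/-- ROW G1.  `|re v|, |im v| ≤ Cs √nm v ≤ Cs Cr rho v ≤ Cs Cr Y`. -/
theorem FV_finite (Y : ℝ) : (Γ.FV Y).Finite := by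
  set N : ℤ := ⌈Γ.Cs * (Γ.Cr * Y)⌉ with hN
  have hfin : (Set.Icc (-N) N ×ˢ Set.Icc (-N) N : Set (ℤ × ℤ)).Finite :=
    (Set.finite_Icc _ _).prod (Set.finite_Icc _ _)
  refine (hfin.image (fun p : ℤ × ℤ => (⟨p.1, p.2⟩ : O b c))).subset ?_
  rintro v ⟨hv, _, hr⟩
  have h1 := Γ.size v (Or.inl hv)
  have h2 := Γ.le_rho v (Or.inl hv)
  have h3 := Γ.Cs_one
  have h4 := Γ.Cr_one
  have h5 : Γ.Cs * Real.sqrt (nm v) ≤ Γ.Cs * (Γ.Cr * Y) := by
    apply mul_le_mul_of_nonneg_left _ (by linarith)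
    exact h2.trans (mul_le_mul_of_nonneg_left hr (by linarith))
  have h6 : Γ.Cs * (Γ.Cr * Y) ≤ N := Int.le_ceil _
  have h7 : |(v.re : ℝ)| ≤ N := h1.1.trans (h5.trans h6)
  have h8 : |(v.im : ℝ)| ≤ N := h1.2.trans (h5.trans h6)
  rw [abs_le] at h7 h8
  refine ⟨(v.re, v.im), ⟨⟨?_, ?_⟩, ⟨?_, ?_⟩⟩, by ext <;> rfl⟩
  · exact_mod_cast h7.1
  · exact_mod_cast h7.2
  · exact_mod_cast h8.1
  · exact_mod_cast h8.2

/-- the Farey set -/
noncomputable def Fv (Y : ℝ) : Finset (O b c) := (Γ.FV_finite Y).toFinset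

theorem mem_Fv (Y : ℝ) (v : O b c) :
    v ∈ Γ.Fv Y ↔ v ∈ Γ.Sec ∧ IsCoprime v.re v.im ∧ Γ.rho v ≤ Y := by
  rw [Fv, Set.Finite.mem_toFinset]; rfl

/-- neighbours in the Farey set (closed by the last ray `e1`) -/
def Adj (Y : ℝ) (v w : O b c) : Prop :=
  v ∈ Γ.Fv Y ∧ (w ∈ Γ.Fv Y ∨ w = Γ.e1) ∧ Γ.ang v < Γ.ang w ∧
    ∀ u ∈ Γ.Fv Y, ¬ (Γ.ang v < Γ.ang u ∧ Γ.ang u < Γ.ang w)

/-- ROW G1.  `ang v = ang w` gives `dt v w = 0` (`lt_iff` twice, `dt w v = - dt v w`); two primitive vectors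
with `dt = 0` are equal up to sign; `sec_neg`. -/
theorem ang_inj (v w : O b c) (hv : v ∈ Γ.Sec) (hw : w ∈ Γ.Sec) (hpv : IsCoprime v.re v.im)
    (hpw : IsCoprime w.re w.im) (h : Γ.ang v = Γ.ang w) : v = w := by
  have h1 : ¬ 0 < dt v w := fun h0 => by
    have := (Γ.lt_iff v hv w hw).2 h0
    rw [h] at this
    exact lt_irrefl _ this
  have h2 : ¬ 0 < dt w v := fun h0 => by
    have := (Γ.lt_iff w hw v hv).2 h0
    rw [h] at this
    exact lt_irrefl _ this
  rw [g1_dt_swap] at h2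
  have h3 : dt v w = 0 := by omega
  obtain ⟨x, y, hxy⟩ := hpv
  have h4 : (x * w.re + y * w.im) • v = w := by
    ext
    · simp only [QuadraticAlgebra.re_smul, smul_eq_mul]
      simp only [dt] at h3
      linear_combination w.re * hxy + y * h3
    · simp only [QuadraticAlgebra.im_smul, smul_eq_mul]
      simp only [dt] at h3
      linear_combination w.im * hxy - x * h3
  rcases g1_unit h4 hpw with h5 | h5
  · rw [h5, one_smul] at h4
    exact h4
  · rw [h5, neg_one_smul] at h4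
    exact absurd (h4 ▸ hw) (Γ.sec_neg v hv)

/-- ROW G1.  Neighbours have determinant 1.  Let `D = dt v w > 0` (`lt_iff`; for `w = e1` use `dt_e1`: `ang v > 0`,
because otherwise `mid`, which is in the Farey set, would lie strictly between `v` and `e1`).  As `v` is primitive there is `u₁`
with `dt v u₁ = 1`; put `u = u₁ + t v` with `t` such that `r = dt u w = dt u₁ w + t D ∈ [0, D)`.  By `cramer`
`D • u = r • v + 1 • w`.  If `D ≥ 2` then `r > 0` (otherwise `D ∣ w`, but `w` is primitive: a member of the Farey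
set, or `e1`, `nm e1 = 1`), so `u ∈ Sec` by `between`, `u` is primitive (`dt v u = 1`), `ang v < ang u < ang w`
by `lt_iff`, and `rho u ≤ (r rho v + rho w)/D ≤ Y` (`rho_add`, `rho_smul`, `r + 1 ≤ D`): contradiction.
Compare `path_prim` in `Lib/MP_648c71_nt/Lattice.lean`. -/
theorem adj_dt (Y : ℝ) (hY : Γ.Y0 ≤ Y) (v w : O b c) (h : Γ.Adj Y v w) : dt v w = 1 := by
  obtain ⟨hv, hw, hlt, hno⟩ := h
  obtain ⟨hvS, hvp, hvr⟩ := (Γ.mem_Fv Y v).1 hv
  have hYp := g1_Y_pos Γ hY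
  have hwS : w ∈ Γ.Sec ∨ w = Γ.e1 := hw.imp (fun h => ((Γ.mem_Fv Y w).1 h).1) id
  have hwp : IsCoprime w.re w.im := by
    rcases hw with h | h
    · exact ((Γ.mem_Fv Y w).1 h).2.1
    · rw [h]; exact g1_e1_prim Γ
  have hwr : Γ.rho w ≤ Y := by
    rcases hw with h | h
    · exact ((Γ.mem_Fv Y w).1 h).2.2
    · rw [h]; exact g1_rho_e1 Γ hY
  have hpos : 0 < dt v w := by
    rcases hwS with h | h
    · exact (Γ.lt_iff v hvS w h).1 hlt
    · subst h
      apply Γ.dt_e1 v hvS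
      by_contra hc
      have h0 := (Γ.sec_ang v hvS).1
      have hmid : Γ.mid ∈ Γ.Fv Y :=
        (Γ.mem_Fv Y Γ.mid).2 ⟨Γ.mid_sec, Γ.mid_prim, g1_rho_mid Γ hY⟩
      refine hno _ hmid ⟨?_, ?_⟩
      · have := Γ.mid_ang
        linarith
      · rw [Γ.ang_e1]
        exact (Γ.sec_ang _ Γ.mid_sec).2
  obtain ⟨x, y, hxy⟩ := id hvp
  set u0 : O b c := ⟨-y, x⟩ with hu0
  have hvu0 : dt v u0 = 1 := by simp only [dt, hu0]; linarith
  set D := dt v w with hD
  set t : ℤ := -(dt u0 w / D) with ht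
  set u : O b c := u0 + t • v with hu
  have hvu : dt v u = 1 := by
    rw [hu, ← hvu0]
    simp only [dt, QuadraticAlgebra.re_add, QuadraticAlgebra.im_add, QuadraticAlgebra.re_smul,
      QuadraticAlgebra.im_smul, smul_eq_mul]
    ring
  have huw : dt u w = dt u0 w % D := by
    have h1 : dt u w = dt u0 w + t * D := by
      rw [hu, hD]
      simp only [dt, QuadraticAlgebra.re_add, QuadraticAlgebra.im_add, QuadraticAlgebra.re_smul,
        QuadraticAlgebra.im_smul, smul_eq_mul]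
      ring
    rw [h1, ht, Int.emod_def]; ring
  set r := dt u0 w % D with hr
  have hr0 : 0 ≤ r := Int.emod_nonneg _ (ne_of_gt hpos)
  have hrD : r < D := Int.emod_lt_of_pos _ hpos
  have hcr : D • u = r • v + w := by
    have h1 := cramer u v w
    rw [huw, hvu, one_smul] at h1
    exact h1
  by_contra hne
  have hD2 : 2 ≤ D := by omega
  have hrpos : 0 < r := by
    rcases hr0.eq_or_lt with h0 | h0
    · rw [← h0, zero_smul, zero_add] at hcr
      rcases g1_unit hcr hwp with h1 | h1 <;> omega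
    · exact h0
  have huS : u ∈ Γ.Sec := Γ.between v hvS w hwS hpos u (by omega) (by rw [huw]; exact hrpos)
  have hup : IsCoprime u.re u.im := g1_cop_of_dt_right hvu
  have hvu' : Γ.ang v < Γ.ang u := (Γ.lt_iff v hvS u huS).2 (by omega)
  have huw' : Γ.ang u < Γ.ang w := by
    rcases hwS with h | h
    · exact (Γ.lt_iff u huS w h).2 (by rw [huw]; exact hrpos)
    · rw [h, Γ.ang_e1]
      exact (Γ.sec_ang u huS).2
  have hDR : (2 : ℝ) ≤ D := by exact_mod_cast hD2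
  have hrR : (r : ℝ) + 1 ≤ D := by exact_mod_cast hrD
  have hr0R : (0 : ℝ) ≤ r := by exact_mod_cast hr0
  have hru : Γ.rho u ≤ Y := by
    have h1 : (D : ℝ) * Γ.rho u ≤ r * Γ.rho v + Γ.rho w := by
      rw [← Γ.rho_smul D u (by omega), ← Γ.rho_smul r v hr0, hcr]
      exact Γ.rho_add _ _
    have h2 : (r : ℝ) * Γ.rho v ≤ r * Y := mul_le_mul_of_nonneg_left hvr hr0R
    have h3 : ((r : ℝ) + 1) * Y ≤ D * Y := mul_le_mul_of_nonneg_right hrR hYp.le
    have h4 : (D : ℝ) * Γ.rho u ≤ D * Y := by linarith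
    exact le_of_mul_le_mul_left h4 (by linarith)
  exact hno u ((Γ.mem_Fv Y u).2 ⟨huS, hup, hru⟩) ⟨hvu', huw'⟩

/-- ROW G1.  The mediant `v + w` lies in the sector, strictly between, is primitive, and has gauge `> Y`
(otherwise it would be a member of the Farey set between neighbours). -/
theorem adj_mediant (Y : ℝ) (hY : Γ.Y0 ≤ Y) (v w : O b c) (h : Γ.Adj Y v w) :
    v + w ∈ Γ.Sec ∧ IsCoprime (v + w).re (v + w).im ∧ Y < Γ.rho (v + w) ∧
      Γ.ang v < Γ.ang (v + w) ∧ Γ.ang (v + w) < Γ.ang w ∧ dt v (v + w) = 1 ∧ dt (v + w) w = 1 := by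
  have h1 := adj_dt Γ Y hY v w h
  obtain ⟨hv, hw, hlt, hno⟩ := h
  obtain ⟨hvS, hvp, hvr⟩ := (Γ.mem_Fv Y v).1 hv
  have hwS : w ∈ Γ.Sec ∨ w = Γ.e1 := hw.imp (fun h => ((Γ.mem_Fv Y w).1 h).1) id
  have h2 : dt v (v + w) = 1 := by
    rw [← h1]
    simp only [dt, QuadraticAlgebra.re_add, QuadraticAlgebra.im_add]
    ring
  have h3 : dt (v + w) w = 1 := by
    rw [← h1]
    simp only [dt, QuadraticAlgebra.re_add, QuadraticAlgebra.im_add]
    ring
  have huS : v + w ∈ Γ.Sec :=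
    Γ.between v hvS w hwS (by omega) (v + w) (by omega) (by omega)
  have hup : IsCoprime (v + w).re (v + w).im := g1_cop_of_dt_right h2
  have h4 : Γ.ang v < Γ.ang (v + w) := (Γ.lt_iff v hvS _ huS).2 (by omega)
  have h5 : Γ.ang (v + w) < Γ.ang w := by
    rcases hwS with h | h
    · exact (Γ.lt_iff _ huS w h).2 (by omega)
    · rw [h] at huS ⊢
      rw [Γ.ang_e1]
      exact (Γ.sec_ang _ huS).2
  refine ⟨huS, hup, ?_, h4, h5, h2, h3⟩
  by_contra hc
  exact hno _ ((Γ.mem_Fv Y _).2 ⟨huS, hup, not_lt.1 hc⟩) ⟨h4, h5⟩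

end Geo

end Pool.Agent.Lib.MP_648c71_nt.HP
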