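import Pool.Agent.Lib.MP_648c71_nt.HP.G8
import Pool.Agent.Lib.MP_648c71_nt.Qap.E1

/-! Row G9 (about 170 lines): multiplicative energy of the box. -/

set_option autoImplicit false

namespace Pool.Agent.Lib.MP_648c71_nt.HP

open Finset MeasureTheory

variable {b c : ℤ} (Γ : Geo b c)

namespace Geo

open Classical in
/-- the box `q r < x ≤ 2 q r`, `r < y ≤ 2 r` -/
noncomputable def bxx (b c : ℤ) (q r : ℕ) : Finset (O b c) :=
  ((Ioc (q * r) (2 * (q * r))) ×ˢ (Ioc r (2 * r))).image (fun p => (⟨(p.1 : ℤ), (p.2 : ℤ)⟩ : O b c))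

theorem g9_mem {q r : ℕ} {z : O b c} (hz : z ∈ bxx b c q r) :
    (q : ℤ) * r < z.re ∧ z.re ≤ 2 * (q * r) ∧ (r : ℤ) < z.im ∧ z.im ≤ 2 * r := by
  classical
  simp only [bxx, mem_image, mem_product, mem_Ioc, Prod.exists] at hz
  obtain ⟨x, y, ⟨⟨h1, h2⟩, h3, h4⟩, rfl⟩ := hz
  refine ⟨?_, ?_, ?_, ?_⟩
  · show (q : ℤ) * r < (x : ℤ)
    exact_mod_cast h1
  · show (x : ℤ) ≤ 2 * (q * r)
    exact_mod_cast h2
  · show (r : ℤ) < (y : ℤ)
    exact_mod_cast h3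
  · show (y : ℤ) ≤ 2 * r
    exact_mod_cast h4

/-- ROW G9.  Products of two elements of the box lie in the narrow cone for large `q`:
`⟨x,y⟩⟨x',y'⟩ = ⟨xx' - c yy', xy' + x'y + b yy'⟩`. -/
theorem mul_narrow : ∃ q₁ : ℕ, Γ.q0 ≤ q₁ ∧ 0 < q₁ ∧ ∀ q : ℕ, q₁ ≤ q → ∀ r : ℕ, 1 ≤ r →
    ∀ z ∈ bxx b c q r, ∀ w ∈ bxx b c q r, 0 < (z * w).im ∧ (Γ.q0 : ℤ) * (z * w).im ≤ (z * w).re ∧
      ((z * w).re : ℝ) ≤ 8 * (1 + |(c : ℝ)|) * (q * r) ^ 2 := by
  refine ⟨8 * Γ.q0 + 4 * Γ.q0 * b.natAbs + 4 * c.natAbs + 4 * b.natAbs + 1, ?_, by positivity, ?_⟩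
  · have : 0 ≤ Γ.q0 * b.natAbs := Nat.zero_le _
    linarith [Nat.zero_le (c.natAbs), Nat.zero_le (b.natAbs), Nat.zero_le Γ.q0]
  intro q hq r hr z hz w hw
  obtain ⟨hz1, hz2, hz3, hz4⟩ := g9_mem hz
  obtain ⟨hw1, hw2, hw3, hw4⟩ := g9_mem hw
  have hr' : (1 : ℤ) ≤ r := by exact_mod_cast hr
  have hq' : 8 * (Γ.q0 : ℤ) + 4 * Γ.q0 * |b| + 4 * |c| + 4 * |b| + 1 ≤ q := by
    have := hq
    zify at this
    exact this
  have hb0 : 0 ≤ |b| := abs_nonneg b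
  have hc0 : 0 ≤ |c| := abs_nonneg c
  have hq0 : (0 : ℤ) ≤ Γ.q0 := Int.natCast_nonneg _
  have hq0b : (0 : ℤ) ≤ Γ.q0 * |b| := mul_nonneg hq0 hb0
  have hqpos : (1 : ℤ) ≤ q := by linarith
  have hqr : (0 : ℤ) < q * r := by positivity
  have hz0 : 0 < z.im := by linarith
  have hw0 : 0 < w.im := by linarith
  have hre : (z * w).re = z.re * w.re - c * (z.im * w.im) := by
    simp only [QuadraticAlgebra.re_mul]; ring
  have him : (z * w).im = z.re * w.im + z.im * w.re + b * (z.im * w.im) := by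
    simp only [QuadraticAlgebra.im_mul]; ring
  have hyy0 : 0 < z.im * w.im := mul_pos hz0 hw0
  have hyy : z.im * w.im ≤ 4 * r ^ 2 := by
    calc z.im * w.im ≤ (2 * r) * (2 * r) := mul_le_mul hz4 hw4 hw0.le (by positivity)
      _ = 4 * (r : ℤ) ^ 2 := by ring
  have hb1 : |b * (z.im * w.im)| ≤ 4 * |b| * r ^ 2 := by
    rw [abs_mul, abs_of_pos hyy0]
    calc |b| * (z.im * w.im) ≤ |b| * (4 * r ^ 2) := mul_le_mul_of_nonneg_left hyy hb0
      _ = 4 * |b| * (r : ℤ) ^ 2 := by ring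
  have hc1 : |c * (z.im * w.im)| ≤ 4 * |c| * r ^ 2 := by
    rw [abs_mul, abs_of_pos hyy0]
    calc |c| * (z.im * w.im) ≤ |c| * (4 * r ^ 2) := mul_le_mul_of_nonneg_left hyy hc0
      _ = 4 * |c| * (r : ℤ) ^ 2 := by ring
  have hb2 := abs_le.1 hb1
  have hc2 := abs_le.1 hc1
  have hxy1 : (q : ℤ) * r * r ≤ z.re * w.im := mul_le_mul hz1.le hw3.le (by positivity) (by linarith)
  have hxy2 : (r : ℤ) * (q * r) ≤ z.im * w.re := mul_le_mul hz3.le hw1.le hqr.le (by linarith)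
  have hxy3 : z.re * w.im ≤ 2 * (q * r) * (2 * r) := mul_le_mul hz2 hw4 hw0.le (by positivity)
  have hxy4 : z.im * w.re ≤ 2 * r * (2 * (q * r)) := mul_le_mul hz4 hw2 (by linarith) (by positivity)
  have hxx1 : (q : ℤ) * r * (q * r) ≤ z.re * w.re := mul_le_mul hz1.le hw1.le hqr.le (by linarith)
  have hxx2 : z.re * w.re ≤ 2 * (q * r) * (2 * (q * r)) :=
    mul_le_mul hz2 hw2 (by linarith) (by positivity)
  have hr2 : (0 : ℤ) < (r : ℤ) ^ 2 := by positivity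
  refine ⟨?_, ?_, ?_⟩
  · rw [him]
    have : 4 * |b| * (r : ℤ) ^ 2 < 2 * q * r ^ 2 := by
      apply mul_lt_mul_of_pos_right _ hr2
      linarith
    linarith [hb2.1]
  · rw [him, hre]
    have h1 : z.re * w.im + z.im * w.re + b * (z.im * w.im) ≤ (8 * q + 4 * |b|) * r ^ 2 := by
      linarith [hb2.2]
    have h2 : ((q : ℤ) ^ 2 - 4 * |c|) * r ^ 2 ≤ z.re * w.re - c * (z.im * w.im) := by
      linarith [hc2.2]
    have h3 : (Γ.q0 : ℤ) * (8 * q + 4 * |b|) ≤ (q : ℤ) ^ 2 - 4 * |c| := by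
      have h4 : (8 * (Γ.q0 : ℤ) + 4 * Γ.q0 * |b| + 4 * |c| + 4 * |b| + 1) * q ≤ q * q :=
        mul_le_mul_of_nonneg_right hq' (by linarith)
      have h5 : (4 * (Γ.q0 : ℤ) * |b|) * 1 ≤ (4 * (Γ.q0 : ℤ) * |b|) * q :=
        mul_le_mul_of_nonneg_left hqpos (by positivity)
      have h6 : (4 * |c|) * 1 ≤ (4 * |c|) * q :=
        mul_le_mul_of_nonneg_left hqpos (by linarith)
      have h7 : (0 : ℤ) ≤ 4 * |b| * q := by positivity
      linarith
    calc (Γ.q0 : ℤ) * (z.re * w.im + z.im * w.re + b * (z.im * w.im))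
        ≤ Γ.q0 * ((8 * q + 4 * |b|) * r ^ 2) := mul_le_mul_of_nonneg_left h1 hq0
      _ = (Γ.q0 * (8 * q + 4 * |b|)) * r ^ 2 := by ring
      _ ≤ ((q : ℤ) ^ 2 - 4 * |c|) * r ^ 2 := mul_le_mul_of_nonneg_right h3 hr2.le
      _ ≤ _ := h2
  · have h1 : (z * w).re ≤ 8 * (1 + |c|) * (q * r) ^ 2 := by
      rw [hre]
      have h8 : (r : ℤ) ^ 2 ≤ (q * r) ^ 2 := by
        rw [mul_pow]
        have h12 : (1 : ℤ) ≤ (q : ℤ) ^ 2 := one_le_pow₀ hqpos
        calc (r : ℤ) ^ 2 = 1 * r ^ 2 := (one_mul _).symm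
          _ ≤ q ^ 2 * r ^ 2 := mul_le_mul_of_nonneg_right h12 hr2.le
      have h9 : 4 * |c| * (r : ℤ) ^ 2 ≤ 4 * |c| * (q * r) ^ 2 :=
        mul_le_mul_of_nonneg_left h8 (by linarith)
      have h10 : (0 : ℤ) ≤ |c| * (q * r) ^ 2 := by positivity
      have h11 : (0 : ℤ) ≤ (q * r : ℤ) ^ 2 := by positivity
      linarith [hc2.1]
    have h2 : (((z * w).re : ℤ) : ℝ) ≤ ((8 * (1 + |c|) * (q * r) ^ 2 : ℤ) : ℝ) := by exact_mod_cast h1
    push_cast at h2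
    exact h2

theorem g9_cancel {z w w' : O b c} (hz : nm z ≠ 0) (h : z * w = z * w') : w = w' := by
  have h1 : star z * z = (⟨nm z, 0⟩ : O b c) := by
    rw [star_mul_eq]
    ext
    · simp only [sc, nm]; ring
    · simp only [dt]; ring
  have h2 : ∀ x : O b c, (⟨nm z, 0⟩ : O b c) * x = ⟨nm z * x.re, nm z * x.im⟩ := by
    intro x
    ext
    · simp [QuadraticAlgebra.re_mul]
    · simp [QuadraticAlgebra.im_mul]
  have h3 : (⟨nm z, 0⟩ : O b c) * w = (⟨nm z, 0⟩ : O b c) * w' := by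
    rw [← h1, mul_assoc, mul_assoc, h]
  rw [h2, h2] at h3
  have h4 := congrArg QuadraticAlgebra.re h3
  have h5 := congrArg QuadraticAlgebra.im h3
  simp only at h4 h5
  ext
  · exact mul_left_cancel₀ hz h4
  · exact mul_left_cancel₀ hz h5

theorem g9_tau_mul (e f : ℕ) :
    ((e * f).divisors.card) ≤ e.divisors.card * f.divisors.card := by
  rw [Nat.divisors_mul]
  exact Finset.card_mul_le

theorem g9_tau_mono {e f : ℕ} (h : e ∣ f) (hf : f ≠ 0) : e.divisors.card ≤ f.divisors.card :=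
  Finset.card_le_card (Nat.divisors_subset_of_dvd hf h)

open Classical in
/-- number of elements of `B` whose norm divides `m` -/
theorem g9_count_dvd (B : Finset (O b c)) (hB : ∀ z ∈ B, z ∈ Γ.Sec) (m : ℕ) (hm : m ≠ 0) :
    (B.filter (fun z => (nm z).natAbs ∣ m)).card ≤
      Γ.U.card * (b ^ 2 - 4 * c).natAbs * m.divisors.card ^ 3 := by
  have h1 : B.filter (fun z => (nm z).natAbs ∣ m) ⊆
      m.divisors.biUnion (fun d => B.filter (fun z => (nm z).natAbs = d)) := by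
    intro z hz
    rw [mem_filter] at hz
    rw [mem_biUnion]
    refine ⟨(nm z).natAbs, Nat.mem_divisors.2 ⟨hz.2, hm⟩, ?_⟩
    rw [mem_filter]
    exact ⟨hz.1, rfl⟩
  calc _ ≤ (m.divisors.biUnion (fun d => B.filter (fun z => (nm z).natAbs = d))).card :=
        card_le_card h1
    _ ≤ ∑ d ∈ m.divisors, (B.filter (fun z => (nm z).natAbs = d)).card := card_biUnion_le
    _ ≤ ∑ d ∈ m.divisors, Γ.U.card * (b ^ 2 - 4 * c).natAbs * m.divisors.card ^ 2 := by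
        apply Finset.sum_le_sum
        intro d hd
        have hd' := Nat.mem_divisors.1 hd
        have hd0 : 0 < d := Nat.pos_of_mem_divisors hd
        have h2 := Γ.card_norm d hd0 (B.filter (fun z => (nm z).natAbs = d)) (by
          intro v hv
          rw [mem_filter] at hv
          refine ⟨hB v hv.1, ?_⟩
          have h3 := Γ.nm_pos v (Γ.sec_M v (hB v hv.1))
          rw [← hv.2]
          omega)
        refine h2.trans ?_
        apply Nat.mul_le_mul_left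
        exact Nat.pow_le_pow_left (g9_tau_mono hd'.1 hm) 2
    _ = _ := by rw [sum_const, smul_eq_mul]; ring

open Classical in
/-- pairs with a given product -/
theorem g9_count_mul (B : Finset (O b c)) (hB : ∀ z ∈ B, z ∈ Γ.Sec) (v : O b c) (hv : 0 < nm v)
    (k : ℕ) (hk : 1 ≤ k) :
    ((B ×ˢ B).filter (fun p => p.1 * p.2 = (k : ℤ) • v)).card ≤
      Γ.U.card * (b ^ 2 - 4 * c).natAbs * (k.divisors.card ^ 6 * (nm v).natAbs.divisors.card ^ 3) := by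
  have hn0 : (nm v).natAbs ≠ 0 := by omega
  have hm : k ^ 2 * (nm v).natAbs ≠ 0 := by positivity
  have h1 : ((B ×ˢ B).filter (fun p => p.1 * p.2 = (k : ℤ) • v)).card ≤
      (B.filter (fun z => (nm z).natAbs ∣ k ^ 2 * (nm v).natAbs)).card := by
    apply card_le_card_of_injOn (fun p => p.1)
    · intro p hp
      simp only [coe_filter, mem_product, Set.mem_ofPred_eq] at hp ⊢
      refine ⟨hp.1.1, ?_⟩
      have h2 : nm (p.1 * p.2) = k ^ 2 * nm v := by rw [hp.2, nm_zsmul]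
      rw [nm_mul] at h2
      have h3 : (nm p.1 * nm p.2).natAbs = k ^ 2 * (nm v).natAbs := by
        rw [h2, Int.natAbs_mul, Int.natAbs_pow, Int.natAbs_natCast]
      rw [← h3, Int.natAbs_mul]
      exact dvd_mul_right _ _
    · intro p hp p' hp' hpp
      simp only [coe_filter, mem_product, Set.mem_ofPred_eq] at hp hp'
      simp only at hpp
      have h2 : p.1 * p.2 = p.1 * p'.2 := by
        rw [hp.2]
        conv_rhs => rw [hpp]
        rw [hp'.2]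
      have h3 := Γ.nm_pos p.1 (Γ.sec_M p.1 (hB p.1 hp.1.1))
      exact Prod.ext hpp (g9_cancel h3.ne' h2)
  refine h1.trans ((g9_count_dvd Γ B hB _ hm).trans ?_)
  apply Nat.mul_le_mul_left
  calc (k ^ 2 * (nm v).natAbs).divisors.card ^ 3
      ≤ (k.divisors.card ^ 2 * (nm v).natAbs.divisors.card) ^ 3 := by
        apply Nat.pow_le_pow_left
        refine (g9_tau_mul _ _).trans (Nat.mul_le_mul_right _ ?_)
        rw [sq, sq]
        exact g9_tau_mul _ _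
    _ = _ := by ring

open Classical in
/-- pairs whose product is parallel to `v` -/
theorem g9_fiber (B : Finset (O b c)) (hB : ∀ z ∈ B, z ∈ Γ.Sec) (N : ℕ) (hN : 1 ≤ N)
    (hBN : ∀ z ∈ B, ∀ w ∈ B, nm (z * w) ≤ N) (v : O b c) (hv : 0 < nm v) :
    ((((B ×ˢ B).filter (fun p => ∃ k : ℕ, 1 ≤ k ∧ p.1 * p.2 = (k : ℤ) • v)).card : ℝ)) ^ 2 ≤
      ((Γ.U.card * (b ^ 2 - 4 * c).natAbs : ℕ) : ℝ) ^ 2 * (N * (1 + Real.log N) ^ 128) *
        (((nm v).natAbs.divisors.card : ℝ) ^ 6 / (nm v).natAbs) := by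
  set n := (nm v).natAbs with hn
  have hn0 : 0 < n := by omega
  have hnv : (nm v : ℤ) = n := by omega
  set C0 := Γ.U.card * (b ^ 2 - 4 * c).natAbs with hC0
  set G := Nat.sqrt (N / n) with hG
  set F := (B ×ˢ B).filter (fun p => ∃ k : ℕ, 1 ≤ k ∧ p.1 * p.2 = (k : ℤ) • v) with hF
  have h1 : F ⊆ (Icc 1 G).biUnion (fun k => (B ×ˢ B).filter (fun p => p.1 * p.2 = (k : ℤ) • v)) := by
    intro p hp
    rw [hF, mem_filter] at hp
    obtain ⟨hp1, k, hk, hpk⟩ := hp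
    rw [mem_biUnion]
    refine ⟨k, ?_, ?_⟩
    · rw [mem_Icc]
      refine ⟨hk, ?_⟩
      rw [hG, Nat.le_sqrt, Nat.le_div_iff_mul_le hn0]
      have h2 := hBN p.1 (mem_product.1 hp1).1 p.2 (mem_product.1 hp1).2
      rw [hpk, nm_zsmul, hnv, sq] at h2
      exact_mod_cast h2
    · rw [mem_filter]
      exact ⟨hp1, hpk⟩
  have h2 : F.card ≤ ∑ k ∈ Icc 1 G, C0 * (k.divisors.card ^ 6 * n.divisors.card ^ 3) := by
    refine (card_le_card h1).trans (card_biUnion_le.trans ?_)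
    apply Finset.sum_le_sum
    intro k hk
    exact g9_count_mul Γ B hB v hv k (mem_Icc.1 hk).1
  have hGN : G ≤ N := (Nat.sqrt_le_self _).trans (Nat.div_le_self _ _)
  have h3 : ∑ k ∈ Icc 1 G, ((k.divisors.card : ℝ)) ^ 6 ≤ G * (1 + Real.log N) ^ 64 := by
    calc ∑ k ∈ Icc 1 G, ((k.divisors.card : ℝ)) ^ 6
        ≤ ∑ k ∈ Icc 1 G, G * (((k.divisors.card : ℝ)) ^ 6 / k) := by
          apply Finset.sum_le_sum
          intro k hk
          rw [mem_Icc] at hk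
          have hk0 : (0 : ℝ) < k := by exact_mod_cast hk.1
          have hkG : (k : ℝ) ≤ G := by exact_mod_cast hk.2
          rw [← mul_div_assoc, le_div_iff₀ hk0, mul_comm]
          exact mul_le_mul_of_nonneg_right hkG (pow_nonneg (Nat.cast_nonneg _) _)
      _ = G * ∑ k ∈ Icc 1 G, (((k.divisors.card : ℝ)) ^ 6 / k) := by rw [mul_sum]
      _ ≤ G * ∑ k ∈ Icc 1 N, (((k.divisors.card : ℝ)) ^ 6 / k) := by
          apply mul_le_mul_of_nonneg_left _ (Nat.cast_nonneg _)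
          apply Finset.sum_le_sum_of_subset_of_nonneg
          · exact Icc_subset_Icc le_rfl hGN
          · intros
            exact div_nonneg (pow_nonneg (Nat.cast_nonneg _) _) (Nat.cast_nonneg _)
      _ ≤ G * (1 + Real.log N) ^ 64 := by
          apply mul_le_mul_of_nonneg_left _ (Nat.cast_nonneg _)
          have := Qap.sum_tau_pow_div_le 6 N hN
          norm_num at this
          exact this
  have hlog : 0 ≤ Real.log N := Real.log_nonneg (by exact_mod_cast hN)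
  have h4 : (F.card : ℝ) ≤ C0 * n.divisors.card ^ 3 * (G * (1 + Real.log N) ^ 64) := by
    calc (F.card : ℝ) ≤ ((∑ k ∈ Icc 1 G, C0 * (k.divisors.card ^ 6 * n.divisors.card ^ 3) : ℕ) : ℝ) := by
          exact_mod_cast h2
      _ = C0 * n.divisors.card ^ 3 * ∑ k ∈ Icc 1 G, ((k.divisors.card : ℝ)) ^ 6 := by
          push_cast
          rw [mul_sum]
          apply Finset.sum_congr rfl
          intros
          ring
      _ ≤ _ := mul_le_mul_of_nonneg_left h3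
          (mul_nonneg (Nat.cast_nonneg _) (pow_nonneg (Nat.cast_nonneg _) _))
  have h5 : (G : ℝ) ^ 2 ≤ N / n := by
    have h6 : G * G ≤ N / n := Nat.sqrt_le _
    have h7 : G * G * n ≤ N := (Nat.le_div_iff_mul_le hn0).1 h6
    rw [le_div_iff₀ (by exact_mod_cast hn0), sq]
    exact_mod_cast h7
  calc (F.card : ℝ) ^ 2 ≤ (C0 * n.divisors.card ^ 3 * (G * (1 + Real.log N) ^ 64)) ^ 2 :=
        pow_le_pow_left₀ (Nat.cast_nonneg _) h4 2
    _ = (C0 : ℝ) ^ 2 * n.divisors.card ^ 6 * (1 + Real.log N) ^ 128 * (G : ℝ) ^ 2 := by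
        generalize (1 + Real.log (N : ℝ)) = L1; ring
    _ ≤ (C0 : ℝ) ^ 2 * n.divisors.card ^ 6 * (1 + Real.log N) ^ 128 * (N / n) :=
        mul_le_mul_of_nonneg_left h5 (mul_nonneg (mul_nonneg (pow_nonneg (Nat.cast_nonneg _) _)
          (pow_nonneg (Nat.cast_nonneg _) _)) (pow_nonneg (by linarith) _))
    _ = _ := by
        generalize (1 + Real.log (N : ℝ)) = L1; ring

theorem g9_parallel {v v' : O b c} (hv : v ∈ Γ.Sec) (hv' : v' ∈ Γ.Sec) (hc1 : IsCoprime v.re v.im)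
    (hc2 : IsCoprime v'.re v'.im) (h : dt v v' = 0) : v = v' := by
  obtain ⟨x, y, hxy⟩ := hc1
  set u0 : O b c := ⟨-y, x⟩ with hu0
  have hvu0 : dt v u0 = 1 := by simp only [dt, hu0]; linarith
  have hcr := cramer v' v u0
  rw [hvu0, one_smul, h, zero_smul, add_zero] at hcr
  set m := dt v' u0 with hm
  have h1 : v'.re = m * v.re := by rw [hcr]; simp
  have h2 : v'.im = m * v.im := by rw [hcr]; simp
  rw [h1, h2] at hc2
  have h3 : IsUnit m := isCoprime_self.1 hc2.of_mul_left_left.of_mul_right_left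
  rcases Int.isUnit_iff.1 h3 with h4 | h4
  · rw [hcr, h4, one_smul]
  · exfalso
    rw [h4, neg_one_zsmul] at hcr
    exact Γ.sec_neg v hv (hcr ▸ hv')

open Classical in
theorem g9_energy_abs (B : Finset (O b c)) (hB : ∀ z ∈ B, z ∈ Γ.Sec) (N : ℕ) (hN : 1 ≤ N)
    (hBN : ∀ z ∈ B, ∀ w ∈ B, nm (z * w) ≤ N) (hBM : ∀ z ∈ B, ∀ w ∈ B, z * w ∈ Γ.Sec) :
    ((((B ×ˢ B) ×ˢ (B ×ˢ B)).filter (fun t =>
      dt (t.1.1 * t.1.2) (t.2.1 * t.2.2) = 0)).card : ℝ) ≤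
      ((Γ.U.card * (b ^ 2 - 4 * c).natAbs : ℕ) : ℝ) ^ 3 * N * (1 + Real.log N) ^ 256 := by
  set C0 := Γ.U.card * (b ^ 2 - 4 * c).natAbs with hC0
  have hlog : 0 ≤ Real.log N := Real.log_nonneg (by exact_mod_cast hN)
  set E := ((B ×ˢ B) ×ˢ (B ×ˢ B)).filter (fun t => dt (t.1.1 * t.1.2) (t.2.1 * t.2.2) = 0) with hE
  have hex : ∀ p : O b c × O b c, ∃ v : O b c, p ∈ B ×ˢ B → v ∈ Γ.Sec ∧ IsCoprime v.re v.im ∧
      ∃ k : ℕ, 1 ≤ k ∧ p.1 * p.2 = (k : ℤ) • v := by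
    intro p
    by_cases hp : p ∈ B ×ˢ B
    · rw [mem_product] at hp
      have h1 := hBM p.1 hp.1 p.2 hp.2
      have h2 : p.1 * p.2 ≠ 0 := by
        intro h0
        have h3 := Γ.nm_pos _ (Γ.sec_M _ h1)
        rw [h0] at h3
        simp [nm] at h3
      obtain ⟨g, v0, hg, hgv, hcop⟩ := exists_prim _ h2
      refine ⟨v0, fun _ => ⟨Γ.sec_pos v0 g hg (hgv ▸ h1), hcop, g.toNat, by omega, ?_⟩⟩
      rw [hgv, Int.toNat_of_nonneg hg.le]
    · exact ⟨0, fun h => absurd h hp⟩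
  choose φ hφ using hex
  set V := (B ×ˢ B).image φ with hV
  have hVs : ∀ v ∈ V, v ∈ Γ.Sec ∧ IsCoprime v.re v.im ∧ (nm v).natAbs ∈ Icc 1 N ∧ 0 < nm v := by
    intro v hv
    rw [hV, mem_image] at hv
    obtain ⟨p, hp, rfl⟩ := hv
    obtain ⟨h1, h2, k, hk, hpk⟩ := hφ p hp
    have h3 := Γ.nm_pos _ (Γ.sec_M _ h1)
    refine ⟨h1, h2, ?_, h3⟩
    rw [mem_product] at hp
    have h4 := hBN p.1 hp.1 p.2 hp.2
    rw [hpk, nm_zsmul] at h4
    have h5 : (1 : ℤ) ≤ (k : ℤ) ^ 2 := one_le_pow₀ (by exact_mod_cast hk)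
    have h6 : 1 * nm (φ p) ≤ (k : ℤ) ^ 2 * nm (φ p) := mul_le_mul_of_nonneg_right h5 h3.le
    rw [mem_Icc]
    omega
  have hEq : ∀ t ∈ E, φ t.1 = φ t.2 := by
    intro t ht
    rw [hE, mem_filter, mem_product] at ht
    obtain ⟨⟨ht1, ht2⟩, ht3⟩ := ht
    obtain ⟨h1, h2, k, hk, hpk⟩ := hφ t.1 ht1
    obtain ⟨h1', h2', k', hk', hpk'⟩ := hφ t.2 ht2
    apply g9_parallel Γ h1 h1' h2 h2'
    rw [hpk, hpk'] at ht3
    have h4 : dt ((k : ℤ) • φ t.1) ((k' : ℤ) • φ t.2) = k * k' * dt (φ t.1) (φ t.2) := by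
      simp only [dt, QuadraticAlgebra.re_smul, QuadraticAlgebra.im_smul, smul_eq_mul]; ring
    rw [h4] at ht3
    have h5 : ((k : ℤ) * k') ≠ 0 := by positivity
    exact (mul_eq_zero.1 ht3).resolve_left h5
  set Fb : O b c → Finset (O b c × O b c) := fun v =>
    (B ×ˢ B).filter (fun p => ∃ k : ℕ, 1 ≤ k ∧ p.1 * p.2 = (k : ℤ) • v) with hFb
  have hmem : ∀ p ∈ B ×ˢ B, p ∈ Fb (φ p) := by
    intro p hp
    rw [hFb]
    simp only [mem_filter]
    exact ⟨hp, (hφ p hp).2.2⟩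
  have h1 : E.card = ∑ v ∈ V, (E.filter (fun t => φ t.1 = v)).card := by
    apply Finset.card_eq_sum_card_fiberwise
    intro t ht
    have ht' : t ∈ E := ht
    rw [hE, mem_filter, mem_product] at ht'
    exact mem_image_of_mem _ ht'.1.1
  have h2 : ∀ v ∈ V, (E.filter (fun t => φ t.1 = v)).card ≤ (Fb v).card ^ 2 := by
    intro v _
    rw [sq, ← card_product]
    apply card_le_card
    intro t ht
    rw [mem_filter] at ht
    have h3 := hEq t ht.1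
    have ht1 := ht.1
    rw [hE, mem_filter, mem_product] at ht1
    rw [mem_product, ← ht.2]
    refine ⟨hmem _ ht1.1.1, ?_⟩
    rw [h3]
    exact hmem _ ht1.1.2
  set W : ℕ → ℝ := fun n => (C0 : ℝ) ^ 2 * (N * (1 + Real.log N) ^ 128) *
    ((n.divisors.card : ℝ) ^ 6 / n) with hW
  have hW0 : ∀ n, 0 ≤ W n := by intro n; rw [hW]; positivity
  calc (E.card : ℝ) = ∑ v ∈ V, ((E.filter (fun t => φ t.1 = v)).card : ℝ) := by
        rw [h1]; push_cast; rfl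
    _ ≤ ∑ v ∈ V, ((Fb v).card : ℝ) ^ 2 := by
        apply Finset.sum_le_sum
        intro v hv
        exact_mod_cast h2 v hv
    _ ≤ ∑ v ∈ V, W (nm v).natAbs := by
        apply Finset.sum_le_sum
        intro v hv
        exact g9_fiber Γ B hB N hN hBN v (hVs v hv).2.2.2
    _ = ∑ n ∈ Icc 1 N, ∑ v ∈ V.filter (fun v => (nm v).natAbs = n), W (nm v).natAbs :=
        (Finset.sum_fiberwise_of_maps_to (fun v hv => (hVs v hv).2.2.1) _).symm
    _ = ∑ n ∈ Icc 1 N, ((V.filter (fun v => (nm v).natAbs = n)).card : ℝ) * W n := by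
        apply Finset.sum_congr rfl
        intro n _
        rw [← nsmul_eq_mul, ← Finset.sum_const]
        apply Finset.sum_congr rfl
        intro v hv
        rw [(mem_filter.1 hv).2]
    _ ≤ ∑ n ∈ Icc 1 N, ((C0 * n.divisors.card : ℕ) : ℝ) * W n := by
        apply Finset.sum_le_sum
        intro n hn
        apply mul_le_mul_of_nonneg_right _ (hW0 n)
        have h3 := Γ.card_prim n (mem_Icc.1 hn).1 (V.filter (fun v => (nm v).natAbs = n)) (by
          intro v hv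
          rw [mem_filter] at hv
          obtain ⟨h4, h5, _, h6⟩ := hVs v hv.1
          refine ⟨h4, h5, ?_⟩
          rw [← hv.2]
          omega)
        exact_mod_cast h3
    _ = (C0 : ℝ) ^ 3 * N * (1 + Real.log N) ^ 128 *
          ∑ n ∈ Icc 1 N, (n.divisors.card : ℝ) ^ 7 / n := by
        rw [mul_sum]
        apply Finset.sum_congr rfl
        intro n _
        rw [hW]
        push_cast
        generalize (1 + Real.log (N : ℝ)) = L1
        ring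
    _ ≤ (C0 : ℝ) ^ 3 * N * (1 + Real.log N) ^ 128 * (1 + Real.log N) ^ 128 := by
        apply mul_le_mul_of_nonneg_left _ (by positivity)
        have := Qap.sum_tau_pow_div_le 7 N hN
        norm_num at this
        exact this
    _ = _ := by
        generalize (1 + Real.log (N : ℝ)) = L1; ring

theorem g9_final {C0 M r N : ℕ} {K Ln Lr : ℝ} (hK : 0 ≤ K) (h0 : 0 ≤ 1 + Ln) (hr : 0 ≤ Lr)
    (hN : N = M ^ 2 * r ^ 4) (h : 1 + Ln ≤ K * (1 + Lr)) (e : ℕ) :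
    (C0 : ℝ) ^ 3 * N * (1 + Ln) ^ e ≤
      ((C0 : ℝ) ^ 3 * M ^ 2 * K ^ e + 1) * (r : ℝ) ^ 4 * (1 + Lr) ^ e := by
  calc (C0 : ℝ) ^ 3 * N * (1 + Ln) ^ e
      ≤ (C0 : ℝ) ^ 3 * N * (K * (1 + Lr)) ^ e := by
        apply mul_le_mul_of_nonneg_left _ (by positivity)
        exact pow_le_pow_left₀ h0 h e
    _ = (C0 : ℝ) ^ 3 * M ^ 2 * K ^ e * (r : ℝ) ^ 4 * (1 + Lr) ^ e := by
        rw [hN, mul_pow]
        push_cast
        ring
    _ ≤ _ := by
        apply mul_le_mul_of_nonneg_right _ (by positivity)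
        apply mul_le_mul_of_nonneg_right _ (by positivity)
        linarith

open Classical in
/-- ROW G9.  The energy.  For a pair write `z w = k • v₀`, `v₀` primitive in the sector; `z'w'` is parallel to it
iff `z' w' = k' • v₀`, `k' ≥ 1`.  `r(v₀)` = number of pairs with `z w ∥ v₀`; the energy is `∑ r(v₀)²`.  With
`n₀ = nm v₀`: `k² n₀ = nm z nm w ≤ C r⁴`, so `k ≤ G = C r²/√n₀`; for given `k` the number of `(z,w)` with
`z w = k • v₀` is at most the number of `z ∈ Sec` with `nm z ∣ k² n₀`, `≤ ∑_{d ∣ k² n₀} C τ(d)² ≤ C τ(k² n₀)³ ≤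
C τ(k)^6 τ(n₀)³` (`card_norm`; `w` is determined by `z`).  `∑_{k ≤ G} τ(k)^6 ≤ G (1+log G)^64` (`Qap.E1`:
`sum_tau_pow_div_le`).  So `r(v₀)² ≤ C τ(n₀)^6 (r⁴/n₀) (1 + log r)^A` and
`∑_{v₀} τ(n₀)^6/n₀ ≤ ∑_{n ≤ C r⁴} C τ(n)² τ(n)^6/n ≤ C (1+log r)^A'` (`card_prim`). -/
theorem energy : ∃ q₁ : ℕ, Γ.q0 ≤ q₁ ∧ 0 < q₁ ∧ ∀ q : ℕ, q₁ ≤ q → ∃ C : ℝ, ∃ A : ℕ, 0 < C ∧
    ∀ r : ℕ, 1 ≤ r →
    ((((bxx b c q r ×ˢ bxx b c q r) ×ˢ (bxx b c q r ×ˢ bxx b c q r)).filter (fun t =>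
      dt (t.1.1 * t.1.2) (t.2.1 * t.2.2) = 0)).card : ℝ) ≤ C * (r : ℝ) ^ 4 * (1 + Real.log r) ^ A := by
  obtain ⟨q₁, hq1, hq2, hq3⟩ := Γ.mul_narrow
  refine ⟨q₁ + 2 * Γ.q0, by omega, by omega, ?_⟩
  intro q hq
  have hq' : q₁ ≤ q := by omega
  have hqpos : 1 ≤ q := by omega
  set C0 := Γ.U.card * (b ^ 2 - 4 * c).natAbs with hC0
  set M : ℕ := 4 * (1 + b.natAbs + c.natAbs) * q ^ 2 with hM
  have hM1 : 1 ≤ M := by
    rw [hM]
    have : 1 ≤ q ^ 2 := Nat.one_le_pow _ _ hqpos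
    calc 1 = 1 * 1 := rfl
      _ ≤ 4 * (1 + b.natAbs + c.natAbs) * q ^ 2 := Nat.mul_le_mul (by omega) this
  have hlogM : 0 ≤ Real.log (M ^ 2 : ℝ) := by
    apply Real.log_nonneg
    have : (1 : ℝ) ≤ M := by exact_mod_cast hM1
    exact one_le_pow₀ this
  set K : ℝ := 4 + Real.log (M ^ 2 : ℝ) with hK
  have hK0 : 0 < K := by rw [hK]; linarith
  refine ⟨(C0 : ℝ) ^ 3 * M ^ 2 * K ^ 256 + 1, 256, by positivity, ?_⟩
  intro r hr
  have hr' : (1 : ℤ) ≤ r := by exact_mod_cast hr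
  have hrR : (1 : ℝ) ≤ r := by exact_mod_cast hr
  have hqZ : (1 : ℤ) ≤ q := by exact_mod_cast hqpos
  have hB : ∀ z ∈ bxx b c q r, z ∈ Γ.Sec := by
    intro z hz
    obtain ⟨hz1, hz2, hz3, hz4⟩ := g9_mem hz
    have h1 : (Γ.q0 : ℤ) * z.im ≤ z.re := by
      have h2 : (2 * Γ.q0 : ℤ) ≤ q := by exact_mod_cast (by omega : 2 * Γ.q0 ≤ q)
      calc (Γ.q0 : ℤ) * z.im ≤ Γ.q0 * (2 * r) := mul_le_mul_of_nonneg_left hz4 (by positivity)
        _ = 2 * Γ.q0 * r := by ring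
        _ ≤ q * r := mul_le_mul_of_nonneg_right h2 (by linarith)
        _ ≤ z.re := hz1.le
    exact (Γ.narrow z.re z.im (by linarith) h1).1
  have hBM : ∀ z ∈ bxx b c q r, ∀ w ∈ bxx b c q r, z * w ∈ Γ.Sec := by
    intro z hz w hw
    obtain ⟨h1, h2, _⟩ := hq3 q hq' r hr z hz w hw
    exact (Γ.narrow _ _ h1 h2).1
  have hnm : ∀ z ∈ bxx b c q r, nm z ≤ (M * r ^ 2 : ℕ) := by
    intro z hz
    obtain ⟨hz1, hz2, hz3, hz4⟩ := g9_mem hz
    have hqr : (0 : ℤ) ≤ q * r := by positivity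
    have hz0 : 0 < z.im := by linarith
    have hz0' : 0 < z.re := by linarith
    have e1 : z.re ^ 2 ≤ 4 * (q * r) ^ 2 := by
      calc z.re ^ 2 ≤ (2 * (q * r)) ^ 2 := pow_le_pow_left₀ hz0'.le hz2 2
        _ = 4 * ((q : ℤ) * r) ^ 2 := by ring
    have e2 : z.re * z.im ≤ 4 * (q * r) ^ 2 := by
      calc z.re * z.im ≤ (2 * (q * r)) * (2 * r) := mul_le_mul hz2 hz4 hz0.le (by positivity)
        _ = 4 * (q * r ^ 2) * 1 := by ring
        _ ≤ 4 * ((q : ℤ) * r ^ 2) * q := mul_le_mul_of_nonneg_left hqZ (by positivity)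
        _ = 4 * ((q : ℤ) * r) ^ 2 := by ring
    have e3 : z.im ^ 2 ≤ 4 * (q * r) ^ 2 := by
      calc z.im ^ 2 ≤ (2 * r) ^ 2 := pow_le_pow_left₀ hz0.le hz4 2
        _ = 4 * (r : ℤ) ^ 2 * 1 := by ring
        _ ≤ 4 * (r : ℤ) ^ 2 * q ^ 2 :=
            mul_le_mul_of_nonneg_left (one_le_pow₀ hqZ) (by positivity)
        _ = 4 * ((q : ℤ) * r) ^ 2 := by ring
    have hp : 0 ≤ z.re * z.im := by positivity
    have e4 : b * (z.re * z.im) ≤ |b| * (4 * (q * r) ^ 2) :=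
      (mul_le_mul_of_nonneg_right (le_abs_self b) hp).trans
        (mul_le_mul_of_nonneg_left e2 (abs_nonneg b))
    have e5 : c * z.im ^ 2 ≤ |c| * (4 * (q * r) ^ 2) :=
      (mul_le_mul_of_nonneg_right (le_abs_self c) (by positivity)).trans
        (mul_le_mul_of_nonneg_left e3 (abs_nonneg c))
    have e6 : ((M * r ^ 2 : ℕ) : ℤ) = (1 + |b| + |c|) * (4 * (q * r) ^ 2) := by
      rw [hM]
      push_cast
      ring
    rw [e6]
    have e7 : nm z = z.re ^ 2 + b * (z.re * z.im) + c * z.im ^ 2 := by simp only [nm]; ring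
    rw [e7]
    linarith
  set N : ℕ := M ^ 2 * r ^ 4 with hN
  have hN1 : 1 ≤ N := by
    rw [hN]
    calc 1 = 1 * 1 := rfl
      _ ≤ M ^ 2 * r ^ 4 := Nat.mul_le_mul (Nat.one_le_pow _ _ hM1) (Nat.one_le_pow _ _ hr)
  have hBN : ∀ z ∈ bxx b c q r, ∀ w ∈ bxx b c q r, nm (z * w) ≤ N := by
    intro z hz w hw
    rw [nm_mul]
    have h1 := hnm z hz
    have h2 := hnm w hw
    have h3 := Γ.nm_pos z (Γ.sec_M z (hB z hz))
    have h4 := Γ.nm_pos w (Γ.sec_M w (hB w hw))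
    calc nm z * nm w ≤ ((M * r ^ 2 : ℕ) : ℤ) * ((M * r ^ 2 : ℕ) : ℤ) :=
          mul_le_mul h1 h2 h4.le (by positivity)
      _ = (N : ℤ) := by rw [hN]; push_cast; ring
  have hmain := g9_energy_abs Γ (bxx b c q r) hB N hN1 hBN hBM
  have hlogN : 1 + Real.log N ≤ K * (1 + Real.log r) := by
    have hlr : 0 ≤ Real.log r := Real.log_nonneg hrR
    have hMr : (1 : ℝ) ≤ M := by exact_mod_cast hM1
    rw [hN]
    push_cast
    rw [Real.log_mul (by positivity) (by positivity), Real.log_pow r 4]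
    push_cast
    rw [hK]
    have hprod := mul_nonneg hlogM hlr
    linarith
  have hlogN0 : 0 ≤ 1 + Real.log N := by
    have : 0 ≤ Real.log N := Real.log_nonneg (by exact_mod_cast hN1)
    linarith
  have hlr : 0 ≤ Real.log r := Real.log_nonneg hrR
  exact (by convert hmain using 3 : _ ≤ _).trans (g9_final hK0.le hlogN0 hlr hN hlogN 256)

end Geo

end Pool.Agent.Lib.MP_648c71_nt.HP
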