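import Pool.Agent.Lib.MP_648c71_nt.HP.W2

/-! Row W5 (about 70 lines): finite differences and derivatives. -/

set_option autoImplicit false

namespace Pool.Agent.Lib.MP_648c71_nt.HP

open Finset MeasureTheory

/-- ROW W5.  Induction on `j` for all families `G`: the family `G' i x = G i (x+1) - G i x` on `[A, B-1]` has
`G' (j-1) x = G j ξ` (mean value theorem `exists_deriv_eq_slope` / `image_sub_le_mul_sub_of_deriv_le`), hence
in `[lo,hi]`, and `dl^[j] (k ↦ G 0 (x₀+k)) = dl^[j-1] (k ↦ G' 0 (x₀+k))` (`Function.iterate_succ_apply`). -/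
theorem fd (j : ℕ) (G : ℕ → ℝ → ℝ) (A B : ℝ)
    (hG : ∀ i < j, ∀ x ∈ Set.Icc A B, HasDerivAt (G i) (G (i + 1) x) x) (lo hi : ℝ)
    (hj : ∀ x ∈ Set.Icc A B, lo ≤ G j x ∧ G j x ≤ hi) (x₀ : ℝ) (n : ℕ) (h1 : A ≤ x₀ + n)
    (h2 : x₀ + n + j ≤ B) :
    lo ≤ (dl^[j] (fun k : ℕ => G 0 (x₀ + k))) n ∧ (dl^[j] (fun k : ℕ => G 0 (x₀ + k))) n ≤ hi := by
  induction j generalizing G B with
  | zero =>
    simp only [Function.iterate_zero, id_eq]
    exact hj _ ⟨h1, by simpa using h2⟩
  | succ j ih =>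
    rw [Function.iterate_succ_apply]
    have hfun : dl (fun k : ℕ => G 0 (x₀ + k)) =
        fun k : ℕ => (fun (i : ℕ) (x : ℝ) => G i (x + 1) - G i x) 0 (x₀ + k) := by
      funext k
      simp only [dl]
      push_cast
      ring_nf
    rw [hfun]
    refine ih (fun i x => G i (x + 1) - G i x) (B - 1) ?_ ?_ ?_
    · intro i hi x hx
      have e1 : HasDerivAt (G i) (G (i + 1) (x + 1)) (x + 1) :=
        hG i (by omega) (x + 1) ⟨by linarith [hx.1], by linarith [hx.2]⟩
      have e2 : HasDerivAt (G i) (G (i + 1) x) x :=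
        hG i (by omega) x ⟨hx.1, by linarith [hx.2]⟩
      exact (e1.comp_add_const x 1).sub e2
    · intro x hx
      have hlt : x < x + 1 := by linarith
      obtain ⟨ξ, hξ, hξ2⟩ := exists_hasDerivAt_eq_slope (G j) (G (j + 1)) hlt
        (fun y hy => (hG j (by omega) y ⟨by linarith [hx.1, hy.1],
          by linarith [hx.2, hy.2]⟩).continuousAt.continuousWithinAt)
        (fun y hy => hG j (by omega) y ⟨by linarith [hx.1, hy.1], by linarith [hx.2, hy.2]⟩)
      have e3 : G j (x + 1) - G j x = G (j + 1) ξ := by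
        rw [hξ2]
        have : x + 1 - x = 1 := by ring
        rw [this, div_one]
      have e4 := hj ξ ⟨by linarith [hx.1, hξ.1], by linarith [hx.2, hξ.2]⟩
      simp only [e3]
      exact e4
    · push_cast at h2
      linarith

end Pool.Agent.Lib.MP_648c71_nt.HP
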