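import Mathlib

/-! Row W6 (about 140 lines): derivatives of the logarithmic angle. -/

set_option autoImplicit false

namespace Pool.Agent.Lib.MP_648c71_nt.HP

open Finset MeasureTheory

/-- the logarithmic angle of `(x,y)` and its derivatives in `x` -/
noncomputable def LG (ω1 ω2 : ℂ) (y : ℝ) : ℕ → ℝ → ℝ
  | 0, x => ((Complex.log (x + y * ω1) - Complex.log (x + y * ω2)) / (ω1 - ω2)).re
  | j + 1, x => (-1) ^ j * (j.factorial : ℝ) *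
      ((((x + y * ω1) ^ (j + 1))⁻¹ - ((x + y * ω2) ^ (j + 1))⁻¹) / (ω1 - ω2)).re

private lemma W6_lin (ω : ℂ) (y x : ℝ) : HasDerivAt (fun t : ℝ => (t : ℂ) + y * ω) 1 x := by
  have := (Complex.ofRealCLM.hasDerivAt (x := x))
  simpa using this.add_const ((y : ℂ) * ω)

private lemma W6_re {f : ℝ → ℂ} {f' : ℂ} {x : ℝ} (h : HasDerivAt f f' x) :
    HasDerivAt (fun t => (f t).re) f'.re x := by
  exact Complex.reCLM.hasFDerivAt.comp_hasDerivAt x h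

private lemma W6_hasDerivAt_log (ω : ℂ) (y x : ℝ) (h : 0 < (x + y * ω : ℂ).re) :
    HasDerivAt (fun t : ℝ => Complex.log ((t : ℂ) + y * ω)) ((x + y * ω : ℂ)⁻¹) x := by
  have h0 : (x + y * ω : ℂ) ∈ Complex.slitPlane := Or.inl h
  have := (W6_lin ω y x).clog_real h0
  simpa using this

private lemma W6_hasDerivAt_inv (ω : ℂ) (y x : ℝ) (h : 0 < (x + y * ω : ℂ).re) (k : ℕ) :
    HasDerivAt (fun t : ℝ => (((t : ℂ) + y * ω) ^ (k + 1))⁻¹)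
      (-((k : ℂ) + 1) * ((x + y * ω : ℂ) ^ (k + 2))⁻¹) x := by
  have h0 : (x + y * ω : ℂ) ≠ 0 := by
    intro h1
    rw [h1] at h
    simp at h
  have a1 := ((W6_lin ω y x).pow (k + 1)).inv (pow_ne_zero _ h0)
  refine a1.congr_deriv ?_
  field_simp
  push_cast
  simp
  ring

/-- ROW W6.  `d/dx log(x + yω) = 1/(x+yω)` on the slit plane, `d/dx (x+yω)^(-j) = -j (x+yω)^(-j-1)`; take real
parts (`HasDerivAt` of a complex valued function of a real variable, `HasDerivAt.ofReal_comp`-type lemmas or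
`Complex.reCLM.hasFDerivAt.comp_hasDerivAt`). -/
theorem hasDerivAt_LG (ω1 ω2 : ℂ) (y x : ℝ) (h1 : 0 < (x + y * ω1 : ℂ).re) (h2 : 0 < (x + y * ω2 : ℂ).re)
    (j : ℕ) : HasDerivAt (LG ω1 ω2 y j) (LG ω1 ω2 y (j + 1) x) x := by
  cases j with
  | zero =>
    have a1 := W6_hasDerivAt_log ω1 y x h1
    have a2 := W6_hasDerivAt_log ω2 y x h2
    have a3 := W6_re ((a1.sub a2).div_const (ω1 - ω2))
    have e1 : LG ω1 ω2 y 0 = fun x : ℝ =>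
      ((Complex.log (x + y * ω1) - Complex.log (x + y * ω2)) / (ω1 - ω2)).re := by
      funext t; rfl
    rw [e1]
    refine a3.congr_deriv ?_
    simp [LG]
  | succ k =>
    have a1 := W6_hasDerivAt_inv ω1 y x h1 k
    have a2 := W6_hasDerivAt_inv ω2 y x h2 k
    have a3 := W6_re ((a1.sub a2).div_const (ω1 - ω2))
    have a4 := a3.const_mul ((-1) ^ k * (k.factorial : ℝ))
    have e1 : LG ω1 ω2 y (k + 1) = fun x : ℝ => (-1) ^ k * (k.factorial : ℝ) *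
      ((((x + y * ω1) ^ (k + 1))⁻¹ - ((x + y * ω2) ^ (k + 1))⁻¹) / (ω1 - ω2)).re := by
      funext t; rfl
    rw [e1]
    refine a4.congr_deriv ?_
    have e2 : LG ω1 ω2 y (k + 1 + 1) x = (-1) ^ (k + 1) * ((k + 1).factorial : ℝ) *
      ((((x + y * ω1) ^ (k + 2))⁻¹ - ((x + y * ω2) ^ (k + 2))⁻¹) / (ω1 - ω2)).re := rfl
    rw [e2, Nat.factorial_succ]
    have e3 : (-((k : ℂ) + 1) * ((x + y * ω1) ^ (k + 2))⁻¹ - -((k : ℂ) + 1) * ((x + y * ω2) ^ (k + 2))⁻¹) / (ω1 - ω2)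
        = ((-((k : ℝ) + 1) : ℝ) : ℂ) *
          ((((x + y * ω1) ^ (k + 2))⁻¹ - ((x + y * ω2) ^ (k + 2))⁻¹) / (ω1 - ω2)) := by
      push_cast
      ring
    rw [e3, Complex.re_ofReal_mul]
    push_cast
    ring

private lemma W6_inv0 (ω : ℂ) (k : ℕ) :
    HasDerivAt (fun t : ℝ => (((1 : ℂ) + t * ω) ^ (k + 1))⁻¹) (-((k : ℂ) + 1) * ω) 0 := by
  have a0 : HasDerivAt (fun t : ℝ => (1 : ℂ) + t * ω) ω 0 := by
    have := (Complex.ofRealCLM.hasDerivAt (x := (0 : ℝ)))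
    have h2 := (this.mul_const ω).const_add (1 : ℂ)
    simpa using h2
  have h0 : ((1 : ℂ) + ((0 : ℝ) : ℂ) * ω) ≠ 0 := by simp
  have a1 := (a0.pow (k + 1)).inv (pow_ne_zero _ h0)
  refine a1.congr_deriv ?_
  simp
  ring

/-- ROW W6.  For `1 ≤ j ≤ 6` and `0 < y ≤ κ x`: with `u = x + yω1`, `v = x + yω2`,
`u^(-j) - v^(-j) = (v - u) ∑_{i=1}^{j} u^(-i) v^(-(j+1-i))`, `v - u = -y(ω1-ω2)`, so
`(-1)^j LG j x = (j-1)! y Re ∑_{i=1}^j u^(-i) v^(-(j+1-i))` and each term is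
`x^(-j-1) (1 + tω1)^(-i) (1 + tω2)^(-(j+1-i))`, `t = y/x ≤ κ`, within `x^(-j-1)/2` of `x^(-j-1)` for small `κ`
(continuity at 0 of finitely many functions of `(tω1, tω2)`). -/
theorem LG_bounds (ω1 ω2 : ℂ) (hω : ω1 ≠ ω2) : ∃ κ : ℝ, 0 < κ ∧ ∀ x y : ℝ, 0 < y → y ≤ κ * x →
    0 < (x + y * ω1 : ℂ).re ∧ 0 < (x + y * ω2 : ℂ).re ∧ ∀ j : ℕ, 1 ≤ j → j ≤ 6 →
      (j.factorial : ℝ) / 2 * (y / x ^ (j + 1)) ≤ (-1) ^ j * LG ω1 ω2 y j x ∧
      (-1) ^ j * LG ω1 ω2 y j x ≤ 2 * (j.factorial : ℝ) * (y / x ^ (j + 1)) := by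
  have hd : ω1 - ω2 ≠ 0 := sub_ne_zero.mpr hω
  -- the derivative at 0
  have hF : ∀ k : ℕ, HasDerivAt (fun t : ℝ => ((((1 : ℂ) + t * ω1) ^ (k + 1))⁻¹ -
      (((1 : ℂ) + t * ω2) ^ (k + 1))⁻¹) / (ω1 - ω2)) (-((k : ℂ) + 1)) 0 := by
    intro k
    have b1 := (W6_inv0 ω1 k).sub (W6_inv0 ω2 k)
    refine (b1.div_const (ω1 - ω2)).congr_deriv ?_
    field_simp
    ring
  have hE : ∀ k : ℕ, ∀ᶠ t : ℝ in nhds 0, |(((((1 : ℂ) + t * ω1) ^ (k + 1))⁻¹ -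
      (((1 : ℂ) + t * ω2) ^ (k + 1))⁻¹) / (ω1 - ω2)).re + ((k : ℝ) + 1) * t| ≤ ((k : ℝ) + 1) / 2 * |t| := by
    intro k
    have b1 := W6_re (hF k)
    have b2 := (hasDerivAt_iff_isLittleO.mp b1).def (c := ((k : ℝ) + 1) / 2) (by positivity)
    filter_upwards [b2] with t ht
    simp only [Real.norm_eq_abs, sub_zero, smul_eq_mul] at ht
    have e1 : ((((((1 : ℂ) + ((0 : ℝ) : ℂ) * ω1) ^ (k + 1))⁻¹ -
      (((1 : ℂ) + ((0 : ℝ) : ℂ) * ω2) ^ (k + 1))⁻¹) / (ω1 - ω2)).re) = 0 := by simp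
    rw [e1] at ht
    have e2 : ((-((k : ℂ) + 1)).re) = -((k : ℝ) + 1) := by simp
    rw [e2] at ht
    have e3 : (((((1 : ℂ) + t * ω1) ^ (k + 1))⁻¹ -
      (((1 : ℂ) + t * ω2) ^ (k + 1))⁻¹) / (ω1 - ω2)).re + ((k : ℝ) + 1) * t =
      (((((1 : ℂ) + t * ω1) ^ (k + 1))⁻¹ -
      (((1 : ℂ) + t * ω2) ^ (k + 1))⁻¹) / (ω1 - ω2)).re - 0 - t * -((k : ℝ) + 1) := by ring
    rw [e3]
    exact ht
  have hP : ∀ ω : ℂ, ∀ᶠ t : ℝ in nhds 0, 0 < ((1 : ℂ) + t * ω).re := by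
    intro ω
    have c : ContinuousAt (fun t : ℝ => ((1 : ℂ) + t * ω).re) 0 := by
      have : Continuous (fun t : ℝ => ((1 : ℂ) + t * ω).re) := by fun_prop
      exact this.continuousAt
    have c1 : (0 : ℝ) < (fun t : ℝ => ((1 : ℂ) + t * ω).re) 0 := by simp
    exact c.eventually (lt_mem_nhds c1)
  have hall : ∀ᶠ t : ℝ in nhds 0, (0 < ((1 : ℂ) + t * ω1).re ∧ 0 < ((1 : ℂ) + t * ω2).re) ∧
      ∀ k ∈ Finset.range 6, |(((((1 : ℂ) + t * ω1) ^ (k + 1))⁻¹ -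
      (((1 : ℂ) + t * ω2) ^ (k + 1))⁻¹) / (ω1 - ω2)).re + ((k : ℝ) + 1) * t| ≤ ((k : ℝ) + 1) / 2 * |t| := by
    refine ((hP ω1).and (hP ω2)).and ?_
    rw [Filter.eventually_all_finset]
    intro k _
    exact hE k
  obtain ⟨ε, hε, hball⟩ := Metric.eventually_nhds_iff.mp hall
  refine ⟨ε / 2, by positivity, ?_⟩
  intro x y hy hyx
  have hx : 0 < x := by
    by_contra hx
    push Not at hx
    have : ε / 2 * x ≤ 0 := mul_nonpos_of_nonneg_of_nonpos (by positivity) hx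
    linarith
  have ht0 : 0 < y / x := div_pos hy hx
  have ht1 : y / x ≤ ε / 2 := by
    rw [div_le_iff₀ hx]; exact hyx
  have hdist : dist (y / x) 0 < ε := by
    rw [Real.dist_eq, sub_zero, abs_of_pos ht0]
    linarith
  obtain ⟨⟨p1, p2⟩, p3⟩ := hball hdist
  have hxc : (x : ℂ) ≠ 0 := by exact_mod_cast hx.ne'
  have hfac : ∀ ω : ℂ, ((x : ℂ) + y * ω) = x * ((1 : ℂ) + ((y / x : ℝ) : ℂ) * ω) := by
    intro ω
    push_cast
    field_simp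
  refine ⟨?_, ?_, ?_⟩
  · rw [hfac, Complex.re_ofReal_mul]; exact mul_pos hx p1
  · rw [hfac, Complex.re_ofReal_mul]; exact mul_pos hx p2
  · intro j hj1 hj6
    obtain ⟨k, rfl⟩ : ∃ k, j = k + 1 := ⟨j - 1, by omega⟩
    have q := p3 k (Finset.mem_range.mpr (by omega))
    have e2 : LG ω1 ω2 y (k + 1) x = (-1) ^ k * (k.factorial : ℝ) *
      ((((x + y * ω1) ^ (k + 1))⁻¹ - ((x + y * ω2) ^ (k + 1))⁻¹) / (ω1 - ω2)).re := rfl
    have e3 : ((((x + y * ω1) ^ (k + 1))⁻¹ - ((x + y * ω2) ^ (k + 1))⁻¹) / (ω1 - ω2)) =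
        (((x ^ (k + 1))⁻¹ : ℝ) : ℂ) * (((((1 : ℂ) + ((y / x : ℝ) : ℂ) * ω1) ^ (k + 1))⁻¹ -
      (((1 : ℂ) + ((y / x : ℝ) : ℂ) * ω2) ^ (k + 1))⁻¹) / (ω1 - ω2)) := by
      rw [hfac ω1, hfac ω2, mul_pow, mul_pow, mul_inv, mul_inv]
      push_cast
      ring
    rw [e2, e3, Complex.re_ofReal_mul]
    set R : ℝ := (((((1 : ℂ) + ((y / x : ℝ) : ℂ) * ω1) ^ (k + 1))⁻¹ -
      (((1 : ℂ) + ((y / x : ℝ) : ℂ) * ω2) ^ (k + 1))⁻¹) / (ω1 - ω2)).re with hR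
    rw [abs_of_pos ht0, abs_le] at q
    have hsgn : (-1 : ℝ) ^ (k + 1) * ((-1) ^ k * (k.factorial : ℝ) * ((x ^ (k + 1))⁻¹ * R)) =
        (k.factorial : ℝ) * (x ^ (k + 1))⁻¹ * (-R) := by
      have : (-1 : ℝ) ^ (k + 1) * (-1) ^ k = -1 := by
        rw [pow_succ]
        have h2 : (-1 : ℝ) ^ k * (-1) ^ k = 1 := by
          rw [← mul_pow]; norm_num
        linear_combination (-1) * h2
      linear_combination ((k.factorial : ℝ) * ((x ^ (k + 1))⁻¹ * R)) * this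
    rw [hsgn, Nat.factorial_succ]
    have hkf : (0 : ℝ) < k.factorial := by exact_mod_cast Nat.factorial_pos k
    have hxk : 0 < (x ^ (k + 1))⁻¹ := by positivity
    have hc : 0 < (k.factorial : ℝ) * (x ^ (k + 1))⁻¹ := mul_pos hkf hxk
    have hrw : y / x ^ (k + 1 + 1) = (x ^ (k + 1))⁻¹ * (y / x) := by
      rw [pow_succ x (k + 1)]
      field_simp
    rw [hrw]
    push_cast
    have hk0 : (0 : ℝ) ≤ ((k : ℝ) + 1) * (y / x) := by positivity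
    constructor
    · have l1 : ((k : ℝ) + 1) / 2 * (y / x) ≤ -R := by nlinarith [q.2]
      have := mul_le_mul_of_nonneg_left l1 hc.le
      nlinarith [this]
    · have l1 : -R ≤ 2 * (((k : ℝ) + 1) * (y / x)) := by nlinarith [q.1]
      have := mul_le_mul_of_nonneg_left l1 hc.le
      nlinarith [this]

end Pool.Agent.Lib.MP_648c71_nt.HP
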