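import Pool.Agent.Lib.MP_648c71_nt.HP.W4
import Pool.Agent.Lib.MP_648c71_nt.HP.W5
import Pool.Agent.Lib.MP_648c71_nt.HP.W6

set_option autoImplicit false

namespace Pool.Agent.Lib.MP_648c71_nt.HP

/-! Row W7 (about 150 lines): exponential sums over a row of the box. -/

open Finset MeasureTheory

theorem w7_norm_neg (N : ℕ) (a : ℕ → ℝ) :
    ‖∑ n ∈ range N, ee (-(a n))‖ = ‖∑ n ∈ range N, ee (a n)‖ := by
  have h1 : ∑ n ∈ range N, ee (-(a n)) = (starRingEnd ℂ) (∑ n ∈ range N, ee (a n)) := by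
    rw [map_sum]
    exact sum_congr rfl fun n _ => ee_neg _
  rw [h1, Complex.norm_conj]

theorem w7_norm_sign (N : ℕ) (a : ℕ → ℝ) (s : ℝ) (hs : s = 1 ∨ s = -1) :
    ‖∑ n ∈ range N, ee (s * a n)‖ = ‖∑ n ∈ range N, ee (a n)‖ := by
  rcases hs with rfl | rfl
  · simp
  · rw [← w7_norm_neg N a]
    simp

theorem w7_triv (N : ℕ) (a : ℕ → ℝ) : ‖∑ n ∈ range N, ee (a n)‖ ≤ N := by
  refine (norm_sum_le _ _).trans ?_
  simp [norm_ee]

theorem w7_sum (q r : ℕ) (f : ℝ → ℂ) :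
    ∑ x ∈ Ioc (q * r) (2 * (q * r)), f (x : ℝ) =
      ∑ n ∈ range (q * r), f (((q * r : ℕ) : ℝ) + 1 + n) := by
  have h1 : Ioc (q * r) (2 * (q * r)) = Ico (q * r + 1) (2 * (q * r) + 1) := by
    ext x
    simp only [mem_Ioc, mem_Ico]
    omega
  rw [h1, Finset.sum_Ico_eq_sum_range]
  have h2 : 2 * (q * r) + 1 - (q * r + 1) = q * r := by omega
  rw [h2]
  refine sum_congr rfl fun n _ => ?_
  congr 1
  push_cast
  ring

/-- the difference class of the phases -/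
theorem w7_DD (ω1 ω2 : ℂ) (C₀ : ℝ) (hC₀ : 0 < C₀) (κ : ℝ)
    (hκ : ∀ x y : ℝ, 0 < y → y ≤ κ * x →
      0 < (x + y * ω1 : ℂ).re ∧ 0 < (x + y * ω2 : ℂ).re ∧ ∀ j : ℕ, 1 ≤ j → j ≤ 6 →
        (j.factorial : ℝ) / 2 * (y / x ^ (j + 1)) ≤ (-1) ^ j * LG ω1 ω2 y j x ∧
        (-1) ^ j * LG ω1 ω2 y j x ≤ 2 * (j.factorial : ℝ) * (y / x ^ (j + 1)))
    (hκ0 : 0 < κ) (q r : ℕ) (hq : 2 ≤ κ * q) (hq0 : 1 ≤ q) (hr : 1 ≤ r) (y : ℝ) (hy1 : (r : ℝ) ≤ y)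
    (hy2 : y ≤ 2 * r) (m s : ℝ) (j : ℕ) (hj1 : 1 ≤ j) (hj5 : j ≤ 5)
    (hs : s * m * (-1) ^ j = |m|) :
    DD j (q * r) (|m| * C₀ * ((j.factorial : ℝ) / 2 * (r / (2 * (q * r)) ^ (j + 1))))
      (|m| * C₀ * (2 * (j.factorial : ℝ) * (2 * r / (q * r : ℝ) ^ (j + 1))))
      (fun n : ℕ => s * (m * (C₀ * LG ω1 ω2 y 0 (((q * r : ℕ) : ℝ) + 1 + n)))) := by
  have hrp : (0 : ℝ) < r := by exact_mod_cast hr
  have hqp : (0 : ℝ) < q := by exact_mod_cast hq0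
  have hqr : (0 : ℝ) < q * r := mul_pos hqp hrp
  have hyp : 0 < y := lt_of_lt_of_le hrp hy1
  have hs2 : s * m = |m| * (-1) ^ j := by
    have h1 : ((-1 : ℝ) ^ j) * (-1) ^ j = 1 := by
      rw [← mul_pow]
      simp
    linear_combination (-1 : ℝ) ^ j * hs - s * m * h1
  -- points of the interval
  have hyx : ∀ x : ℝ, x ∈ Set.Icc ((q : ℝ) * r) (2 * (q * r)) → y ≤ κ * x := by
    intro x hx
    have h1 : κ * (q * r) ≤ κ * x := mul_le_mul_of_nonneg_left hx.1 hκ0.le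
    have h2 : 2 * (r : ℝ) ≤ κ * (q * r) := by
      have := mul_le_mul_of_nonneg_right hq hrp.le
      linarith
    linarith
  obtain ⟨G, hG⟩ : ∃ G : ℕ → ℝ → ℝ, G = fun i x => s * (m * (C₀ * LG ω1 ω2 y i x)) := ⟨_, rfl⟩
  have hGd : ∀ i : ℕ, ∀ x ∈ Set.Icc ((q : ℝ) * r) (2 * (q * r)), HasDerivAt (G i) (G (i + 1) x) x := by
    intro i x hx
    obtain ⟨h1, h2, -⟩ := hκ x y hyp (hyx x hx)
    rw [hG]
    exact (((hasDerivAt_LG ω1 ω2 y x h1 h2 i).const_mul C₀).const_mul m).const_mul s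
  have hGv : ∀ i x, G i x = |m| * C₀ * ((-1) ^ j * LG ω1 ω2 y i x) := by
    intro i x
    rw [hG]
    show s * (m * (C₀ * LG ω1 ω2 y i x)) = _
    linear_combination C₀ * LG ω1 ω2 y i x * hs2
  have hmC : 0 ≤ |m| * C₀ := by positivity
  have hlow : ∀ i : ℕ, ∀ x ∈ Set.Icc ((q : ℝ) * r) (2 * (q * r)),
      (r : ℝ) / (2 * (q * r)) ^ (i + 1) ≤ y / x ^ (i + 1) := by
    intro i x hx
    have hx0 : 0 < x := lt_of_lt_of_le hqr hx.1
    exact div_le_div₀ hyp.le hy1 (by positivity) (pow_le_pow_left₀ hx0.le hx.2 _)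
  have hupp : ∀ i : ℕ, ∀ x ∈ Set.Icc ((q : ℝ) * r) (2 * (q * r)),
      y / x ^ (i + 1) ≤ 2 * r / (q * r : ℝ) ^ (i + 1) := by
    intro i x hx
    exact div_le_div₀ (by positivity) hy2 (by positivity) (pow_le_pow_left₀ hqr.le hx.1 _)
  have hfd : ∀ i : ℕ, ∀ lo hi : ℝ, (∀ x ∈ Set.Icc ((q : ℝ) * r) (2 * (q * r)), lo ≤ G i x ∧ G i x ≤ hi) →
      ∀ n : ℕ, n + i < q * r →
        lo ≤ (dl^[i] (fun k : ℕ => G 0 ((((q * r : ℕ) : ℝ) + 1) + k))) n ∧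
        (dl^[i] (fun k : ℕ => G 0 ((((q * r : ℕ) : ℝ) + 1) + k))) n ≤ hi := by
    intro i lo hi hb n hn
    refine fd i G ((q : ℝ) * r) (2 * (q * r)) (fun i' _ x hx => hGd i' x hx) lo hi hb _ n ?_ ?_
    · push_cast
      have : (0 : ℝ) ≤ n := Nat.cast_nonneg n
      linarith
    · have h1 : ((n + i + 1 : ℕ) : ℝ) ≤ ((q * r : ℕ) : ℝ) := by exact_mod_cast hn
      push_cast at h1 ⊢
      linarith
  have ha : (fun n : ℕ => s * (m * (C₀ * LG ω1 ω2 y 0 (((q * r : ℕ) : ℝ) + 1 + n)))) =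
      fun k : ℕ => G 0 ((((q * r : ℕ) : ℝ) + 1) + k) := by
    rw [hG]
  rw [ha]
  refine ⟨fun n hn => hfd j _ _ ?_ n hn, Or.inr fun n hn => ?_⟩
  · intro x hx
    obtain ⟨-, -, h3⟩ := hκ x y hyp (hyx x hx)
    obtain ⟨h4, h5⟩ := h3 j hj1 (by omega)
    rw [hGv]
    constructor
    · refine mul_le_mul_of_nonneg_left (le_trans ?_ h4) hmC
      exact mul_le_mul_of_nonneg_left (hlow j x hx) (by positivity)
    · refine mul_le_mul_of_nonneg_left (le_trans h5 ?_) hmC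
      exact mul_le_mul_of_nonneg_left (hupp j x hx) (by positivity)
  · have h1 := (hfd (j + 1) (-(|m| * C₀ * (2 * ((j + 1).factorial : ℝ) *
        (2 * r / (q * r : ℝ) ^ (j + 1 + 1))))) 0 ?_ n hn).2
    · rw [Function.iterate_succ_apply'] at h1
      have h2 : (dl^[j] (fun k : ℕ => G 0 ((((q * r : ℕ) : ℝ) + 1) + k))) (n + 1) -
        (dl^[j] (fun k : ℕ => G 0 ((((q * r : ℕ) : ℝ) + 1) + k))) n ≤ 0 := h1
      linarith
    · intro x hx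
      obtain ⟨-, -, h3⟩ := hκ x y hyp (hyx x hx)
      obtain ⟨h4, h5⟩ := h3 (j + 1) (by omega) (by omega)
      have h6 : G (j + 1) x = -(|m| * C₀ * ((-1) ^ (j + 1) * LG ω1 ω2 y (j + 1) x)) := by
        rw [hGv, pow_succ]
        ring
      have hx0 : 0 < x := lt_of_lt_of_le hqr hx.1
      rw [h6]
      constructor
      · refine neg_le_neg (mul_le_mul_of_nonneg_left (le_trans h5 ?_) hmC)
        exact mul_le_mul_of_nonneg_left (hupp (j + 1) x hx) (by positivity)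
      · rw [neg_nonpos]
        refine mul_nonneg hmC (le_trans ?_ h4)
        positivity

theorem w7_sign (m : ℝ) (j : ℕ) : ∃ s : ℝ, (s = 1 ∨ s = -1) ∧ s * m * (-1) ^ j = |m| := by
  rcases neg_one_pow_eq_or ℝ j with h | h
  · rcases le_total 0 m with h1 | h1
    · exact ⟨1, Or.inl rfl, by rw [h, abs_of_nonneg h1]; ring⟩
    · exact ⟨-1, Or.inr rfl, by rw [h, abs_of_nonpos h1]; ring⟩
  · rcases le_total 0 m with h1 | h1
    · exact ⟨-1, Or.inr rfl, by rw [h, abs_of_nonneg h1]; ring⟩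
    · exact ⟨1, Or.inl rfl, by rw [h, abs_of_nonpos h1]; ring⟩

theorem w7_large (q : ℕ) (C₀ B : ℝ) : ∃ R : ℕ, 1 ≤ R ∧
    ∀ r : ℕ, R ≤ r → 8 * C₀ / (q : ℝ) ^ 2 ≤ (r : ℝ) ^ (1 / 2 : ℝ) ∧
      64 * (q : ℝ) ^ 6 / (60 * C₀) ≤ (r : ℝ) ^ (1 / 4 : ℝ) ∧
      480 * C₀ / (q : ℝ) ^ 6 * B * (q : ℝ) ^ (1 / 4 : ℝ) ≤ (r : ℝ) ^ (3 / 4 : ℝ) := by
  have h1 : ∀ e : ℝ, 0 < e → ∀ K : ℝ, ∀ᶠ r : ℕ in Filter.atTop, K ≤ (r : ℝ) ^ e := by
    intro e he K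
    exact ((tendsto_rpow_atTop he).comp tendsto_natCast_atTop_atTop).eventually_ge_atTop K
  have h2 := (h1 (1 / 2) (by norm_num) (8 * C₀ / (q : ℝ) ^ 2)).and
    ((h1 (1 / 4) (by norm_num) (64 * (q : ℝ) ^ 6 / (60 * C₀))).and
      (h1 (3 / 4) (by norm_num) (480 * C₀ / (q : ℝ) ^ 6 * B * (q : ℝ) ^ (1 / 4 : ℝ))))
  obtain ⟨R, hR⟩ := Filter.eventually_atTop.mp h2
  refine ⟨R + 1, by omega, fun r hr => ?_⟩
  exact hR r (by omega)

theorem row_sum (ω1 ω2 : ℂ) (hω : ω1 ≠ ω2) (C₀ : ℝ) (hC₀ : 0 < C₀) : ∃ q₀ : ℕ, 0 < q₀ ∧ ∀ q : ℕ, q₀ ≤ q →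
    ∀ B : ℝ, 0 < B → ∃ C σ : ℝ, 0 < C ∧ 0 < σ ∧ ∀ r : ℕ, 1 ≤ r → ∀ y : ℝ, r ≤ y → y ≤ 2 * r →
      ∀ m : ℤ, m ≠ 0 → |(m : ℝ)| ≤ B * (r : ℝ) ^ 4 →
        ‖∑ x ∈ Ioc (q * r) (2 * (q * r)), ee (m * (C₀ * LG ω1 ω2 y 0 (x : ℝ)))‖ ≤
          C * (r * (1 / |(m : ℝ)| + (r : ℝ) ^ (-σ))) := by
  obtain ⟨κ, hκ0, hκ⟩ := LG_bounds ω1 ω2 hω
  obtain ⟨q₀, hq₀⟩ := exists_nat_ge (2 / κ)
  refine ⟨q₀ + 1, by omega, fun q hq B hB => ?_⟩
  have hq1 : 1 ≤ q := by omega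
  have hqp : (0 : ℝ) < q := by exact_mod_cast hq1
  have hq1r : (1 : ℝ) ≤ q := by exact_mod_cast hq1
  have hqκ : 2 ≤ κ * q := by
    have h1 : 2 / κ ≤ q := hq₀.trans (by exact_mod_cast (by omega : q₀ ≤ q))
    rw [div_le_iff₀ hκ0] at h1
    linarith
  obtain ⟨σ, C', hσ, hC', hP⟩ := PP_five (1 / 4) (by norm_num) (by norm_num) 512 (by norm_num)
  obtain ⟨R, hR1, hR⟩ := w7_large q C₀ B
  have hRp : (0 : ℝ) < R := by exact_mod_cast hR1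
  obtain ⟨K1, hK1⟩ : ∃ K1 : ℝ, K1 = 16 * (q : ℝ) ^ 2 / C₀ := ⟨_, rfl⟩
  obtain ⟨K2, hK2⟩ : ∃ K2 : ℝ, K2 = C' * q := ⟨_, rfl⟩
  obtain ⟨K3, hK3⟩ : ∃ K3 : ℝ, K3 = q * (R : ℝ) ^ σ := ⟨_, rfl⟩
  have hK1p : 0 < K1 := by rw [hK1]; positivity
  have hK2p : 0 < K2 := by rw [hK2]; positivity
  have hK3p : 0 < K3 := by rw [hK3]; positivity
  refine ⟨K1 + K2 + K3, σ, by positivity, hσ, ?_⟩
  intro r hr y hy1 hy2 m hm hmB
  have hrp : (0 : ℝ) < r := by exact_mod_cast hr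
  have hr1 : (1 : ℝ) ≤ r := by exact_mod_cast hr
  have hmp : 0 < |(m : ℝ)| := abs_pos.mpr (by exact_mod_cast hm)
  have hm1 : 1 ≤ |(m : ℝ)| := by exact_mod_cast Int.one_le_abs hm
  have hrs : 0 < (r : ℝ) ^ (-σ) := Real.rpow_pos_of_pos hrp _
  have hinv : 0 < 1 / |(m : ℝ)| := by positivity
  -- the three pieces of the bound
  have hfin : ∀ X : ℝ, X ≤ K1 * (r * (1 / |(m : ℝ)|)) ∨ X ≤ (K2 + K3) * (r * (r : ℝ) ^ (-σ)) →
      X ≤ (K1 + K2 + K3) * (r * (1 / |(m : ℝ)| + (r : ℝ) ^ (-σ))) := by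
    intro X hX
    have e1 : (K1 + K2 + K3) * (r * (1 / |(m : ℝ)| + (r : ℝ) ^ (-σ))) =
        K1 * (r * (1 / |(m : ℝ)|)) + (K2 + K3) * (r * (1 / |(m : ℝ)|)) +
        K1 * (r * (r : ℝ) ^ (-σ)) + (K2 + K3) * (r * (r : ℝ) ^ (-σ)) := by ring
    rw [e1]
    have p1 : 0 ≤ K1 * (r * (1 / |(m : ℝ)|)) := by positivity
    have p2 : 0 ≤ (K2 + K3) * (r * (1 / |(m : ℝ)|)) := by positivity
    have p3 : 0 ≤ K1 * (r * (r : ℝ) ^ (-σ)) := by positivity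
    have p4 : 0 ≤ (K2 + K3) * (r * (r : ℝ) ^ (-σ)) := by positivity
    rcases hX with h | h <;> linarith
  apply hfin
  have hsum : ∑ x ∈ Ioc (q * r) (2 * (q * r)), ee (m * (C₀ * LG ω1 ω2 y 0 (x : ℝ))) =
      ∑ n ∈ range (q * r), ee (m * (C₀ * LG ω1 ω2 y 0 (((q * r : ℕ) : ℝ) + 1 + n))) :=
    w7_sum q r (fun x : ℝ => ee (m * (C₀ * LG ω1 ω2 y 0 x)))
  rw [hsum]
  by_cases hrR : r < R
  · -- bounded r
    right
    refine (w7_triv _ _).trans ?_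
    have h1 : (r : ℝ) ≤ R := by exact_mod_cast hrR.le
    have h2 : (R : ℝ) ^ (-σ) ≤ (r : ℝ) ^ (-σ) :=
      Real.rpow_le_rpow_of_nonpos hrp h1 (by linarith)
    have h3 : (R : ℝ) ^ σ * (R : ℝ) ^ (-σ) = 1 := by
      rw [← Real.rpow_add hRp, add_neg_cancel, Real.rpow_zero]
    have h4 : 0 < (R : ℝ) ^ σ := Real.rpow_pos_of_pos hRp _
    have h5 : 1 ≤ (R : ℝ) ^ σ * (r : ℝ) ^ (-σ) := by
      rw [← h3]
      exact mul_le_mul_of_nonneg_left h2 h4.le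
    have h6 : (q : ℝ) * r * 1 ≤ q * r * ((R : ℝ) ^ σ * (r : ℝ) ^ (-σ)) :=
      mul_le_mul_of_nonneg_left h5 (by positivity)
    have h7 : 0 ≤ K2 * (r * (r : ℝ) ^ (-σ)) := by positivity
    have h8 : K3 * (r * (r : ℝ) ^ (-σ)) = q * r * ((R : ℝ) ^ σ * (r : ℝ) ^ (-σ)) := by
      rw [hK3]
      ring
    push_cast
    linarith
  · obtain ⟨g1, g2, g3⟩ := hR r (not_lt.mp hrR)
    by_cases hmr : |(m : ℝ)| ≤ (r : ℝ) ^ (1 / 2 : ℝ)
    · -- Kusmin-Landau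
      left
      obtain ⟨s, hs, hs2⟩ := w7_sign (m : ℝ) 1
      have hD := w7_DD ω1 ω2 C₀ hC₀ κ hκ hκ0 q r hqκ hq1 hr y hy1 hy2 m s 1 le_rfl (by norm_num) hs2
      rw [← w7_norm_sign (q * r) _ s hs]
      have hhalf : (r : ℝ) ^ (1 / 2 : ℝ) * (r : ℝ) ^ (1 / 2 : ℝ) = r := by
        rw [← Real.rpow_add hrp]
        norm_num
      obtain ⟨t, ht⟩ : ∃ t : ℝ, t = (r : ℝ) ^ (1 / 2 : ℝ) := ⟨_, rfl⟩
      rw [← ht] at g1 hmr hhalf
      have htp : 0 < t := by rw [ht]; exact Real.rpow_pos_of_pos hrp _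
      have elo : |(m : ℝ)| * C₀ * (((1 : ℕ).factorial : ℝ) / 2 * (r / (2 * (q * r)) ^ (1 + 1))) =
          |(m : ℝ)| * C₀ / (8 * q ^ 2 * r) := by
        simp only [Nat.factorial_one, Nat.cast_one]
        field_simp
        ring
      have ehi : |(m : ℝ)| * C₀ * (2 * ((1 : ℕ).factorial : ℝ) * (2 * r / (q * r : ℝ) ^ (1 + 1))) =
          4 * |(m : ℝ)| * C₀ / (q ^ 2 * r) := by
        simp only [Nat.factorial_one, Nat.cast_one]
        field_simp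
        ring
      rw [elo, ehi] at hD
      have hhi : 4 * |(m : ℝ)| * C₀ / (q ^ 2 * r) ≤ 1 / 2 := by
        rw [div_le_div_iff₀ (by positivity) (by norm_num)]
        rw [div_le_iff₀ (by positivity)] at g1
        have k1 : |(m : ℝ)| * (8 * C₀) ≤ t * (t * (q : ℝ) ^ 2) :=
          mul_le_mul hmr g1 (by positivity) htp.le
        have k2 : t * (t * (q : ℝ) ^ 2) = r * q ^ 2 := by rw [← hhalf]; ring
        rw [k2] at k1
        linarith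
      have hlolo : |(m : ℝ)| * C₀ / (8 * q ^ 2 * r) ≤ 4 * |(m : ℝ)| * C₀ / (q ^ 2 * r) := by
        rw [div_le_div_iff₀ (by positivity) (by positivity)]
        have k3 : 0 ≤ |(m : ℝ)| * C₀ * (q ^ 2 * r) := by positivity
        nlinarith
      have hlop : 0 < |(m : ℝ)| * C₀ / (8 * q ^ 2 * r) := by positivity
      have hkl := kusmin_landau (q * r)
        (fun n : ℕ => s * (m * (C₀ * LG ω1 ω2 y 0 (((q * r : ℕ) : ℝ) + 1 + n)))) _ hlop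
        (hlolo.trans hhi) (fun n hn => ⟨(hD.1 n hn).1, (hD.1 n hn).2.trans hhi⟩) hD.2
      refine hkl.trans (le_of_eq ?_)
      rw [hK1]
      field_simp
      ring
    · -- van der Corput
      right
      rw [not_le] at hmr
      obtain ⟨s, hs, hs2⟩ := w7_sign (m : ℝ) 5
      have hD := w7_DD ω1 ω2 C₀ hC₀ κ hκ hκ0 q r hqκ hq1 hr y hy1 hy2 m s 5 (by norm_num) le_rfl hs2
      rw [← w7_norm_sign (q * r) _ s hs]
      have hN1 : 1 ≤ q * r := Nat.one_le_iff_ne_zero.mpr (by positivity)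
      have elo : |(m : ℝ)| * C₀ * (((5 : ℕ).factorial : ℝ) / 2 * (r / (2 * (q * r)) ^ (5 + 1))) =
          |(m : ℝ)| * (60 * C₀ / (64 * q ^ 6)) / r ^ 5 := by
        have k0 : ((5 : ℕ).factorial : ℝ) = 120 := by norm_num [Nat.factorial]
        rw [k0]
        field_simp
        ring
      have ehi : |(m : ℝ)| * C₀ * (2 * ((5 : ℕ).factorial : ℝ) * (2 * r / (q * r : ℝ) ^ (5 + 1))) =
          |(m : ℝ)| * (480 * C₀ / q ^ 6) / r ^ 5 := by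
        have k0 : ((5 : ℕ).factorial : ℝ) = 120 := by norm_num [Nat.factorial]
        rw [k0]
        field_simp
        ring
      rw [elo, ehi] at hD
      have hr5 : (r : ℝ) ^ 5 = (r : ℝ) ^ (5 : ℝ) := by
        rw [← Real.rpow_natCast]
        norm_num
      have hqrp : (0 : ℝ) < q * r := mul_pos hqp hrp
      have hcast : (((q * r : ℕ) : ℝ)) = q * r := by push_cast; ring
      have hmain := hP (q * r) _ _ _ hN1 hD (by positivity) (by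
          apply le_of_eq
          field_simp
          ring) (by
          -- lower bound
          rw [hcast]
          have k1 : ((q : ℝ) * r) ^ (-((5 : ℕ) : ℝ) + 1 / 4) ≤ (r : ℝ) ^ (-((5 : ℕ) : ℝ) + 1 / 4) := by
            refine Real.rpow_le_rpow_of_nonpos hrp ?_ (by norm_num)
            nlinarith
          refine k1.trans ?_
          have k2 : (r : ℝ) ^ (-((5 : ℕ) : ℝ) + 1 / 4) =
              (r : ℝ) ^ (1 / 2 : ℝ) * ((r : ℝ) ^ (1 / 4 : ℝ))⁻¹ / r ^ 5 := by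
            rw [hr5, ← Real.rpow_neg hrp.le, ← Real.rpow_add hrp, ← Real.rpow_sub hrp]
            congr 1
            norm_num
          rw [k2]
          refine div_le_div_of_nonneg_right ?_ (by positivity)
          have k3 : 0 < (r : ℝ) ^ (1 / 4 : ℝ) := Real.rpow_pos_of_pos hrp _
          have k4 : ((r : ℝ) ^ (1 / 4 : ℝ))⁻¹ ≤ 60 * C₀ / (64 * q ^ 6) := by
            rw [inv_le_comm₀ k3 (by positivity)]
            refine le_trans (le_of_eq ?_) g2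
            rw [inv_div]
          exact mul_le_mul hmr.le k4 (by positivity) hmp.le) (by
          -- upper bound
          rw [hcast]
          have k1 : ((q : ℝ) * r) ^ (-(1 / 4) : ℝ) =
              ((q : ℝ) ^ (1 / 4 : ℝ))⁻¹ * ((r : ℝ) ^ (1 / 4 : ℝ))⁻¹ := by
            rw [Real.mul_rpow hqp.le hrp.le, Real.rpow_neg hqp.le, Real.rpow_neg hrp.le]
          rw [k1, div_le_iff₀ (by positivity)]
          have k2 : (r : ℝ) ^ 5 = r ^ 4 * ((r : ℝ) ^ (3 / 4 : ℝ) * (r : ℝ) ^ (1 / 4 : ℝ)) := by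
            have k2' : (r : ℝ) ^ (3 / 4 : ℝ) * (r : ℝ) ^ (1 / 4 : ℝ) = r := by
              rw [← Real.rpow_add hrp]
              norm_num
            rw [k2']
            ring
          have k3 : 0 < (q : ℝ) ^ (1 / 4 : ℝ) := Real.rpow_pos_of_pos hqp _
          have k4 : 0 < (r : ℝ) ^ (1 / 4 : ℝ) := Real.rpow_pos_of_pos hrp _
          have k5 : ((q : ℝ) ^ (1 / 4 : ℝ))⁻¹ * ((r : ℝ) ^ (1 / 4 : ℝ))⁻¹ * (r : ℝ) ^ 5 =
              ((q : ℝ) ^ (1 / 4 : ℝ))⁻¹ * (r ^ 4 * (r : ℝ) ^ (3 / 4 : ℝ)) := by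
            rw [k2]
            field_simp
          rw [k5]
          calc |(m : ℝ)| * (480 * C₀ / q ^ 6)
              ≤ (B * (r : ℝ) ^ 4) * (480 * C₀ / q ^ 6) :=
                mul_le_mul_of_nonneg_right hmB (by positivity)
            _ = ((q : ℝ) ^ (1 / 4 : ℝ))⁻¹ *
                (r ^ 4 * (480 * C₀ / (q : ℝ) ^ 6 * B * (q : ℝ) ^ (1 / 4 : ℝ))) := by
                field_simp
            _ ≤ ((q : ℝ) ^ (1 / 4 : ℝ))⁻¹ * (r ^ 4 * (r : ℝ) ^ (3 / 4 : ℝ)) := by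
                refine mul_le_mul_of_nonneg_left ?_ (by positivity)
                exact mul_le_mul_of_nonneg_left g3 (by positivity))
      refine hmain.trans ?_
      rw [hcast]
      have k6 : ((q : ℝ) * r) ^ (1 - σ) = (q * r) * ((q : ℝ) ^ (-σ) * (r : ℝ) ^ (-σ)) := by
        rw [sub_eq_add_neg, Real.rpow_add hqrp, Real.rpow_one, Real.mul_rpow hqp.le hrp.le]
      have k7 : (q : ℝ) ^ (-σ) ≤ 1 := Real.rpow_le_one_of_one_le_of_nonpos hq1r (by linarith)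
      have k8 : (q : ℝ) ^ (-σ) * (r : ℝ) ^ (-σ) ≤ 1 * (r : ℝ) ^ (-σ) :=
        mul_le_mul_of_nonneg_right k7 hrs.le
      have k9 : C' * ((q * r) * ((q : ℝ) ^ (-σ) * (r : ℝ) ^ (-σ))) ≤
          C' * ((q * r) * (1 * (r : ℝ) ^ (-σ))) :=
        mul_le_mul_of_nonneg_left (mul_le_mul_of_nonneg_left k8 hqrp.le) hC'.le
      have k10 : K2 * (r * (r : ℝ) ^ (-σ)) = C' * ((q * r) * (1 * (r : ℝ) ^ (-σ))) := by
        rw [hK2]
        ring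
      have k11 : 0 ≤ K3 * (r * (r : ℝ) ^ (-σ)) := by positivity
      rw [k6]
      linarith

end Pool.Agent.Lib.MP_648c71_nt.HP
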