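import Pool.Agent.Lib.MP_648c71_nt.HP.G4
import Pool.Agent.Lib.MP_648c71_nt.HP.G9
import Pool.Agent.Lib.MP_648c71_nt.HP.W7

/-! Row G10 (about 150 lines): the boxes of the system. -/

set_option autoImplicit false

namespace Pool.Agent.Lib.MP_648c71_nt.HP

open Finset MeasureTheory

variable {b c : ℤ} (Γ : Geo b c)

namespace Geo

private theorem g10_mem (q r : ℕ) (v : O b c) : v ∈ bxx b c q r ↔
    ∃ x y : ℕ, (q * r < x ∧ x ≤ 2 * (q * r)) ∧ (r < y ∧ y ≤ 2 * r) ∧ (⟨(x : ℤ), (y : ℤ)⟩ : O b c) = v := by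
  simp only [bxx, mem_image, mem_product, mem_Ioc, Prod.exists]
  constructor
  · rintro ⟨x, y, ⟨h1, h2⟩, h3⟩
    exact ⟨x, y, h1, h2, h3⟩
  · rintro ⟨x, y, h1, h2, h3⟩
    exact ⟨x, y, ⟨h1, h2⟩, h3⟩

private theorem g10_inj (q r : ℕ) : Set.InjOn (fun p : ℕ × ℕ => (⟨(p.1 : ℤ), (p.2 : ℤ)⟩ : O b c))
    (((Ioc (q * r) (2 * (q * r))) ×ˢ (Ioc r (2 * r)) : Finset (ℕ × ℕ)) : Set (ℕ × ℕ)) := by
  rintro ⟨x, y⟩ _ ⟨x', y'⟩ _ h
  have h1 := congrArg QuadraticAlgebra.re h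
  have h2 := congrArg QuadraticAlgebra.im h
  simp only [Nat.cast_inj] at h1 h2
  rw [h1, h2]

private theorem g10_card (q r : ℕ) : (bxx b c q r).card = q * r * r := by
  rw [bxx, card_image_of_injOn (g10_inj q r), card_product, Nat.card_Ioc, Nat.card_Ioc]
  congr 1 <;> omega

private theorem g10_sum (q r : ℕ) (f : O b c → ℂ) : ∑ v ∈ bxx b c q r, f v =
    ∑ y ∈ Ioc r (2 * r), ∑ x ∈ Ioc (q * r) (2 * (q * r)), f (⟨(x : ℤ), (y : ℤ)⟩ : O b c) := by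
  rw [bxx, sum_image (g10_inj q r), sum_product_right]

/-- bound for the norm -/
private theorem g10_nm (q r : ℕ) (hq : 1 ≤ q) (v : O b c) (hv : v ∈ bxx b c q r) :
    ((nm v : ℤ) : ℝ) ≤ 4 * (1 + |(b : ℝ)| + |(c : ℝ)|) * (q : ℝ) ^ 2 * (r : ℝ) ^ 2 := by
  rw [g10_mem] at hv
  obtain ⟨x, y, ⟨hx1, hx2⟩, ⟨hy1, hy2⟩, rfl⟩ := hv
  have hq1 : (1 : ℝ) ≤ q := by exact_mod_cast hq
  have hr0 : (0 : ℝ) ≤ r := Nat.cast_nonneg _
  have hx0 : (0 : ℝ) ≤ x := Nat.cast_nonneg _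
  have hy0 : (0 : ℝ) ≤ y := Nat.cast_nonneg _
  have hx : (x : ℝ) ≤ 2 * (q * r) := by exact_mod_cast hx2
  have hy : (y : ℝ) ≤ 2 * r := by exact_mod_cast hy2
  have hy' : (y : ℝ) ≤ 2 * (q * r) := by nlinarith
  have e : ((nm (⟨(x : ℤ), (y : ℤ)⟩ : O b c) : ℤ) : ℝ) = (x : ℝ) ^ 2 + b * (x * y) + c * (y : ℝ) ^ 2 := by
    simp only [nm]
    push_cast
    ring
  rw [e]
  have h1 : (x : ℝ) ^ 2 ≤ (2 * (q * r)) ^ 2 := pow_le_pow_left₀ hx0 hx 2
  have h2 : (b : ℝ) * (x * y) ≤ |(b : ℝ)| * (2 * (q * r)) ^ 2 := by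
    calc (b : ℝ) * (x * y) ≤ |(b : ℝ)| * (x * y) := mul_le_mul_of_nonneg_right (le_abs_self _) (by positivity)
      _ ≤ |(b : ℝ)| * (2 * (q * r)) ^ 2 := by
          apply mul_le_mul_of_nonneg_left _ (abs_nonneg _)
          rw [pow_two]
          exact mul_le_mul hx hy' hy0 (by positivity)
  have h3 : (c : ℝ) * (y : ℝ) ^ 2 ≤ |(c : ℝ)| * (2 * (q * r)) ^ 2 := by
    calc (c : ℝ) * (y : ℝ) ^ 2 ≤ |(c : ℝ)| * (y : ℝ) ^ 2 := mul_le_mul_of_nonneg_right (le_abs_self _) (by positivity)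
      _ ≤ |(c : ℝ)| * (2 * (q * r)) ^ 2 := mul_le_mul_of_nonneg_left (pow_le_pow_left₀ hy0 hy' 2) (abs_nonneg _)
  nlinarith

/-- members of the box are in the narrow cone -/
private theorem g10_narrow (q r : ℕ) (hq : 2 * Γ.q0 ≤ q) (v : O b c) (hv : v ∈ bxx b c q r) :
    v ∈ Γ.Sec ∧ Γ.ang v < 1 / 4 := by
  rw [g10_mem] at hv
  obtain ⟨x, y, ⟨hx1, hx2⟩, ⟨hy1, hy2⟩, rfl⟩ := hv
  have h := Γ.narrow x y (by omega) (by
    have h1 : Γ.q0 * y ≤ x := by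
      calc Γ.q0 * y ≤ Γ.q0 * (2 * r) := Nat.mul_le_mul_left _ hy2
        _ = 2 * Γ.q0 * r := by ring
        _ ≤ q * r := Nat.mul_le_mul_right _ hq
        _ ≤ x := hx1.le
    exact_mod_cast h1)
  exact ⟨h.1, h.2.1⟩

private theorem g10_ang_mul (z w : O b c) (hz : z ∈ Γ.Sec ∧ Γ.ang z < 1 / 4) (hw : w ∈ Γ.Sec ∧ Γ.ang w < 1 / 4)
    (h : z * w ∈ Γ.Sec ∧ Γ.ang (z * w) < 1 / 4) : Γ.ang (z * w) = Γ.ang z + Γ.ang w := by
  obtain ⟨k, hk⟩ := Γ.ang_mul z (Γ.sec_M z hz.1) w (Γ.sec_M w hw.1)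
  have h1 := Γ.sec_ang z hz.1
  have h2 := Γ.sec_ang w hw.1
  have h3 := Γ.sec_ang _ h.1
  have h4 : (k : ℝ) < 1 := by linarith [h.2]
  have h5 : (-1 : ℝ) < k := by linarith [h.2, hz.2, hw.2]
  have h6 : k < 1 := by exact_mod_cast h4
  have h7 : -1 < k := by exact_mod_cast h5
  have h8 : k = 0 := by omega
  rw [h8] at hk
  simpa using hk

private theorem g10_dt (u v : O b c) (hu : u ∈ Γ.Sec ∧ Γ.ang u < 1 / 4) (hv : v ∈ Γ.Sec ∧ Γ.ang v < 1 / 4)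
    (k : ℤ) (hk : Γ.ang u - Γ.ang v = k) : dt u v = 0 := by
  have h2 := Γ.sec_ang u hu.1
  have h3 := Γ.sec_ang v hv.1
  have h4 : (k : ℝ) < 1 := by linarith [hu.2]
  have h5 : (-1 : ℝ) < k := by linarith [hv.2]
  have h6 : k < 1 := by exact_mod_cast h4
  have h7 : -1 < k := by exact_mod_cast h5
  have h8 : k = 0 := by omega
  rw [h8] at hk
  have h9 : Γ.ang u = Γ.ang v := by
    have := hk
    push_cast at this
    linarith
  have a1 : ¬ 0 < dt u v := by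
    rw [← Γ.lt_iff u hu.1 v hv.1, h9]
    exact lt_irrefl _
  have a2 : ¬ 0 < dt v u := by
    rw [← Γ.lt_iff v hv.1 u hu.1, h9]
    exact lt_irrefl _
  have a3 : dt v u = - dt u v := by
    simp only [dt]
    ring
  omega

/-- ROW G10.  Fix `q ≥ q₁, q₀(row_sum), q0` (for `mul_narrow`, `energy`, `row_sum`, `narrow`).  For large `X` let
`r = ⌊a X^(1/4)⌋` with `a` such that norms of box elements, `≤ C q² r²`, have pairwise products `≤ X`.  `B` = the box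
as a finset of `Γ.M` (members of the sector by `narrow`).  `|B| = q r²`, so `κ X ≤ |B|²`.  Energy: the angles of
box elements are `< 1/4`, products of two are in the sector (`mul_narrow`, `narrow`), so
`ang(zw) = ang z + ang w` exactly and the condition in `Box` means `ang(zw) = ang(z'w')`, i.e. `dt = 0`
(`lt_iff`): `energy`; `C r⁴ (1+log r)^A ≤ X (log X)^(A+1)` for large `X`.  Exponential sums: `narrow` gives
`ang ⟨x,y⟩ = C0 * LG ω1 ω2 y 0 x`, so `row_sum` for each `y ∈ (r, 2r]` (with `B` such that `2X ≤ B r⁴`) and summing: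
`≤ r C r (1/|m| + r^(-σ)) ≤ C' |B| (1/|m| + X^(-σ/5))`. -/
theorem box (g : ℕ → ℝ) (hg : CM g) : ∃ κ C σ : ℝ, ∃ D : ℕ, 0 < κ ∧ 0 < C ∧ 0 < σ ∧ σ ≤ 1 ∧ ∃ X₀ : ℝ,
    ∀ X : ℝ, X₀ ≤ X → ∃ B : Finset (Γ.sys g hg).M, Box (Γ.sys g hg) κ C σ D X B := by
  classical
  obtain ⟨q₁, -, -, hmn⟩ := Γ.mul_narrow
  obtain ⟨q₂, -, hq₂, hen⟩ := Γ.energy
  obtain ⟨q₃, -, hrs⟩ := row_sum Γ.ω1 Γ.ω2 Γ.hω Γ.C0 Γ.C0_pos
  set q : ℕ := q₁ + q₂ + q₃ + 2 * Γ.q0 with hqdef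
  have hq1 : 1 ≤ q := by omega
  have hq1r : (1 : ℝ) ≤ q := by exact_mod_cast hq1
  have hq20 : 2 * Γ.q0 ≤ q := by omega
  obtain ⟨Ce, A, hCe, hE⟩ := hen q (by omega)
  set N1 : ℝ := 4 * (1 + |(b : ℝ)| + |(c : ℝ)|) with hN1
  have hN1p : 1 ≤ N1 := by
    have := abs_nonneg (b : ℝ)
    have := abs_nonneg (c : ℝ)
    rw [hN1]
    linarith
  set K : ℝ := N1 ^ 2 * (q : ℝ) ^ 4 with hK
  have hK1 : 1 ≤ K := by
    rw [hK]
    exact one_le_mul_of_one_le_of_one_le (one_le_pow₀ hN1p) (one_le_pow₀ hq1r)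
  have hK0 : 0 < K := by linarith
  obtain ⟨Cs, σ, hCs, hσ, hrow⟩ := hrs q (by omega) (32 * K) (by positivity)
  have h16 : (1 : ℝ) ≤ (16 * K) ^ (σ / 4) := Real.one_le_rpow (by linarith) (by positivity)
  refine ⟨(q : ℝ) ^ 2 / (16 * K), Cs * (16 * K) ^ (σ / 4), min (σ / 4) 1, A + 1, by positivity, by positivity,
    lt_min (by positivity) one_pos, min_le_right _ _,
    max (16 * K) (Real.exp (max 1 (Ce * 2 ^ A))), fun X hX => ?_⟩
  have hX1 : 16 * K ≤ X := (le_max_left _ _).trans hX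
  have hX2 : Real.exp (max 1 (Ce * 2 ^ A)) ≤ X := (le_max_right _ _).trans hX
  have hX0 : 0 < X := by linarith
  have hX1' : 1 ≤ X := by linarith
  have hlogX : max 1 (Ce * 2 ^ A) ≤ Real.log X := by
    rw [Real.le_log_iff_exp_le hX0]
    exact hX2
  have hl1 : 1 ≤ Real.log X := (le_max_left _ _).trans hlogX
  have hl2 : Ce * 2 ^ A ≤ Real.log X := (le_max_right _ _).trans hlogX
  set s : ℝ := (X / K) ^ (1 / 4 : ℝ) with hs
  have hXK : 0 ≤ X / K := by positivity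
  have hs4 : s ^ 4 = X / K := by
    rw [hs, ← Real.rpow_natCast, ← Real.rpow_mul hXK]
    norm_num
  have hs0 : 0 ≤ s := Real.rpow_nonneg hXK _
  have hs1 : 1 ≤ s := by
    apply Real.one_le_rpow _ (by norm_num)
    rw [le_div_iff₀ hK0]
    linarith
  set r : ℕ := ⌊s⌋₊ with hr
  have hr1 : 1 ≤ r := Nat.le_floor (by simpa using hs1)
  have hr1r : (1 : ℝ) ≤ r := by exact_mod_cast hr1
  have hr0 : (0 : ℝ) < r := by linarith
  have hrs' : (r : ℝ) ≤ s := Nat.floor_le hs0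
  have hsr : s < r + 1 := Nat.lt_floor_add_one s
  have hr4 : (r : ℝ) ^ 4 ≤ X / K := by
    rw [← hs4]
    exact pow_le_pow_left₀ hr0.le hrs' 4
  have hr4' : X ≤ 16 * K * (r : ℝ) ^ 4 := by
    have h1 : s ^ 4 ≤ (2 * (r : ℝ)) ^ 4 := pow_le_pow_left₀ hs0 (by linarith) 4
    rw [hs4, div_le_iff₀ hK0] at h1
    nlinarith
  have hKr : K * (r : ℝ) ^ 4 ≤ X := by
    rw [le_div_iff₀ hK0] at hr4
    linarith
  have hr4X : (r : ℝ) ^ 4 ≤ X := by
    have : (0 : ℝ) ≤ (r : ℝ) ^ 4 := by positivity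
    nlinarith
  have hrX : (r : ℝ) ≤ X := by
    have h1 : (r : ℝ) ≤ (r : ℝ) ^ 4 := le_self_pow₀ hr1r (by norm_num)
    linarith
  -- the box
  set Bx : Finset (O b c) := bxx b c q r with hBx
  have hnar : ∀ v ∈ Bx, v ∈ Γ.Sec ∧ Γ.ang v < 1 / 4 := fun v hv => g10_narrow Γ q r hq20 v hv
  have hmem : ∀ v ∈ Bx, v ∈ Γ.M := fun v hv => Γ.sec_M v (hnar v hv).1
  have hmul : ∀ z ∈ Bx, ∀ w ∈ Bx, z * w ∈ Γ.Sec ∧ Γ.ang (z * w) < 1 / 4 := by
    intro z hz w hw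
    have h := hmn q (by omega) r hr1 z hz w hw
    exact ⟨(Γ.narrow _ _ h.1 h.2.1).1, (Γ.narrow _ _ h.1 h.2.1).2.1⟩
  let B : Finset Γ.M := Bx.subtype (fun v => v ∈ Γ.M)
  have hBmem : ∀ z : Γ.M, z ∈ B ↔ (z : O b c) ∈ Bx := fun z => mem_subtype
  have hBcard : (B.card : ℝ) = (q : ℝ) * (r : ℝ) * r := by
    have h1 : B.card = Bx.card := by
      rw [card_subtype, filter_true_of_mem hmem]
    rw [h1, hBx, g10_card]
    push_cast
    ring
  refine ⟨B, ?_, ?_, ?_, ?_⟩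
  · -- norms
    intro (z : Γ.M) hz (w : Γ.M) hw
    have hz' := (hBmem z).1 hz
    have hw' := (hBmem w).1 hw
    have e1 : ((Γ.sys g hg).nm z : ℝ) = ((nm (z : O b c) : ℤ) : ℝ) := by
      change (((nm (z : O b c)).natAbs : ℕ) : ℝ) = _
      rw [← Int.cast_natCast, (Γ.natAbs_nm z z.2).1]
    have e2 : ((Γ.sys g hg).nm w : ℝ) = ((nm (w : O b c) : ℤ) : ℝ) := by
      change (((nm (w : O b c)).natAbs : ℕ) : ℝ) = _
      rw [← Int.cast_natCast, (Γ.natAbs_nm w w.2).1]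
    rw [e1, e2]
    have h1 := g10_nm q r hq1 _ hz'
    have h2 := g10_nm q r hq1 _ hw'
    have h3 : (0 : ℝ) ≤ ((nm (w : O b c) : ℤ) : ℝ) := by exact_mod_cast (Γ.nm_pos w w.2).le
    rw [← hN1] at h1 h2
    calc ((nm (z : O b c) : ℤ) : ℝ) * ((nm (w : O b c) : ℤ) : ℝ)
        ≤ (N1 * (q : ℝ) ^ 2 * (r : ℝ) ^ 2) * (N1 * (q : ℝ) ^ 2 * (r : ℝ) ^ 2) :=
          mul_le_mul h1 h2 h3 (by positivity)
      _ = K * (r : ℝ) ^ 4 := by rw [hK]; ring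
      _ ≤ X := hKr
  · -- cardinality
    change (q : ℝ) ^ 2 / (16 * K) * X ≤ (B.card : ℝ) ^ 2
    rw [hBcard, div_mul_eq_mul_div, div_le_iff₀ (by positivity)]
    have h1 : (q : ℝ) ^ 2 * X ≤ (q : ℝ) ^ 2 * (16 * K * (r : ℝ) ^ 4) :=
      mul_le_mul_of_nonneg_left hr4' (by positivity)
    refine h1.trans (le_of_eq ?_)
    ring
  · -- energy
    have hE' := hE r hr1
    rw [← hBx] at hE'
    have key : ((((B ×ˢ B) ×ˢ (B ×ˢ B)).filter (fun t : (Γ.M × Γ.M) × (Γ.M × Γ.M) =>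
        ∃ k : ℤ, Γ.ang t.1.1 + Γ.ang t.1.2 - (Γ.ang t.2.1 + Γ.ang t.2.2) = k)).card : ℝ) ≤
        ((((Bx ×ˢ Bx) ×ˢ (Bx ×ˢ Bx)).filter (fun t => dt (t.1.1 * t.1.2) (t.2.1 * t.2.2) = 0)).card : ℝ) := by
      rw [Nat.cast_le]
      refine card_le_card_of_injOn
        (fun t : (Γ.M × Γ.M) × (Γ.M × Γ.M) => (((t.1.1 : O b c), (t.1.2 : O b c)), ((t.2.1 : O b c), (t.2.2 : O b c))))
        ?_ ?_
      · rintro ⟨⟨z, w⟩, ⟨z', w'⟩⟩ ht
        rw [mem_coe, mem_filter, mem_product, mem_product, mem_product] at ht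
        rw [mem_coe, mem_filter, mem_product, mem_product, mem_product]
        obtain ⟨⟨⟨hz, hw⟩, ⟨hz', hw'⟩⟩, k, hk⟩ := ht
        rw [hBmem] at hz hw hz' hw'
        refine ⟨⟨⟨hz, hw⟩, ⟨hz', hw'⟩⟩, ?_⟩
        refine g10_dt Γ _ _ (hmul _ hz _ hw) (hmul _ hz' _ hw') k ?_
        rw [g10_ang_mul Γ _ _ (hnar _ hz) (hnar _ hw) (hmul _ hz _ hw),
          g10_ang_mul Γ _ _ (hnar _ hz') (hnar _ hw') (hmul _ hz' _ hw')]
        exact hk
      · rintro ⟨⟨z, w⟩, ⟨z', w'⟩⟩ _ ⟨⟨u, v⟩, ⟨u', v'⟩⟩ _ h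
        simp only [Prod.mk.injEq] at h
        obtain ⟨⟨h1, h2⟩, h3, h4⟩ := h
        simp only [Prod.mk.injEq]
        exact ⟨⟨Subtype.ext h1, Subtype.ext h2⟩, Subtype.ext h3, Subtype.ext h4⟩
    refine le_trans (le_trans key hE') ?_
    have hlr : 0 ≤ Real.log r := Real.log_nonneg hr1r
    have hlrX : Real.log r ≤ Real.log X := Real.log_le_log hr0 hrX
    have h1 : (1 + Real.log r) ^ A ≤ (2 * Real.log X) ^ A := pow_le_pow_left₀ (by linarith) (by linarith) A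
    have hlX : 0 ≤ Real.log X := by linarith
    calc Ce * (r : ℝ) ^ 4 * (1 + Real.log r) ^ A ≤ Ce * X * (2 * Real.log X) ^ A := by
          apply mul_le_mul _ h1 (by positivity) (by positivity)
          exact mul_le_mul_of_nonneg_left hr4X hCe.le
      _ = X * ((Ce * 2 ^ A) * (Real.log X) ^ A) := by rw [mul_pow]; ring
      _ ≤ X * (Real.log X * (Real.log X) ^ A) := by
          apply mul_le_mul_of_nonneg_left _ hX0.le
          exact mul_le_mul_of_nonneg_right hl2 (by positivity)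
      _ = X * (Real.log X) ^ (A + 1) := by rw [pow_succ']
  · -- exponential sums
    intro m hm hmX
    have e1 : ∑ z ∈ B, ee (m * Γ.ang (z : O b c)) = ∑ v ∈ Bx, ee (m * Γ.ang v) :=
      sum_subtype_of_mem (fun v : O b c => ee (m * Γ.ang v)) hmem
    change ‖∑ z ∈ B, ee (m * Γ.ang (z : O b c))‖ ≤
      Cs * (16 * K) ^ (σ / 4) * (B.card : ℝ) * (1 / |(m : ℝ)| + X ^ (-(min (σ / 4) 1)))
    rw [e1, hBx, g10_sum]
    have hm1 : |(m : ℝ)| ≤ 32 * K * (r : ℝ) ^ 4 := by linarith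
    have hm0 : 0 < |(m : ℝ)| := abs_pos.2 (by exact_mod_cast hm)
    have h1 : ∀ y ∈ Ioc r (2 * r), ‖∑ x ∈ Ioc (q * r) (2 * (q * r)), ee (m * Γ.ang (⟨(x : ℤ), (y : ℤ)⟩ : O b c))‖ ≤
        Cs * (r * (1 / |(m : ℝ)| + (r : ℝ) ^ (-σ))) := by
      intro y hy
      rw [mem_Ioc] at hy
      have h2 := hrow r hr1 (y : ℝ) (by exact_mod_cast hy.1.le) (by exact_mod_cast hy.2) m hm hm1
      refine le_trans (le_of_eq ?_) h2
      congr 1
      refine sum_congr rfl fun x hx => ?_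
      rw [mem_Ioc] at hx
      have h3 := (Γ.narrow x y (by omega) (by
        have h1 : Γ.q0 * y ≤ x := by
          calc Γ.q0 * y ≤ Γ.q0 * (2 * r) := Nat.mul_le_mul_left _ hy.2
            _ = 2 * Γ.q0 * r := by ring
            _ ≤ q * r := Nat.mul_le_mul_right _ hq20
            _ ≤ x := hx.1.le
        exact_mod_cast h1)).2.2
      rw [h3]
      push_cast
      rfl
    have h4 : ‖∑ y ∈ Ioc r (2 * r), ∑ x ∈ Ioc (q * r) (2 * (q * r)), ee (m * Γ.ang (⟨(x : ℤ), (y : ℤ)⟩ : O b c))‖ ≤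
        r * (Cs * (r * (1 / |(m : ℝ)| + (r : ℝ) ^ (-σ)))) := by
      refine (norm_sum_le _ _).trans ((sum_le_sum h1).trans (le_of_eq ?_))
      rw [sum_const, Nat.card_Ioc, nsmul_eq_mul]
      congr 2
      omega
    refine h4.trans ?_
    have hrσ : (r : ℝ) ^ (-σ) ≤ (16 * K) ^ (σ / 4) * X ^ (-(min (σ / 4) 1)) := by
      have h5 : X / (16 * K) ≤ (r : ℝ) ^ 4 := by
        rw [div_le_iff₀ (by positivity)]
        linarith
      have h6 : (r : ℝ) ^ (-σ) = ((r : ℝ) ^ 4) ^ (-(σ / 4)) := by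
        rw [← Real.rpow_natCast, ← Real.rpow_mul hr0.le]
        congr 1
        push_cast
        ring
      rw [h6]
      calc ((r : ℝ) ^ 4) ^ (-(σ / 4)) ≤ (X / (16 * K)) ^ (-(σ / 4)) :=
            Real.rpow_le_rpow_of_nonpos (by positivity) h5 (by linarith)
        _ = (16 * K) ^ (σ / 4) * X ^ (-(σ / 4)) := by
            rw [Real.div_rpow hX0.le (by positivity), Real.rpow_neg (by positivity : (0 : ℝ) ≤ 16 * K)]
            field_simp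
        _ ≤ (16 * K) ^ (σ / 4) * X ^ (-(min (σ / 4) 1)) := by
            apply mul_le_mul_of_nonneg_left _ (by positivity)
            exact Real.rpow_le_rpow_of_exponent_le hX1' (neg_le_neg (min_le_left _ _))
    have hXp : 0 ≤ X ^ (-(min (σ / 4) 1)) := Real.rpow_nonneg hX0.le _
    have h7 : 1 / |(m : ℝ)| + (r : ℝ) ^ (-σ) ≤ (16 * K) ^ (σ / 4) * (1 / |(m : ℝ)| + X ^ (-(min (σ / 4) 1))) := by
      have h8 : 1 / |(m : ℝ)| ≤ (16 * K) ^ (σ / 4) * (1 / |(m : ℝ)|) :=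
        le_mul_of_one_le_left (by positivity) h16
      rw [mul_add]
      linarith
    calc (r : ℝ) * (Cs * (r * (1 / |(m : ℝ)| + (r : ℝ) ^ (-σ))))
        = (Cs * ((r : ℝ) * r)) * (1 / |(m : ℝ)| + (r : ℝ) ^ (-σ)) := by ring
      _ ≤ (Cs * ((r : ℝ) * r)) * ((16 * K) ^ (σ / 4) * (1 / |(m : ℝ)| + X ^ (-(min (σ / 4) 1)))) :=
          mul_le_mul_of_nonneg_left h7 (by positivity)
      _ = (Cs * (16 * K) ^ (σ / 4)) * ((r : ℝ) * r) * (1 / |(m : ℝ)| + X ^ (-(min (σ / 4) 1))) := by ring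
      _ ≤ (Cs * (16 * K) ^ (σ / 4)) * ((B.card : ℝ)) * (1 / |(m : ℝ)| + X ^ (-(min (σ / 4) 1))) := by
          apply mul_le_mul_of_nonneg_right _ (by positivity)
          apply mul_le_mul_of_nonneg_left _ (by positivity)
          rw [hBcard, mul_assoc]
          exact le_mul_of_one_le_left (by positivity) hq1r

end Geo

end Pool.Agent.Lib.MP_648c71_nt.HP
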