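import Pool.Agent.Lib.MP_648c71_nt.HP.G1

/-! Row G4 (about 80 lines): directions and norms, the system attached to the geometry. -/

set_option autoImplicit false

namespace Pool.Agent.Lib.MP_648c71_nt.HP

open Finset MeasureTheory

variable {b c : ℤ} (Γ : Geo b c)

namespace Geo

/-- ROW G4.  Elements with the same angle mod 1: replace both by members of the sector (`to_sec`), their angles
are in `[0,1)` and differ by an integer, so they are equal; `dt s s' = 0` by `lt_iff` (twice); with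
`s = α s₀`, `s' = β s₀` (`exists_prim`, `cramer`) `β² nm s = α² nm s'`, `α, β ≠ 0` as norms are positive. -/
theorem dir_nm (z w : O b c) (hz : z ∈ Γ.M) (hw : w ∈ Γ.M) (h : ∃ k : ℤ, Γ.ang z - Γ.ang w = k) :
    ∃ m n : ℕ, 0 < m ∧ 0 < n ∧ m ^ 2 * (nm z).natAbs = n ^ 2 * (nm w).natAbs := by
  obtain ⟨k, hk⟩ := h
  obtain ⟨s, hs, hsn, k1, hk1⟩ := Γ.to_sec z hz
  obtain ⟨t, ht, htn, k2, hk2⟩ := Γ.to_sec w hw
  have hs0 : 0 < nm s := hsn ▸ Γ.nm_pos z hz
  have ht0 : 0 < nm t := htn ▸ Γ.nm_pos w hw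
  have hang : Γ.ang s = Γ.ang t := by
    have e : Γ.ang s - Γ.ang t = ((k - k1 + k2 : ℤ) : ℝ) := by
      push_cast
      linarith
    have h1 := Γ.sec_ang s hs
    have h2 := Γ.sec_ang t ht
    have h3 : ((k - k1 + k2 : ℤ) : ℝ) < 1 := by rw [← e]; linarith
    have h4 : (-1 : ℝ) < ((k - k1 + k2 : ℤ) : ℝ) := by rw [← e]; linarith
    have h5 : k - k1 + k2 < 1 := by exact_mod_cast h3
    have h6 : -1 < k - k1 + k2 := by exact_mod_cast h4
    have h7 : k - k1 + k2 = 0 := by omega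
    rw [h7] at e
    push_cast at e
    linarith
  have hdt : dt s t = 0 := by
    rcases lt_trichotomy (dt s t) 0 with h1 | h1 | h1
    · exfalso
      have h2 : 0 < dt t s := by
        have : dt t s = - dt s t := by simp only [dt]; ring
        omega
      exact absurd ((Γ.lt_iff t ht s hs).2 h2) (by rw [hang]; exact lt_irrefl _)
    · exact h1
    · exfalso
      exact absurd ((Γ.lt_iff s hs t ht).2 h1) (by rw [hang]; exact lt_irrefl _)
  simp only [dt] at hdt
  have key : ∀ p q : ℤ, p ≠ 0 → q ≠ 0 → q ^ 2 * nm s = p ^ 2 * nm t →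
      ∃ m n : ℕ, 0 < m ∧ 0 < n ∧ m ^ 2 * (nm z).natAbs = n ^ 2 * (nm w).natAbs := by
    intro p q hp hq hpq
    refine ⟨q.natAbs, p.natAbs, Int.natAbs_pos.2 hq, Int.natAbs_pos.2 hp, ?_⟩
    rw [← hsn, ← htn, ← Int.natAbs_pow, ← Int.natAbs_pow, ← Int.natAbs_mul, ← Int.natAbs_mul, hpq]
  by_cases hr : s.re = 0
  · have hi : s.im ≠ 0 := by
      intro h1
      simp only [nm, hr, h1] at hs0
      simp at hs0
    have hr' : t.re = 0 := by
      rw [hr, zero_mul, zero_sub, neg_eq_zero] at hdt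
      exact (mul_eq_zero.1 hdt).resolve_left hi
    have hi' : t.im ≠ 0 := by
      intro h1
      simp only [nm, hr', h1] at ht0
      simp at ht0
    refine key s.im t.im hi hi' ?_
    simp only [nm, hr, hr']
    ring
  · have hr' : t.re ≠ 0 := by
      intro h1
      rw [h1, mul_zero, sub_zero] at hdt
      have h2 : t.im = 0 := (mul_eq_zero.1 hdt).resolve_left hr
      simp only [nm, h1, h2] at ht0
      simp at ht0
    refine key s.re t.re hr hr' ?_
    have h1 : t.re * s.im = s.re * t.im := by linarith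
    have h2 : t.re ^ 2 * s.im ^ 2 = s.re ^ 2 * t.im ^ 2 := by
      rw [← mul_pow, h1, mul_pow]
    simp only [nm]
    linear_combination (b * s.re * t.re) * h1 + c * h2

/-- ROW G4. -/
theorem natAbs_nm (z : O b c) (hz : z ∈ Γ.M) : ((nm z).natAbs : ℤ) = nm z ∧ 0 < (nm z).natAbs := by
  have h := Γ.nm_pos z hz
  exact ⟨Int.natAbs_of_nonneg h.le, Int.natAbs_pos.2 h.ne'⟩

/-- the abstract system of the geometry with the sign `g(nm z)` -/
noncomputable def sys (g : ℕ → ℝ) (hg : CM g) : Sys where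
  M := Γ.M
  mon := inferInstance
  ang := fun z => Γ.ang z
  nm := fun z => (nm (z : O b c)).natAbs
  g := fun z => gg g (z : O b c)
  nm_pos := fun z => (Γ.natAbs_nm z z.2).2
  nm_mul := fun z w => by
    rw [Submonoid.coe_mul, Pool.Agent.Lib.MP_648c71_nt.nm_mul, Int.natAbs_mul]
  ang_mul := fun z w => Γ.ang_mul z z.2 w w.2
  g_mul := fun z w => by
    simp only [gg]
    rw [Submonoid.coe_mul, Pool.Agent.Lib.MP_648c71_nt.nm_mul, Int.natAbs_mul]
    exact hg.1 _ _ (Γ.natAbs_nm z z.2).2 (Γ.natAbs_nm w w.2).2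
  g_or := fun z => hg.2 _ (Γ.natAbs_nm z z.2).2
  c0 := Γ.c0
  c0_pos := Γ.c0_pos
  sep := fun z w => by
    rcases Γ.sep z z.2 w w.2 with h | h
    · exact Or.inl h
    · refine Or.inr fun k => ?_
      have e1 : (((nm (z : O b c)).natAbs : ℕ) : ℝ) = ((nm (z : O b c) : ℤ) : ℝ) := by
        rw [← Int.cast_natCast, (Γ.natAbs_nm z z.2).1]
      have e2 : (((nm (w : O b c)).natAbs : ℕ) : ℝ) = ((nm (w : O b c) : ℤ) : ℝ) := by
        rw [← Int.cast_natCast, (Γ.natAbs_nm w w.2).1]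
      rw [e1, e2]; exact h k
  dir := fun z w h => Γ.dir_nm z w z.2 w.2 h

end Geo

end Pool.Agent.Lib.MP_648c71_nt.HP
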