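import Pool.Agent.Lib.MP_648c71_nt.HP.G2
import Pool.Agent.Lib.MP_648c71_nt.HP.G4

/-! Row G6 (about 90 lines): lengths of Farey gaps, density of directions. -/

set_option autoImplicit false

namespace Pool.Agent.Lib.MP_648c71_nt.HP

open Finset MeasureTheory

variable {b c : ℤ} (Γ : Geo b c)

namespace Geo

theorem G6_dt_neg (v w : O b c) : dt w v = -dt v w := by
  unfold dt; ring

theorem G6_nm_one (v : O b c) (hv : v ∈ Γ.Sec ∨ v = Γ.e1) : (1 : ℝ) ≤ (nm v : ℝ) := by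
  rcases hv with h | h
  · exact_mod_cast Γ.nm_pos v (Γ.sec_M v h)
  · rw [h, Γ.nm_e1, Int.cast_one]

/-- ROW G6.  `rho v ≥ 1/Cr` for members of the sector and `e1` (`nm ≥ 1`, `le_rho`). -/
theorem rho_lower (v : O b c) (hv : v ∈ Γ.Sec ∨ v = Γ.e1) : 1 / Γ.Cr ≤ Γ.rho v := by
  have hC : 0 < Γ.Cr := lt_of_lt_of_le one_pos Γ.Cr_one
  rw [div_le_iff₀ hC, mul_comm]
  exact (Real.one_le_sqrt.mpr (Γ.G6_nm_one v hv)).trans (Γ.le_rho v hv)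

/-- ROW G6.  For `Y ≥ Y0` the vector `u0` is in the Farey set, so for neighbours `v, w` either
`ang u0 ≤ ang v` or `ang w ≤ ang u0`, so `0 ≤ dt u0 v` or `0 ≤ dt w u0` (`lt_iff`), and `near` applies
(`adj_dt`).  `1/√nm v ≤ Cr/rho v`. -/
theorem adj_near (Y : ℝ) (hY : Γ.Y0 ≤ Y) (v w : O b c) (h : Γ.Adj Y v w) :
    Γ.ang w - Γ.ang v ≤ Γ.Cg * Γ.Cr ^ 2 / (Γ.rho v * Γ.rho w) ∧ -Γ.Cg ≤ (sc v w : ℝ) := by
  have hdt := Γ.adj_dt Y hY v w h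
  have hY0 : Γ.rho Γ.u0 ≤ Y := ((le_max_left _ _).trans (le_max_right _ _)).trans hY
  have hC : 0 < Γ.Cr := lt_of_lt_of_le one_pos Γ.Cr_one
  obtain ⟨h1, h2, h3, h4⟩ := h
  have hv : v ∈ Γ.Sec := ((Γ.mem_Fv Y v).mp h1).1
  have hw : w ∈ Γ.Sec ∨ w = Γ.e1 := h2.imp (fun hh => ((Γ.mem_Fv Y w).mp hh).1) id
  have hu : Γ.u0 ∈ Γ.Fv Y := (Γ.mem_Fv Y Γ.u0).mpr ⟨Γ.u0_sec, Γ.u0_prim, hY0⟩
  have hside : 0 ≤ dt Γ.u0 v ∨ 0 ≤ dt w Γ.u0 := by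
    rcases le_or_gt (Γ.ang Γ.u0) (Γ.ang v) with hle | hlt
    · left
      have h5 : ¬ 0 < dt v Γ.u0 := fun hh =>
        absurd ((Γ.lt_iff v hv Γ.u0 Γ.u0_sec).mpr hh) (not_lt.mpr hle)
      rw [G6_dt_neg v Γ.u0]
      exact neg_nonneg.mpr (not_lt.mp h5)
    · right
      have h6 : ¬ Γ.ang Γ.u0 < Γ.ang w := fun hh => h4 Γ.u0 hu ⟨hlt, hh⟩
      rcases hw with hw' | hw'
      · have h5 : ¬ 0 < dt Γ.u0 w := fun hh =>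
          h6 ((Γ.lt_iff Γ.u0 Γ.u0_sec w hw').mpr hh)
        rw [G6_dt_neg Γ.u0 w]
        exact neg_nonneg.mpr (not_lt.mp h5)
      · exact absurd (by rw [hw', Γ.ang_e1]; exact (Γ.sec_ang _ Γ.u0_sec).2) h6
  obtain ⟨h7, h8⟩ := Γ.near v hv w hw hdt hside
  refine ⟨h7.trans ?_, h8⟩
  have hrv : 0 < Γ.rho v := lt_of_lt_of_le (div_pos one_pos hC) (Γ.rho_lower v (Or.inl hv))
  have hrw : 0 < Γ.rho w := lt_of_lt_of_le (div_pos one_pos hC) (Γ.rho_lower w hw)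
  have hsv : 0 < Real.sqrt (nm v) :=
    Real.sqrt_pos.mpr (lt_of_lt_of_le one_pos (Γ.G6_nm_one v (Or.inl hv)))
  have hsw : 0 < Real.sqrt (nm w) :=
    Real.sqrt_pos.mpr (lt_of_lt_of_le one_pos (Γ.G6_nm_one w hw))
  have hCg : 0 < Γ.Cg := lt_of_lt_of_le one_pos Γ.Cg_one
  rw [div_le_div_iff₀ (mul_pos hsv hsw) (mul_pos hrv hrw)]
  have h9 : Γ.rho v * Γ.rho w ≤ (Γ.Cr * Real.sqrt (nm v)) * (Γ.Cr * Real.sqrt (nm w)) :=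
    mul_le_mul (Γ.rho_le v (Or.inl hv)) (Γ.rho_le w hw) hrw.le (mul_pos hC hsv).le
  calc Γ.Cg * (Γ.rho v * Γ.rho w)
      ≤ Γ.Cg * ((Γ.Cr * Real.sqrt (nm v)) * (Γ.Cr * Real.sqrt (nm w))) :=
        mul_le_mul_of_nonneg_left h9 hCg.le
    _ = Γ.Cg * Γ.Cr ^ 2 * (Real.sqrt (nm v) * Real.sqrt (nm w)) := by ring

/-- ROW G6.  Density: for `Y = K/δ` large, `v, w` neighbours around `fract θ`, `rho v + rho w > Y` (`adj_mediant`,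
`rho_add`), so the gap is at most `Cg Cr² / ((Y/2)(1/Cr)) ≤ δ`; take `z = v`, `nm v ≤ (Cr Y)²`. -/
theorem dense (g : ℕ → ℝ) (hg : CM g) : ∃ C : ℝ, 0 < C ∧ Dense (Γ.sys g hg) C := by
  have hC : 0 < Γ.Cr := lt_of_lt_of_le one_pos Γ.Cr_one
  have hCg : 0 < Γ.Cg := lt_of_lt_of_le one_pos Γ.Cg_one
  obtain ⟨K, hK⟩ : ∃ K : ℝ, K = max Γ.Y0 (2 * Γ.Cg * Γ.Cr ^ 3) := ⟨_, rfl⟩
  have hK1 : Γ.Y0 ≤ K := hK ▸ le_max_left _ _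
  have hK4 : 2 * Γ.Cg * Γ.Cr ^ 3 ≤ K := hK ▸ le_max_right _ _
  have hC3 : 0 < 2 * Γ.Cg * Γ.Cr ^ 3 := by positivity
  have hK0 : 0 < K := lt_of_lt_of_le hC3 hK4
  refine ⟨Γ.Cr ^ 2 * K ^ 2, by positivity, ?_⟩
  intro θ δ hδ hδ1
  have hKY : K ≤ K / δ := by
    rw [le_div_iff₀ hδ]
    exact mul_le_of_le_one_right hK0.le hδ1
  have hY0 : 0 < K / δ := div_pos hK0 hδ
  obtain ⟨v, w, hadj, h1, h2⟩ := Γ.exists_adj (K / δ) (hK1.trans hKY) (Int.fract θ)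
    (Int.fract_nonneg θ) (Int.fract_lt_one θ)
  have hv : v ∈ Γ.Sec := ((Γ.mem_Fv _ v).mp hadj.1).1
  have hvY : Γ.rho v ≤ K / δ := ((Γ.mem_Fv _ v).mp hadj.1).2.2
  have hw : w ∈ Γ.Sec ∨ w = Γ.e1 := hadj.2.1.imp (fun hh => ((Γ.mem_Fv _ w).mp hh).1) id
  have hgap := (Γ.adj_near (K / δ) (hK1.trans hKY) v w hadj).1
  have hmed := (Γ.adj_mediant (K / δ) (hK1.trans hKY) v w hadj).2.2.1
  have hsum : K / δ < Γ.rho v + Γ.rho w := lt_of_lt_of_le hmed (Γ.rho_add v w)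
  have hlv := Γ.rho_lower v (Or.inl hv)
  have hlw := Γ.rho_lower w hw
  have hi : 0 < 1 / Γ.Cr := div_pos one_pos hC
  have hrv : 0 < Γ.rho v := lt_of_lt_of_le hi hlv
  have hrw : 0 < Γ.rho w := lt_of_lt_of_le hi hlw
  have hprod : K / δ / 2 * (1 / Γ.Cr) ≤ Γ.rho v * Γ.rho w := by
    rcases le_total (Γ.rho v) (Γ.rho w) with hle | hle
    · rw [mul_comm (Γ.rho v)]
      exact mul_le_mul (by linarith) hlv hi.le hrw.le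
    · exact mul_le_mul (by linarith) hlw hi.le hrv.le
  have hgap2 : Γ.ang w - Γ.ang v ≤ δ := by
    refine hgap.trans ?_
    rw [div_le_iff₀ (mul_pos hrv hrw)]
    refine le_trans ?_ (mul_le_mul_of_nonneg_left hprod hδ.le)
    have e1 : δ * (K / δ / 2 * (1 / Γ.Cr)) = K / (2 * Γ.Cr) := by
      field_simp
    rw [e1, le_div_iff₀ (by positivity)]
    calc Γ.Cg * Γ.Cr ^ 2 * (2 * Γ.Cr) = 2 * Γ.Cg * Γ.Cr ^ 3 := by ring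
      _ ≤ K := hK4
  refine ⟨⟨v, Γ.sec_M v hv⟩, -⌊θ⌋, ?_, ?_⟩
  · show |Γ.ang v - θ - ((-⌊θ⌋ : ℤ) : ℝ)| ≤ δ
    have e2 : Γ.ang v - θ - ((-⌊θ⌋ : ℤ) : ℝ) = Γ.ang v - Int.fract θ := by
      rw [Int.fract]
      push_cast
      ring
    rw [e2, abs_le]
    constructor <;> linarith
  · show (((nm v).natAbs : ℕ) : ℝ) ≤ Γ.Cr ^ 2 * K ^ 2 / δ ^ 2
    have e3 : (((nm v).natAbs : ℕ) : ℝ) = ((nm v : ℤ) : ℝ) := by
      rw [← Int.cast_natCast, (Γ.natAbs_nm v (Γ.sec_M v hv)).1]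
    have h5 : 0 ≤ ((nm v : ℤ) : ℝ) := le_trans zero_le_one (Γ.G6_nm_one v (Or.inl hv))
    have h6 : Real.sqrt (nm v) ≤ Γ.Cr * (K / δ) :=
      (Γ.le_rho v (Or.inl hv)).trans (mul_le_mul_of_nonneg_left hvY hC.le)
    rw [e3]
    calc ((nm v : ℤ) : ℝ) = Real.sqrt (nm v) ^ 2 := (Real.sq_sqrt h5).symm
      _ ≤ (Γ.Cr * (K / δ)) ^ 2 := pow_le_pow_left₀ (Real.sqrt_nonneg _) h6 2
      _ = Γ.Cr ^ 2 * K ^ 2 / δ ^ 2 := by rw [mul_pow, div_pow, mul_div_assoc]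

end Geo

end Pool.Agent.Lib.MP_648c71_nt.HP
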