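import Pool.Agent.Lib.MP_648c71_nt.HP.G6

set_option autoImplicit false

namespace Pool.Agent.Lib.MP_648c71_nt.HP

/-! Row G7 (about 150 lines): the gap property. -/

open Finset MeasureTheory

variable {b c : ℤ} (Γ : Geo b c)

namespace Geo

theorem g7_nm_one_le (v : O b c) (hv : v ∈ Γ.Sec ∨ v = Γ.e1) : 1 ≤ nm v := by
  rcases hv with h | h
  · have := Γ.nm_pos v (Γ.sec_M v h)
    omega
  · rw [h, Γ.nm_e1]

theorem g7_rho_pos (v : O b c) (hv : v ∈ Γ.Sec ∨ v = Γ.e1) : 0 < Γ.rho v := by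
  refine lt_of_lt_of_le ?_ (Γ.rho_lower v hv)
  have := Γ.Cr_one
  positivity

/-- the size of the coordinates -/
def g7_mx (v : O b c) : ℕ := max v.re.natAbs v.im.natAbs

theorem g7_mx_le (v : O b c) (hv : v ∈ Γ.Sec ∨ v = Γ.e1) :
    (g7_mx v : ℝ) ≤ Γ.Cs * Γ.Cr * Γ.rho v := by
  have h1 := Γ.le_rho v hv
  obtain ⟨h2, h3⟩ := Γ.size v hv
  have hCs : 0 ≤ Γ.Cs := le_trans zero_le_one Γ.Cs_one
  have h4 : Γ.Cs * Real.sqrt (nm v) ≤ Γ.Cs * Γ.Cr * Γ.rho v := by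
    rw [mul_assoc]
    exact mul_le_mul_of_nonneg_left h1 hCs
  have h5 : (g7_mx v : ℝ) = max |(v.re : ℝ)| |(v.im : ℝ)| := by
    rw [g7_mx]
    push_cast [Nat.cast_natAbs]
    rfl
  rw [h5]
  exact max_le (h2.trans h4) (h3.trans h4)

theorem g7_mx_pos (v : O b c) (hv : v ∈ Γ.Sec ∨ v = Γ.e1) : 1 ≤ g7_mx v := by
  by_contra hcon
  have h1 : g7_mx v = 0 := by omega
  have h2 : v.re.natAbs = 0 := by
    have : v.re.natAbs ≤ g7_mx v := le_max_left _ _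
    omega
  have h3 : v.im.natAbs = 0 := by
    have : v.im.natAbs ≤ g7_mx v := le_max_right _ _
    omega
  have h4 := Γ.g7_nm_one_le v hv
  rw [nm, Int.natAbs_eq_zero.mp h2, Int.natAbs_eq_zero.mp h3] at h4
  simp at h4

theorem sum_inv_rho (r : ℝ) (hr : 0 ≤ r) (F : Finset (O b c))
    (hF : ∀ v ∈ F, (v ∈ Γ.Sec ∨ v = Γ.e1) ∧ Γ.rho v ≤ r) :
    ∑ v ∈ F, 1 / Γ.rho v ≤ 8 * (Γ.Cs * Γ.Cr) ^ 2 * r := by
  classical
  have hCs := Γ.Cs_one
  have hCr := Γ.Cr_one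
  obtain ⟨K, hK⟩ : ∃ K : ℝ, K = Γ.Cs * Γ.Cr := ⟨_, rfl⟩
  have hKp : 0 < K := by rw [hK]; positivity
  obtain ⟨T, hT⟩ : ∃ T : ℕ, T = ⌊K * r⌋₊ := ⟨_, rfl⟩
  have hTle : (T : ℝ) ≤ K * r := by rw [hT]; exact Nat.floor_le (by positivity)
  have h1 : ∀ v ∈ F, 1 / Γ.rho v ≤ K / (g7_mx v : ℝ) := by
    intro v hv
    obtain ⟨a1, -⟩ := hF v hv
    have a2 := Γ.g7_mx_le v a1
    have a3 : (1 : ℝ) ≤ g7_mx v := by exact_mod_cast Γ.g7_mx_pos v a1
    have a4 := Γ.g7_rho_pos v a1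
    rw [div_le_div_iff₀ a4 (by linarith), one_mul, hK]
    exact a2
  have h2 : ∀ v ∈ F, g7_mx v ∈ Icc 1 T := by
    intro v hv
    obtain ⟨a1, a2⟩ := hF v hv
    rw [mem_Icc]
    refine ⟨Γ.g7_mx_pos v a1, ?_⟩
    rw [hT]
    refine Nat.le_floor ((Γ.g7_mx_le v a1).trans ?_)
    rw [← hK]
    exact mul_le_mul_of_nonneg_left a2 hKp.le
  have hcard : ∀ k ∈ Icc 1 T, ((F.filter (fun v => g7_mx v = k)).card : ℝ) ≤ 8 * k := by
    intro k hk
    rw [mem_Icc] at hk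
    have a1 : (F.filter (fun v => g7_mx v = k)).card ≤ (box k : Finset (ℤ × ℤ)).card := by
      refine card_le_card_of_injOn (fun v => (v.re, v.im)) ?_ ?_
      · intro v hv
        have hv' := (mem_filter.mp (mem_coe.mp hv)).2
        exact mem_coe.mpr (Int.mem_box.mpr hv')
      · intro v _ w _ hvw
        have e1 : v.re = w.re := congrArg Prod.fst hvw
        have e2 : v.im = w.im := congrArg Prod.snd hvw
        exact QuadraticAlgebra.ext e1 e2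
    rw [Int.card_box (by omega)] at a1
    exact_mod_cast a1
  calc ∑ v ∈ F, 1 / Γ.rho v ≤ ∑ v ∈ F, K / (g7_mx v : ℝ) := sum_le_sum h1
    _ = ∑ k ∈ Icc 1 T, ∑ v ∈ F.filter (fun v => g7_mx v = k), K / (g7_mx v : ℝ) :=
        (sum_fiberwise_of_maps_to h2 _).symm
    _ = ∑ k ∈ Icc 1 T, ((F.filter (fun v => g7_mx v = k)).card : ℝ) * (K / k) := by
        refine sum_congr rfl fun k _ => ?_
        rw [sum_congr rfl (fun v hv => by rw [(mem_filter.mp hv).2] :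
          ∀ v ∈ F.filter (fun v => g7_mx v = k), K / (g7_mx v : ℝ) = K / (k : ℝ)),
          sum_const, nsmul_eq_mul]
    _ ≤ ∑ k ∈ Icc 1 T, 8 * K := by
        refine sum_le_sum fun k hk => ?_
        have a1 : (1 : ℝ) ≤ k := by exact_mod_cast (mem_Icc.mp hk).1
        have a2 : 0 < K / (k : ℝ) := by positivity
        calc ((F.filter (fun v => g7_mx v = k)).card : ℝ) * (K / k) ≤ 8 * k * (K / k) :=
              mul_le_mul_of_nonneg_right (hcard k hk) a2.le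
          _ = 8 * K := by field_simp
    _ = 8 * K * T := by
        rw [sum_const, Nat.card_Icc, nsmul_eq_mul]
        simp
        ring
    _ ≤ 8 * K * (K * r) := mul_le_mul_of_nonneg_left hTle (by positivity)
    _ = 8 * (Γ.Cs * Γ.Cr) ^ 2 * r := by rw [hK]; ring

/-- one neighbour has small gauge and is close -/
theorem g7_pair {A B Y x Λ D θ p q : ℝ} (hA : 0 < A) (hB : 0 < B) (hY : 0 < Y) (hx : 0 < x) (hΛ : 0 < Λ)
    (hD : 0 < D) (hsum : Y < A + B) (h1 : Λ / x < p - q) (h2 : p - q ≤ D / (A * B))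
    (h3 : q ≤ θ) (h4 : θ < p) :
    (A ≤ 2 * D * x / (Y * Λ) ∧ |q - θ| ≤ 2 * D / (Y * A)) ∨
      (B ≤ 2 * D * x / (Y * Λ) ∧ |p - θ| ≤ 2 * D / (Y * B)) := by
  have h5 : Λ / x < D / (A * B) := lt_of_lt_of_le h1 h2
  rw [div_lt_div_iff₀ hx (by positivity)] at h5
  rcases le_or_gt (Y / 2) B with hB2 | hB2
  · left
    constructor
    · rw [le_div_iff₀ (by positivity)]
      have a1 : Λ * (A * (Y / 2)) ≤ Λ * (A * B) :=
        mul_le_mul_of_nonneg_left (mul_le_mul_of_nonneg_left hB2 hA.le) hΛ.le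
      nlinarith
    · have a1 : |q - θ| ≤ p - q := by
        rw [abs_le]
        constructor <;> linarith
      refine (a1.trans h2).trans ?_
      rw [div_le_div_iff₀ (by positivity) (by positivity)]
      have a2 : D * (A * (Y / 2)) ≤ D * (A * B) :=
        mul_le_mul_of_nonneg_left (mul_le_mul_of_nonneg_left hB2 hA.le) hD.le
      nlinarith
  · right
    have hA2 : Y / 2 ≤ A := by linarith
    constructor
    · rw [le_div_iff₀ (by positivity)]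
      have a1 : Λ * ((Y / 2) * B) ≤ Λ * (A * B) :=
        mul_le_mul_of_nonneg_left (mul_le_mul_of_nonneg_right hA2 hB.le) hΛ.le
      nlinarith
    · have a1 : |p - θ| ≤ p - q := by
        rw [abs_le]
        constructor <;> linarith
      refine (a1.trans h2).trans ?_
      rw [div_le_div_iff₀ (by positivity) (by positivity)]
      have a2 : D * ((Y / 2) * B) ≤ D * (A * B) :=
        mul_le_mul_of_nonneg_left (mul_le_mul_of_nonneg_right hA2 hB.le) hD.le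
      nlinarith

theorem gap (g : ℕ → ℝ) (hg : CM g) : ∃ C : ℝ, 0 < C ∧ Gap (Γ.sys g hg) C := by
  classical
  have hCr := Γ.Cr_one
  have hCs := Γ.Cs_one
  have hCg := Γ.Cg_one
  obtain ⟨Y₀, hY₀⟩ : ∃ Y₀ : ℝ, Y₀ = Γ.Y0 := ⟨_, rfl⟩
  obtain ⟨D, hD⟩ : ∃ D : ℝ, D = Γ.Cg * Γ.Cr ^ 2 := ⟨_, rfl⟩
  have hDp : 0 < D := by rw [hD]; positivity
  obtain ⟨C₁, hC₁⟩ : ∃ C₁ : ℝ, C₁ = 64 * D ^ 2 * Γ.Cr ^ 2 * (Γ.Cs * Γ.Cr) ^ 2 := ⟨_, rfl⟩
  have hC₁p : 0 < C₁ := by rw [hC₁]; positivity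
  refine ⟨C₁ + (Γ.Cr * Y₀) ^ 2, by positivity, fun x Λ hx hΛ => ?_⟩
  have hxp : 0 < x := by linarith
  have hΛp : 0 < Λ := by linarith
  obtain ⟨E, hE⟩ : ∃ E : Set ℝ, E = {θ : ℝ | θ ∈ Set.Ico (0 : ℝ) 1 ∧
      ∀ z : (Γ.sys g hg).M, ((Γ.sys g hg).nm z : ℝ) ≤ x → ∀ k : ℤ,
        Λ / x < |(Γ.sys g hg).ang z - θ - k|} := ⟨_, rfl⟩
  rw [← hE]
  -- what membership gives for elements of `M`
  have hmem : ∀ θ ∈ E, ∀ v ∈ Γ.M, (nm v : ℝ) ≤ x → Λ / x < |Γ.ang v - θ| := by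
    intro θ hθ v hv hnv
    rw [hE] at hθ
    have a1 := hθ.2 (⟨v, hv⟩ : Γ.M) (by
      show (((nm v).natAbs : ℕ) : ℝ) ≤ x
      rw [← Int.cast_natCast, (Γ.natAbs_nm v hv).1]
      exact hnv) 0
    have a2 : (Γ.sys g hg).ang (⟨v, hv⟩ : Γ.M) = Γ.ang v := rfl
    rw [a2, Int.cast_zero, sub_zero] at a1
    exact a1
  have hIco : ∀ θ ∈ E, 0 ≤ θ ∧ θ < 1 := by
    intro θ hθ
    rw [hE] at hθ
    exact hθ.1
  have hC1 : C₁ / Λ ≤ (C₁ + (Γ.Cr * Y₀) ^ 2) / Λ :=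
    div_le_div_of_nonneg_right (by nlinarith [sq_nonneg (Γ.Cr * Y₀)]) hΛp.le
  by_cases hY : Real.sqrt x / Γ.Cr < Y₀
  · -- bounded `x`
    by_cases hΛx : x ≤ Λ
    · -- the set is empty
      have hempty : E = ∅ := by
        rw [Set.eq_empty_iff_forall_notMem]
        intro θ hθ
        obtain ⟨a0, a1⟩ := hIco θ hθ
        have a2 := hmem θ hθ 1 Γ.M.one_mem (by rw [nm_one]; exact_mod_cast hx)
        rw [Γ.ang_one, zero_sub, abs_neg, abs_of_nonneg a0] at a2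
        have a3 : 1 ≤ Λ / x := by rwa [one_le_div hxp]
        linarith
      rw [hempty]
      simp
    · rw [not_le] at hΛx
      have a1 : volume E ≤ ENNReal.ofReal 1 := by
        have : E ⊆ Set.Ico (0 : ℝ) 1 := fun θ hθ => hIco θ hθ
        refine (measure_mono this).trans ?_
        rw [Real.volume_Ico, sub_zero]
      refine a1.trans (ENNReal.ofReal_le_ofReal ?_)
      rw [one_le_div hΛp]
      rw [div_lt_iff₀ (by positivity)] at hY
      have hsq : Real.sqrt x * Real.sqrt x = x := Real.mul_self_sqrt hxp.le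
      have hs0 : 0 ≤ Real.sqrt x := Real.sqrt_nonneg x
      nlinarith
  · rw [not_lt] at hY
    have hYY : Γ.Y0 ≤ Real.sqrt x / Γ.Cr := le_trans (by rw [hY₀]) hY
    have hYe : Γ.rho Γ.e1 ≤ Real.sqrt x / Γ.Cr := Γ.rho_e1_le.trans hYY
    obtain ⟨Y, hYdef⟩ : ∃ Y : ℝ, Y = Real.sqrt x / Γ.Cr := ⟨_, rfl⟩
    rw [← hYdef] at hYY hYe
    have hYp : 0 < Y := by
      rw [hYdef]
      have : 0 < Real.sqrt x := Real.sqrt_pos.mpr hxp
      positivity
    have hYx : Γ.Cr ^ 2 * Y ^ 2 = x := by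
      rw [hYdef, div_pow, Real.sq_sqrt hxp.le]
      field_simp
    -- members of the Farey set have norm at most `x`
    have hnmx : ∀ v : O b c, (v ∈ Γ.Fv Y ∨ v = Γ.e1) → (v ∈ Γ.Sec ∨ v = Γ.e1) ∧ v ∈ Γ.M ∧
        (nm v : ℝ) ≤ x := by
      intro v hv
      have a1 : (v ∈ Γ.Sec ∨ v = Γ.e1) ∧ Γ.rho v ≤ Y := by
        rcases hv with h | h
        · have := (Γ.mem_Fv Y v).mp h
          exact ⟨Or.inl this.1, this.2.2⟩
        · exact ⟨Or.inr h, by rw [h]; exact hYe⟩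
      refine ⟨a1.1, ?_, ?_⟩
      · rcases a1.1 with h | h
        · exact Γ.sec_M v h
        · rw [h]; exact Γ.e1_M
      · have a2 := Γ.le_rho v a1.1
        have a3 : 0 ≤ (nm v : ℝ) := by
          have := Γ.g7_nm_one_le v a1.1
          exact_mod_cast le_trans zero_le_one this
        have a4 : Real.sqrt (nm v) ≤ Γ.Cr * Y :=
          a2.trans (mul_le_mul_of_nonneg_left a1.2 (by linarith))
        have a5 : Real.sqrt (nm v) ^ 2 ≤ (Γ.Cr * Y) ^ 2 :=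
          pow_le_pow_left₀ (Real.sqrt_nonneg _) a4 2
        rw [Real.sq_sqrt a3, mul_pow, hYx] at a5
        exact a5
    obtain ⟨r, hr⟩ : ∃ r : ℝ, r = 2 * D * x / (Y * Λ) := ⟨_, rfl⟩
    have hrp : 0 ≤ r := by rw [hr]; positivity
    obtain ⟨F, hF⟩ : ∃ F : Finset (O b c), F = (insert Γ.e1 (Γ.Fv Y)).filter (fun v => Γ.rho v ≤ r) :=
      ⟨_, rfl⟩
    have hFm : ∀ v : O b c, (v ∈ Γ.Fv Y ∨ v = Γ.e1) → Γ.rho v ≤ r → v ∈ F := by
      intro v hv hvr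
      rw [hF, mem_filter, mem_insert]
      exact ⟨hv.symm, hvr⟩
    have hFs : ∀ v ∈ F, (v ∈ Γ.Sec ∨ v = Γ.e1) ∧ Γ.rho v ≤ r := by
      intro v hv
      rw [hF, mem_filter, mem_insert] at hv
      exact ⟨(hnmx v hv.1.symm).1, hv.2⟩
    have hcover : E ⊆ ⋃ v ∈ F, Metric.closedBall (Γ.ang v) (2 * D / (Y * Γ.rho v)) := by
      intro θ hθ
      obtain ⟨t0, t1⟩ := hIco θ hθ
      obtain ⟨v, w, hadj, hv, hw⟩ := Γ.exists_adj Y hYY θ t0 t1
      have hvF : v ∈ Γ.Fv Y ∨ v = Γ.e1 := Or.inl hadj.1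
      have hwF : w ∈ Γ.Fv Y ∨ w = Γ.e1 := hadj.2.1
      obtain ⟨v1, v2, v3⟩ := hnmx v hvF
      obtain ⟨w1, w2, w3⟩ := hnmx w hwF
      have a1 := hmem θ hθ v v2 v3
      rw [abs_of_nonpos (by linarith)] at a1
      obtain ⟨a2, -⟩ := Γ.adj_near Y hYY v w hadj
      rw [← hD] at a2
      obtain ⟨-, -, a3, -⟩ := Γ.adj_mediant Y hYY v w hadj
      have a4 : Y < Γ.rho v + Γ.rho w := lt_of_lt_of_le a3 (Γ.rho_add v w)
      rcases g7_pair (Γ.g7_rho_pos v v1) (Γ.g7_rho_pos w w1) hYp hxp hΛp hDp a4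
        (by linarith : Λ / x < Γ.ang w - Γ.ang v) a2 hv hw with h | h
      · refine Set.mem_iUnion₂.mpr ⟨v, hFm v hvF (by rw [hr]; exact h.1), ?_⟩
        rw [Metric.mem_closedBall, Real.dist_eq, abs_sub_comm]
        exact h.2
      · refine Set.mem_iUnion₂.mpr ⟨w, hFm w hwF (by rw [hr]; exact h.1), ?_⟩
        rw [Metric.mem_closedBall, Real.dist_eq, abs_sub_comm]
        exact h.2
    have hvol : volume E ≤ ∑ v ∈ F, ENNReal.ofReal (2 * (2 * D / (Y * Γ.rho v))) := by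
      refine (measure_mono hcover).trans ((measure_biUnion_finset_le F _).trans ?_)
      refine sum_le_sum fun v _ => ?_
      rw [Real.volume_closedBall]
    rw [← ENNReal.ofReal_sum_of_nonneg (fun v hv => by
      have := Γ.g7_rho_pos v (hFs v hv).1
      positivity)] at hvol
    refine hvol.trans (ENNReal.ofReal_le_ofReal (le_trans ?_ hC1))
    have b1 : ∑ v ∈ F, 2 * (2 * D / (Y * Γ.rho v)) = 4 * D / Y * ∑ v ∈ F, 1 / Γ.rho v := by
      rw [mul_sum]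
      refine sum_congr rfl fun v hv => ?_
      have := Γ.g7_rho_pos v (hFs v hv).1
      field_simp
      ring
    rw [b1]
    have b2 := Γ.sum_inv_rho r hrp F hFs
    calc 4 * D / Y * ∑ v ∈ F, 1 / Γ.rho v ≤ 4 * D / Y * (8 * (Γ.Cs * Γ.Cr) ^ 2 * r) :=
          mul_le_mul_of_nonneg_left b2 (by positivity)
      _ = C₁ / Λ := by
          rw [hr, hC₁, ← hYx]
          field_simp
          ring

end Geo

end Pool.Agent.Lib.MP_648c71_nt.HP
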