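import Pool.Agent.Lib.MP_648c71_nt.Qap.Basic

/-! Row N2a (about 80 lines): residue classes of primes for which the quadratic polynomial has a root. -/

set_option autoImplicit false

namespace Pool.Agent.Lib.MP_648c71_nt.HP

open Finset MeasureTheory

private theorem N2a_val_coprime {M : ℕ} (w : (ZMod M)ˣ) : (w : ZMod M).val.Coprime M :=
  ZMod.val_coe_unit_coprime w

private theorem N2a_odd {D : ℤ} {x : ℕ} (hx : x.Coprime (4 * D.natAbs)) : Odd x := by
  have h2 : x.Coprime 2 := by
    refine Nat.Coprime.coprime_dvd_right ?_ hx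
    exact ⟨2 * D.natAbs, by ring⟩
  exact Nat.Coprime.odd_of_right h2

private theorem N2a_mod {D : ℤ} {x y : ℕ} (hx : Odd x) (hy : Odd y)
    (h : x ≡ y [MOD 4 * D.natAbs]) : jacobiSym D x = jacobiSym D y := by
  rw [jacobiSym.mod_right _ hx, jacobiSym.mod_right _ hy]
  have h' : x % (4 * D.natAbs) = y % (4 * D.natAbs) := h
  rw [h']

private theorem N2a_or {D : ℤ} {x : ℕ} (hx : x.Coprime (4 * D.natAbs)) :
    jacobiSym D x = 1 ∨ jacobiSym D x = -1 := by
  apply jacobiSym.eq_one_or_neg_one
  have h1 : Nat.Coprime x D.natAbs :=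
    Nat.Coprime.coprime_dvd_right (Dvd.intro_left 4 rfl) hx
  rw [Int.gcd_comm]
  simpa [Int.gcd] using h1

/-- ROW N2a.  Let `D = b² - 4c`, `M = 4|D|`, `W` the classes `w` with `jacobiSym D w.val = 1`.  `jacobiSym D` is
periodic modulo `4|D|` on odd numbers (`jacobiSym.mod_right`; `w.val` is odd because `4 ∣ M`) and multiplicative, so
`W` is the kernel of a homomorphism to `±1`, of index at most 2; compare `Qap.Par.card_K` in `Qap/A2.lean` and
`Qap.Par.xi_mod` in `Qap/Basic.lean`.  For a prime `p` with class in `W`: `p ∤ 2D` and `(D|p) = 1`, so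
`s² ≡ D`, and `r ≡ (s - b)/2` is a root. -/
theorem root_classes (b c : ℤ) (hD : b ^ 2 - 4 * c ≠ 0) : ∃ M : ℕ, ∃ _ : NeZero M,
    ∃ W : Finset (ZMod M)ˣ, M.totient ≤ 4 * W.card ∧ ∀ p : ℕ, p.Prime →
      (∃ w ∈ W, (w : ZMod M) = ((p : ℕ) : ZMod M)) → ∃ r : ℤ, (p : ℤ) ∣ r ^ 2 + b * r + c := by
  classical
  set D : ℤ := b ^ 2 - 4 * c with hDdef
  have hDn : 0 < D.natAbs := Int.natAbs_pos.mpr hD
  have hM0 : 4 * D.natAbs ≠ 0 := by omega
  haveI hNZ : NeZero (4 * D.natAbs) := ⟨hM0⟩
  refine ⟨4 * D.natAbs, hNZ, (Finset.univ : Finset (ZMod (4 * D.natAbs))ˣ).filter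
    (fun w => jacobiSym D (w : ZMod (4 * D.natAbs)).val = 1), ?_, ?_⟩
  · set W : Finset (ZMod (4 * D.natAbs))ˣ :=
      (Finset.univ : Finset (ZMod (4 * D.natAbs))ˣ).filter
        (fun w => jacobiSym D (w : ZMod (4 * D.natAbs)).val = 1) with hW
    have hcard : (Finset.univ : Finset (ZMod (4 * D.natAbs))ˣ).card =
        (4 * D.natAbs).totient := by
      rw [Finset.card_univ, ZMod.card_units_eq_totient]
    have hsplit := Finset.card_filter_add_card_filter_not
      (s := (Finset.univ : Finset (ZMod (4 * D.natAbs))ˣ))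
      (fun w => jacobiSym D (w : ZMod (4 * D.natAbs)).val = 1)
    set K' : Finset (ZMod (4 * D.natAbs))ˣ :=
      (Finset.univ : Finset (ZMod (4 * D.natAbs))ˣ).filter
        (fun w => ¬ jacobiSym D (w : ZMod (4 * D.natAbs)).val = 1) with hK'
    have hmul : ∀ u v : (ZMod (4 * D.natAbs))ˣ,
        jacobiSym D ((u * v : (ZMod (4 * D.natAbs))ˣ) : ZMod (4 * D.natAbs)).val =
          jacobiSym D (u : ZMod (4 * D.natAbs)).val *
            jacobiSym D (v : ZMod (4 * D.natAbs)).val := by
      intro u v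
      have hu := N2a_val_coprime u
      have hv := N2a_val_coprime v
      have huv := N2a_val_coprime (u * v)
      have hpc : ((u : ZMod (4 * D.natAbs)).val * (v : ZMod (4 * D.natAbs)).val).Coprime
          (4 * D.natAbs) := Nat.Coprime.mul_left hu hv
      have hu0 : (u : ZMod (4 * D.natAbs)).val ≠ 0 := by
        have := N2a_odd hu
        rintro h0
        rw [h0] at this
        exact absurd this (by decide)
      have hv0 : (v : ZMod (4 * D.natAbs)).val ≠ 0 := by
        have := N2a_odd hv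
        rintro h0
        rw [h0] at this
        exact absurd this (by decide)
      haveI : NeZero (u : ZMod (4 * D.natAbs)).val := ⟨hu0⟩
      haveI : NeZero (v : ZMod (4 * D.natAbs)).val := ⟨hv0⟩
      rw [← jacobiSym.mul_right]
      apply N2a_mod (N2a_odd huv) (N2a_odd hpc)
      rw [Units.val_mul, ZMod.val_mul]
      exact Nat.mod_modEq _ _
    have hle : K'.card ≤ W.card := by
      by_cases hne : K'.Nonempty
      · obtain ⟨c0, hc0⟩ := hne
        have hneg : ∀ w ∈ K', jacobiSym D (w : ZMod (4 * D.natAbs)).val = -1 := by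
          intro w hw
          rw [hK', Finset.mem_filter] at hw
          exact (N2a_or (N2a_val_coprime w)).resolve_left hw.2
        refine Finset.card_le_card_of_injOn (fun w => c0 * w) ?_ ?_
        · intro w hw
          show c0 * w ∈ W
          rw [hW, Finset.mem_filter]
          refine ⟨Finset.mem_univ _, ?_⟩
          rw [hmul, hneg c0 hc0, hneg w hw]
          norm_num
        · intro x _ y _ h
          exact mul_left_cancel h
      · rw [Finset.not_nonempty_iff_eq_empty] at hne
        rw [hne]; simp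
    have h1 : W.card + K'.card = (4 * D.natAbs).totient := by
      rw [← hcard]; exact hsplit
    omega
  · rintro p hp ⟨w, hw, hwp⟩
    rw [Finset.mem_filter] at hw
    have hcop : p.Coprime (4 * D.natAbs) := by
      rw [← ZMod.isUnit_iff_coprime]
      rw [← hwp]
      exact w.isUnit
    have hodd : Odd p := N2a_odd hcop
    have hval : (w : ZMod (4 * D.natAbs)).val = p % (4 * D.natAbs) := by
      rw [hwp, ZMod.val_natCast]
    have hJ : jacobiSym D p = 1 := by
      rw [jacobiSym.mod_right _ hodd, ← hval]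
      exact hw.2
    haveI : Fact p.Prime := ⟨hp⟩
    obtain ⟨s, hs⟩ := ZMod.isSquare_of_jacobiSym_eq_one hJ
    have h2 : (2 : ZMod p) ≠ 0 := by
      intro h
      have h' : ((2 : ℕ) : ZMod p) = 0 := by exact_mod_cast h
      rw [ZMod.natCast_eq_zero_iff] at h'
      have hp2 : p = 2 := (Nat.prime_dvd_prime_iff_eq hp Nat.prime_two).mp h'
      rw [hp2] at hodd
      exact absurd hodd (by decide)
    refine ⟨(((s - (b : ZMod p)) * 2⁻¹ : ZMod p).val : ℤ), ?_⟩
    rw [← ZMod.intCast_zmod_eq_zero_iff_dvd]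
    push_cast
    rw [ZMod.natCast_val, ZMod.cast_id', id]
    have hs' : (b : ZMod p) ^ 2 - 4 * (c : ZMod p) = s * s := by
      rw [← hs, hDdef]
      push_cast
      ring
    have h4 : (4 : ZMod p) ≠ 0 := by
      have : (4 : ZMod p) = 2 * 2 := by norm_num
      rw [this]
      exact mul_ne_zero h2 h2
    have hkey : (4 : ZMod p) * (((s - (b : ZMod p)) * 2⁻¹) ^ 2 +
        (b : ZMod p) * ((s - (b : ZMod p)) * 2⁻¹) + (c : ZMod p)) = 0 := by
      have e1 : (4 : ZMod p) * (((s - (b : ZMod p)) * 2⁻¹) ^ 2 +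
        (b : ZMod p) * ((s - (b : ZMod p)) * 2⁻¹) + (c : ZMod p)) =
          ((s - b) * (2 * 2⁻¹)) ^ 2 + 2 * b * ((s - b) * (2 * 2⁻¹)) + 4 * c := by ring
      rw [e1, mul_inv_cancel₀ h2]
      linear_combination (-1 : ZMod p) * hs'
    exact (mul_eq_zero.mp hkey).resolve_left h4

end Pool.Agent.Lib.MP_648c71_nt.HP
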