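import Pool.Agent.Lib.MP_648c71_nt.Qap.B2
import Pool.Agent.Lib.MP_648c71_nt.HP.N2a

/-! Row N2b (about 110 lines): many primes for which the quadratic polynomial has a root. -/

set_option autoImplicit false

namespace Pool.Agent.Lib.MP_648c71_nt.HP

open Finset MeasureTheory

/-- A point of `(2^m, 2^n]` lies in a dyadic interval `(2^k, 2^(k+1)]`, `m ≤ k < n`. -/
private theorem n2b_dyadic (m n p : ℕ) (h1 : 2 ^ m < p) (h2 : p ≤ 2 ^ n) :
    ∃ k ∈ Ico m n, 2 ^ k < p ∧ p ≤ 2 ^ (k + 1) := by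
  have hp0 : p - 1 ≠ 0 := by
    have : 1 ≤ 2 ^ m := Nat.one_le_two_pow
    omega
  refine ⟨Nat.log 2 (p - 1), ?_, ?_, ?_⟩
  · rw [mem_Ico]
    constructor
    · apply Nat.le_log_of_pow_le (by norm_num)
      omega
    · apply Nat.log_lt_of_lt_pow hp0
      have : 1 ≤ 2 ^ n := Nat.one_le_two_pow
      omega
  · have := Nat.pow_log_le_self 2 hp0
    omega
  · have := Nat.lt_pow_succ_log_self (b := 2) (by norm_num) (p - 1)
    rw [Nat.succ_eq_add_one] at this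
    omega

/-- Pigeonhole over dyadic intervals: if the sum of `1/p` over a set of integers in `(2^m, 2^(m B)]` is at least `c`
then some dyadic interval contains many of them. -/
private theorem n2b_pigeon (B m : ℕ) (hB : 2 ≤ B) (hm : 1 ≤ m) (c : ℝ) (hc : 0 < c) (S : Finset ℕ)
    (hS : ∀ p ∈ S, 2 ^ m < p ∧ p ≤ 2 ^ (m * B)) (hsum : c ≤ ∑ p ∈ S, (1 : ℝ) / p) :
    ∃ k ∈ Ico m (m * B), (c / (4 * B)) * (2 ^ (k + 1) / ((k : ℝ) + 1)) ≤
      (S.filter (fun p => 2 ^ k < p ∧ p ≤ 2 ^ (k + 1))).card := by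
  by_contra hcon
  push Not at hcon
  have hB0 : (0 : ℝ) < B := by
    have : 0 < B := by omega
    exact_mod_cast this
  have hm0 : (0 : ℝ) < m := by exact_mod_cast hm
  have h1 : ∑ p ∈ S, (1 : ℝ) / p ≤ ∑ p ∈ S, ∑ k ∈ Ico m (m * B),
      (if 2 ^ k < p ∧ p ≤ 2 ^ (k + 1) then (1 : ℝ) / 2 ^ k else 0) := by
    refine sum_le_sum fun p hp => ?_
    obtain ⟨k, hk, hk1, hk2⟩ := n2b_dyadic m (m * B) p (hS p hp).1 (hS p hp).2
    have h2 : (1 : ℝ) / p ≤ (if 2 ^ k < p ∧ p ≤ 2 ^ (k + 1) then (1 : ℝ) / 2 ^ k else 0) := by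
      rw [if_pos ⟨hk1, hk2⟩]
      apply one_div_le_one_div_of_le (by positivity)
      exact_mod_cast hk1.le
    refine h2.trans (single_le_sum (f := fun k => if 2 ^ k < p ∧ p ≤ 2 ^ (k + 1) then (1 : ℝ) / 2 ^ k else 0)
      (fun j _ => ?_) hk)
    split_ifs
    · positivity
    · exact le_rfl
  rw [sum_comm] at h1
  have h3 : ∀ k ∈ Ico m (m * B), ∑ p ∈ S, (if 2 ^ k < p ∧ p ≤ 2 ^ (k + 1) then (1 : ℝ) / 2 ^ k else 0) ≤
      c / (2 * B) * (1 / m) := by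
    intro k hk
    rw [← sum_filter, sum_const, nsmul_eq_mul]
    have hk' := hcon k hk
    have hkm : m ≤ k := (mem_Ico.1 hk).1
    have hkm' : (m : ℝ) ≤ (k : ℝ) + 1 := by
      have : (m : ℝ) ≤ k := by exact_mod_cast hkm
      linarith
    have h2k : (0 : ℝ) < 2 ^ k := by positivity
    have hk0 : (0 : ℝ) < (k : ℝ) + 1 := by positivity
    calc ((S.filter (fun p => 2 ^ k < p ∧ p ≤ 2 ^ (k + 1))).card : ℝ) * (1 / 2 ^ k)
        ≤ (c / (4 * B)) * (2 ^ (k + 1) / ((k : ℝ) + 1)) * (1 / 2 ^ k) := by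
          apply mul_le_mul_of_nonneg_right hk'.le (by positivity)
      _ = c / (2 * B) * (1 / ((k : ℝ) + 1)) := by
          rw [pow_succ]
          field_simp
          ring
      _ ≤ c / (2 * B) * (1 / m) := by
          apply mul_le_mul_of_nonneg_left _ (by positivity)
          exact one_div_le_one_div_of_le hm0 hkm'
  have h4 := h1.trans (sum_le_sum h3)
  rw [sum_const, nsmul_eq_mul, Nat.card_Ico] at h4
  have h5 : ((m * B - m : ℕ) : ℝ) ≤ m * B := by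
    have : ((m * B - m : ℕ) : ℝ) ≤ ((m * B : ℕ) : ℝ) := by
      exact_mod_cast Nat.sub_le _ _
    simpa using this
  have h6 : ((m * B - m : ℕ) : ℝ) * (c / (2 * B) * (1 / m)) ≤ (m * B) * (c / (2 * B) * (1 / m)) :=
    mul_le_mul_of_nonneg_right h5 (by positivity)
  have h7 : ((m : ℝ) * B) * (c / (2 * B) * (1 / m)) = c / 2 := by
    field_simp
  linarith

/-- ROW N2b.  `Qap.block_lower`: `∑ 1/p ≥ c₁` over the primes of `(2^(B^i), 2^(B^(i+1))]` in the classes of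
`root_classes`, `i ≥ i₀`.  For given large `y` let `i` be minimal with `2^(B^i) ≥ y` (then `2^(B^(i+1)) ≤ y^(B²)`, as
`2^(B^(i-1)) < y`).  If every dyadic interval `(2^k, 2^(k+1)]`, `B^i ≤ k < B^(i+1)`, contained fewer than
`δ 2^k/k` of these primes the sum would be `< δ ∑_{B^i ≤ k < B^{i+1}} 1/k ≤ δ B`; contradiction for `δ = c₁/B`.
Take such a `k`, `P = 2^(k+1)`. -/
theorem many_primes (b c : ℤ) (hD : b ^ 2 - 4 * c ≠ 0) : ∃ δ : ℝ, ∃ e : ℕ, 0 < δ ∧ 1 ≤ e ∧ ∃ y₀ : ℝ,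
    ∀ y : ℝ, y₀ ≤ y → ∃ P : ℝ, y ≤ P ∧ P ≤ y ^ e ∧ ∃ Pr : Finset ℕ,
      (∀ p ∈ Pr, p.Prime ∧ y ≤ p ∧ (p : ℝ) ≤ P ∧ ∃ r : ℤ, (p : ℤ) ∣ r ^ 2 + b * r + c) ∧
      δ * (P / Real.log P) ≤ Pr.card := by
  obtain ⟨B, c₁, hB, hc₁, hblk⟩ := Qap.block_lower
  obtain ⟨M, hM, W, hW, hroot⟩ := root_classes b c hD
  obtain ⟨i₀, hi₀⟩ := hblk M
  have hlog2 : 0 < Real.log 2 := Real.log_pos (by norm_num)
  have hB0 : (0 : ℝ) < B := by
    have : 0 < B := by omega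
    exact_mod_cast this
  refine ⟨c₁ / (4 * B) * Real.log 2, B ^ 2, by positivity, Nat.one_le_pow _ _ (by omega),
    2 ^ (B ^ i₀) + 1, fun y hy => ?_⟩
  have hy1 : (2 : ℝ) ^ (B ^ i₀) < y := by linarith
  have hex : ∃ i : ℕ, y ≤ (2 : ℝ) ^ (B ^ i) := by
    obtain ⟨n, hn⟩ := pow_unbounded_of_one_lt y (show (1 : ℝ) < 2 by norm_num)
    refine ⟨n, hn.le.trans ?_⟩
    exact pow_le_pow_right₀ (by norm_num) (Nat.lt_pow_self (by omega)).le
  classical
  set i := Nat.find hex with hi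
  have hispec : y ≤ (2 : ℝ) ^ (B ^ i) := Nat.find_spec hex
  have hii₀ : i₀ < i := by
    by_contra hlt
    push Not at hlt
    have : (2 : ℝ) ^ (B ^ i) ≤ 2 ^ (B ^ i₀) :=
      pow_le_pow_right₀ (by norm_num) (Nat.pow_le_pow_right (by omega) hlt)
    linarith
  have himin : (2 : ℝ) ^ (B ^ (i - 1)) < y := by
    have := Nat.find_min hex (m := i - 1) (by omega)
    push Not at this
    exact this
  have hsum := hi₀ i hii₀.le W hW
  obtain ⟨k, hk, hcard⟩ := n2b_pigeon B (B ^ i) hB (Nat.one_le_pow _ _ (by omega)) c₁ hc₁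
    ((Qap.blk B i).filter (fun p => ∃ w ∈ W, (w : ZMod M) = ((p : ℕ) : ZMod M))) (by
      intro p hp
      rw [mem_filter, Qap.blk, mem_filter, mem_Ioc, pow_succ] at hp
      exact hp.1.1) hsum
  rw [mem_Ico, ← pow_succ] at hk
  have hP : y ≤ (2 : ℝ) ^ (k + 1) := by
    refine hispec.trans ?_
    exact pow_le_pow_right₀ (by norm_num) (by omega)
  refine ⟨(2 : ℝ) ^ (k + 1), hP, ?_,
    ((Qap.blk B i).filter (fun p => ∃ w ∈ W, (w : ZMod M) = ((p : ℕ) : ZMod M))).filter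
      (fun p => 2 ^ k < p ∧ p ≤ 2 ^ (k + 1)), ?_, ?_⟩
  · calc (2 : ℝ) ^ (k + 1) ≤ 2 ^ (B ^ (i + 1)) := pow_le_pow_right₀ (by norm_num) (by omega)
      _ = (2 ^ (B ^ (i - 1))) ^ (B ^ 2) := by
          rw [← pow_mul, ← pow_add]
          congr 2
          omega
      _ ≤ y ^ (B ^ 2) := pow_le_pow_left₀ (by positivity) himin.le _
  · intro p hp
    rw [mem_filter, mem_filter, Qap.blk, mem_filter] at hp
    refine ⟨hp.1.1.2, ?_, ?_, hroot p hp.1.1.2 hp.1.2⟩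
    · refine hispec.trans ?_
      calc (2 : ℝ) ^ (B ^ i) ≤ 2 ^ k := pow_le_pow_right₀ (by norm_num) hk.1
        _ ≤ p := by exact_mod_cast hp.2.1.le
    · exact_mod_cast hp.2.2
  · refine le_trans (le_of_eq ?_) hcard
    rw [Real.log_pow]
    push_cast
    have hk0 : (0 : ℝ) < (k : ℝ) + 1 := by positivity
    field_simp

end Pool.Agent.Lib.MP_648c71_nt.HP
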