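import Pool.Agent.Lib.MP_648c71_nt.Lattice

/-! Row N3 (about 70 lines): Thue lemma for the norm form. -/

set_option autoImplicit false

namespace Pool.Agent.Lib.MP_648c71_nt.HP

open Finset MeasureTheory

/-- ROW N3.  The norm form has no nontrivial zero. -/
theorem nm_ne_zero (b c : ℤ) (hD : ¬ IsSquare (b ^ 2 - 4 * c)) (z : O b c) (hz : z ≠ 0) : nm z ≠ 0 := by
  intro h
  have h1 : (2 * z.re + b * z.im) ^ 2 = (b ^ 2 - 4 * c) * z.im ^ 2 := by
    rw [nm] at h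
    linear_combination 4 * h
  by_cases hy : z.im = 0
  · apply hz
    have h2 : z.re = 0 := by
      rw [hy] at h1
      have h3 : (2 * z.re) ^ 2 = 0 := by linarith [h1]
      have h4 := pow_eq_zero_iff (two_ne_zero) |>.1 h3
      omega
    ext
    · simpa using h2
    · simpa using hy
  · have h2 : z.im ^ 2 ∣ (2 * z.re + b * z.im) ^ 2 := ⟨b ^ 2 - 4 * c, by rw [h1]; ring⟩
    obtain ⟨k, hk⟩ := (Int.pow_dvd_pow_iff two_ne_zero).1 h2
    apply hD
    refine ⟨k, ?_⟩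
    have h3 : z.im ^ 2 * (b ^ 2 - 4 * c) = z.im ^ 2 * (k * k) := by
      rw [hk] at h1
      linear_combination -h1
    exact mul_left_cancel₀ (pow_ne_zero 2 hy) h3

/-- ROW N3.  Pigeonhole: the `(⌊√p⌋+1)² > p` pairs `(i,j)`, `0 ≤ i,j ≤ ⌊√p⌋`, two of them have the same `i - rj... `
mod `p`: difference `(x,y) ≠ 0`, `|x|,|y| ≤ √p`, `p ∣ x - r y`, so `x² + bxy + cy² ≡ y²(r² + br + c) ≡ 0` mod `p`;
it is nonzero since the discriminant is not a square, and `|nm| ≤ (1+|b|+|c|) p`. -/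
theorem thue (b c : ℤ) (hD : ¬ IsSquare (b ^ 2 - 4 * c)) (p : ℕ) (hp : p.Prime) (r : ℤ)
    (hr : (p : ℤ) ∣ r ^ 2 + b * r + c) : ∃ z : O b c, ∃ t : ℕ, 1 ≤ t ∧
      (t : ℤ) ≤ 1 + |b| + |c| ∧ |nm z| = p * t := by
  have : NeZero p := ⟨hp.ne_zero⟩
  have hcard : Fintype.card (ZMod p) < Fintype.card (Fin (p.sqrt + 1) × Fin (p.sqrt + 1)) := by
    rw [ZMod.card, Fintype.card_prod, Fintype.card_fin]
    exact Nat.lt_succ_sqrt p
  obtain ⟨u, v, huv, h⟩ := Fintype.exists_ne_map_eq_of_card_lt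
    (fun q : Fin (p.sqrt + 1) × Fin (p.sqrt + 1) =>
      (((q.1 : ℕ) : ZMod p) - (r : ZMod p) * ((q.2 : ℕ) : ZMod p))) hcard
  replace h : ((u.1 : ℕ) : ZMod p) - (r : ZMod p) * ((u.2 : ℕ) : ZMod p) =
    ((v.1 : ℕ) : ZMod p) - (r : ZMod p) * ((v.2 : ℕ) : ZMod p) := h
  set x : ℤ := (u.1 : ℕ) - (v.1 : ℕ) with hx
  set y : ℤ := (u.2 : ℕ) - (v.2 : ℕ) with hy
  have hdvd : (p : ℤ) ∣ x - r * y := by
    rw [← ZMod.intCast_zmod_eq_zero_iff_dvd]
    push_cast [hx, hy]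
    linear_combination h
  have hs2 : ((p.sqrt : ℤ)) ^ 2 ≤ p := by
    have := Nat.sqrt_le' p
    exact_mod_cast this
  have hxs : |x| ≤ p.sqrt := by
    rw [abs_le]
    have h1 := u.1.2
    have h2 := v.1.2
    constructor <;> omega
  have hys : |y| ≤ p.sqrt := by
    rw [abs_le]
    have h1 := u.2.2
    have h2 := v.2.2
    constructor <;> omega
  have hs0 : (0 : ℤ) ≤ p.sqrt := by positivity
  have hne : (⟨x, y⟩ : O b c) ≠ 0 := by
    intro h0
    have h1 := congrArg QuadraticAlgebra.re h0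
    have h2 := congrArg QuadraticAlgebra.im h0
    simp only [QuadraticAlgebra.re_zero, QuadraticAlgebra.im_zero] at h1 h2
    apply huv
    apply Prod.ext
    · apply Fin.ext; omega
    · apply Fin.ext; omega
  have hnm := nm_ne_zero b c hD _ hne
  have hdn : (p : ℤ) ∣ nm (⟨x, y⟩ : O b c) := by
    obtain ⟨k, hk⟩ := hdvd
    obtain ⟨m, hm⟩ := hr
    refine ⟨k * (x + r * y) + b * y * k + y ^ 2 * m, ?_⟩
    rw [nm]
    simp only
    linear_combination (x + r * y + b * y) * hk + y ^ 2 * hm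
  have hbound : |nm (⟨x, y⟩ : O b c)| ≤ (1 + |b| + |c|) * p := by
    have hxx : |x| ^ 2 ≤ p := (pow_le_pow_left₀ (abs_nonneg _) hxs 2).trans hs2
    have hyy : |y| ^ 2 ≤ p := (pow_le_pow_left₀ (abs_nonneg _) hys 2).trans hs2
    have hxy : |x| * |y| ≤ p := by
      calc |x| * |y| ≤ (p.sqrt : ℤ) * p.sqrt := mul_le_mul hxs hys (abs_nonneg _) hs0
        _ = (p.sqrt : ℤ) ^ 2 := by ring
        _ ≤ p := hs2
    calc |nm (⟨x, y⟩ : O b c)| = |x ^ 2 + b * x * y + c * y ^ 2| := rfl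
      _ ≤ |x ^ 2| + |b * x * y| + |c * y ^ 2| := abs_add_three _ _ _
      _ = |x| ^ 2 + |b| * (|x| * |y|) + |c| * |y| ^ 2 := by
          rw [abs_pow, abs_mul, abs_mul, abs_mul, abs_pow]; ring
      _ ≤ p + |b| * p + |c| * p := by
          gcongr
      _ = (1 + |b| + |c|) * p := by ring
  obtain ⟨k, hk⟩ := hdn
  have hp0 : (0 : ℤ) < p := by exact_mod_cast hp.pos
  refine ⟨⟨x, y⟩, k.natAbs, ?_, ?_, ?_⟩
  · rw [Nat.one_le_iff_ne_zero, Ne, Int.natAbs_eq_zero]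
    intro h0
    apply hnm
    rw [hk, h0, mul_zero]
  · rw [Int.natCast_natAbs]
    rw [hk, abs_mul, abs_of_pos hp0, mul_comm] at hbound
    exact le_of_mul_le_mul_right hbound hp0
  · rw [hk, abs_mul, abs_of_pos hp0, Int.natCast_natAbs]

end Pool.Agent.Lib.MP_648c71_nt.HP
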