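import Pool.Agent.Lib.MP_648c71_nt.HP.G4
import Pool.Agent.Lib.MP_648c71_nt.HP.N2b
import Pool.Agent.Lib.MP_648c71_nt.HP.N3
import Pool.Agent.Lib.MP_648c71_nt.HP.G6
import Pool.Agent.Lib.MP_648c71_nt.HP.G7
import Pool.Agent.Lib.MP_648c71_nt.HP.G10

/-! Row G11 (about 70 lines): the system is good. -/

set_option autoImplicit false

namespace Pool.Agent.Lib.MP_648c71_nt.HP

open Finset MeasureTheory

variable {b c : ℤ} (Γ : Geo b c)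

namespace Geo

/-- ROW G11.  `many_primes` with `y₀` also larger than the bound `C = (1+|b|+|c|) Cη` (so `C < y ≤ p`); for such `p`:
`thue` gives `|nm z| = p t`, and `fix` an element of `M` of norm `k p t`, `1 ≤ k t ≤ C`. -/
theorem primes (g : ℕ → ℝ) (hg : CM g) : ∃ δ : ℝ, ∃ C e : ℕ, 0 < δ ∧ 1 ≤ C ∧ 1 ≤ e ∧ ∃ y₀ : ℝ,
    ∀ y : ℝ, y₀ ≤ y → ∃ P : ℝ, y ≤ P ∧ P ≤ y ^ e ∧ ∃ Pr : Finset ℕ,
      PrimeSet (Γ.sys g hg) δ C P Pr := by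
  have hD : b ^ 2 - 4 * c ≠ 0 := fun h => Γ.hD (by rw [h]; exact ⟨0, by norm_num⟩)
  obtain ⟨δ, e, hδ, he, y₀, hy⟩ := many_primes b c hD
  set A : ℕ := (1 + |b| + |c|).natAbs with hA
  have hA0 : (0 : ℤ) ≤ 1 + |b| + |c| := by positivity
  have hA1 : (A : ℤ) = 1 + |b| + |c| := by rw [hA]; exact Int.natAbs_of_nonneg hA0
  have hApos : 1 ≤ A := by
    have : (1 : ℤ) ≤ A := by rw [hA1]; linarith [abs_nonneg b, abs_nonneg c]
    exact_mod_cast this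
  refine ⟨δ, A * Γ.Cη, e, hδ, Nat.succ_le_of_lt (Nat.mul_pos hApos Γ.Cη_one), he,
    max y₀ (((A * Γ.Cη : ℕ) : ℝ) + 1), fun y hyy => ?_⟩
  obtain ⟨P, hP1, hP2, Pr, hPr, hcard⟩ := hy y ((le_max_left _ _).trans hyy)
  refine ⟨P, hP1, hP2, Pr, ?_, hcard⟩
  intro p hp
  obtain ⟨hpp, hyp, hpP, r, hr⟩ := hPr p hp
  refine ⟨hpp, ?_, hpP, ?_⟩
  · have h1 := (le_max_right y₀ (((A * Γ.Cη : ℕ) : ℝ) + 1)).trans hyy
    have h2 : ((A * Γ.Cη : ℕ) : ℝ) < (p : ℝ) := by linarith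
    exact_mod_cast h2
  · obtain ⟨z, t, ht1, ht2, hz⟩ := thue b c Γ.hD p hpp r hr
    have hz0 : nm z ≠ 0 := by
      intro h
      rw [h, abs_zero] at hz
      have h1 : (0 : ℤ) < (p : ℤ) * t := by
        have := hpp.pos
        positivity
      omega
    obtain ⟨z', hz', k, hk1, hk2, hk⟩ := Γ.fix z hz0
    refine ⟨⟨z', hz'⟩, k * t, ?_, Nat.succ_le_of_lt (Nat.mul_pos hk1 ht1), ?_⟩
    · show (nm z').natAbs = p * (k * t)
      rw [hk, hz]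
      have : (k : ℤ) * ((p : ℤ) * t) = ((p * (k * t) : ℕ) : ℤ) := by push_cast; ring
      rw [this, Int.natAbs_natCast]
    · rw [← hA1] at ht2
      have ht3 : t ≤ A := by exact_mod_cast ht2
      rw [mul_comm A]
      exact Nat.mul_le_mul hk2 ht3

/-- ROW G11. -/
theorem good (g : ℕ → ℝ) (hg : CM g) (hneg : ∃ z ∈ Γ.M, gg g z = -1) : Good (Γ.sys g hg) := by
  obtain ⟨z, hz, h⟩ := hneg
  exact ⟨Γ.gap g hg, Γ.dense g hg, Γ.box g hg, Γ.primes g hg, ⟨⟨z, hz⟩, h⟩⟩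

end Geo

end Pool.Agent.Lib.MP_648c71_nt.HP
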