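import Mathlib

/-! Row N1 (about 80 lines): roots of a quadratic polynomial modulo n. -/

set_option autoImplicit false

namespace Pool.Agent.Lib.MP_648c71_nt.HP

open Finset MeasureTheory

/-- a subset of `range n` all of whose elements are congruent modulo a divisor `m` of `n` -/
private theorem root_aux (n m : ℕ) (hmn : m ∣ n) (S : Finset ℕ) (hS : ∀ r ∈ S, r < n)
    (hc : ∀ r ∈ S, ∀ s ∈ S, r % m = s % m) : S.card ≤ n / m := by
  rw [← card_range (n / m)]
  apply card_le_card_of_injOn (fun r => r / m)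
  · intro r hr
    have h := hS r hr
    simp only [coe_range, Set.mem_Iio]
    exact Nat.div_lt_div_of_lt_of_dvd hmn h
  · intro r hr s hs h
    have h1 : r / m = s / m := h
    have h2 := hc r hr s hs
    rw [← Nat.div_add_mod r m, ← Nat.div_add_mod s m, h1, h2]

/-- ROW N1.  If there is a root `r₀`, then for another root `r`: `(r - r₀)(r + r₀ + b) ≡ 0` mod `n`.  Put
`d₁ = gcd(n, r - r₀)`, `d₂ = n/d₁`, so `d₂ ∣ r + r₀ + b`.  For given `d₁ d₂ = n` the conditions
`r ≡ r₀ (d₁)`, `r ≡ -r₀ - b (d₂)` determine `r` modulo `lcm(d₁,d₂) = n/g`, `g = gcd(d₁,d₂)`, so at most `g` values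
in `range n`; if there is one, `g ∣ 2r₀ + b` and `g² ∣ n ∣ r₀² + br₀ + c`, so `g²` divides
`(2r₀+b)² - 4(r₀²+br₀+c) = b² - 4c ≠ 0`, `g ≤ |b²-4c|`.  Compare `Lib/MP_648c71_nt/Qap/E3.lean`. -/
theorem root_count (b c : ℤ) (hD : b ^ 2 - 4 * c ≠ 0) (n : ℕ) (hn : 0 < n) :
    ((range n).filter (fun r : ℕ => (n : ℤ) ∣ (r : ℤ) ^ 2 + b * r + c)).card ≤
      (b ^ 2 - 4 * c).natAbs * n.divisors.card := by
  classical
  set S := (range n).filter (fun r : ℕ => (n : ℤ) ∣ (r : ℤ) ^ 2 + b * r + c) with hSdef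
  rcases S.eq_empty_or_nonempty with hemp | ⟨r₀, hr₀⟩
  · rw [hemp]; simp
  have hr₀' : (n : ℤ) ∣ (r₀ : ℤ) ^ 2 + b * r₀ + c := by
    rw [hSdef, mem_filter] at hr₀; exact hr₀.2
  -- the map to the divisors
  have hmap : ∀ r ∈ S, Int.gcd n ((r : ℤ) - r₀) ∈ n.divisors := by
    intro r _
    rw [Nat.mem_divisors]
    refine ⟨?_, hn.ne'⟩
    have := Int.gcd_dvd_left (n : ℤ) ((r : ℤ) - r₀)
    exact_mod_cast this
  have hfib := card_eq_sum_card_fiberwise (s := S) (t := n.divisors)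
    (f := fun r : ℕ => Int.gcd n ((r : ℤ) - r₀)) hmap
  rw [hfib]
  have hbound : ∀ d ∈ n.divisors,
      (S.filter (fun r : ℕ => Int.gcd n ((r : ℤ) - r₀) = d)).card ≤ (b ^ 2 - 4 * c).natAbs := by
    intro d hd
    rw [Nat.mem_divisors] at hd
    obtain ⟨⟨e, he⟩, _⟩ := hd
    have hdpos : 0 < d := Nat.pos_of_ne_zero (by rintro rfl; simp at he; omega)
    have hepos : 0 < e := Nat.pos_of_ne_zero (by rintro rfl; simp at he; omega)
    rcases (S.filter (fun r : ℕ => Int.gcd n ((r : ℤ) - r₀) = d)).eq_empty_or_nonempty with h0 | ⟨r₁, hr₁⟩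
    · rw [h0]; simp
    -- facts for the elements of the fibre
    have key : ∀ r ∈ S.filter (fun r : ℕ => Int.gcd n ((r : ℤ) - r₀) = d),
        (d : ℤ) ∣ (r : ℤ) - r₀ ∧ (e : ℤ) ∣ (r : ℤ) + r₀ + b := by
      intro r hr
      rw [mem_filter] at hr
      obtain ⟨hrS, hrd⟩ := hr
      have hrn : (n : ℤ) ∣ (r : ℤ) ^ 2 + b * r + c := by
        rw [hSdef, mem_filter] at hrS; exact hrS.2
      have h1 : (d : ℤ) ∣ (r : ℤ) - r₀ := by
        rw [← hrd]; exact Int.gcd_dvd_right _ _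
      refine ⟨h1, ?_⟩
      obtain ⟨u, hu⟩ := h1
      have hprod : (n : ℤ) ∣ ((r : ℤ) - r₀) * ((r : ℤ) + r₀ + b) := by
        have h := dvd_sub hrn hr₀'
        have e1 : (r : ℤ) ^ 2 + b * r + c - ((r₀ : ℤ) ^ 2 + b * r₀ + c) =
          ((r : ℤ) - r₀) * ((r : ℤ) + r₀ + b) := by ring
        rwa [e1] at h
      have hcop : IsCoprime (e : ℤ) u := by
        rw [Int.isCoprime_iff_gcd_eq_one]
        have hg : Int.gcd ((d : ℤ) * e) ((d : ℤ) * u) = d := by
          have : ((d : ℤ) * e) = (n : ℤ) := by rw [he]; push_cast; ring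
          rw [this, ← hu]; exact hrd
        rw [Int.gcd_mul_left] at hg
        simp only [Int.natAbs_natCast] at hg
        exact Nat.eq_of_mul_eq_mul_left hdpos (by rw [hg, mul_one])
      rw [hu, he] at hprod
      push_cast at hprod
      have h2 : (e : ℤ) ∣ u * ((r : ℤ) + r₀ + b) := by
        have hd0 : (d : ℤ) ≠ 0 := by exact_mod_cast hdpos.ne'
        rw [mul_assoc] at hprod
        exact (mul_dvd_mul_iff_left hd0).mp hprod
      exact hcop.dvd_of_dvd_mul_left h2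
    -- the bound for the gcd
    set g := Nat.gcd d e with hg
    have hgd : (g : ℤ) ∣ d := by exact_mod_cast Nat.gcd_dvd_left d e
    have hge : (g : ℤ) ∣ e := by exact_mod_cast Nat.gcd_dvd_right d e
    have hgbound : g ≤ (b ^ 2 - 4 * c).natAbs := by
      obtain ⟨k1, k2⟩ := key r₁ hr₁
      have a1 : (g : ℤ) ∣ 2 * (r₀ : ℤ) + b := by
        have h := dvd_sub (hge.trans k2) (hgd.trans k1)
        have e1 : (r₁ : ℤ) + r₀ + b - ((r₁ : ℤ) - r₀) = 2 * (r₀ : ℤ) + b := by ring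
        rwa [e1] at h
      have a2 : (g : ℤ) ^ 2 ∣ (2 * (r₀ : ℤ) + b) ^ 2 := pow_dvd_pow_of_dvd a1 2
      have a3 : (g : ℤ) ^ 2 ∣ (r₀ : ℤ) ^ 2 + b * r₀ + c := by
        refine dvd_trans ?_ hr₀'
        rw [he, sq]
        push_cast
        exact mul_dvd_mul hgd hge
      have a4 : (g : ℤ) ^ 2 ∣ b ^ 2 - 4 * c := by
        have h := dvd_sub a2 (Dvd.dvd.mul_left a3 4)
        have e1 : (2 * (r₀ : ℤ) + b) ^ 2 - 4 * ((r₀ : ℤ) ^ 2 + b * r₀ + c) = b ^ 2 - 4 * c := by ring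
        rwa [e1] at h
      have a5 : (g : ℤ) ∣ b ^ 2 - 4 * c := dvd_trans (Dvd.intro_left _ (by rw [sq])) a4
      have a6 : g ∣ (b ^ 2 - 4 * c).natAbs := by
        rw [← Int.natCast_dvd]; exact a5
      exact Nat.le_of_dvd (Int.natAbs_pos.mpr hD) a6
    -- the number of elements
    have hlcm : Nat.lcm d e ∣ n := by
      rw [he]; exact Nat.lcm_dvd (dvd_mul_right d e) (dvd_mul_left e d)
    have hlpos : 0 < Nat.lcm d e := Nat.lcm_pos hdpos hepos
    have hcount := root_aux n (Nat.lcm d e) hlcm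
      (S.filter (fun r : ℕ => Int.gcd n ((r : ℤ) - r₀) = d)) ?_ ?_
    · refine hcount.trans ?_
      have hmul := Nat.gcd_mul_lcm d e
      have : n / Nat.lcm d e = g := by
        rw [he, ← hmul]
        exact Nat.mul_div_cancel _ hlpos
      rw [this]
      exact hgbound
    · intro r hr
      rw [mem_filter, hSdef, mem_filter, mem_range] at hr
      exact hr.1.1
    · intro r hr s hs
      obtain ⟨r1, r2⟩ := key r hr
      obtain ⟨s1, s2⟩ := key s hs
      have t1 : (d : ℤ) ∣ (s : ℤ) - r := by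
        have h := dvd_sub s1 r1
        have e1 : (s : ℤ) - r₀ - ((r : ℤ) - r₀) = s - r := by ring
        rwa [e1] at h
      have t2 : (e : ℤ) ∣ (s : ℤ) - r := by
        have h := dvd_sub s2 r2
        have e1 : (s : ℤ) + r₀ + b - ((r : ℤ) + r₀ + b) = s - r := by ring
        rwa [e1] at h
      have t3 : r ≡ s [MOD d] := (Nat.modEq_iff_dvd).mpr t1
      have t4 : r ≡ s [MOD e] := (Nat.modEq_iff_dvd).mpr t2
      have t5 : r ≡ s [MOD (Nat.lcm d e)] := by
        rw [Nat.modEq_iff_dvd, Int.natCast_dvd]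
        rw [Int.natCast_dvd] at t1 t2
        exact Nat.lcm_dvd t1 t2
      exact t5
  refine le_trans (sum_le_sum hbound) ?_
  rw [sum_const, smul_eq_mul, mul_comm]

end Pool.Agent.Lib.MP_648c71_nt.HP
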