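import Pool.Agent.Lib.MP_648c71_nt.HP.Geo
import Pool.Agent.Lib.MP_648c71_nt.HP.N1

/-! Row G8 (about 130 lines): elements of given norm, units. -/

set_option autoImplicit false

namespace Pool.Agent.Lib.MP_648c71_nt.HP

open Finset MeasureTheory

variable {b c : ℤ} (Γ : Geo b c)

namespace Geo

private theorem g8_coprime_im {d : ℕ} {v : O b c} (hcop : IsCoprime v.re v.im)
    (hdv : (d : ℤ) ∣ nm v) : IsCoprime v.im (d : ℤ) := by
  have h1 : IsCoprime v.im (nm v) := by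
    have h2 : IsCoprime v.im (v.re ^ 2) := hcop.symm.pow_right
    have e : nm v = v.re ^ 2 + v.im * (b * v.re + c * v.im) := by unfold nm; ring
    rw [e]
    exact (IsCoprime.add_mul_left_right_iff (x := v.im) (y := v.re ^ 2)
      (z := b * v.re + c * v.im)).mpr h2
  exact h1.of_isCoprime_of_dvd_right hdv

private theorem g8_exists_class {d : ℕ} (hd : 0 < d) {v : O b c} (hcop : IsCoprime v.re v.im)
    (hdv : (d : ℤ) ∣ nm v) : ∃ r ∈ (range d).filter
      (fun r : ℕ => (d : ℤ) ∣ (r : ℤ) ^ 2 + b * r + c), (d : ℤ) ∣ v.re - r * v.im := by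
  obtain ⟨s, t, hst⟩ := g8_coprime_im hcop hdv
  have hdZ : (0 : ℤ) < d := by exact_mod_cast hd
  set r := ((v.re * s) % (d : ℤ)).toNat with hr
  have hr0 : 0 ≤ (v.re * s) % (d : ℤ) := Int.emod_nonneg _ hdZ.ne'
  have hr1 : (v.re * s) % (d : ℤ) < d := Int.emod_lt_of_pos _ hdZ
  have hrc : (r : ℤ) = (v.re * s) % (d : ℤ) := by rw [hr]; omega
  have hmod : (d : ℤ) ∣ (r : ℤ) - v.re * s := by
    rw [hrc]
    have := Int.emod_add_mul_ediv (v.re * s) d
    refine ⟨-(v.re * s / d), ?_⟩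
    linarith
  have hcl : (d : ℤ) ∣ v.re - r * v.im := by
    obtain ⟨k, hk⟩ := hmod
    refine ⟨v.re * t - k * v.im, ?_⟩
    have : (r : ℤ) = v.re * s + d * k := by linarith
    rw [this]
    linear_combination (-v.re) * hst
  refine ⟨r, ?_, hcl⟩
  rw [mem_filter, mem_range]
  refine ⟨by omega, ?_⟩
  have h2 : (d : ℤ) ∣ v.im ^ 2 * ((r : ℤ) ^ 2 + b * r + c) := by
    have e : v.im ^ 2 * ((r : ℤ) ^ 2 + b * r + c) =
        nm v - (v.re - r * v.im) * (v.re + r * v.im + b * v.im) := by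
      unfold nm; ring
    rw [e]
    exact dvd_sub hdv (hcl.mul_right _)
  have h3 : IsCoprime (d : ℤ) (v.im ^ 2) := (g8_coprime_im hcop hdv).symm.pow_right
  exact h3.dvd_of_dvd_mul_left h2

private theorem g8_star (v w : O b c) : v * (star v * w) = nm v • w := by
  rw [star_mul_eq]
  ext
  · simp only [QuadraticAlgebra.re_mul, QuadraticAlgebra.re_smul, smul_eq_mul, sc, dt, nm]
    ring
  · simp only [QuadraticAlgebra.im_mul, QuadraticAlgebra.im_smul, smul_eq_mul, sc, dt, nm]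
    ring

/-- ROW G8.  Two elements of norm `d` with the same root class differ by a unit of norm 1:
`d ∣ dt v v'` and `d ∣ sc v v'` (`sc = re re' + b im re' + c im im' ≡ (r² + br + c) im im'`), so
`star v * v' = ⟨sc, dt⟩ = d • t`, `nm t = 1` (`nm_star`, `nm_mul`), and `v * (d • t) = (v * star v) * v' = d • v'`
gives `v' = v * t`. -/
theorem unit_of_class (v v' : O b c) (d : ℕ) (hd : 0 < d) (r : ℤ) (h1 : nm v = d) (h2 : nm v' = d)
    (h3 : (d : ℤ) ∣ v.re - r * v.im) (h4 : (d : ℤ) ∣ v'.re - r * v'.im)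
    (h5 : (d : ℤ) ∣ r ^ 2 + b * r + c) : ∃ t : O b c, nm t = 1 ∧ v' = v * t := by
  have hdZ : (0 : ℤ) < d := by exact_mod_cast hd
  have hdt : (d : ℤ) ∣ dt v v' := by
    have e : dt v v' = (v.re - r * v.im) * v'.im - (v'.re - r * v'.im) * v.im := by
      unfold dt; ring
    rw [e]
    exact dvd_sub (h3.mul_right _) (h4.mul_right _)
  have hsc : (d : ℤ) ∣ sc v v' := by
    have e : sc v v' = (v.re - r * v.im) * v'.re + (v'.re - r * v'.im) * (r * v.im + b * v.im) +
        (r ^ 2 + b * r + c) * (v.im * v'.im) := by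
      unfold sc; ring
    rw [e]
    exact dvd_add (dvd_add (h3.mul_right _) (h4.mul_right _)) (h5.mul_right _)
  obtain ⟨s, hs⟩ := hsc
  obtain ⟨k, hk⟩ := hdt
  have hst : star v * v' = (d : ℤ) • (⟨s, k⟩ : O b c) := by
    rw [star_mul_eq, hs, hk]
    ext <;> simp
  refine ⟨⟨s, k⟩, ?_, ?_⟩
  · have h6 : nm (star v * v') = (d : ℤ) * d := by rw [nm_mul, nm_star, h1, h2]
    rw [hst, nm_zsmul] at h6
    have h7 : ((d : ℤ) * d) * nm (⟨s, k⟩ : O b c) = ((d : ℤ) * d) * 1 := by linarith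
    exact mul_left_cancel₀ (by positivity) h7
  · have h8 : v * (star v * v') = (d : ℤ) • v' := by
      have e : v * (star v * v') = (nm v) • v' := g8_star v v'
      rw [e, h1]
    rw [hst, mul_smul_comm] at h8
    have h9 := congrArg QuadraticAlgebra.re h8
    have h10 := congrArg QuadraticAlgebra.im h8
    rw [QuadraticAlgebra.re_smul, QuadraticAlgebra.re_smul, smul_eq_mul, smul_eq_mul] at h9
    rw [QuadraticAlgebra.im_smul, QuadraticAlgebra.im_smul, smul_eq_mul, smul_eq_mul] at h10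
    ext
    · exact (mul_left_cancel₀ hdZ.ne' h9).symm
    · exact (mul_left_cancel₀ hdZ.ne' h10).symm

private theorem g8_class (d : ℕ) (hd : 0 < d) (r : ℤ) (h5 : (d : ℤ) ∣ r ^ 2 + b * r + c)
    (F : Finset (O b c)) (hF : ∀ v ∈ F, v ∈ Γ.Sec ∧ nm v = d ∧ (d : ℤ) ∣ v.re - r * v.im) :
    F.card ≤ Γ.U.card := by
  classical
  rcases F.eq_empty_or_nonempty with h | ⟨v0, h0⟩
  · rw [h]; simp
  · obtain ⟨a1, a2, a3⟩ := hF v0 h0
    have hsub : F ⊆ Γ.U.image (fun t => v0 * t) := by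
      intro v hv
      obtain ⟨b1, b2, b3⟩ := hF v hv
      obtain ⟨t, ht1, ht2⟩ := unit_of_class v0 v d hd r a2 b2 a3 b3 h5
      rw [mem_image]
      refine ⟨t, Γ.unit_fin v0 a1 t ht1 ?_, ht2.symm⟩
      rw [← ht2]; exact b1
    exact (card_le_card hsub).trans card_image_le

private theorem g8_disc {b c : ℤ} (Γ : Geo b c) : b ^ 2 - 4 * c ≠ 0 := by
  intro h
  exact Γ.hD (by rw [h]; exact ⟨0, by ring⟩)

/-- ROW G8.  Primitive elements of the sector of norm `n`: `im v` is a unit mod `n` (a prime dividing `n` and `im v`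
divides `re v`), so there is a class `r ∈ range n` with `n ∣ re v - r im v`, `n ∣ r² + br + c`; at most
`|D| τ(n)` classes (`root_count`), at most `|U|` elements in a class (`unit_of_class`, `unit_fin`).
(Compare `Hp/Boxes.lean`, `exists_class`.) -/
theorem card_prim (n : ℕ) (hn : 0 < n) (F : Finset (O b c))
    (hF : ∀ v ∈ F, v ∈ Γ.Sec ∧ IsCoprime v.re v.im ∧ nm v = n) :
    F.card ≤ Γ.U.card * (b ^ 2 - 4 * c).natAbs * n.divisors.card := by
  classical
  set R := (range n).filter (fun r : ℕ => (n : ℤ) ∣ (r : ℤ) ^ 2 + b * r + c) with hR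
  have hsub : F ⊆ R.biUnion (fun r => F.filter (fun v => (n : ℤ) ∣ v.re - (r : ℤ) * v.im)) := by
    intro v hv
    obtain ⟨a1, a2, a3⟩ := hF v hv
    obtain ⟨r, hr, hrv⟩ := g8_exists_class hn a2 (by rw [a3])
    rw [mem_biUnion]
    exact ⟨r, hr, mem_filter.mpr ⟨hv, hrv⟩⟩
  have h1 := (card_le_card hsub).trans card_biUnion_le
  have h2 : ∑ r ∈ R, (F.filter (fun v => (n : ℤ) ∣ v.re - (r : ℤ) * v.im)).card ≤
      ∑ _r ∈ R, Γ.U.card := by
    refine sum_le_sum (fun r hr => ?_)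
    refine g8_class Γ n hn r (mem_filter.mp hr).2 _ (fun v hv => ?_)
    have hv' := mem_filter.mp hv
    exact ⟨(hF v hv'.1).1, (hF v hv'.1).2.2, hv'.2⟩
  rw [sum_const, smul_eq_mul] at h2
  have h3 : R.card ≤ (b ^ 2 - 4 * c).natAbs * n.divisors.card := root_count b c (g8_disc Γ) n hn
  refine (h1.trans h2).trans ((Nat.mul_le_mul_right _ h3).trans (le_of_eq ?_))
  ring

/-- ROW G8.  All elements of norm `n`: `v = k • v₀`, `k² ∣ n`, `v₀` primitive of norm `n/k²`; sum over `k ∣ n`. -/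
theorem card_norm (n : ℕ) (hn : 0 < n) (F : Finset (O b c)) (hF : ∀ v ∈ F, v ∈ Γ.Sec ∧ nm v = n) :
    F.card ≤ Γ.U.card * (b ^ 2 - 4 * c).natAbs * n.divisors.card ^ 2 := by
  classical
  have hnZ : (0 : ℤ) < n := by exact_mod_cast hn
  -- the decomposition
  have hdec : ∀ v ∈ F, ∃ k ∈ n.divisors, ∃ v0 : O b c, v = (k : ℤ) • v0 ∧ IsCoprime v0.re v0.im := by
    intro v hv
    obtain ⟨a1, a2⟩ := hF v hv
    have hv0 : v ≠ 0 := by
      intro h
      rw [h] at a2
      have : nm (0 : O b c) = 0 := by simp [nm]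
      omega
    obtain ⟨g, v0, hg, hgv, hcop⟩ := exists_prim v hv0
    have hgk : ((g.toNat : ℕ) : ℤ) = g := Int.toNat_of_nonneg hg.le
    refine ⟨g.toNat, ?_, v0, by rw [hgk]; exact hgv, hcop⟩
    rw [Nat.mem_divisors]
    refine ⟨?_, hn.ne'⟩
    have h1 : (n : ℤ) = g ^ 2 * nm v0 := by rw [← nm_zsmul, ← hgv, a2]
    have h2 : ((g.toNat : ℕ) : ℤ) ∣ (n : ℤ) := by
      rw [hgk, h1]
      exact ⟨g * nm v0, by ring⟩
    exact_mod_cast h2
  have hsub : F ⊆ n.divisors.biUnion (fun k => F.filter (fun v => ∃ v0 : O b c,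
      v = (k : ℤ) • v0 ∧ IsCoprime v0.re v0.im)) := by
    intro v hv
    obtain ⟨k, hk, hk2⟩ := hdec v hv
    rw [mem_biUnion]
    exact ⟨k, hk, mem_filter.mpr ⟨hv, hk2⟩⟩
  have h1 := (card_le_card hsub).trans card_biUnion_le
  have h2 : ∑ k ∈ n.divisors, (F.filter (fun v => ∃ v0 : O b c,
      v = (k : ℤ) • v0 ∧ IsCoprime v0.re v0.im)).card ≤
      ∑ _k ∈ n.divisors, Γ.U.card * (b ^ 2 - 4 * c).natAbs * n.divisors.card := by
    refine sum_le_sum (fun k hk => ?_)
    have hk0 : 0 < k := Nat.pos_of_mem_divisors hk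
    have hkZ : (0 : ℤ) < k := by exact_mod_cast hk0
    set G := F.filter (fun v => ∃ v0 : O b c, v = (k : ℤ) • v0 ∧ IsCoprime v0.re v0.im) with hG
    rcases G.eq_empty_or_nonempty with h0 | ⟨w, hw⟩
    · rw [h0]; simp
    -- the norm of the primitive part
    obtain ⟨hwF, w0, hw0, -⟩ := mem_filter.mp hw
    have hnw : (n : ℤ) = (k : ℤ) ^ 2 * nm w0 := by rw [← nm_zsmul, ← hw0, (hF w hwF).2]
    have hnw0 : 0 < nm w0 := by
      by_contra hcon
      push Not at hcon
      nlinarith [sq_nonneg (k : ℤ), mul_pos hkZ hkZ]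
    set m : ℕ := (nm w0).toNat with hm
    have hmZ : (m : ℤ) = nm w0 := Int.toNat_of_nonneg hnw0.le
    have hm0 : 0 < m := by omega
    have hnm : n = k ^ 2 * m := by
      have : (n : ℤ) = ((k ^ 2 * m : ℕ) : ℤ) := by
        push_cast
        rw [hmZ]; exact hnw
      exact_mod_cast this
    have hprim : ∀ v0 : O b c, ((k : ℤ) • v0) ∈ F → IsCoprime v0.re v0.im →
        v0 ∈ Γ.Sec ∧ IsCoprime v0.re v0.im ∧ nm v0 = m := by
      intro v0 h3 h4
      obtain ⟨b1, b2⟩ := hF _ h3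
      refine ⟨Γ.sec_pos v0 k hkZ b1, h4, ?_⟩
      rw [nm_zsmul, hnm] at b2
      push_cast at b2
      exact mul_left_cancel₀ (by positivity) b2
    have hφ : ∀ v0 : O b c, (⟨((k : ℤ) • v0).re / k, ((k : ℤ) • v0).im / k⟩ : O b c) = v0 := by
      intro v0
      ext
      · simp only [QuadraticAlgebra.re_smul, smul_eq_mul]
        exact Int.mul_ediv_cancel_left _ hkZ.ne'
      · simp only [QuadraticAlgebra.im_smul, smul_eq_mul]
        exact Int.mul_ediv_cancel_left _ hkZ.ne'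
    have hinj : Set.InjOn (fun v : O b c => (⟨v.re / k, v.im / k⟩ : O b c)) (G : Set (O b c)) := by
      intro x hx y hy hxy
      obtain ⟨-, x0, hx0, -⟩ := mem_filter.mp (mem_coe.mp hx)
      obtain ⟨-, y0, hy0, -⟩ := mem_filter.mp (mem_coe.mp hy)
      have hxy' : (⟨x.re / k, x.im / k⟩ : O b c) = ⟨y.re / k, y.im / k⟩ := hxy
      rw [hx0, hy0, hφ, hφ] at hxy'
      rw [hx0, hy0, hxy']
    have hcard : (G.image (fun v : O b c => (⟨v.re / k, v.im / k⟩ : O b c))).card = G.card :=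
      card_image_of_injOn hinj
    rw [← hcard]
    have h5 := card_prim Γ m hm0 (G.image (fun v : O b c => (⟨v.re / k, v.im / k⟩ : O b c))) (by
      intro z hz
      obtain ⟨v, hv, hvz⟩ := mem_image.mp hz
      obtain ⟨hvF, v0, hv0, hcop⟩ := mem_filter.mp hv
      rw [hv0, hφ] at hvz
      rw [← hvz]
      exact hprim v0 (hv0 ▸ hvF) hcop)
    refine h5.trans (Nat.mul_le_mul_left _ (card_le_card (Nat.divisors_subset_of_dvd hn.ne' ?_)))
    rw [hnm]; exact Dvd.intro_left _ rfl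
  rw [sum_const, smul_eq_mul] at h2
  refine (h1.trans h2).trans (le_of_eq ?_)
  ring

/-- ROW G8.  Pairs with `dt = 1` and `sc v w = n`: `v * ⟨n, 1⟩ = nm v • w` (from `star v * w = ⟨n, 1⟩`), so
`re v ≡ -(n+b) im v` mod `nm v`: the class is determined by `n`; `nm v ∣ ff b c n`; `w` is determined by `v`.  For
each divisor `d` of `|f(n)|` at most `|U|` elements `v` (`unit_of_class`, `unit_fin`). -/
theorem card_edges (n : ℤ) (hn : ff b c n ≠ 0) (F : Finset (O b c × O b c))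
    (hF : ∀ p ∈ F, p.1 ∈ Γ.Sec ∧ dt p.1 p.2 = 1 ∧ sc p.1 p.2 = n) :
    F.card ≤ Γ.U.card * (ff b c n).natAbs.divisors.card := by
  classical
  have hkey : ∀ v w : O b c, dt v w = 1 → sc v w = n → v * (⟨n, 1⟩ : O b c) = nm v • w := by
    intro v w h1 h2
    have e : v * (star v * w) = nm v • w := g8_star v w
    rw [← e, star_mul_eq, h1, h2]
  have hinj : Set.InjOn (fun p : O b c × O b c => p.1) (F : Set (O b c × O b c)) := by
    intro p hp q hq hpq
    obtain ⟨a1, a2, a3⟩ := hF p (mem_coe.mp hp)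
    obtain ⟨b1, b2, b3⟩ := hF q (mem_coe.mp hq)
    have hpq' : p.1 = q.1 := hpq
    have k1 := hkey _ _ a2 a3
    have k2 := hkey _ _ b2 b3
    rw [hpq', k2] at k1
    have hpos := Γ.nm_pos _ (Γ.sec_M _ b1)
    have h9 := congrArg QuadraticAlgebra.re k1
    have h10 := congrArg QuadraticAlgebra.im k1
    rw [QuadraticAlgebra.re_smul, QuadraticAlgebra.re_smul, smul_eq_mul, smul_eq_mul] at h9
    rw [QuadraticAlgebra.im_smul, QuadraticAlgebra.im_smul, smul_eq_mul, smul_eq_mul] at h10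
    refine Prod.ext hpq' ?_
    ext
    · exact (mul_left_cancel₀ hpos.ne' h9).symm
    · exact (mul_left_cancel₀ hpos.ne' h10).symm
  have hcard : (F.image (fun p : O b c × O b c => p.1)).card = F.card := card_image_of_injOn hinj
  rw [← hcard]
  set F1 := F.image (fun p : O b c × O b c => p.1) with hF1
  have hprop : ∀ v ∈ F1, v ∈ Γ.Sec ∧ 0 < nm v ∧ nm v ∣ ff b c n ∧
      nm v ∣ v.re - (-(n + b)) * v.im := by
    intro v hv
    obtain ⟨p, hp, hpv⟩ := mem_image.mp hv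
    obtain ⟨a1, a2, a3⟩ := hF p hp
    have hpv' : p.1 = v := hpv
    rw [hpv'] at a1 a2 a3
    refine ⟨a1, Γ.nm_pos _ (Γ.sec_M _ a1), ?_, ?_⟩
    · have := nm_mul_nm_of_dt a2
      rw [a3] at this
      exact ⟨_, this.symm⟩
    · have h10 := congrArg QuadraticAlgebra.im (hkey _ _ a2 a3)
      rw [QuadraticAlgebra.im_smul, smul_eq_mul, QuadraticAlgebra.im_mul] at h10
      refine ⟨p.2.im, ?_⟩
      linear_combination h10
  have hsub : F1 ⊆ (ff b c n).natAbs.divisors.biUnion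
      (fun d => F1.filter (fun v => nm v = (d : ℤ))) := by
    intro v hv
    obtain ⟨a1, a2, a3, a4⟩ := hprop v hv
    rw [mem_biUnion]
    refine ⟨(nm v).natAbs, ?_, mem_filter.mpr ⟨hv, ?_⟩⟩
    · rw [Nat.mem_divisors]
      exact ⟨Int.natAbs_dvd_natAbs.mpr a3, Int.natAbs_ne_zero.mpr hn⟩
    · omega
  have h1 := (card_le_card hsub).trans card_biUnion_le
  have h2 : ∑ d ∈ (ff b c n).natAbs.divisors, (F1.filter (fun v => nm v = (d : ℤ))).card ≤
      ∑ _d ∈ (ff b c n).natAbs.divisors, Γ.U.card := by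
    refine sum_le_sum (fun d hd => ?_)
    have hd0 : 0 < d := Nat.pos_of_mem_divisors hd
    have hdd : (d : ℤ) ∣ ff b c n := by
      have := Nat.dvd_of_mem_divisors hd
      exact Int.natCast_dvd.mpr this
    refine g8_class Γ d hd0 (-(n + b)) ?_ _ (fun v hv => ?_)
    · have e : (-(n + b)) ^ 2 + b * (-(n + b)) + c = ff b c n := by unfold ff; ring
      rw [e]; exact hdd
    · obtain ⟨hv1, hv2⟩ := mem_filter.mp hv
      obtain ⟨a1, a2, a3, a4⟩ := hprop v hv1
      exact ⟨a1, hv2, by rw [← hv2]; exact a4⟩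
  rw [sum_const, smul_eq_mul] at h2
  refine (h1.trans h2).trans (le_of_eq ?_)
  ring

end Geo

end Pool.Agent.Lib.MP_648c71_nt.HP
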