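import Pool.Agent.Lib.MP_648c71_nt.HP.G5
import Pool.Agent.Lib.MP_648c71_nt.HP.G8
import Pool.Agent.Lib.MP_648c71_nt.HP.G11
import Pool.Agent.Lib.MP_648c71_nt.HP.F17
import Pool.Agent.Lib.MP_648c71_nt.Hp.Moments

/-! Row G12 (about 150 lines): many indices with value -1. -/

set_option autoImplicit false

namespace Pool.Agent.Lib.MP_648c71_nt.HP

open Finset MeasureTheory

variable {b c : ℤ} (Γ : Geo b c)

namespace Geo

/-- ROW G12.  `core` for `Γ.sys g hg`, `c1 = c0/Cr² ≤ c0`, and `St_step`, `fits`, `card_Js_le`: the number of edges in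
`Ed g (Cr √X)` is `≥ X/(log X)^C1`. -/
theorem many_edges (g : ℕ → ℝ) (hg : CM g) (hneg : ∃ z ∈ Γ.M, gg g z = -1) :
    ∃ C1 : ℕ, ∃ X₀ : ℝ, ∀ X : ℝ, X₀ ≤ X →
      X / (Real.log X) ^ C1 ≤ ((Γ.Ed g (Γ.Cr * Real.sqrt X)).card : ℝ) := by
  have hCr1 := Γ.Cr_one
  have hCr2 : 1 ≤ Γ.Cr ^ 2 := one_le_pow₀ hCr1
  have hc0 := Γ.c0_pos
  obtain ⟨C1, X₀, h⟩ := core (Γ.sys g hg) (Γ.good g hg hneg) (Γ.c0 / Γ.Cr ^ 2) (by positivity)
    (div_le_self hc0.le hCr2)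
  refine ⟨C1, max X₀ (max 1 (max (Γ.c0 / Γ.Cr ^ 2) (Γ.Y0 ^ 2))), fun X hX => ?_⟩
  have h0 : X₀ ≤ X := (le_max_left _ _).trans hX
  have h1 : 1 ≤ X := ((le_max_left _ _).trans (le_max_right _ _)).trans hX
  have h2 : Γ.c0 / Γ.Cr ^ 2 ≤ X :=
    (((le_max_left _ _).trans (le_max_right _ _)).trans (le_max_right _ _)).trans hX
  have h3 : Γ.Y0 ^ 2 ≤ X :=
    (((le_max_right _ _).trans (le_max_right _ _)).trans (le_max_right _ _)).trans hX
  have hY : Γ.Y0 ≤ Γ.Cr * Real.sqrt X := by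
    have h4 : Γ.Y0 ≤ Real.sqrt X := Real.le_sqrt_of_sq_le h3
    have h5 : 0 ≤ Real.sqrt X := Real.sqrt_nonneg _
    nlinarith
  have h6 := h X h0 (Γ.St g (Γ.Cr * Real.sqrt X)) (Γ.Js g (Γ.Cr * Real.sqrt X))
    (Γ.St_step g hg _ hY) (Γ.fits g hg X h1 h2 hY)
  exact h6.trans (by exact_mod_cast Γ.card_Js_le g _)

/-- the constant in the bound of the index of an edge -/
noncomputable def Kc : ℝ := (1 + |(b : ℝ)| + |(c : ℝ)|) * Γ.Cs ^ 2 * Γ.Cr ^ 4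

theorem Kc_one : 1 ≤ Γ.Kc := by
  have h1 : 1 ≤ Γ.Cs ^ 2 := one_le_pow₀ Γ.Cs_one
  have h2 : 1 ≤ Γ.Cr ^ 4 := one_le_pow₀ Γ.Cr_one
  have h3 : (1 : ℝ) ≤ 1 + |(b : ℝ)| + |(c : ℝ)| := by
    have := abs_nonneg (b : ℝ)
    have := abs_nonneg (c : ℝ)
    linarith
  have h4 : (1 : ℝ) ≤ (1 + |(b : ℝ)| + |(c : ℝ)|) * Γ.Cs ^ 2 := one_le_mul_of_one_le_of_one_le h3 h1
  exact one_le_mul_of_one_le_of_one_le h4 h2

/-- everything about one edge -/
theorem G12_edge (g : ℕ → ℝ) (hg : CM g) (X : ℝ) (hX : 1 ≤ X) (hY : Γ.Y0 ≤ Γ.Cr * Real.sqrt X)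
    (v w : O b c) (h : (v, w) ∈ Γ.Ed g (Γ.Cr * Real.sqrt X)) :
    v ∈ Γ.Sec ∧ dt v w = 1 ∧ 0 < ff b c (sc v w) ∧ g (ff b c (sc v w)).natAbs = -1 ∧
      -Γ.Cg ≤ (sc v w : ℝ) ∧ (sc v w : ℝ) ≤ Γ.Kc * X := by
  classical
  have hCr := Γ.Cr_one
  have hCs := Γ.Cs_one
  rw [Ed, Finset.mem_filter] at h
  obtain ⟨-, hadj, hne⟩ := h
  simp only at hadj hne
  have hdt := Γ.adj_dt _ hY v w hadj
  have hnear := (Γ.adj_near _ hY v w hadj).2
  obtain ⟨hv, hw, -, -⟩ := hadj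
  rw [Γ.mem_Fv] at hv
  have hvs : v ∈ Γ.Sec := hv.1
  have hws : w ∈ Γ.Sec ∨ w = Γ.e1 := by
    rcases hw with hw | hw
    · exact Or.inl ((Γ.mem_Fv _ _).mp hw).1
    · exact Or.inr hw
  have hwM : w ∈ Γ.M := by
    rcases hws with h | h
    · exact Γ.sec_M _ h
    · rw [h]; exact Γ.e1_M
  have hvM : v ∈ Γ.M := Γ.sec_M _ hvs
  have hnv : 0 < nm v := Γ.nm_pos v hvM
  have hnw : 0 < nm w := Γ.nm_pos w hwM
  have hprod : nm v * nm w = ff b c (sc v w) := nm_mul_nm_of_dt hdt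
  have hpos : 0 < ff b c (sc v w) := by rw [← hprod]; exact mul_pos hnv hnw
  refine ⟨hvs, hdt, hpos, ?_, hnear, ?_⟩
  · rw [← hprod, Int.natAbs_mul, hg.1 _ _ (by omega) (by omega)]
    have e1 : g (nm v).natAbs = 1 ∨ g (nm v).natAbs = -1 := hg.2 _ (by omega)
    have e2 : g (nm w).natAbs = 1 ∨ g (nm w).natAbs = -1 := hg.2 _ (by omega)
    have e3 : g (nm v).natAbs ≠ g (nm w).natAbs := hne
    rcases e1 with e1 | e1 <;> rcases e2 with e2 | e2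
    · exact absurd (e1.trans e2.symm) e3
    · rw [e1, e2]; norm_num
    · rw [e1, e2]; norm_num
    · exact absurd (e1.trans e2.symm) e3
  · have hs0 : 0 ≤ Real.sqrt X := Real.sqrt_nonneg _
    have hs1 : Real.sqrt X * Real.sqrt X = X := Real.mul_self_sqrt (by linarith)
    obtain ⟨T, hT⟩ : ∃ T : ℝ, T = Γ.Cr ^ 2 * Real.sqrt X := ⟨_, rfl⟩
    have hT0 : 0 ≤ T := by rw [hT]; positivity
    have hv1 : Real.sqrt (nm v) ≤ T := by
      refine (Γ.le_rho v (Or.inl hvs)).trans ?_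
      rw [hT]
      have := mul_le_mul_of_nonneg_left hv.2.2 (by linarith : (0 : ℝ) ≤ Γ.Cr)
      nlinarith
    have hw1 : Real.sqrt (nm w) ≤ T := by
      refine (Γ.le_rho w hws).trans ?_
      rw [hT]
      have h1 : Γ.rho w ≤ Γ.Cr * Real.sqrt X := by
        rcases hw with h | h
        · exact ((Γ.mem_Fv _ _).mp h).2.2
        · have h' : w = Γ.e1 := h
          rw [h']
          refine le_trans ?_ hY
          exact (le_max_right _ _).trans (le_max_left _ _)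
      have := mul_le_mul_of_nonneg_left h1 (by linarith : (0 : ℝ) ≤ Γ.Cr)
      nlinarith
    obtain ⟨v1, v2⟩ := Γ.size v (Or.inl hvs)
    obtain ⟨w1, w2⟩ := Γ.size w hws
    obtain ⟨R, hR⟩ : ∃ R : ℝ, R = Γ.Cs * T := ⟨_, rfl⟩
    have hR0 : 0 ≤ R := by rw [hR]; positivity
    have v1' : |(v.re : ℝ)| ≤ R := v1.trans (by rw [hR]; gcongr)
    have v2' : |(v.im : ℝ)| ≤ R := v2.trans (by rw [hR]; gcongr)
    have w1' : |(w.re : ℝ)| ≤ R := w1.trans (by rw [hR]; gcongr)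
    have w2' : |(w.im : ℝ)| ≤ R := w2.trans (by rw [hR]; gcongr)
    have e0 : (sc v w : ℝ) = v.re * w.re + b * (v.im * w.re) + c * (v.im * w.im) := by
      simp only [sc]; push_cast; ring
    have e1 : (v.re : ℝ) * w.re ≤ R * R := by
      refine (le_abs_self _).trans ?_
      rw [abs_mul]
      exact mul_le_mul v1' w1' (abs_nonneg _) hR0
    have e2 : (b : ℝ) * (v.im * w.re) ≤ |(b : ℝ)| * (R * R) := by
      refine (le_abs_self _).trans ?_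
      rw [abs_mul, abs_mul]
      exact mul_le_mul_of_nonneg_left (mul_le_mul v2' w1' (abs_nonneg _) hR0) (abs_nonneg _)
    have e3 : (c : ℝ) * (v.im * w.im) ≤ |(c : ℝ)| * (R * R) := by
      refine (le_abs_self _).trans ?_
      rw [abs_mul, abs_mul]
      exact mul_le_mul_of_nonneg_left (mul_le_mul v2' w2' (abs_nonneg _) hR0) (abs_nonneg _)
    have e4 : R * R = Γ.Cs ^ 2 * Γ.Cr ^ 4 * X := by
      rw [hR, hT]
      calc Γ.Cs * (Γ.Cr ^ 2 * Real.sqrt X) * (Γ.Cs * (Γ.Cr ^ 2 * Real.sqrt X))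
          = Γ.Cs ^ 2 * Γ.Cr ^ 4 * (Real.sqrt X * Real.sqrt X) := by ring
        _ = _ := by rw [hs1]
    have e5 : Γ.Kc * X = R * R + |(b : ℝ)| * (R * R) + |(c : ℝ)| * (R * R) := by
      rw [e4, Kc]; ring
    rw [e0, e5]
    linarith

open Classical in
/-- the number of edges and the divisor function -/
theorem G12_count (g : ℕ → ℝ) (hg : CM g) (X : ℝ) (hX : 1 ≤ X)
    (hY : Γ.Y0 ≤ Γ.Cr * Real.sqrt X) (N : ℕ) (hN : Γ.Kc * X ≤ N) :
    (Γ.Ed g (Γ.Cr * Real.sqrt X)).card ≤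
      ∑ n ∈ Icc (-(⌈Γ.Cg⌉ : ℤ)) 0, Γ.U.card * (ff b c n).natAbs.divisors.card +
      ∑ m ∈ (Icc 1 N).filter (fun n : ℕ => g (ff b c n).natAbs = -1),
        Γ.U.card * (ff b c m).natAbs.divisors.card := by
  set E := (Icc 1 N).filter (fun n : ℕ => g (ff b c n).natAbs = -1) with hE
  set t : Finset ℤ := Icc (-(⌈Γ.Cg⌉ : ℤ)) 0 ∪ E.image (fun m : ℕ => (m : ℤ)) with ht
  have hedge := Γ.G12_edge g hg X hX hY
  have hmaps : ∀ p ∈ Γ.Ed g (Γ.Cr * Real.sqrt X), sc p.1 p.2 ∈ t := by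
    rintro ⟨v, w⟩ hp
    obtain ⟨h1, h2, h3, h4, h5, h6⟩ := hedge v w hp
    rw [ht, mem_union]
    rcases le_or_gt (sc v w) 0 with h | h
    · left
      rw [mem_Icc]
      refine ⟨?_, h⟩
      have : (-(sc v w) : ℝ) ≤ ⌈Γ.Cg⌉ := by
        have := Int.le_ceil Γ.Cg
        linarith
      have h7 : -(sc v w) ≤ ⌈Γ.Cg⌉ := by exact_mod_cast this
      show -⌈Γ.Cg⌉ ≤ sc v w
      omega
    · right
      rw [mem_image]
      refine ⟨(sc v w).toNat, ?_, ?_⟩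
      · rw [hE, mem_filter, mem_Icc]
        have h7 : (((sc v w).toNat : ℕ) : ℤ) = sc v w := Int.toNat_of_nonneg h.le
        refine ⟨⟨by omega, ?_⟩, ?_⟩
        · have h8 : ((sc v w : ℤ) : ℝ) ≤ ((N : ℤ) : ℝ) := by
            push_cast
            exact h6.trans hN
          have h9 : sc v w ≤ (N : ℤ) := by exact_mod_cast h8
          omega
        · rw [h7]; exact h4
      · exact Int.toNat_of_nonneg h.le
  rw [Finset.card_eq_sum_card_fiberwise hmaps]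
  have hfib : ∀ n ∈ t, ((Γ.Ed g (Γ.Cr * Real.sqrt X)).filter (fun p => sc p.1 p.2 = n)).card ≤
      Γ.U.card * (ff b c n).natAbs.divisors.card := by
    intro n _
    rcases Finset.eq_empty_or_nonempty
      ((Γ.Ed g (Γ.Cr * Real.sqrt X)).filter (fun p => sc p.1 p.2 = n)) with h | ⟨⟨v, w⟩, h⟩
    · rw [h]; simp
    · rw [mem_filter] at h
      have h3 := (hedge v w h.1).2.2.1
      have h4 : sc v w = n := h.2
      rw [h4] at h3
      refine Γ.card_edges n h3.ne' _ ?_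
      rintro ⟨v', w'⟩ hp
      rw [mem_filter] at hp
      obtain ⟨h1, h2, -⟩ := hedge v' w' hp.1
      exact ⟨h1, h2, hp.2⟩
  refine (Finset.sum_le_sum hfib).trans ?_
  rw [ht]
  have h1 : ∑ m ∈ E, Γ.U.card * (ff b c m).natAbs.divisors.card =
      ∑ n ∈ E.image (fun m : ℕ => (m : ℤ)), Γ.U.card * (ff b c n).natAbs.divisors.card := by
    rw [Finset.sum_image]
    intro x _ y _ hxy
    simp only at hxy
    exact_mod_cast hxy
  rw [h1, ← Finset.sum_union_inter]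
  exact Nat.le_add_right _ _

theorem G12_large (A K : ℝ) (C1 : ℕ) (hK : 1 ≤ K) : ∃ x₀ : ℝ, 3 ≤ x₀ ∧ ∀ x : ℝ, x₀ ≤ x →
    A ≤ x / (2 * K * Real.log x ^ C1) := by
  have h1 := (Real.isLittleO_pow_log_id_atTop (n := C1)).bound
    (show 0 < 1 / (2 * K * (|A| + 1)) by positivity)
  rw [Filter.eventually_atTop] at h1
  obtain ⟨x₁, h1⟩ := h1
  refine ⟨max x₁ 3, le_max_right _ _, fun x hx => ?_⟩
  have hx3 : 3 ≤ x := (le_max_right _ _).trans hx
  have h2 := h1 x ((le_max_left _ _).trans hx)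
  have hlog : 0 < Real.log x := Real.log_pos (by linarith)
  rw [id, Real.norm_of_nonneg (by positivity), Real.norm_of_nonneg (by linarith)] at h2
  have hA : A ≤ |A| + 1 := by
    have := le_abs_self A
    linarith
  have hA0 : 0 < |A| + 1 := by positivity
  refine hA.trans ?_
  rw [le_div_iff₀ (by positivity)]
  calc (|A| + 1) * (2 * K * Real.log x ^ C1) ≤
      (|A| + 1) * (2 * K * (1 / (2 * K * (|A| + 1)) * x)) := by gcongr
    _ = x := by field_simp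

open Classical in
/-- ROW G12.  Each edge `(v,w) ∈ Ed g Y`, `Y = Cr √X`, has index `n = sc v w` with `dt v w = 1`,
`f(n) = nm v nm w > 0` (`nm_mul_nm_of_dt`), `g(f(n)) = gg v * gg w = -1`, `-Cg ≤ n` (`adj_near`) and
`n ≤ (1+|b|+|c|) Cs² Cr² Y² = K X` (`size`, `le_rho`).  With `E = {n ∈ [1,N] : g(f(n)) = -1}`, `N = ⌊K X⌋`, the number
of edges is at most `∑_{n∈E} |U| τ(f n) + ∑_{-Cg ≤ n ≤ 0} |U| τ(|f n|)` (`card_edges`; the second sum is a constant)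
`≤ |U| |E|^{1/2} (∑_{n ≤ N} τ(f n)²)^{1/2} + const`, and `Hp.moment_ff` bounds the last sum by
`C N (1+log N)^k`.  So `|E| ≥ N/(log N)^C`; for given `N` take `X = N/K`. -/
theorem minus_count (hb : 1 ≤ b) (hc : 2 ≤ c) (g : ℕ → ℝ) (hg : CM g) (hneg : ∃ z ∈ Γ.M, gg g z = -1) :
    ∃ C : ℕ, ∃ N₀ : ℕ, ∀ N : ℕ, N₀ ≤ N → (N : ℝ) / (Real.log N) ^ C ≤
      (((Icc 1 N).filter (fun n : ℕ => g (ff b c n).natAbs = -1)).card : ℝ) := by
  obtain ⟨C1, X₀, hmany⟩ := Γ.many_edges g hg hneg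
  have hD0 : b ^ 2 - 4 * c ≠ 0 := fun h => Γ.hD (h ▸ ⟨0, by ring⟩)
  obtain ⟨C2, k, hC2, hmom⟩ := Hp.moment_ff hb hc hD0 2
  have hK := Γ.Kc_one
  obtain ⟨K, hKdef⟩ : ∃ K : ℝ, K = Γ.Kc := ⟨_, rfl⟩
  rw [← hKdef] at hK
  obtain ⟨A, hA⟩ : ∃ A : ℕ, A = ∑ n ∈ Icc (-(⌈Γ.Cg⌉ : ℤ)) 0,
    Γ.U.card * (ff b c n).natAbs.divisors.card := ⟨_, rfl⟩
  obtain ⟨x₀, hx₀3, hx₀⟩ := G12_large A K C1 hK
  obtain ⟨B, hB⟩ : ∃ B : ℝ, B = 4 * K ^ 2 * ((Γ.U.card : ℝ) + 1) ^ 2 * C2 * 2 ^ k := ⟨_, rfl⟩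
  have hB0 : 0 < B := by rw [hB]; positivity
  obtain ⟨M, hM⟩ : ∃ M : ℝ, M = max (max x₀ (Real.exp B)) (K * max (max X₀ 3) (Γ.Y0 ^ 2)) :=
    ⟨_, rfl⟩
  refine ⟨2 * C1 + k + 1, ⌈M⌉₊, fun N hN => ?_⟩
  have hNM : M ≤ N := (Nat.le_ceil M).trans (by exact_mod_cast hN)
  have hN1 : x₀ ≤ N := (((le_max_left _ _).trans (le_max_left _ _)).trans hM.ge).trans hNM
  have hN2 : Real.exp B ≤ N := (((le_max_right _ _).trans (le_max_left _ _)).trans hM.ge).trans hNM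
  have hN3 : K * max (max X₀ 3) (Γ.Y0 ^ 2) ≤ N := ((le_max_right _ _).trans hM.ge).trans hNM
  have hK0 : 0 < K := by linarith
  obtain ⟨X, hXdef⟩ : ∃ X : ℝ, X = N / K := ⟨_, rfl⟩
  have hKX : K * X = N := by rw [hXdef]; field_simp
  have hX1 : max (max X₀ 3) (Γ.Y0 ^ 2) ≤ X := by
    rw [hXdef, le_div_iff₀ hK0, mul_comm]
    exact hN3
  have hX0 : X₀ ≤ X := ((le_max_left _ _).trans (le_max_left _ _)).trans hX1
  have hX3 : 3 ≤ X := ((le_max_right _ _).trans (le_max_left _ _)).trans hX1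
  have hXY : Γ.Y0 ^ 2 ≤ X := (le_max_right _ _).trans hX1
  have hCr := Γ.Cr_one
  have hY : Γ.Y0 ≤ Γ.Cr * Real.sqrt X := by
    have h4 : Γ.Y0 ≤ Real.sqrt X := Real.le_sqrt_of_sq_le hXY
    have h5 : 0 ≤ Real.sqrt X := Real.sqrt_nonneg _
    nlinarith
  have hN0 : (3 : ℝ) ≤ N := hx₀3.trans hN1
  have hNpos : (0 : ℝ) < N := by linarith
  have hXN : X ≤ N := by
    rw [← hKX]
    nlinarith
  have hcount := Γ.G12_count g hg X (by linarith) hY N (by rw [← hKdef, hKX])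
  have hlow := hmany X hX0
  set E := (Icc 1 N).filter (fun n : ℕ => g (ff b c n).natAbs = -1) with hE
  obtain ⟨S, hS⟩ : ∃ S : ℝ, S = ∑ m ∈ E, (Hp.ta (ff b c m) : ℝ) := ⟨_, rfl⟩
  obtain ⟨u, hu⟩ : ∃ u : ℝ, u = (Γ.U.card : ℝ) := ⟨_, rfl⟩
  have hu0 : 0 ≤ u := by rw [hu]; positivity
  have hS0 : 0 ≤ S := by rw [hS]; positivity
  have hcount' : ((Γ.Ed g (Γ.Cr * Real.sqrt X)).card : ℝ) ≤ A + u * S := by
    have h1 : ((Γ.Ed g (Γ.Cr * Real.sqrt X)).card : ℝ) ≤ ((A + ∑ m ∈ E,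
        Γ.U.card * (ff b c m).natAbs.divisors.card : ℕ) : ℝ) := by
      rw [hA]
      exact_mod_cast hcount
    refine h1.trans (le_of_eq ?_)
    rw [hS, hu]
    push_cast
    rw [← Finset.mul_sum]
    rfl
  have hlog3 : 1 < Real.log 3 := by
    have := Real.exp_one_lt_three
    rw [Real.lt_log_iff_exp_lt (by norm_num)]
    exact this
  have hlogX : 1 ≤ Real.log X := hlog3.le.trans (Real.log_le_log (by norm_num) hX3)
  have hlogN : 1 ≤ Real.log N := hlog3.le.trans (Real.log_le_log (by norm_num) hN0)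
  have hlogXN : Real.log X ≤ Real.log N := Real.log_le_log (by linarith) hXN
  have h1 : (N : ℝ) / (K * Real.log N ^ C1) ≤ A + u * S := by
    refine le_trans ?_ (hlow.trans hcount')
    have h0 : (N : ℝ) / (K * Real.log N ^ C1) = X / Real.log N ^ C1 := by
      rw [hXdef, div_div]
    rw [h0]
    have h1 : 0 ≤ X := by linarith
    have h2 : 0 < Real.log X ^ C1 := by positivity
    gcongr
  have h2 := hx₀ N hN1
  have h3 : (N : ℝ) / (2 * K * Real.log N ^ C1) ≤ u * S := by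
    have h4 : (N : ℝ) / (K * Real.log N ^ C1) = 2 * (N / (2 * K * Real.log N ^ C1)) := by
      field_simp
    linarith
  have h4 : (N : ℝ) / (2 * K * Real.log N ^ C1) ≤ (u + 1) * S := by nlinarith
  -- Cauchy-Schwarz
  have hcs : S ^ 2 ≤ E.card * ∑ m ∈ E, (Hp.ta (ff b c m) : ℝ) ^ 2 := by
    rw [hS]
    exact sq_sum_le_card_mul_sum_sq
  have hsub : ∑ m ∈ E, (Hp.ta (ff b c m) : ℝ) ^ 2 ≤ C2 * N * (1 + Real.log N) ^ k := by
    refine (Finset.sum_le_sum_of_subset_of_nonneg (Finset.filter_subset _ _)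
      (fun _ _ _ => by positivity)).trans (hmom N ?_)
    have : (1 : ℝ) ≤ N := by linarith
    exact_mod_cast this
  have h5 : (1 + Real.log N) ^ k ≤ 2 ^ k * Real.log N ^ k := by
    rw [← mul_pow]
    exact pow_le_pow_left₀ (by linarith) (by linarith) k
  have h6 : S ^ 2 ≤ E.card * (C2 * N * (2 ^ k * Real.log N ^ k)) := by
    refine hcs.trans ?_
    refine mul_le_mul_of_nonneg_left (hsub.trans ?_) (by positivity)
    exact mul_le_mul_of_nonneg_left h5 (by positivity)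
  have hL0 : 0 < Real.log N := by linarith
  have h7 : ((N : ℝ) / (2 * K * Real.log N ^ C1)) ^ 2 ≤
      (u + 1) ^ 2 * (E.card * (C2 * N * (2 ^ k * Real.log N ^ k))) := by
    calc ((N : ℝ) / (2 * K * Real.log N ^ C1)) ^ 2 ≤ ((u + 1) * S) ^ 2 :=
          pow_le_pow_left₀ (by positivity) h4 2
      _ = (u + 1) ^ 2 * S ^ 2 := by ring
      _ ≤ _ := mul_le_mul_of_nonneg_left h6 (by positivity)
  have hBlog : B ≤ Real.log N := by
    rw [Real.le_log_iff_exp_le hNpos]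
    exact hN2
  have h8 : (N : ℝ) ≤ B * Real.log N ^ (2 * C1 + k) * E.card := by
    rw [div_pow, div_le_iff₀ (by positivity)] at h7
    have h9 : (N : ℝ) * N ≤ N * (B * Real.log N ^ (2 * C1 + k) * E.card) := by
      calc (N : ℝ) * N = N ^ 2 := by ring
        _ ≤ _ := h7
        _ = N * (B * Real.log N ^ (2 * C1 + k) * E.card) := by
          rw [hB, hu]; ring
    exact le_of_mul_le_mul_left h9 hNpos
  rw [div_le_iff₀ (by positivity)]
  calc (N : ℝ) ≤ B * Real.log N ^ (2 * C1 + k) * E.card := h8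
    _ ≤ Real.log N * Real.log N ^ (2 * C1 + k) * E.card := by gcongr
    _ = E.card * Real.log N ^ (2 * C1 + k + 1) := by ring

end Geo

end Pool.Agent.Lib.MP_648c71_nt.HP
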