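import Pool.Agent.Lib.MP_648c71_nt.HP.G1

/-! Row G2 (about 90 lines): existence and uniqueness of neighbours. -/

set_option autoImplicit false

namespace Pool.Agent.Lib.MP_648c71_nt.HP

open Finset MeasureTheory

variable {b c : ℤ} (Γ : Geo b c)

namespace Geo

/-- ROW G2.  `1` belongs to the Farey set. -/
theorem one_mem (Y : ℝ) (hY : Γ.Y0 ≤ Y) : (1 : O b c) ∈ Γ.Fv Y := by
  rw [mem_Fv]
  refine ⟨Γ.one_sec, ?_, le_trans (le_trans (le_max_left _ _) (le_max_left _ _)) hY⟩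
  exact ⟨1, 0, by simp [QuadraticAlgebra.re_one]⟩

/-- ROW G2.  For `t ∈ [0,1)` there is a pair of neighbours with `ang v ≤ t < ang w`: `v` of maximal angle `≤ t`,
`w` of minimal angle `> t` among the Farey set and `e1`. -/
theorem exists_adj (Y : ℝ) (hY : Γ.Y0 ≤ Y) (t : ℝ) (h0 : 0 ≤ t) (h1 : t < 1) :
    ∃ v w : O b c, Γ.Adj Y v w ∧ Γ.ang v ≤ t ∧ t < Γ.ang w := by
  classical
  have h1m := Γ.one_mem Y hY
  obtain ⟨v, hvA, hvmax⟩ := Finset.exists_max_image ((Γ.Fv Y).filter (fun u => Γ.ang u ≤ t)) Γ.ang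
    ⟨1, Finset.mem_filter.mpr ⟨h1m, by rw [Γ.ang_one]; exact h0⟩⟩
  obtain ⟨w, hwB, hwmin⟩ := Finset.exists_min_image
    (insert Γ.e1 ((Γ.Fv Y).filter (fun u => t < Γ.ang u))) Γ.ang
    ⟨Γ.e1, Finset.mem_insert_self _ _⟩
  rw [Finset.mem_filter] at hvA
  have hw : (w ∈ Γ.Fv Y ∨ w = Γ.e1) ∧ t < Γ.ang w := by
    rw [Finset.mem_insert] at hwB
    rcases hwB with hwB | hwB
    · refine ⟨Or.inr hwB, ?_⟩
      rw [hwB, Γ.ang_e1]; exact h1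
    · rw [Finset.mem_filter] at hwB
      exact ⟨Or.inl hwB.1, hwB.2⟩
  refine ⟨v, w, ⟨hvA.1, hw.1, lt_of_le_of_lt hvA.2 hw.2, ?_⟩, hvA.2, hw.2⟩
  intro u hu hu2
  rcases le_or_gt (Γ.ang u) t with h | h
  · exact absurd (hvmax u (Finset.mem_filter.mpr ⟨hu, h⟩)) (not_le.mpr hu2.1)
  · exact absurd (hwmin u (Finset.mem_insert_of_mem (Finset.mem_filter.mpr ⟨hu, h⟩))) (not_le.mpr hu2.2)

/-- ROW G2.  A member `w` with `ang w > 0`, or `e1`, has a left neighbour. -/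
theorem exists_prev (Y : ℝ) (hY : Γ.Y0 ≤ Y) (w : O b c) (hw : w ∈ Γ.Fv Y ∨ w = Γ.e1)
    (h0 : 0 < Γ.ang w) : ∃ v : O b c, Γ.Adj Y v w := by
  classical
  have h1m := Γ.one_mem Y hY
  obtain ⟨v, hvA, hvmax⟩ := Finset.exists_max_image ((Γ.Fv Y).filter (fun u => Γ.ang u < Γ.ang w)) Γ.ang
    ⟨1, Finset.mem_filter.mpr ⟨h1m, by rw [Γ.ang_one]; exact h0⟩⟩
  rw [Finset.mem_filter] at hvA
  refine ⟨v, hvA.1, hw, hvA.2, ?_⟩
  intro u hu hu2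
  exact absurd (hvmax u (Finset.mem_filter.mpr ⟨hu, hu2.2⟩)) (not_le.mpr hu2.1)

/-- ROW G2.  The neighbours are unique (`ang_inj`; `ang e1 = 1` is larger than all angles of the sector). -/
theorem adj_unique_right (Y : ℝ) (v w w' : O b c) (h : Γ.Adj Y v w) (h' : Γ.Adj Y v w') : w = w' := by
  obtain ⟨_, hw, hlt, hb⟩ := h
  obtain ⟨_, hw', hlt', hb'⟩ := h'
  have hang1 : ∀ u, u ∈ Γ.Fv Y → Γ.ang u < 1 := fun u hu =>
    (Γ.sec_ang u ((Γ.mem_Fv Y u).mp hu).1).2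
  rcases hw with hw | hw <;> rcases hw' with hw' | hw'
  · have e : Γ.ang w = Γ.ang w' := by
      rcases lt_trichotomy (Γ.ang w) (Γ.ang w') with h | h | h
      · exact absurd ⟨hlt, h⟩ (hb' w hw)
      · exact h
      · exact absurd ⟨hlt', h⟩ (hb w' hw')
    have m := (Γ.mem_Fv Y w).mp hw
    have m' := (Γ.mem_Fv Y w').mp hw'
    exact Γ.ang_inj w w' m.1 m'.1 m.2.1 m'.2.1 e
  · exfalso
    apply hb' w hw
    refine ⟨hlt, ?_⟩
    rw [hw', Γ.ang_e1]; exact hang1 w hw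
  · exfalso
    apply hb w' hw'
    refine ⟨hlt', ?_⟩
    rw [hw, Γ.ang_e1]; exact hang1 w' hw'
  · rw [hw, hw']

theorem adj_unique_left (Y : ℝ) (v v' w : O b c) (h : Γ.Adj Y v w) (h' : Γ.Adj Y v' w) : v = v' := by
  obtain ⟨hv, _, hlt, hb⟩ := h
  obtain ⟨hv', _, hlt', hb'⟩ := h'
  have e : Γ.ang v = Γ.ang v' := by
    rcases lt_trichotomy (Γ.ang v) (Γ.ang v') with h | h | h
    · exact absurd ⟨h, hlt'⟩ (hb v' hv')
    · exact h
    · exact absurd ⟨h, hlt⟩ (hb' v hv)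
  have m := (Γ.mem_Fv Y v).mp hv
  have m' := (Γ.mem_Fv Y v').mp hv'
  exact Γ.ang_inj v v' m.1 m'.1 m.2.1 m'.2.1 e

/-- ROW G2.  Two pairs of neighbours with a common strictly intermediate angle are equal. -/
theorem adj_unique_between (Y t : ℝ) (v w v' w' : O b c) (h : Γ.Adj Y v w) (h' : Γ.Adj Y v' w')
    (h1 : Γ.ang v ≤ t) (h2 : t < Γ.ang w) (h3 : Γ.ang v' ≤ t) (h4 : t < Γ.ang w') : v = v' ∧ w = w' := by
  have e : Γ.ang v = Γ.ang v' := by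
    rcases lt_trichotomy (Γ.ang v) (Γ.ang v') with h5 | h5 | h5
    · exact absurd ⟨h5, lt_of_le_of_lt h3 h2⟩ (h.2.2.2 v' h'.1)
    · exact h5
    · exact absurd ⟨h5, lt_of_le_of_lt h1 h4⟩ (h'.2.2.2 v h.1)
  have m := (Γ.mem_Fv Y v).mp h.1
  have m' := (Γ.mem_Fv Y v').mp h'.1
  have ev : v = v' := Γ.ang_inj v v' m.1 m'.1 m.2.1 m'.2.1 e
  subst ev
  exact ⟨rfl, Γ.adj_unique_right Y v w w' h h'⟩

end Geo

end Pool.Agent.Lib.MP_648c71_nt.HP
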