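import Pool.Agent.Lib.MP_648c71_nt.HP.G2

/-! Row G3 (about 150 lines): the Farey step function. -/

set_option autoImplicit false

namespace Pool.Agent.Lib.MP_648c71_nt.HP

open Finset MeasureTheory

variable {b c : ℤ} (Γ : Geo b c)

namespace Geo

open Classical in
/-- the Farey predecessor of an angle -/
noncomputable def pre (Y θ : ℝ) : O b c :=
  if h : ∃ v w : O b c, Γ.Adj Y v w ∧ Γ.ang v ≤ Int.fract θ ∧ Int.fract θ < Γ.ang w then h.choose else 1

/-- the Farey step function -/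
noncomputable def St (g : ℕ → ℝ) (Y : ℝ) (θ : ℝ) : ℝ := gg g (Γ.pre Y θ)

open Classical in
/-- neighbours with different signs -/
noncomputable def Ed (g : ℕ → ℝ) (Y : ℝ) : Finset (O b c × O b c) :=
  (Γ.Fv Y ×ˢ insert Γ.e1 (Γ.Fv Y)).filter (fun p => Γ.Adj Y p.1 p.2 ∧ gg g p.1 ≠ gg g p.2)

open Classical in
/-- the jumps -/
noncomputable def Js (g : ℕ → ℝ) (Y : ℝ) : Finset ℝ := (Γ.Ed g Y).image (fun p => Γ.ang p.2)

/-- ROW G3. -/
theorem card_Js_le (g : ℕ → ℝ) (Y : ℝ) : (Γ.Js g Y).card ≤ (Γ.Ed g Y).card := by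
  unfold Js
  exact Finset.card_image_le

/-- angles of the closed Farey set are at most `1` -/
theorem G3_ang_le (Y : ℝ) (w : O b c) (hw : w ∈ Γ.Fv Y ∨ w = Γ.e1) : Γ.ang w ≤ 1 := by
  rcases hw with hw | hw
  · exact (Γ.sec_ang w ((Γ.mem_Fv Y w).1 hw).1).2.le
  · rw [hw, Γ.ang_e1]

/-- the predecessor, from the right pair -/
theorem G3_pre_eq (Y : ℝ) (v w : O b c) (h : Γ.Adj Y v w) (θ : ℝ)
    (h1 : Γ.ang v ≤ Int.fract θ) (h2 : Int.fract θ < Γ.ang w) : Γ.pre Y θ = v := by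
  have hex : ∃ v w : O b c, Γ.Adj Y v w ∧ Γ.ang v ≤ Int.fract θ ∧ Int.fract θ < Γ.ang w :=
    ⟨v, w, h, h1, h2⟩
  unfold pre
  rw [dif_pos hex]
  obtain ⟨w', hw', h3, h4⟩ := hex.choose_spec
  exact (Γ.adj_unique_between Y (Int.fract θ) _ w' v w hw' h h3 h4 h1 h2).1

/-- ROW G3.  The value of the step function on `[ang v, ang w)` for neighbours `v, w` (modulo integers)
(`adj_unique_between`). -/
theorem St_eq (g : ℕ → ℝ) (Y : ℝ) (hY : Γ.Y0 ≤ Y) (v w : O b c) (h : Γ.Adj Y v w) (θ : ℝ) (k : ℤ)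
    (h1 : Γ.ang v ≤ θ - k) (h2 : θ - k < Γ.ang w) : Γ.St g Y θ = gg g v := by
  have hv := Γ.sec_ang v ((Γ.mem_Fv Y v).1 h.1).1
  have hw := Γ.G3_ang_le Y w h.2.1
  have hfl : ⌊θ⌋ = k := by
    rw [Int.floor_eq_iff]
    constructor
    · linarith [hv.1]
    · linarith
  have hfr : Int.fract θ = θ - k := by
    rw [← Int.self_sub_floor, hfl]
  unfold St
  rw [Γ.G3_pre_eq Y v w h θ (by rw [hfr]; exact h1) (by rw [hfr]; exact h2)]

/-- values of the sign -/
theorem G3_gg (g : ℕ → ℝ) (hg : CM g) (v : O b c) (hv : v ∈ Γ.Sec) : gg g v = 1 ∨ gg g v = -1 := by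
  unfold gg
  have h := Γ.nm_pos v (Γ.sec_M v hv)
  exact hg.2 _ (by omega)

/-- the value of the step function is the sign of a member of the Farey set -/
theorem G3_val (g : ℕ → ℝ) (hg : CM g) (Y : ℝ) (hY : Γ.Y0 ≤ Y) (t : ℝ) :
    Γ.St g Y t = 1 ∨ Γ.St g Y t = -1 := by
  obtain ⟨v, w, h, h1, h2⟩ := Γ.exists_adj Y hY (Int.fract t) (Int.fract_nonneg t) (Int.fract_lt_one t)
  unfold St
  rw [Γ.G3_pre_eq Y v w h t h1 h2]
  exact Γ.G3_gg g hg v ((Γ.mem_Fv Y v).1 h.1).1

open Classical in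
/-- the step function as a finite sum of indicator functions -/
theorem G3_sum (g : ℕ → ℝ) (Y : ℝ) (hY : Γ.Y0 ≤ Y) :
    Γ.St g Y = fun θ => ∑ p ∈ (Γ.Fv Y ×ˢ insert Γ.e1 (Γ.Fv Y)).filter (fun p => Γ.Adj Y p.1 p.2),
      (Int.fract ⁻¹' Set.Ico (Γ.ang p.1) (Γ.ang p.2)).indicator (fun _ => gg g p.1) θ := by
  funext θ
  obtain ⟨v, w, h, h1, h2⟩ := Γ.exists_adj Y hY (Int.fract θ) (Int.fract_nonneg θ) (Int.fract_lt_one θ)
  rw [Finset.sum_eq_single (v, w)]
  · rw [Set.indicator_of_mem]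
    · unfold St
      rw [Γ.G3_pre_eq Y v w h θ h1 h2]
    · exact ⟨h1, h2⟩
  · rintro ⟨v', w'⟩ hp hne
    rw [Finset.mem_filter] at hp
    rw [Set.indicator_of_notMem]
    rintro ⟨h3, h4⟩
    apply hne
    obtain ⟨e1, e2⟩ := Γ.adj_unique_between Y (Int.fract θ) v' w' v w hp.2 h h3 h4 h1 h2
    rw [e1, e2]
  · intro hp
    exfalso
    apply hp
    rw [Finset.mem_filter, Finset.mem_product]
    refine ⟨⟨h.1, ?_⟩, h⟩
    rw [Finset.mem_insert]
    exact h.2.1.symm

theorem G3_meas (g : ℕ → ℝ) (Y : ℝ) (hY : Γ.Y0 ≤ Y) : Measurable (Γ.St g Y) := by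
  classical
  rw [Γ.G3_sum g Y hY]
  refine Finset.measurable_fun_sum _ ?_
  intro p _
  exact measurable_const.indicator (measurable_fract measurableSet_Ico)

/-- a pair of neighbours with different signs gives a jump -/
theorem G3_mem_Js (g : ℕ → ℝ) (Y : ℝ) (v w : O b c) (h : Γ.Adj Y v w) (hne : gg g v ≠ gg g w) :
    Γ.ang w ∈ Γ.Js g Y := by
  classical
  unfold Js Ed
  rw [Finset.mem_image]
  refine ⟨(v, w), ?_, rfl⟩
  rw [Finset.mem_filter, Finset.mem_product]
  refine ⟨⟨h.1, ?_⟩, h, hne⟩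
  rw [Finset.mem_insert]
  exact h.2.1.symm

/-- ROW G3.  `Step`.  Periodicity: `Int.fract`.  Values: `CM` (norms of the sector are positive).
Measurability: the preimage of a set is the union over `v` in the finite Farey set (with given sign) of
`{θ | ang v ≤ fract θ < ang w}`, `w` the right neighbour (`Int.fract` is measurable, `measurable_fract`).
Jumps: let `a ≤ b` with no jump in `(a,b]`.  Induction on the number `n` of points `ang u + k` (`u ∈ Fv`, `k ∈ ℤ`)
in `(a,b]`.  `n = 0`: let `v, w` be the neighbours with `ang v ≤ fract a < ang w`; then also `ang v ≤ b - ⌊a⌋ < ang w`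
(otherwise `ang w + ⌊a⌋ ∈ (a,b]`; for `w = e1` it is `ang 1 + ⌊a⌋ + 1`), so `St_eq` gives equality.  `n > 0`: let
`p = ang u + k` be the largest such point; `S b = S p = g(u)` by `St_eq` (right neighbour of `u`); let `v` be the left
neighbour of `u` (of `e1` with `k - 1` in place of `k` if `u = 1`); as `p` is no jump, `g v = g u` (note
`g 1 = g e1`, `nm e1 = 1`); put `s = max(a, ang v + k')` the start of the gap: `S s = g v`, and `(a,s]` contains
fewer points. -/
theorem St_step (g : ℕ → ℝ) (hg : CM g) (Y : ℝ) (hY : Γ.Y0 ≤ Y) :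
    Step (Γ.St g Y) (Γ.Js g Y) := by
  refine ⟨Γ.G3_meas g Y hY, ?_, Γ.G3_val g hg Y hY, ?_⟩
  · intro t
    unfold St pre
    rw [Int.fract_add_one]
  · intro a b' hab hno
    by_contra hne
    set T : Set ℝ := {t | a ≤ t ∧ t ≤ b' ∧ Γ.St g Y t ≠ Γ.St g Y a} with hT
    have hbT : b' ∈ T := ⟨hab, le_rfl, fun h => hne h.symm⟩
    have hbdd : BddBelow T := ⟨a, fun t ht => ht.1⟩
    set s := sInf T with hs
    have has : a ≤ s := le_csInf ⟨b', hbT⟩ (fun t ht => ht.1)
    have hsb : s ≤ b' := csInf_le hbdd hbT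
    set k : ℤ := ⌊s⌋ with hk
    have hfs : Int.fract s = s - k := by rw [← Int.self_sub_floor]
    obtain ⟨v, w, h, h1, h2⟩ := Γ.exists_adj Y hY (Int.fract s) (Int.fract_nonneg s) (Int.fract_lt_one s)
    rw [hfs] at h1 h2
    have hSs : Γ.St g Y s = gg g v := Γ.St_eq g Y hY v w h s k h1 h2
    obtain ⟨t, htT, htlt⟩ := exists_lt_of_csInf_lt (⟨b', hbT⟩ : T.Nonempty)
      (show sInf T < Γ.ang w + k by rw [← hs]; linarith)
    have hst : s ≤ t := csInf_le hbdd htT
    have hSt : Γ.St g Y t = gg g v := Γ.St_eq g Y hY v w h t k (by linarith) (by linarith)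
    have hva : gg g v ≠ Γ.St g Y a := by rw [← hSt]; exact htT.2.2
    have hlt : a < s := by
      rcases has.lt_or_eq with h | h
      · exact h
      · exfalso
        apply hva
        rw [← hSs, ← h]
    have hbelow : ∀ t, a ≤ t → t < s → Γ.St g Y t = Γ.St g Y a := by
      intro t h3 h4
      by_contra hc
      exact absurd (csInf_le hbdd (show t ∈ T from ⟨h3, by linarith, hc⟩)) (not_le.2 h4)
    rcases h1.lt_or_eq with h5 | h5
    · have hm : max a (Γ.ang v + k) < s := max_lt hlt (by linarith)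
      have e1 := hbelow _ (le_max_left a (Γ.ang v + k)) hm
      have e2 := Γ.St_eq g Y hY v w h (max a (Γ.ang v + k)) k
        (by linarith [le_max_right a (Γ.ang v + k)]) (by linarith)
      exact hva (e2.symm.trans e1)
    · have hvS := ((Γ.mem_Fv Y v).1 h.1).1
      have hvp := ((Γ.mem_Fv Y v).1 h.1).2.1
      rcases (Γ.sec_ang v hvS).1.lt_or_eq with h6 | h6
      · obtain ⟨v', hv'⟩ := Γ.exists_prev Y hY v (Or.inl h.1) h6
        have hlt' : Γ.ang v' < Γ.ang v := hv'.2.2.1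
        have hm : max a (Γ.ang v' + k) < s := max_lt hlt (by linarith)
        have e1 := hbelow _ (le_max_left a (Γ.ang v' + k)) hm
        have e2 := Γ.St_eq g Y hY v' v hv' (max a (Γ.ang v' + k)) k
          (by linarith [le_max_right a (Γ.ang v' + k)]) (by linarith)
        have e3 : gg g v' ≠ gg g v := by
          intro hc
          exact hva (hc.symm.trans (e2.symm.trans e1))
        exact hno (Γ.ang v) (Γ.G3_mem_Js g Y v' v hv' e3) k ⟨by linarith, by linarith⟩
      · have hv1 : v = 1 := by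
          refine Γ.ang_inj v 1 hvS Γ.one_sec hvp ?_ (by rw [Γ.ang_one]; exact h6.symm)
          exact ((Γ.mem_Fv Y 1).1 (Γ.one_mem Y hY)).2.1
        obtain ⟨v', hv'⟩ := Γ.exists_prev Y hY Γ.e1 (Or.inr rfl) (by rw [Γ.ang_e1]; exact one_pos)
        have hlt' : Γ.ang v' < Γ.ang Γ.e1 := hv'.2.2.1
        have hae := Γ.ang_e1
        have hm : max a (Γ.ang v' + ((k - 1 : ℤ) : ℝ)) < s := max_lt hlt (by push_cast; linarith)
        have e1 := hbelow _ (le_max_left a (Γ.ang v' + ((k - 1 : ℤ) : ℝ))) hm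
        have e2 := Γ.St_eq g Y hY v' Γ.e1 hv' (max a (Γ.ang v' + ((k - 1 : ℤ) : ℝ))) (k - 1)
          (by linarith [le_max_right a (Γ.ang v' + ((k - 1 : ℤ) : ℝ))])
          (by push_cast at hm ⊢; linarith)
        have e4 : gg g Γ.e1 = gg g v := by
          unfold gg
          rw [hv1, Γ.nm_e1, nm_one]
        have e3 : gg g v' ≠ gg g Γ.e1 := by
          intro hc
          exact hva (e4.symm.trans (hc.symm.trans (e2.symm.trans e1)))
        refine hno (Γ.ang Γ.e1) (Γ.G3_mem_Js g Y v' Γ.e1 hv' e3) (k - 1) ⟨?_, ?_⟩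
        · push_cast; linarith
        · push_cast; linarith

end Geo

end Pool.Agent.Lib.MP_648c71_nt.HP
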