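import Pool.Agent.Lib.MP_648c71_nt.HP.G3
import Pool.Agent.Lib.MP_648c71_nt.HP.G4

/-! Row G5 (about 110 lines): the Farey step function fits the system. -/

set_option autoImplicit false

namespace Pool.Agent.Lib.MP_648c71_nt.HP

open Finset MeasureTheory

variable {b c : ℤ} (Γ : Geo b c)

namespace Geo

/-- ROW G5.  Let `Y = Cr √X`.  First part: `z ∈ M` of norm `≤ X`, `s ∈ Sec` from `to_sec`, `s = k • s₀`, `s₀` primitive,
`k > 0` (`exists_prim`), `s₀ ∈ Sec` (`sec_pos`), `nm s = k² nm s₀`, so `rho s₀ ≤ Cr √(nm s₀) ≤ Y` and `s₀ ∈ Fv Y`;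
`ang s₀ = ang s` (`dt = 0`, `lt_iff`); its right neighbour (`exists_adj` at `t = ang s₀`, then `v = s₀` by `ang_inj`)
and `St_eq` give `St (ang z) = gg g s₀ = gg g z` (`g(k² m) = g(m)`).
Second part: a jump is `ang w`, `w ∈ Fv Y` or `w = e1`, `√(nm w) ≤ Cr rho w ≤ Cr Y = Cr² √X`.  If
`ang z < ang w + k < ang z + c₁/X`, `c₁ = c0/Cr²`, then by `sep` (`0 < |ang w - ang z + k| < 1`, so the first
alternative would make this an integer, impossible as `c₁/X ≤ 1`) `c0 ≤ |..| √(nm z nm w) < (c₁/X) √X Cr² √X = c0`. -/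
theorem fits (g : ℕ → ℝ) (hg : CM g) (X : ℝ) (hX : 1 ≤ X) (hX1 : Γ.c0 / Γ.Cr ^ 2 ≤ X)
    (hY : Γ.Y0 ≤ Γ.Cr * Real.sqrt X) :
    Fits (Γ.sys g hg) X (Γ.c0 / Γ.Cr ^ 2) (Γ.St g (Γ.Cr * Real.sqrt X)) (Γ.Js g (Γ.Cr * Real.sqrt X)) := by
  have hXpos : 0 < X := lt_of_lt_of_le one_pos hX
  have hCr : 0 < Γ.Cr := lt_of_lt_of_le one_pos Γ.Cr_one
  have hcast : ∀ v : O b c, v ∈ Γ.M → (((nm v).natAbs : ℕ) : ℝ) = ((nm v : ℤ) : ℝ) := by
    intro v hv
    rw [← Int.cast_natCast, (Γ.natAbs_nm v hv).1]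
  refine ⟨?_, ?_⟩
  · intro (z : Γ.M) hz
    change Γ.St g (Γ.Cr * Real.sqrt X) (Γ.ang z) = gg g (z : O b c)
    change (((nm (z : O b c)).natAbs : ℕ) : ℝ) ≤ X at hz
    rw [hcast z z.2] at hz
    obtain ⟨s, hsS, hnm, k, hk⟩ := Γ.to_sec z z.2
    have hs0 : s ≠ 0 := by
      rintro rfl
      have h1 := Γ.nm_pos 0 (Γ.sec_M 0 hsS)
      simp [nm] at h1
    obtain ⟨m, s₀, hm, hsm, hcop⟩ := exists_prim s hs0
    have hs₀S : s₀ ∈ Γ.Sec := Γ.sec_pos s₀ m hm (hsm ▸ hsS)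
    have hs₀M := Γ.sec_M s₀ hs₀S
    have hnm0 := Γ.nm_pos s₀ hs₀M
    have hnms : nm s = m ^ 2 * nm s₀ := by rw [hsm, nm_zsmul]
    have hle : nm s₀ ≤ nm s := by
      rw [hnms]
      have h1 : 1 ≤ m ^ 2 := by nlinarith
      nlinarith
    have hle' : ((nm s₀ : ℤ) : ℝ) ≤ X := by
      refine le_trans ?_ hz
      rw [← hnm]
      exact_mod_cast hle
    have hrho : Γ.rho s₀ ≤ Γ.Cr * Real.sqrt X :=
      (Γ.rho_le s₀ (Or.inl hs₀S)).trans
        (mul_le_mul_of_nonneg_left (Real.sqrt_le_sqrt hle') hCr.le)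
    have hmem : s₀ ∈ Γ.Fv (Γ.Cr * Real.sqrt X) := (Γ.mem_Fv _ _).2 ⟨hs₀S, hcop, hrho⟩
    have hdt1 : dt s₀ s = 0 := by
      rw [hsm]; simp only [dt, QuadraticAlgebra.re_smul, QuadraticAlgebra.im_smul, smul_eq_mul]; ring
    have hdt2 : dt s s₀ = 0 := by
      rw [hsm]; simp only [dt, QuadraticAlgebra.re_smul, QuadraticAlgebra.im_smul, smul_eq_mul]; ring
    have hang : Γ.ang s = Γ.ang s₀ := by
      rcases lt_trichotomy (Γ.ang s) (Γ.ang s₀) with h | h | h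
      · have := (Γ.lt_iff s hsS s₀ hs₀S).1 h
        omega
      · exact h
      · have := (Γ.lt_iff s₀ hs₀S s hsS).1 h
        omega
    obtain ⟨ha0, ha1⟩ := Γ.sec_ang s₀ hs₀S
    obtain ⟨v, w, hadj, hv1, hv2⟩ := Γ.exists_adj _ hY (Γ.ang s₀) ha0 ha1
    have hvs : v = s₀ := by
      have hvF := (Γ.mem_Fv _ _).1 hadj.1
      apply Γ.ang_inj v s₀ hvF.1 hs₀S hvF.2.1 hcop
      rcases hv1.lt_or_eq with h | h
      · exact absurd ⟨h, hv2⟩ (hadj.2.2.2 s₀ hmem)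
      · exact h
    subst hvs
    rw [Γ.St_eq g _ hY v w hadj (Γ.ang z) k (by linarith) (by linarith)]
    have hz' : (nm (z : O b c)).natAbs = (m.natAbs * m.natAbs) * (nm v).natAbs := by
      rw [← hnm, hnms, Int.natAbs_mul, Int.natAbs_pow, pow_two]
    have hmpos : 0 < m.natAbs := Int.natAbs_pos.mpr hm.ne'
    simp only [gg]
    rw [hz', hg.1 _ _ (Nat.mul_pos hmpos hmpos) (Γ.natAbs_nm v hs₀M).2, hg.1 _ _ hmpos hmpos]
    rcases hg.2 m.natAbs hmpos with h | h <;> rw [h] <;> ring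
  · intro (z : Γ.M) hz j hj k
    change ¬ (Γ.ang z < j + k ∧ j + k < Γ.ang z + Γ.c0 / Γ.Cr ^ 2 / X)
    change (((nm (z : O b c)).natAbs : ℕ) : ℝ) ≤ X at hz
    rw [hcast z z.2] at hz
    classical
    rintro ⟨h1, h2⟩
    rw [Js, Finset.mem_image] at hj
    obtain ⟨⟨v, w⟩, hvw, rfl⟩ := hj
    rw [Ed, Finset.mem_filter, Finset.mem_product] at hvw
    simp only at h1 h2 hvw
    have hw := hvw.1.2
    rw [Finset.mem_insert] at hw
    have hw' : (w ∈ Γ.Sec ∨ w = Γ.e1) ∧ Γ.rho w ≤ Γ.Cr * Real.sqrt X := by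
      rcases hw with h | h
      · refine ⟨Or.inr h, ?_⟩
        rw [h]
        refine le_trans ?_ hY
        unfold Y0
        exact le_trans (le_max_right _ _) (le_max_left _ _)
      · have h3 := (Γ.mem_Fv _ _).1 h
        exact ⟨Or.inl h3.1, h3.2.2⟩
    have hwM : w ∈ Γ.M := by
      rcases hw'.1 with h | h
      · exact Γ.sec_M w h
      · rw [h]; exact Γ.e1_M
    have hsq : Real.sqrt (nm w) ≤ Γ.Cr * (Γ.Cr * Real.sqrt X) :=
      (Γ.le_rho w hw'.1).trans (mul_le_mul_of_nonneg_left hw'.2 hCr.le)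
    have hc1 : Γ.c0 / Γ.Cr ^ 2 / X ≤ 1 := by
      rw [div_le_one hXpos]; exact hX1
    rcases Γ.sep z z.2 w hwM with ⟨k', hk'⟩ | hsep
    · have h3 : (0 : ℝ) < ((k - k' : ℤ) : ℝ) := by push_cast; linarith
      have h4 : ((k - k' : ℤ) : ℝ) < 1 := by push_cast; linarith
      have h5 : (0 : ℤ) < k - k' := by exact_mod_cast h3
      have h6 : k - k' < 1 := by exact_mod_cast h4
      omega
    · have h3 := hsep k
      have h4 : |Γ.ang z - Γ.ang w - k| < Γ.c0 / Γ.Cr ^ 2 / X := by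
        rw [abs_of_neg (by linarith)]; linarith
      have hnz : (0 : ℝ) ≤ (nm (z : O b c) : ℤ) := by
        exact_mod_cast (Γ.nm_pos z z.2).le
      have h5 : Real.sqrt ((nm (z : O b c) : ℝ) * nm w) ≤ Γ.Cr ^ 2 * X := by
        rw [Real.sqrt_mul hnz]
        calc Real.sqrt (nm (z : O b c) : ℝ) * Real.sqrt (nm w : ℝ)
            ≤ Real.sqrt X * (Γ.Cr * (Γ.Cr * Real.sqrt X)) :=
              mul_le_mul (Real.sqrt_le_sqrt hz) hsq (Real.sqrt_nonneg _) (Real.sqrt_nonneg _)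
          _ = Γ.Cr ^ 2 * (Real.sqrt X * Real.sqrt X) := by ring
          _ = Γ.Cr ^ 2 * X := by rw [Real.mul_self_sqrt hXpos.le]
      have h6 : 0 < Γ.Cr ^ 2 * X := by positivity
      have h7 : |Γ.ang z - Γ.ang w - k| * Real.sqrt ((nm (z : O b c) : ℝ) * nm w) < Γ.c0 := by
        calc |Γ.ang z - Γ.ang w - k| * Real.sqrt ((nm (z : O b c) : ℝ) * nm w)
            ≤ |Γ.ang z - Γ.ang w - k| * (Γ.Cr ^ 2 * X) :=
              mul_le_mul_of_nonneg_left h5 (abs_nonneg _)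
          _ < Γ.c0 / Γ.Cr ^ 2 / X * (Γ.Cr ^ 2 * X) := mul_lt_mul_of_pos_right h4 h6
          _ = Γ.c0 := by field_simp
      exact absurd h3 (not_le.mpr h7)

end Geo

end Pool.Agent.Lib.MP_648c71_nt.HP
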