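import Pool.Agent.Lib.MP_648c71_nt.Lattice
import Pool.Agent.Lib.MP_648c71_nt.HP.Defs
import Pool.Agent.Lib.MP_648c71_nt.HP.W6

/-!
# The geometry of `ℤ[ω]` used in the proof, for both signs of the discriminant

`M` are the elements of positive norm (positive discriminant: totally positive elements), `ang` is the angle
modulo 1, `Sec` a fundamental sector `0 ≤ ang < 1` with last ray `e1`, `rho` a convex gauge comparable to `√nm`.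
-/

set_option autoImplicit false

namespace Pool.Agent.Lib.MP_648c71_nt.HP

open Finset MeasureTheory

/-- The geometric input. -/
structure Geo (b c : ℤ) where
  M : Submonoid (O b c)
  Sec : Set (O b c)
  ang : O b c → ℝ
  rho : O b c → ℝ
  e1 : O b c
  u0 : O b c
  U : Finset (O b c)
  ω1 : ℂ
  ω2 : ℂ
  C0 : ℝ
  q0 : ℕ
  Cr : ℝ
  Cs : ℝ
  Cg : ℝ
  c0 : ℝ
  Cη : ℕ
  hD : ¬ IsSquare (b ^ 2 - 4 * c)
  hω : ω1 ≠ ω2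
  C0_pos : 0 < C0
  q0_pos : 0 < q0
  Cr_one : 1 ≤ Cr
  Cs_one : 1 ≤ Cs
  Cg_one : 1 ≤ Cg
  c0_pos : 0 < c0
  Cη_one : 1 ≤ Cη
  -- elements of positive norm and the angle
  nm_pos : ∀ z ∈ M, 0 < nm z
  ang_mul : ∀ z ∈ M, ∀ w ∈ M, ∃ k : ℤ, ang (z * w) = ang z + ang w + k
  sep : ∀ v ∈ M, ∀ w ∈ M, (∃ k : ℤ, ang v - ang w = k) ∨
    ∀ k : ℤ, c0 ≤ |ang v - ang w - k| * Real.sqrt ((nm v : ℝ) * nm w)
  pos_M : ∀ z : O b c, 0 < nm z → z ∈ M ∨ -z ∈ M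
  fix : ∀ z : O b c, nm z ≠ 0 → ∃ z' ∈ M, ∃ k : ℕ, 1 ≤ k ∧ k ≤ Cη ∧ nm z' = k * |nm z|
  -- the sector
  sec_M : ∀ z ∈ Sec, z ∈ M
  e1_M : e1 ∈ M
  to_sec : ∀ z ∈ M, ∃ s ∈ Sec, nm s = nm z ∧ ∃ k : ℤ, ang z = ang s + k
  sec_ang : ∀ z ∈ Sec, 0 ≤ ang z ∧ ang z < 1
  one_sec : (1 : O b c) ∈ Sec
  ang_one : ang 1 = 0
  ang_e1 : ang e1 = 1
  nm_e1 : nm e1 = 1
  lt_iff : ∀ v ∈ Sec, ∀ w ∈ Sec, (ang v < ang w ↔ 0 < dt v w)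
  dt_e1 : ∀ v ∈ Sec, 0 < ang v → 0 < dt v e1
  between : ∀ v ∈ Sec, ∀ w : O b c, (w ∈ Sec ∨ w = e1) → 0 < dt v w →
    ∀ u : O b c, 0 < dt v u → 0 < dt u w → u ∈ Sec
  sec_pos : ∀ (v : O b c) (k : ℤ), 0 < k → k • v ∈ Sec → v ∈ Sec
  sec_neg : ∀ v ∈ Sec, -v ∉ Sec
  -- the gauge
  rho_add : ∀ v w : O b c, rho (v + w) ≤ rho v + rho w
  rho_smul : ∀ (k : ℤ) (v : O b c), 0 ≤ k → rho (k • v) = k * rho v
  rho_le : ∀ v : O b c, (v ∈ Sec ∨ v = e1) → rho v ≤ Cr * Real.sqrt (nm v)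
  le_rho : ∀ v : O b c, (v ∈ Sec ∨ v = e1) → Real.sqrt (nm v) ≤ Cr * rho v
  size : ∀ v : O b c, (v ∈ Sec ∨ v = e1) →
    |(v.re : ℝ)| ≤ Cs * Real.sqrt (nm v) ∧ |(v.im : ℝ)| ≤ Cs * Real.sqrt (nm v)
  -- neighbours
  u0_sec : u0 ∈ Sec
  u0_prim : IsCoprime u0.re u0.im
  near : ∀ v ∈ Sec, ∀ w : O b c, (w ∈ Sec ∨ w = e1) → dt v w = 1 → (0 ≤ dt u0 v ∨ 0 ≤ dt w u0) →
    ang w - ang v ≤ Cg / (Real.sqrt (nm v) * Real.sqrt (nm w)) ∧ -Cg ≤ (sc v w : ℝ)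
  -- units
  unit_fin : ∀ v ∈ Sec, ∀ t : O b c, nm t = 1 → v * t ∈ Sec → t ∈ U
  -- the narrow cone at the direction of `1`
  narrow : ∀ x y : ℤ, 0 < y → (q0 : ℤ) * y ≤ x → (⟨x, y⟩ : O b c) ∈ Sec ∧
    ang (⟨x, y⟩ : O b c) < 1 / 4 ∧ ang (⟨x, y⟩ : O b c) = C0 * LG ω1 ω2 y 0 x

/-- completely multiplicative with values `±1` on the positive integers -/
def CM (g : ℕ → ℝ) : Prop :=
  (∀ m n : ℕ, 0 < m → 0 < n → g (m * n) = g m * g n) ∧ ∀ n : ℕ, 0 < n → g n = 1 ∨ g n = -1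

variable {b c : ℤ}

namespace Geo

variable (Γ : Geo b c)

/-- the ring `M` acts: sign of an element -/
noncomputable def gg (g : ℕ → ℝ) (v : O b c) : ℝ := g (nm v).natAbs

/-- the vector `q0 + ω` of the sector; its angle is positive -/
def mid : O b c := ⟨Γ.q0, 1⟩

/-- the threshold for the gauge: `1, e1, u0, mid` have gauge `≤ Y0` -/
noncomputable def Y0 : ℝ := max (max (Γ.rho 1) (Γ.rho Γ.e1)) (max (Γ.rho Γ.u0) (Γ.rho Γ.mid))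

theorem rho_one_le : Γ.rho 1 ≤ Γ.Y0 := (le_max_left _ _).trans (le_max_left _ _)

theorem rho_e1_le : Γ.rho Γ.e1 ≤ Γ.Y0 := (le_max_right _ _).trans (le_max_left _ _)

theorem rho_u0_le : Γ.rho Γ.u0 ≤ Γ.Y0 := (le_max_left _ _).trans (le_max_right _ _)

theorem rho_mid_le : Γ.rho Γ.mid ≤ Γ.Y0 := (le_max_right _ _).trans (le_max_right _ _)

theorem mid_sec : Γ.mid ∈ Γ.Sec := by
  have h := (Γ.narrow Γ.q0 1 one_pos (by simp)).1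
  exact h

theorem mid_ang : 0 < Γ.ang Γ.mid := by
  have h := (Γ.lt_iff 1 Γ.one_sec Γ.mid Γ.mid_sec).2 (by simp only [dt, mid, QuadraticAlgebra.re_one, QuadraticAlgebra.im_one]; norm_num)
  rwa [Γ.ang_one] at h

theorem mid_prim : IsCoprime Γ.mid.re Γ.mid.im := ⟨0, 1, by simp [mid]⟩

/-- primitive vectors of the sector with gauge `≤ Y` -/
def FV (Y : ℝ) : Set (O b c) := {v | v ∈ Γ.Sec ∧ IsCoprime v.re v.im ∧ Γ.rho v ≤ Y}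

end Geo

end Pool.Agent.Lib.MP_648c71_nt.HP
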