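import Pool.Agent.Lib.MP_648c71_nt.HP.PBase
import Pool.Agent.Lib.MP_648c71_nt.HP.Geo

/-!
# The geometric input for positive discriminant

`M` = totally positive elements, `ang = log(z₁/z₂)/(2 log ε₁)`, fundamental sector `z₂ ≤ z₁ < ε₁² z₂`.
-/

set_option autoImplicit false

namespace Pool.Agent.Lib.MP_648c71_nt.HP

open Finset MeasureTheory Pool.Agent.Lib.MP_648c71_nt.PB

namespace InstPos

variable {b c : ℤ}

theorem rr_one (hD : 4 * c < b ^ 2) : 1 ≤ rr b c := by
  have h1 := rr_sq hD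
  have h2 := rr_pos hD
  have h3 : (1 : ℝ) ≤ (b : ℝ) ^ 2 - 4 * c := by
    have : 1 ≤ b ^ 2 - 4 * c := by omega
    exact_mod_cast this
  nlinarith

theorem p_dt (v w : O b c) : p1 w * p2 v - p1 v * p2 w = rr b c * dt v w := by
  rw [← w_sub]
  simp only [p1, p2, dt]
  push_cast
  ring

theorem rr_im (v : O b c) : rr b c * v.im = p1 v - p2 v := by
  rw [← w_sub]
  simp only [p1, p2]
  ring

theorem rr_re (v : O b c) : rr b c * v.re = w1 b c * p2 v - w2 b c * p1 v := by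
  rw [← w_sub]
  simp only [p1, p2]
  ring

theorem p1_one : p1 (1 : O b c) = 1 := by
  simp [p1, QuadraticAlgebra.re_one, QuadraticAlgebra.im_one]

theorem p2_one : p2 (1 : O b c) = 1 := by
  simp [p2, QuadraticAlgebra.re_one, QuadraticAlgebra.im_one]

theorem p1_add (v w : O b c) : p1 (v + w) = p1 v + p1 w := by
  simp only [p1, QuadraticAlgebra.re_add, QuadraticAlgebra.im_add]
  push_cast; ring

theorem p2_add (v w : O b c) : p2 (v + w) = p2 v + p2 w := by
  simp only [p2, QuadraticAlgebra.re_add, QuadraticAlgebra.im_add]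
  push_cast; ring

theorem p1_smul (k : ℤ) (v : O b c) : p1 (k • v) = k * p1 v := by
  simp only [p1, QuadraticAlgebra.re_smul, QuadraticAlgebra.im_smul, smul_eq_mul]
  push_cast; ring

theorem p2_smul (k : ℤ) (v : O b c) : p2 (k • v) = k * p2 v := by
  simp only [p2, QuadraticAlgebra.re_smul, QuadraticAlgebra.im_smul, smul_eq_mul]
  push_cast; ring

theorem p1_neg (v : O b c) : p1 (-v) = -p1 v := by
  simp only [p1, QuadraticAlgebra.re_neg, QuadraticAlgebra.im_neg]
  push_cast; ring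

theorem p2_neg (v : O b c) : p2 (-v) = -p2 v := by
  simp only [p2, QuadraticAlgebra.re_neg, QuadraticAlgebra.im_neg]
  push_cast; ring

/-- totally positive -/
def TP (v : O b c) : Prop := 0 < p1 v ∧ 0 < p2 v

theorem TP.nm_pos (hD : 4 * c < b ^ 2) {v : O b c} (h : TP v) : 0 < nm v := by
  have h1 := p_mul hD v
  have h2 : 0 < p1 v * p2 v := mul_pos h.1 h.2
  rw [h1] at h2
  exact_mod_cast h2

theorem TP.mul (hD : 4 * c < b ^ 2) {v w : O b c} (hv : TP v) (hw : TP w) : TP (v * w) := by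
  refine ⟨?_, ?_⟩
  · rw [p1_mul hD]; exact mul_pos hv.1 hw.1
  · rw [p2_mul hD]; exact mul_pos hv.2 hw.2

theorem TP.one : TP (1 : O b c) := by
  refine ⟨?_, ?_⟩
  · rw [p1_one]; exact one_pos
  · rw [p2_one]; exact one_pos

theorem TP.pow (hD : 4 * c < b ^ 2) {v : O b c} (hv : TP v) (n : ℕ) : TP (v ^ n) := by
  induction n with
  | zero => rw [pow_zero]; exact TP.one
  | succ n ih => rw [pow_succ]; exact ih.mul hD hv

theorem TP.star {v : O b c} (hv : TP v) : TP (star v) := by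
  refine ⟨?_, ?_⟩
  · rw [p1_star]; exact hv.2
  · rw [p2_star]; exact hv.1

theorem TP.Lg_mul (hD : 4 * c < b ^ 2) {v w : O b c} (hv : TP v) (hw : TP w) :
    Lg (v * w) = Lg v + Lg w :=
  Pool.Agent.Lib.MP_648c71_nt.PB.Lg_mul hD (hv.nm_pos hD).ne' (hw.nm_pos hD).ne'

/-- the order of the directions -/
theorem TP.lt_iff (hD : 4 * c < b ^ 2) {v w : O b c} (hv : TP v) (hw : TP w) :
    Lg v < Lg w ↔ 0 < dt v w := by
  have h1 := p_dt v w
  have hr := rr_pos hD
  have e : Lg v < Lg w ↔ p1 v * p2 w < p1 w * p2 v := by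
    rw [← Real.log_lt_log_iff (mul_pos hv.1 hw.2) (mul_pos hw.1 hv.2),
      Real.log_mul hv.1.ne' hw.2.ne', Real.log_mul hw.1.ne' hv.2.ne']
    unfold Lg
    constructor <;> intro h <;> linarith
  rw [e]
  constructor
  · intro h
    have h2 : 0 < rr b c * (dt v w : ℝ) := by rw [← h1]; linarith
    have h3 : (0 : ℝ) < (dt v w : ℝ) := (mul_pos_iff_of_pos_left hr).mp h2
    exact_mod_cast h3
  · intro h
    have h3 : (0 : ℝ) < (dt v w : ℝ) := by exact_mod_cast h
    have h2 : 0 < rr b c * (dt v w : ℝ) := mul_pos hr h3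
    rw [← h1] at h2; linarith

theorem Lg_smul {k : ℤ} (hk : 0 < k) {v : O b c} (hv : TP v) : Lg (k • v) = Lg v := by
  have hk' : (0 : ℝ) < k := by exact_mod_cast hk
  unfold Lg
  rw [p1_smul, p2_smul, Real.log_mul hk'.ne' hv.1.ne', Real.log_mul hk'.ne' hv.2.ne']
  ring

/-- a unit of norm 1 larger than 1 -/
theorem exists_eps (hD : 4 * c < b ^ 2) (hs : ¬ IsSquare (b ^ 2 - 4 * c)) :
    ∃ e : O b c, nm e = 1 ∧ 1 < p1 e ∧ 0 < p2 e := by
  obtain ⟨x, y, h1, h2⟩ := Pell.exists_of_not_isSquare (d := b ^ 2 - 4 * c) (by omega) hs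
  have hx0 : x ≠ 0 := by
    rintro rfl
    have : 0 < y ^ 2 := by positivity
    nlinarith [show 0 < b ^ 2 - 4 * c by omega]
  have hr := rr_sq hD
  have hrp := rr_pos hD
  have key : ∃ x y : ℤ, x ^ 2 - (b ^ 2 - 4 * c) * y ^ 2 = 1 ∧ 1 ≤ x ∧ 1 ≤ y := by
    refine ⟨|x|, |y|, ?_, ?_, ?_⟩
    · rw [sq_abs, sq_abs]; exact h1
    · exact Int.one_le_abs hx0
    · exact Int.one_le_abs h2
  obtain ⟨x, y, h1, hx, hy⟩ := key
  have hx' : (1 : ℝ) ≤ x := by exact_mod_cast hx
  have hy' : (1 : ℝ) ≤ y := by exact_mod_cast hy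
  have hn : nm (⟨x - b * y, 2 * y⟩ : O b c) = 1 := by
    simp only [nm]; linear_combination h1
  have hp : p1 (⟨x - b * y, 2 * y⟩ : O b c) = x + y * rr b c := by
    simp only [p1, w1]; push_cast; ring
  have hm := p_mul hD (⟨x - b * y, 2 * y⟩ : O b c)
  have hlt : 1 < p1 (⟨x - b * y, 2 * y⟩ : O b c) := by
    rw [hp]; nlinarith
  refine ⟨⟨x - b * y, 2 * y⟩, hn, hlt, ?_⟩
  rw [hn] at hm
  have h0 : 0 < p1 (⟨x - b * y, 2 * y⟩ : O b c) := by linarith
  have hm' : 0 < p1 (⟨x - b * y, 2 * y⟩ : O b c) * p2 (⟨x - b * y, 2 * y⟩ : O b c) := by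
    rw [hm]; norm_num
  exact (mul_pos_iff_of_pos_left h0).mp hm'

section unit

variable (hD : 4 * c < b ^ 2) {e : O b c} (he : nm e = 1) (h1 : 1 < p1 e) (h2 : 0 < p2 e)

include hD he h1 h2

omit hD he in
theorem tp_e : TP e := ⟨by linarith, h2⟩

theorem Lg_e : Lg e = 2 * Real.log (p1 e) := by
  have h := p_mul hD e
  rw [he] at h
  have hp : 0 < p1 e := by linarith
  have h3 : Real.log (p1 e) + Real.log (p2 e) = 0 := by
    rw [← Real.log_mul hp.ne' h2.ne', h]; simp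
  unfold Lg; linarith

theorem Lg_e_pos : 0 < Lg e := by
  rw [Lg_e hD he h1 h2]
  have := Real.log_pos h1
  linarith

/-- powers of the unit -/
theorem exists_pow (k : ℤ) : ∃ t : O b c, TP t ∧ nm t = 1 ∧ Lg t = k * Lg e := by
  have ht := tp_e h1 h2
  rcases Int.eq_nat_or_neg k with ⟨n, rfl | rfl⟩
  · refine ⟨e ^ n, ht.pow hD n, ?_, ?_⟩
    · rw [nm_eq_norm, map_pow, ← nm_eq_norm, he, one_pow]
    · rw [Lg_pow hD (by rw [he]; exact one_ne_zero)]; push_cast; ring
  · refine ⟨(star e) ^ n, (ht.star).pow hD n, ?_, ?_⟩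
    · rw [nm_eq_norm, map_pow, ← nm_eq_norm, nm_star, he, one_pow]
    · rw [Lg_pow hD (by rw [nm_star, he]; exact one_ne_zero), Lg_star]; push_cast; ring

/-- elements with ratio at most `ε₁²` -/
theorem ratio {v : O b c} (hv : TP v) (h0 : 0 ≤ Lg v) (hL : Lg v ≤ Lg e) :
    p2 v ≤ p1 v ∧ p1 v ≤ p1 e ^ 2 * p2 v := by
  have hp : 0 < p1 e := by linarith
  constructor
  · have : Real.log (p2 v) ≤ Real.log (p1 v) := by unfold Lg at h0; linarith
    exact (Real.log_le_log_iff hv.2 hv.1).mp this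
  · rw [Lg_e hD he h1 h2] at hL
    have : Real.log (p1 v) ≤ Real.log (p1 e ^ 2 * p2 v) := by
      rw [Real.log_mul (pow_pos hp 2).ne' hv.2.ne', Real.log_pow]
      unfold Lg at hL; push_cast; linarith
    exact (Real.log_le_log_iff hv.1 (mul_pos (pow_pos hp 2) hv.2)).mp this

theorem size_bounds {v : O b c} (hv : TP v) (h0 : 0 ≤ Lg v) (hL : Lg v ≤ Lg e) :
    p1 v ≤ p1 e * Real.sqrt (nm v) ∧ p2 v ≤ Real.sqrt (nm v) ∧ Real.sqrt (nm v) ≤ p1 v := by
  obtain ⟨r1, r2⟩ := ratio hD he h1 h2 hv h0 hL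
  have hp : 0 < p1 e := by linarith
  have hm := p_mul hD v
  rw [← hm]
  have hv1 := hv.1
  have hv2 := hv.2
  refine ⟨?_, ?_, ?_⟩
  · rw [← Real.sqrt_sq hp.le, ← Real.sqrt_mul (sq_nonneg _)]
    apply Real.le_sqrt_of_sq_le
    nlinarith
  · apply Real.le_sqrt_of_sq_le
    nlinarith
  · rw [Real.sqrt_le_left hv1.le]
    nlinarith

end unit

/-- a finite set containing all small elements -/
theorem exists_finset (B : ℝ) : ∃ U : Finset (O b c), ∀ t : O b c,
    |(t.re : ℝ)| ≤ B → |(t.im : ℝ)| ≤ B → t ∈ U := by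
  classical
  refine ⟨((Finset.Icc (-⌈B⌉) ⌈B⌉) ×ˢ (Finset.Icc (-⌈B⌉) ⌈B⌉)).image
    (fun p : ℤ × ℤ => (⟨p.1, p.2⟩ : O b c)), ?_⟩
  intro t h1 h2
  rw [Finset.mem_image]
  refine ⟨(t.re, t.im), ?_, rfl⟩
  have aux : ∀ m : ℤ, |(m : ℝ)| ≤ B → -⌈B⌉ ≤ m ∧ m ≤ ⌈B⌉ := by
    intro m hm
    have h3 := abs_le.mp hm
    have h4 := Int.le_ceil B
    constructor
    · have : (-⌈B⌉ : ℝ) ≤ m := by linarith [h3.1]
      exact_mod_cast this
    · have : (m : ℝ) ≤ ⌈B⌉ := by linarith [h3.2]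
      exact_mod_cast this
  rw [Finset.mem_product, Finset.mem_Icc, Finset.mem_Icc]
  exact ⟨aux _ h1, aux _ h2⟩

theorem coord_bounds (hD : 4 * c < b ^ 2) (v : O b c) {R : ℝ} (hR : 0 ≤ R)
    (h1 : 0 < p1 v) (h1' : p1 v ≤ R) (h2 : 0 < p2 v) (h2' : p2 v ≤ R) :
    |(v.re : ℝ)| ≤ (1 + |w1 b c| + |w2 b c|) * R ∧ |(v.im : ℝ)| ≤ (1 + |w1 b c| + |w2 b c|) * R := by
  have hr := rr_one hD
  have e1 := rr_im v
  have e2 := rr_re v
  have a1 := abs_nonneg (w1 b c)
  have a2 := abs_nonneg (w2 b c)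
  constructor
  · have h3 : |(v.re : ℝ)| ≤ rr b c * |(v.re : ℝ)| := by
      nlinarith [abs_nonneg (v.re : ℝ)]
    have h4 : rr b c * |(v.re : ℝ)| = |rr b c * v.re| := by
      rw [abs_mul, abs_of_pos (by linarith : 0 < rr b c)]
    rw [h4, e2] at h3
    have h5 : |w1 b c * p2 v - w2 b c * p1 v| ≤ |w1 b c| * R + |w2 b c| * R := by
      refine (abs_sub _ _).trans ?_
      rw [abs_mul, abs_mul, abs_of_pos h1, abs_of_pos h2]
      exact add_le_add (mul_le_mul_of_nonneg_left h2' a1) (mul_le_mul_of_nonneg_left h1' a2)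
    nlinarith
  · have h3 : |(v.im : ℝ)| ≤ rr b c * |(v.im : ℝ)| := by
      nlinarith [abs_nonneg (v.im : ℝ)]
    have h4 : rr b c * |(v.im : ℝ)| = |rr b c * v.im| := by
      rw [abs_mul, abs_of_pos (by linarith : 0 < rr b c)]
    rw [h4, e1] at h3
    have h5 : |p1 v - p2 v| ≤ R := by
      rw [abs_le]; constructor <;> linarith
    have h6 : R ≤ (1 + |w1 b c| + |w2 b c|) * R := by nlinarith
    linarith

/-- separation: two positive numbers whose difference is at least 1 and product `N ≥ 1` -/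
theorem log_sep {A B : ℝ} (hA : 0 < A) (hB : 0 < B) (hN : 1 ≤ A * B) (h : 1 ≤ A - B) :
    1 / 2 ≤ (Real.log A - Real.log B) * Real.sqrt (A * B) := by
  have hs : 0 < Real.sqrt (A * B) := Real.sqrt_pos.mpr (by linarith)
  have hs2 : Real.sqrt (A * B) ^ 2 = A * B := Real.sq_sqrt (by linarith)
  have hs1 : 1 ≤ Real.sqrt (A * B) := by
    rw [show (1 : ℝ) = Real.sqrt 1 by simp]; exact Real.sqrt_le_sqrt hN
  have h1 : 1 - (A / B)⁻¹ ≤ Real.log (A / B) := Real.one_sub_inv_le_log_of_pos (by positivity)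
  rw [Real.log_div hA.ne' hB.ne', inv_div] at h1
  set s := Real.sqrt (A * B) with hsdef
  have h2 : (1 - B / A) * s ≤ (Real.log A - Real.log B) * s := mul_le_mul_of_nonneg_right h1 hs.le
  refine le_trans ?_ h2
  have e : (1 - B / A) * s = (A - B) * s / A := by field_simp
  rw [e, le_div_iff₀ hA]
  -- goal: 1/2 * A ≤ (A - B) * s
  by_cases hc : A ≤ 2 * s
  · nlinarith
  · push Not at hc
    -- B A = s², A > 2s → B < s/2 < A/4
    have h3 : B * (2 * s) < s * s := by nlinarith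
    have h4 : 2 * B < s := by nlinarith
    nlinarith

/-- the submonoid of totally positive elements -/
def MM (hD : 4 * c < b ^ 2) : Submonoid (O b c) where
  carrier := {z | TP z}
  one_mem' := TP.one
  mul_mem' := fun {_ _} h1 h2 => TP.mul hD h1 h2

theorem mem_MM (hD : 4 * c < b ^ 2) (z : O b c) : z ∈ MM hD ↔ TP z := Iff.rfl

section unit

variable (hD : 4 * c < b ^ 2) {e : O b c} (he : nm e = 1) (h1 : 1 < p1 e) (h2 : 0 < p2 e)

include hD he h1 h2

omit he h1 h2 in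
theorem ang_sep {v w : O b c} (hv : TP v) (hw : TP w) (h : Lg v ≠ Lg w) :
    1 / 2 ≤ |Lg v - Lg w| * Real.sqrt ((nm v : ℝ) * nm w) := by
  have hr := rr_one hD
  have hd := p_dt v w
  -- A = p1 w p2 v, B = p1 v p2 w
  have hA : 0 < p1 w * p2 v := mul_pos hw.1 hv.2
  have hB : 0 < p1 v * p2 w := mul_pos hv.1 hw.2
  have hN : (nm v : ℝ) * nm w = (p1 w * p2 v) * (p1 v * p2 w) := by
    rw [← p_mul hD v, ← p_mul hD w]; ring
  have hN1 : 1 ≤ (nm v : ℝ) * nm w := by
    have a := hv.nm_pos hD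
    have b' := hw.nm_pos hD
    have : 1 ≤ nm v * nm w := by nlinarith
    exact_mod_cast this
  have hlog : Real.log (p1 w * p2 v) - Real.log (p1 v * p2 w) = Lg w - Lg v := by
    rw [Real.log_mul hw.1.ne' hv.2.ne', Real.log_mul hv.1.ne' hw.2.ne']
    unfold Lg; ring
  rcases lt_or_gt_of_ne h with h | h
  · have hdt := (hv.lt_iff hD hw).mp h
    have hdt' : (1 : ℝ) ≤ dt v w := by exact_mod_cast hdt
    have h3 : 1 ≤ p1 w * p2 v - p1 v * p2 w := by rw [hd]; nlinarith
    have h4 := log_sep hA hB (by rw [← hN]; exact hN1) h3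
    rw [hlog, ← hN] at h4
    rw [abs_sub_comm, abs_of_pos (by linarith)]
    exact h4
  · have hdt := (hw.lt_iff hD hv).mp h
    have hdt' : (1 : ℝ) ≤ dt w v := by exact_mod_cast hdt
    have hd' := p_dt w v
    have h3 : 1 ≤ p1 v * p2 w - p1 w * p2 v := by rw [hd']; nlinarith
    have h4 := log_sep hB hA (by rw [mul_comm, ← hN]; exact hN1) h3
    rw [mul_comm (p1 v * p2 w) (p1 w * p2 v), ← hN] at h4
    rw [abs_of_pos (by linarith)]
    have : Real.log (p1 v * p2 w) - Real.log (p1 w * p2 v) = Lg v - Lg w := by linarith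
    rw [this] at h4
    exact h4

theorem near_bound {v w : O b c} (hv : TP v) (hw : TP w) (hv0 : 0 ≤ Lg v) (hvL : Lg v ≤ Lg e)
    (hw0 : 0 ≤ Lg w) (hwL : Lg w ≤ Lg e) (hdt : dt v w = 1) :
    (Lg w - Lg v) * (Real.sqrt (nm v) * Real.sqrt (nm w)) ≤ rr b c * p1 e ∧
      -w2 b c ≤ (sc v w : ℝ) := by
  have hr := rr_one hD
  have hE : 0 < p1 e := by linarith
  have hd := p_dt v w
  rw [hdt] at hd
  push_cast at hd
  set A := p1 v * p2 w with hAdef
  set B := p1 w * p2 v with hBdef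
  have hA : 0 < A := mul_pos hv.1 hw.2
  have hB : 0 < B := mul_pos hw.1 hv.2
  have hnv := hv.nm_pos hD
  have hnw := hw.nm_pos hD
  constructor
  · -- log(B/A) ≤ rr/A
    have hlog : Real.log B - Real.log A = Lg w - Lg v := by
      rw [hAdef, hBdef, Real.log_mul hw.1.ne' hv.2.ne', Real.log_mul hv.1.ne' hw.2.ne']
      unfold Lg; ring
    have h3 : Real.log (B / A) ≤ B / A - 1 := Real.log_le_sub_one_of_pos (by positivity)
    rw [Real.log_div hB.ne' hA.ne', hlog] at h3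
    have h4 : B / A - 1 = rr b c / A := by
      rw [div_sub_one hA.ne']; congr 1; linarith
    rw [h4] at h3
    have hN : Real.sqrt (nm v) * Real.sqrt (nm w) = Real.sqrt (A * B) := by
      rw [← Real.sqrt_mul (by exact_mod_cast hnv.le), ← p_mul hD v, ← p_mul hD w]
      congr 1; rw [hAdef, hBdef]; ring
    rw [hN]
    -- √(AB) ≤ E A
    have hBA : B ≤ p1 e ^ 2 * A := by
      obtain ⟨_, r2⟩ := ratio hD he h1 h2 hw hw0 hwL
      obtain ⟨r1, _⟩ := ratio hD he h1 h2 hv hv0 hvL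
      calc B = p1 w * p2 v := rfl
        _ ≤ (p1 e ^ 2 * p2 w) * p2 v := mul_le_mul_of_nonneg_right r2 hv.2.le
        _ ≤ (p1 e ^ 2 * p2 w) * p1 v :=
            mul_le_mul_of_nonneg_left r1 (mul_nonneg (sq_nonneg _) hw.2.le)
        _ = p1 e ^ 2 * A := by rw [hAdef]; ring
    have h5 : Real.sqrt (A * B) ≤ p1 e * A := by
      rw [Real.sqrt_le_left (by positivity)]
      nlinarith
    have h6 : 0 ≤ rr b c / A := by positivity
    calc (Lg w - Lg v) * Real.sqrt (A * B) ≤ rr b c / A * Real.sqrt (A * B) :=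
          mul_le_mul_of_nonneg_right h3 (Real.sqrt_nonneg _)
      _ ≤ rr b c / A * (p1 e * A) := mul_le_mul_of_nonneg_left h5 h6
      _ = rr b c * p1 e := by field_simp
  · have h3 : p2 (star v * w) = A := by rw [p2_mul hD, p2_star]
    rw [star_mul_eq, hdt] at h3
    simp only [p2] at h3
    push_cast at h3
    linarith

end unit

theorem narrow_aux (hb : 1 ≤ b) (hc : 2 ≤ c) (hD : 4 * c < b ^ 2) {x y : ℤ} (hy : 0 < y)
    (hx : 0 < x) : TP (⟨x, y⟩ : O b c) ∧ 0 ≤ Lg (⟨x, y⟩ : O b c) ∧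
      (x : ℝ) * Lg (⟨x, y⟩ : O b c) ≤ rr b c * y ∧
      Lg (⟨x, y⟩ : O b c) = rr b c * LG (w1 b c : ℂ) (w2 b c : ℂ) y 0 x := by
  have hr := rr_pos hD
  have hw2 : 0 < w2 b c := by
    have h := rr_sq hD
    have hb' : (1 : ℝ) ≤ b := by exact_mod_cast hb
    have hc' : (2 : ℝ) ≤ c := by exact_mod_cast hc
    have : rr b c < b := by nlinarith
    unfold w2; linarith
  have hw1 : w1 b c = w2 b c + rr b c := by have := w_sub (b := b) (c := c); linarith
  have hx' : (0 : ℝ) < x := by exact_mod_cast hx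
  have hy' : (0 : ℝ) < y := by exact_mod_cast hy
  have e2 : p2 (⟨x, y⟩ : O b c) = x + y * w2 b c := rfl
  have e1 : p1 (⟨x, y⟩ : O b c) = x + y * w1 b c := rfl
  have g2 : 0 < p2 (⟨x, y⟩ : O b c) := by rw [e2]; positivity
  have g1 : 0 < p1 (⟨x, y⟩ : O b c) := by
    rw [e1, hw1]; positivity
  have e12 : p1 (⟨x, y⟩ : O b c) = p2 (⟨x, y⟩ : O b c) + rr b c * y := by
    rw [e1, e2, hw1]; ring
  refine ⟨⟨g1, g2⟩, ?_, ?_, ?_⟩
  · unfold Lg
    have : Real.log (p2 (⟨x, y⟩ : O b c)) ≤ Real.log (p1 (⟨x, y⟩ : O b c)) := by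
      apply Real.log_le_log g2
      rw [e12]; nlinarith
    linarith
  · have h3 : Real.log (p1 (⟨x, y⟩ : O b c) / p2 (⟨x, y⟩ : O b c)) ≤
        p1 (⟨x, y⟩ : O b c) / p2 (⟨x, y⟩ : O b c) - 1 :=
      Real.log_le_sub_one_of_pos (by positivity)
    rw [Real.log_div g1.ne' g2.ne'] at h3
    have h4 : p1 (⟨x, y⟩ : O b c) / p2 (⟨x, y⟩ : O b c) - 1 =
        rr b c * y / p2 (⟨x, y⟩ : O b c) := by
      rw [div_sub_one g2.ne', e12]; congr 1; ring
    rw [h4] at h3
    have h5 : (x : ℝ) ≤ p2 (⟨x, y⟩ : O b c) := by rw [e2]; nlinarith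
    have h6 : 0 ≤ rr b c * y / p2 (⟨x, y⟩ : O b c) := by positivity
    calc (x : ℝ) * Lg (⟨x, y⟩ : O b c) ≤ x * (rr b c * y / p2 (⟨x, y⟩ : O b c)) :=
          mul_le_mul_of_nonneg_left h3 hx'.le
      _ ≤ p2 (⟨x, y⟩ : O b c) * (rr b c * y / p2 (⟨x, y⟩ : O b c)) :=
          mul_le_mul_of_nonneg_right h5 h6
      _ = rr b c * y := by field_simp
  · have c1 : ((x : ℝ) : ℂ) + ((y : ℝ) : ℂ) * (w1 b c : ℂ) = ((p1 (⟨x, y⟩ : O b c) : ℝ) : ℂ) := by
      rw [e1]; push_cast; ring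
    have c2 : ((x : ℝ) : ℂ) + ((y : ℝ) : ℂ) * (w2 b c : ℂ) = ((p2 (⟨x, y⟩ : O b c) : ℝ) : ℂ) := by
      rw [e2]; push_cast; ring
    have c3 : (w1 b c : ℂ) - (w2 b c : ℂ) = ((rr b c : ℝ) : ℂ) := by
      rw [← w_sub]; push_cast; ring
    simp only [LG]
    rw [c1, c2, c3, ← Complex.ofReal_log g1.le, ← Complex.ofReal_log g2.le, ← Complex.ofReal_sub,
      ← Complex.ofReal_div, Complex.ofReal_re]
    unfold Lg
    field_simp

end InstPos

open InstPos in
/-- The geometric input for positive discriminant. -/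
theorem geo_pos {b c : ℤ} (hb : 1 ≤ b) (hc : 2 ≤ c) (hD : 0 < b ^ 2 - 4 * c)
    (hs : ¬ IsSquare (b ^ 2 - 4 * c)) : Nonempty (Geo b c) := by
  have hD' : 4 * c < b ^ 2 := by omega
  obtain ⟨e, he, h1, h2⟩ := exists_eps hD' hs
  have hr1 := rr_one hD'
  have hE : 0 < p1 e := by linarith
  have hte := tp_e h1 h2
  have hLe := Lg_e hD' he h1 h2
  have hL := Lg_e_pos hD' he h1 h2
  set L := Lg e with hLdef
  set W := 1 + |w1 b c| + |w2 b c| with hW
  have hW1 : 1 ≤ W := by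
    have := abs_nonneg (w1 b c)
    have := abs_nonneg (w2 b c)
    rw [hW]; linarith
  -- the set of units
  obtain ⟨U, hU⟩ := exists_finset (b := b) (c := c) (W * p1 e)
  have hclosed : ∀ v : O b c, ((TP v ∧ 0 ≤ Lg v ∧ Lg v < L) ∨ v = e) →
      TP v ∧ 0 ≤ Lg v ∧ Lg v ≤ L := by
    rintro v (h | rfl)
    · exact ⟨h.1, h.2.1, h.2.2.le⟩
    · exact ⟨hte, hL.le, le_rfl⟩
  have hang : ∀ v w : O b c, Lg v / L < Lg w / L ↔ Lg v < Lg w := fun v w =>
    div_lt_div_iff_of_pos_right hL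
  refine ⟨{ M := MM hD'
            Sec := {z | TP z ∧ 0 ≤ Lg z ∧ Lg z < L}
            ang := fun z => Lg z / L
            rho := fun z => p1 z + p2 z
            e1 := e
            u0 := 1
            U := U
            ω1 := (w1 b c : ℂ)
            ω2 := (w2 b c : ℂ)
            C0 := rr b c / L
            q0 := ⌈4 * rr b c / L⌉₊ + 1
            Cr := p1 e + 1
            Cs := W * p1 e + 1
            Cg := rr b c * p1 e / L + |w2 b c| + 1
            c0 := 1 / (2 * L)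
            Cη := (b ^ 2 - 4 * c).natAbs
            hD := hs
            hω := ?_
            C0_pos := by positivity
            q0_pos := by positivity
            Cr_one := by linarith
            Cs_one := ?_
            Cg_one := ?_
            c0_pos := by positivity
            Cη_one := by omega
            nm_pos := fun z hz => TP.nm_pos hD' hz
            pos_M := ?_
            ang_mul := ?_
            sep := ?_
            fix := ?_
            sec_M := fun z hz => hz.1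
            e1_M := hte
            to_sec := ?_
            sec_ang := ?_
            one_sec := ?_
            ang_one := ?_
            ang_e1 := ?_
            nm_e1 := he
            lt_iff := ?_
            dt_e1 := ?_
            between := ?_
            sec_pos := ?_
            sec_neg := ?_
            rho_add := ?_
            rho_smul := ?_
            rho_le := ?_
            le_rho := ?_
            size := ?_
            u0_sec := ?_
            u0_prim := ?_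
            near := ?_
            unit_fin := ?_
            narrow := ?_ }⟩
  · -- hω
    intro h
    have h3 : w1 b c = w2 b c := by exact_mod_cast h
    have h4 := w_sub (b := b) (c := c)
    rw [h3] at h4; linarith
  · -- Cs_one
    have : 0 ≤ W * p1 e := by positivity
    linarith
  · -- Cg_one
    have : 0 ≤ rr b c * p1 e / L := by positivity
    have := abs_nonneg (w2 b c)
    linarith
  · -- ang_mul
    intro z hz w hw
    refine ⟨0, ?_⟩
    show Lg (z * w) / L = Lg z / L + Lg w / L + ((0 : ℤ) : ℝ)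
    rw [TP.Lg_mul hD' hz hw, add_div]; simp
  · -- sep
    intro v hv w hw
    by_cases hk : ∃ k : ℤ, Lg v / L - Lg w / L = k
    · exact Or.inl hk
    · right
      intro k
      obtain ⟨t, ht, htn, htL⟩ := exists_pow hD' he h1 h2 k
      have hwt : TP (w * t) := TP.mul hD' hw ht
      have hLwt : Lg (w * t) = Lg w + k * L := by rw [TP.Lg_mul hD' hw ht, htL]
      have hne : Lg v ≠ Lg (w * t) := by
        intro h
        apply hk
        refine ⟨k, ?_⟩
        rw [h, hLwt]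
        field_simp
        ring
      have h3 := ang_sep hD' hv hwt hne
      have hnm : nm (w * t) = nm w := by
        rw [Pool.Agent.Lib.MP_648c71_nt.nm_mul, htn, mul_one]
      rw [hnm, hLwt] at h3
      have h4 : |Lg v / L - Lg w / L - k| = |Lg v - (Lg w + k * L)| / L := by
        rw [← abs_of_pos hL, ← abs_div, abs_of_pos hL]
        congr 1
        field_simp
        ring
      show 1 / (2 * L) ≤ |Lg v / L - Lg w / L - k| * Real.sqrt ((nm v : ℝ) * nm w)
      rw [h4]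
      rw [div_mul_eq_mul_div, div_le_div_iff₀ (by positivity) hL]
      nlinarith
  · -- pos_M
    intro z hz
    have hp := p_mul hD' z
    have hpos : 0 < p1 z * p2 z := by rw [hp]; exact_mod_cast hz
    rcases mul_pos_iff.mp hpos with ⟨a1, a2⟩ | ⟨a1, a2⟩
    · exact Or.inl ⟨a1, a2⟩
    · refine Or.inr ⟨?_, ?_⟩
      · rw [p1_neg]; linarith
      · rw [p2_neg]; linarith
  · -- fix
    intro z hz
    have hD0 : (0 : ℤ) < b ^ 2 - 4 * c := hD
    rcases lt_or_gt_of_ne hz with h | h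
    · -- negative norm: multiply by 2ω - b
      have hη : nm (⟨-b, 2⟩ : O b c) = -(b ^ 2 - 4 * c) := by simp only [nm]; ring
      have hzη : 0 < nm (z * ⟨-b, 2⟩) := by
        rw [Pool.Agent.Lib.MP_648c71_nt.nm_mul, hη]; nlinarith
      have hval : nm (z * ⟨-b, 2⟩) = ((b ^ 2 - 4 * c).natAbs : ℤ) * |nm z| := by
        rw [Pool.Agent.Lib.MP_648c71_nt.nm_mul, hη, abs_of_neg h, Int.natAbs_of_nonneg hD0.le]; ring
      have hp := p_mul hD' (z * ⟨-b, 2⟩)
      have hpos : 0 < p1 (z * ⟨-b, 2⟩) * p2 (z * ⟨-b, 2⟩) := by rw [hp]; exact_mod_cast hzη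
      rcases mul_pos_iff.mp hpos with ⟨a1, a2⟩ | ⟨a1, a2⟩
      · exact ⟨z * ⟨-b, 2⟩, ⟨a1, a2⟩, (b ^ 2 - 4 * c).natAbs, by omega, le_rfl, hval⟩
      · refine ⟨-(z * ⟨-b, 2⟩), ⟨?_, ?_⟩, (b ^ 2 - 4 * c).natAbs, by omega, le_rfl, ?_⟩
        · rw [p1_neg]; linarith
        · rw [p2_neg]; linarith
        · rw [nm_eq_norm, QuadraticAlgebra.norm_neg, ← nm_eq_norm, hval]
    · have hp := p_mul hD' z
      have hpos : 0 < p1 z * p2 z := by rw [hp]; exact_mod_cast h
      rcases mul_pos_iff.mp hpos with ⟨a1, a2⟩ | ⟨a1, a2⟩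
      · exact ⟨z, ⟨a1, a2⟩, 1, le_rfl, by omega, by rw [abs_of_pos h]; simp⟩
      · refine ⟨-z, ⟨?_, ?_⟩, 1, le_rfl, by omega, ?_⟩
        · rw [p1_neg]; linarith
        · rw [p2_neg]; linarith
        · rw [nm_eq_norm, QuadraticAlgebra.norm_neg, ← nm_eq_norm, abs_of_pos h]; simp
  · -- to_sec
    intro z hz
    obtain ⟨t, ht, htn, htL⟩ := exists_pow hD' he h1 h2 (-⌊Lg z / L⌋)
    have hzt : TP (z * t) := TP.mul hD' hz ht
    have hLzt : Lg (z * t) = Lg z - ⌊Lg z / L⌋ * L := by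
      rw [TP.Lg_mul hD' hz ht, htL]; push_cast; ring
    have f1 := Int.floor_le (Lg z / L)
    have f2 := Int.lt_floor_add_one (Lg z / L)
    rw [le_div_iff₀ hL] at f1
    rw [div_lt_iff₀ hL] at f2
    refine ⟨z * t, ⟨hzt, ?_, ?_⟩, ?_, ⌊Lg z / L⌋, ?_⟩
    · rw [hLzt]; linarith
    · rw [hLzt]; linarith
    · rw [Pool.Agent.Lib.MP_648c71_nt.nm_mul, htn, mul_one]
    · show Lg z / L = Lg (z * t) / L + (⌊Lg z / L⌋ : ℝ)
      rw [hLzt]; field_simp; ring
  · -- sec_ang
    intro z hz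
    exact ⟨div_nonneg hz.2.1 hL.le, (div_lt_one hL).mpr hz.2.2⟩
  · -- one_sec
    refine ⟨TP.one, ?_, ?_⟩
    · rw [Lg_one]
    · rw [Lg_one]; exact hL
  · -- ang_one
    show Lg (1 : O b c) / L = 0
    rw [Lg_one, zero_div]
  · -- ang_e1
    show Lg e / L = 1
    exact div_self hL.ne'
  · -- lt_iff
    intro v hv w hw
    show Lg v / L < Lg w / L ↔ 0 < dt v w
    rw [hang, TP.lt_iff hD' hv.1 hw.1]
  · -- dt_e1
    intro v hv _
    exact (TP.lt_iff hD' hv.1 hte).mp hv.2.2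
  · -- between
    intro v hv w hw hvw u hvu huw
    obtain ⟨hwT, hw0, hwL⟩ := hclosed w hw
    have hc := cramer u v w
    have d1 : (0 : ℝ) < dt v w := by exact_mod_cast hvw
    have d2 : (0 : ℝ) < dt v u := by exact_mod_cast hvu
    have d3 : (0 : ℝ) < dt u w := by exact_mod_cast huw
    have g1 : 0 < p1 u := by
      have h3 := congrArg (p1 (b := b) (c := c)) hc
      rw [p1_smul, p1_add, p1_smul, p1_smul] at h3
      have h4 : 0 < (dt v w : ℝ) * p1 u := by
        rw [h3]; exact add_pos (mul_pos d3 hv.1.1) (mul_pos d2 hwT.1)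
      exact (mul_pos_iff_of_pos_left d1).mp h4
    have g2 : 0 < p2 u := by
      have h3 := congrArg (p2 (b := b) (c := c)) hc
      rw [p2_smul, p2_add, p2_smul, p2_smul] at h3
      have h4 : 0 < (dt v w : ℝ) * p2 u := by
        rw [h3]; exact add_pos (mul_pos d3 hv.1.2) (mul_pos d2 hwT.2)
      exact (mul_pos_iff_of_pos_left d1).mp h4
    have hu : TP u := ⟨g1, g2⟩
    have l1 := (TP.lt_iff hD' hv.1 hu).mpr hvu
    have l2 := (TP.lt_iff hD' hu hwT).mpr huw
    exact ⟨hu, by linarith [hv.2.1], by linarith⟩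
  · -- sec_pos
    intro v k hk hkv
    have hk' : (0 : ℝ) < k := by exact_mod_cast hk
    have hv : TP v := by
      have a := hkv.1
      refine ⟨?_, ?_⟩
      · have := a.1; rw [p1_smul] at this; exact (mul_pos_iff_of_pos_left hk').mp this
      · have := a.2; rw [p2_smul] at this; exact (mul_pos_iff_of_pos_left hk').mp this
    have hl := Lg_smul hk hv
    have h3 := hkv.2
    rw [hl] at h3
    exact ⟨hv, h3.1, h3.2⟩
  · -- sec_neg
    intro v hv hn
    have a := hv.1.1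
    have a' := hn.1.1
    rw [p1_neg] at a'; linarith
  · -- rho_add
    intro v w
    show p1 (v + w) + p2 (v + w) ≤ p1 v + p2 v + (p1 w + p2 w)
    rw [p1_add, p2_add]; linarith
  · -- rho_smul
    intro k v _
    show p1 (k • v) + p2 (k • v) = k * (p1 v + p2 v)
    rw [p1_smul, p2_smul]; ring
  · -- rho_le
    intro v hv
    obtain ⟨hT, h0, hl⟩ := hclosed v hv
    obtain ⟨a1, a2, _⟩ := size_bounds hD' he h1 h2 hT h0 hl
    show p1 v + p2 v ≤ (p1 e + 1) * Real.sqrt (nm v)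
    linarith
  · -- le_rho
    intro v hv
    obtain ⟨hT, h0, hl⟩ := hclosed v hv
    obtain ⟨_, _, a3⟩ := size_bounds hD' he h1 h2 hT h0 hl
    show Real.sqrt (nm v) ≤ (p1 e + 1) * (p1 v + p2 v)
    have := hT.1
    have := hT.2
    nlinarith
  · -- size
    intro v hv
    obtain ⟨hT, h0, hl⟩ := hclosed v hv
    obtain ⟨a1, a2, _⟩ := size_bounds hD' he h1 h2 hT h0 hl
    have hsq := Real.sqrt_nonneg (nm v : ℝ)
    have hR : 0 ≤ p1 e * Real.sqrt (nm v) := by positivity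
    obtain ⟨c1, c2⟩ := coord_bounds hD' v hR hT.1 a1 hT.2 (by nlinarith)
    rw [← hW] at c1 c2
    constructor <;> nlinarith
  · -- u0_sec
    refine ⟨TP.one, ?_, ?_⟩
    · rw [Lg_one]
    · rw [Lg_one]; exact hL
  · -- u0_prim
    rw [QuadraticAlgebra.re_one]
    exact isCoprime_one_left
  · -- near
    intro v hv w hw hvw _
    obtain ⟨hwT, hw0, hwL⟩ := hclosed w hw
    obtain ⟨n1, n2⟩ := near_bound hD' he h1 h2 hv.1 hwT hv.2.1 hv.2.2.le hw0 hwL hvw
    have hnv := TP.nm_pos hD' hv.1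
    have hnw := TP.nm_pos hD' hwT
    have s1 : 0 < Real.sqrt (nm v : ℝ) := Real.sqrt_pos.mpr (by exact_mod_cast hnv)
    have s2 : 0 < Real.sqrt (nm w : ℝ) := Real.sqrt_pos.mpr (by exact_mod_cast hnw)
    have hw2 := abs_nonneg (w2 b c)
    have hq : 0 ≤ rr b c * p1 e / L := by positivity
    constructor
    · show Lg w / L - Lg v / L ≤ _
      rw [le_div_iff₀ (mul_pos s1 s2), ← sub_div, div_mul_eq_mul_div]
      calc (Lg w - Lg v) * (Real.sqrt (nm v) * Real.sqrt (nm w)) / L ≤ rr b c * p1 e / L := by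
            gcongr
        _ ≤ _ := by linarith
    · have := le_abs_self (w2 b c)
      linarith
  · -- unit_fin
    intro v hv t ht hvt
    have hvT := hv.1
    have hvtT := hvt.1
    have hp1 : 0 < p1 t := by
      have := hvtT.1
      rw [p1_mul hD'] at this
      exact (mul_pos_iff_of_pos_left hvT.1).mp this
    have hp2 : 0 < p2 t := by
      have := hvtT.2
      rw [p2_mul hD'] at this
      exact (mul_pos_iff_of_pos_left hvT.2).mp this
    have htT : TP t := ⟨hp1, hp2⟩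
    have hlt := TP.Lg_mul hD' hvT htT
    have a1 := hv.2.1
    have a2 := hv.2.2
    have b1 := hvt.2.1
    have b2 := hvt.2.2
    rw [hlt] at b1 b2
    have hm := p_mul hD' t
    rw [ht] at hm
    have hlog : Real.log (p1 t) + Real.log (p2 t) = 0 := by
      rw [← Real.log_mul hp1.ne' hp2.ne', hm]; simp
    have e1 : p1 t ≤ p1 e := by
      apply (Real.log_le_log_iff hp1 hE).mp
      unfold Lg at *
      linarith
    have e2 : p2 t ≤ p1 e := by
      apply (Real.log_le_log_iff hp2 hE).mp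
      unfold Lg at *
      linarith
    obtain ⟨c1, c2⟩ := coord_bounds hD' t hE.le hp1 e1 hp2 e2
    exact hU t c1 c2
  · -- narrow
    intro x y hy hxy
    have hq1 : (1 : ℤ) ≤ ((⌈4 * rr b c / L⌉₊ + 1 : ℕ) : ℤ) := by push_cast; omega
    have hx : 0 < x := by nlinarith
    obtain ⟨hT, h0, hl, hlg⟩ := narrow_aux hb hc hD' hy hx
    have hx' : (0 : ℝ) < x := by exact_mod_cast hx
    have hy' : (0 : ℝ) < y := by exact_mod_cast hy
    have hq : 4 * rr b c / L < ((⌈4 * rr b c / L⌉₊ + 1 : ℕ) : ℝ) := by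
      push_cast
      have := Nat.le_ceil (4 * rr b c / L)
      linarith
    rw [div_lt_iff₀ hL] at hq
    have hxy' : ((⌈4 * rr b c / L⌉₊ + 1 : ℕ) : ℝ) * y ≤ x := by exact_mod_cast hxy
    have h4 : Lg (⟨x, y⟩ : O b c) * 4 < L := by
      have h5 : 4 * rr b c * y < (x : ℝ) * L := by
        calc 4 * rr b c * y < (((⌈4 * rr b c / L⌉₊ + 1 : ℕ) : ℝ) * L) * y :=
              mul_lt_mul_of_pos_right hq hy'
          _ = (((⌈4 * rr b c / L⌉₊ + 1 : ℕ) : ℝ) * y) * L := by ring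
          _ ≤ x * L := mul_le_mul_of_nonneg_right hxy' hL.le
      have h6 : (x : ℝ) * (Lg (⟨x, y⟩ : O b c) * 4) < x * L := by nlinarith
      exact lt_of_mul_lt_mul_left h6 hx'.le
    refine ⟨⟨hT, h0, by linarith⟩, ?_, ?_⟩
    · show Lg (⟨x, y⟩ : O b c) / L < 1 / 4
      rw [div_lt_iff₀ hL]; linarith
    · show Lg (⟨x, y⟩ : O b c) / L = rr b c / L * LG (w1 b c : ℂ) (w2 b c : ℂ) y 0 x
      rw [hlg]; ring

end Pool.Agent.Lib.MP_648c71_nt.HP
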