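import Pool.Agent.Lib.MP_648c71_nt.HP.ND

/-! Row NE (about 80 lines): the instance for negative discriminant. -/

set_option autoImplicit false

namespace Pool.Agent.Lib.MP_648c71_nt.HP.Neg

open Finset MeasureTheory

variable {b c : ℤ}

theorem NE_nm_ee1 : nm (ee1 b c) = 1 := by
  simp [nm, ee1]

theorem NE_sec_ne (v : O b c) (hv : v ∈ Sc b c) : v ≠ 0 := by
  rintro rfl
  rcases hv with h | h
  · simp at h
  · simp at h

theorem NE_mm (z : O b c) : z ∈ MM b c ↔ 0 < nm z := Iff.rfl

/-- ROW NE.  Collect the fields: `M = MM`, `Sec = Sc`, `ang = an`, `rho z = ‖em z‖`, `e1 = ee1`, `u0 = uu`, `U = Un`,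
`ω1 = wn`, `ω2 = conj wn`, `C0 = sD/(2π)`, `q0 = (4c).toNat`, `Cr = 1`, `Cs = b + 2`, `Cg = b + 4c`, `c0 = 1/4`,
`Cη = 1` (`fix`: `z` itself, `nm z > 0`). -/
theorem geo_neg (hb : 1 ≤ b) (hc : 2 ≤ c) (hD : b ^ 2 - 4 * c < 0) : Nonempty (Geo b c) := by
  have hbR : (1 : ℝ) ≤ b := by exact_mod_cast hb
  have hcR : (2 : ℝ) ≤ c := by exact_mod_cast hc
  have hsD : 0 < sD b c := lt_trans one_pos (sD_ge hD).2
  have hne : ∀ z ∈ MM b c, z ≠ 0 := fun z hz => (nm_pos_iff hD z).mp hz
  refine ⟨{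
    M := MM b c
    Sec := Sc b c
    ang := an
    rho := fun z => ‖em z‖
    e1 := ee1 b c
    u0 := uu b c
    U := Un b c
    ω1 := wn b c
    ω2 := (starRingEnd ℂ) (wn b c)
    C0 := sD b c / (2 * Real.pi)
    q0 := (4 * c).toNat
    Cr := 1
    Cs := (b : ℝ) + 2
    Cg := (b : ℝ) + 4 * c
    c0 := 1 / 4
    Cη := 1
    hD := ?_
    hω := wn_ne hD
    C0_pos := div_pos hsD (by positivity)
    q0_pos := ?_
    Cr_one := le_refl _
    Cs_one := by linarith
    Cg_one := by linarith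
    c0_pos := by norm_num
    Cη_one := le_refl _
    nm_pos := fun z hz => hz
    ang_mul := fun z hz w hw => an_mul hD z w (hne z hz) (hne w hw)
    sep := fun v hv w hw => sep hD v w (hne v hv) (hne w hw)
    pos_M := fun z hz => Or.inl hz
    fix := ?_
    sec_M := fun z hz => (nm_pos_iff hD z).mpr (NE_sec_ne z hz)
    e1_M := ?_
    to_sec := fun z hz => to_sec hD z (hne z hz)
    sec_ang := fun z hz => an_mem hD z hz
    one_sec := ?_
    ang_one := an_one
    ang_e1 := an_ee1
    nm_e1 := NE_nm_ee1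
    lt_iff := fun v hv w hw => lt_iff hD v hv w hw
    dt_e1 := fun v hv h => dt_ee1 hD v hv h
    between := fun v hv w hw h u h1 h2 => between v hv w hw h u h1 h2
    sec_pos := fun v k hk h => sec_pos v k hk h
    sec_neg := fun v hv => sec_neg v hv
    rho_add := ?_
    rho_smul := ?_
    rho_le := ?_
    le_rho := ?_
    size := fun v _ => size hb hD v
    u0_sec := (uu_prop hb hD).1
    u0_prim := (uu_prop hb hD).2.1
    near := fun v hv w hw h hu => near hb hc hD v hv w hw h hu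
    unit_fin := fun v _ t ht _ => unit_fin hb hD t ht
    narrow := ?_ }⟩
  · rintro ⟨r, hr⟩
    have : 0 ≤ r * r := mul_self_nonneg r
    omega
  · omega
  · intro z hz
    have hz0 : z ≠ 0 := by
      rintro rfl
      exact hz (by simp [nm])
    have hpos := (nm_pos_iff hD z).mpr hz0
    exact ⟨z, hpos, 1, le_refl _, le_refl _, by rw [abs_of_pos hpos]; simp⟩
  · show 0 < nm (ee1 b c)
    rw [NE_nm_ee1]
    exact one_pos
  · right
    constructor
    · show (1 : O b c).im = 0
      exact QuadraticAlgebra.im_one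
    · show 0 < (1 : O b c).re
      rw [QuadraticAlgebra.re_one]
      exact one_pos
  · intro v w
    show ‖em (v + w)‖ ≤ ‖em v‖ + ‖em w‖
    rw [em_add]
    exact norm_add_le _ _
  · intro k v hk
    show ‖em (k • v)‖ = k * ‖em v‖
    rw [em_smul, norm_mul, Complex.norm_intCast, abs_of_nonneg (by exact_mod_cast hk)]
  · intro v _
    show ‖em v‖ ≤ 1 * Real.sqrt (nm v)
    rw [one_mul, norm_em hD]
  · intro v _
    show Real.sqrt (nm v) ≤ 1 * ‖em v‖
    rw [one_mul, norm_em hD]
  · intro x y hy hx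
    exact narrow hb hc hD x y hy (by
      have : (((4 * c).toNat : ℕ) : ℤ) = 4 * c := Int.toNat_of_nonneg (by omega)
      rwa [this] at hx)

end Pool.Agent.Lib.MP_648c71_nt.HP.Neg
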