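import Pool.Agent.Lib.MP_648c71_nt.HP.G12
import Pool.Agent.Lib.MP_648c71_nt.HP.InstPos
import Pool.Agent.Lib.MP_648c71_nt.HP.NE
import Pool.Agent.Lib.MP_648c71_nt.Hp.PlusSign
import Pool.Agent.Lib.MP_648c71_nt.V0

/-!
# Both signs occur at least `N/(log N)^C` times, for all large `N`
-/

set_option autoImplicit false

namespace Pool.Agent.Lib.MP_648c71_nt.HP

open Finset Filter

theorem ff_ne_zero {b c : ℤ} (hns : ¬ IsSquare (b ^ 2 - 4 * c)) (n : ℤ) : ff b c n ≠ 0 := by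
  intro h
  apply hns
  refine ⟨2 * n + b, ?_⟩
  simp only [ff] at h
  linear_combination -4 * h

/-- number of `n ∈ [1,N]` with `g(|f(n)|) = s` -/
noncomputable def cnt (g : ℕ → ℝ) (b c : ℤ) (s : ℝ) (N : ℕ) : ℕ :=
  ((Icc 1 N).filter (fun n : ℕ => g (ff b c n).natAbs = s)).card

/-- at least `N/(log N)^C` for all large `N` -/
def Many (F : ℕ → ℕ) : Prop :=
  ∃ C N₀ : ℕ, ∀ N : ℕ, N₀ ≤ N → (N : ℝ) / (Real.log N) ^ C ≤ F N

theorem Many.shift {F G : ℕ → ℕ} (h : Many F) (k : ℕ) (hk : ∀ N, F N ≤ G (N + k)) : Many G := by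
  obtain ⟨C, N₀, h⟩ := h
  have hlog : ∀ᶠ M : ℕ in atTop, 2 ≤ Real.log M :=
    (Real.tendsto_log_atTop.comp tendsto_natCast_atTop_atTop).eventually_ge_atTop 2
  obtain ⟨N₁, hN₁⟩ := eventually_atTop.mp hlog
  refine ⟨C + 1, max (N₀ + k) (max N₁ (2 * k + N₁ + 1)), fun M hM => ?_⟩
  have m1 : N₀ + k ≤ M := le_trans (le_max_left _ _) hM
  have m2 : N₁ ≤ M := le_trans (le_trans (le_max_left _ _) (le_max_right _ _)) hM
  have m3 : 2 * k + N₁ + 1 ≤ M := le_trans (le_trans (le_max_right _ _) (le_max_right _ _)) hM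
  have l1 := hN₁ M m2
  have l2 := hN₁ (M - k) (by omega)
  have h1 := h (M - k) (by omega)
  have h2 := hk (M - k)
  rw [Nat.sub_add_cancel (by omega)] at h2
  have h2' : (F (M - k) : ℝ) ≤ G M := by exact_mod_cast h2
  refine le_trans ?_ (h1.trans h2')
  have c1 : ((M - k : ℕ) : ℝ) = M - k := by rw [Nat.cast_sub (by omega)]
  have hMk : (M : ℝ) / 2 ≤ ((M - k : ℕ) : ℝ) := by
    rw [c1]
    have : (2 * k : ℝ) ≤ M := by exact_mod_cast (by omega : 2 * k ≤ M)
    linarith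
  have hpos : (0 : ℝ) < ((M - k : ℕ) : ℝ) := by exact_mod_cast (by omega : 0 < M - k)
  have hle : Real.log ((M - k : ℕ) : ℝ) ≤ Real.log M :=
    Real.log_le_log hpos (by exact_mod_cast (by omega : M - k ≤ M))
  have hp1 : (0 : ℝ) < Real.log ((M - k : ℕ) : ℝ) ^ C := by positivity
  have hp2 : (0 : ℝ) < Real.log M ^ C := by positivity
  have hp3 : Real.log ((M - k : ℕ) : ℝ) ^ C ≤ Real.log M ^ C :=
    pow_le_pow_left₀ (by linarith) hle C
  have hM0 : (0 : ℝ) ≤ M := Nat.cast_nonneg M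
  calc (M : ℝ) / Real.log M ^ (C + 1) = (M / Real.log M) / Real.log M ^ C := by
        rw [pow_succ, div_div, mul_comm]
    _ ≤ (M / 2) / Real.log M ^ C := by
        apply div_le_div_of_nonneg_right _ hp2.le
        exact div_le_div_of_nonneg_left hM0 (by norm_num) l1
    _ ≤ ((M - k : ℕ) : ℝ) / Real.log M ^ C := div_le_div_of_nonneg_right hMk hp2.le
    _ ≤ ((M - k : ℕ) : ℝ) / Real.log ((M - k : ℕ) : ℝ) ^ C :=
        div_le_div_of_nonneg_left hpos.le hp1 hp3

open Classical in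
/-- extension of a sign function to the integers -/
noncomputable def gz (g : ℕ → ℝ) (m : ℤ) : ℤ := if m = 0 then 0 else if g m.natAbs = 1 then 1 else -1

theorem gz_cm {g : ℕ → ℝ} (hg : CM g) : Hp.IsCM (gz g) := by
  refine ⟨fun m n => ?_, fun m hm => ?_⟩
  · by_cases hm : m = 0
    · simp [gz, hm]
    by_cases hn : n = 0
    · simp [gz, hn]
    have hmn : m * n ≠ 0 := mul_ne_zero hm hn
    have h1 := hg.1 m.natAbs n.natAbs (Int.natAbs_pos.mpr hm) (Int.natAbs_pos.mpr hn)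
    rw [← Int.natAbs_mul] at h1
    simp only [gz, hm, hn, hmn, if_false]
    rcases hg.2 _ (Int.natAbs_pos.mpr hm) with a | a <;>
      rcases hg.2 _ (Int.natAbs_pos.mpr hn) with a' | a' <;>
      rw [h1, a, a'] <;> norm_num
  · simp only [gz, hm, if_false]
    split_ifs <;> simp

theorem gz_eq {g : ℕ → ℝ} {m : ℤ} (hm : m ≠ 0) : gz g m = 1 ↔ g m.natAbs = 1 := by
  simp only [gz, hm, if_false]
  split_ifs with h
  · simp [h]
  · simp [h]

/-- the value `+1` -/
theorem plus_many {b c : ℤ} (hb : 1 ≤ b) (hc : 2 ≤ c) (hns : ¬ IsSquare (b ^ 2 - 4 * c))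
    {g : ℕ → ℝ} (hg : CM g) : Many (cnt g b c 1) := by
  have hD : b ^ 2 - 4 * c ≠ 0 := fun h => hns (h ▸ IsSquare.zero)
  obtain ⟨C, k, hC, hev⟩ := Hp.plus_all (gz_cm hg) hb hc hD
  have hlog : ∀ᶠ M : ℕ in atTop, max 1 (C * 2 ^ k) ≤ Real.log M :=
    (Real.tendsto_log_atTop.comp tendsto_natCast_atTop_atTop).eventually_ge_atTop _
  obtain ⟨N₀, hN₀⟩ := eventually_atTop.mp (hev.and hlog)
  refine ⟨k + 1, N₀, fun N hN => ?_⟩
  obtain ⟨h1, h2⟩ := hN₀ N hN
  have l1 : 1 ≤ Real.log N := le_trans (le_max_left _ _) h2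
  have l2 : C * 2 ^ k ≤ Real.log N := le_trans (le_max_right _ _) h2
  have hset : Hp.sgnSet (gz g) b c 1 N = (Icc 1 N).filter (fun n : ℕ => g (ff b c n).natAbs = 1) := by
    unfold Hp.sgnSet
    apply filter_congr
    intro n _
    exact gz_eq (ff_ne_zero hns n)
  rw [hset] at h1
  show (N : ℝ) / Real.log N ^ (k + 1) ≤ (((Icc 1 N).filter (fun n : ℕ => g (ff b c n).natAbs = 1)).card : ℝ)
  set S := (((Icc 1 N).filter (fun n : ℕ => g (ff b c n).natAbs = 1)).card : ℝ) with hS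
  have hS0 : 0 ≤ S := Nat.cast_nonneg _
  rw [div_le_iff₀ (by positivity)]
  calc (N : ℝ) ≤ C * (1 + Real.log N) ^ k * S := h1
    _ ≤ C * (2 * Real.log N) ^ k * S := by
        gcongr
        linarith
    _ = (C * 2 ^ k) * Real.log N ^ k * S := by rw [mul_pow]; ring
    _ ≤ Real.log N * Real.log N ^ k * S := by gcongr
    _ = S * Real.log N ^ (k + 1) := by ring

/-- the geometric input exists for every non-square discriminant -/
theorem exists_geo {b c : ℤ} (hb : 1 ≤ b) (hc : 2 ≤ c) (hns : ¬ IsSquare (b ^ 2 - 4 * c)) :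
    Nonempty (Geo b c) := by
  rcases lt_trichotomy (b ^ 2 - 4 * c) 0 with h | h | h
  · exact Neg.geo_neg hb hc h
  · exact absurd (h ▸ IsSquare.zero) hns
  · exact geo_pos hb hc h hns

/-- the value `-1` -/
theorem minus_many {b c : ℤ} (hb : 1 ≤ b) (hc : 2 ≤ c) (hns : ¬ IsSquare (b ^ 2 - 4 * c))
    {g : ℕ → ℝ} (hg : CM g)
    (hneg : ∃ x y : ℤ, 0 < x ^ 2 + b * x * y + c * y ^ 2 ∧ g (x ^ 2 + b * x * y + c * y ^ 2).natAbs = -1) :
    Many (cnt g b c (-1)) := by
  obtain ⟨Γ⟩ := exists_geo hb hc hns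
  obtain ⟨x, y, h0, h1⟩ := hneg
  have hn : nm (⟨x, y⟩ : O b c) = x ^ 2 + b * x * y + c * y ^ 2 := by simp only [nm]
  have hn' : nm (-(⟨x, y⟩ : O b c)) = x ^ 2 + b * x * y + c * y ^ 2 := by
    rw [nm_eq_norm, QuadraticAlgebra.norm_neg, ← nm_eq_norm, hn]
  have hz : ∃ z ∈ Γ.M, Geo.gg g z = -1 := by
    rcases Γ.pos_M ⟨x, y⟩ (by rw [hn]; exact h0) with h | h
    · exact ⟨_, h, by show g (nm _).natAbs = -1; rw [hn, h1]⟩
    · exact ⟨_, h, by show g (nm _).natAbs = -1; rw [hn', h1]⟩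
  obtain ⟨C, N₀, h⟩ := Γ.minus_count hb hc g hg hz
  exact ⟨C, N₀, h⟩

theorem ff_shift (b c k n : ℤ) : ff (b + 2 * k) (ff b c k) n = ff b c (n + k) := by
  simp only [ff]; ring

theorem cnt_shift (g : ℕ → ℝ) (b c : ℤ) (s : ℝ) (k N : ℕ) :
    cnt g (b + 2 * k) (ff b c k) s N ≤ cnt g b c s (N + k) := by
  unfold cnt
  apply card_le_card_of_injOn (fun n => n + k)
  · intro n hn
    simp only [coe_filter, Set.mem_ofPred_eq, mem_Icc] at hn ⊢
    refine ⟨⟨by omega, by omega⟩, ?_⟩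
    rw [← hn.2, ff_shift]
    push_cast
    rfl
  · intro x _ y _ hxy
    simpa using hxy

/-- For every completely multiplicative `g` with values `±1` and every quadratic `f = T² + bT + c` with
non-square discriminant: if `g` takes the value `-1` at some positive value of the norm form `x² + bxy + cy²`,
then both signs occur at least `N/(log N)^C` times among `g(|f(1)|), …, g(|f(N)|)` for all large `N`. -/
theorem both_many {b c : ℤ} (hns : ¬ IsSquare (b ^ 2 - 4 * c)) {g : ℕ → ℝ} (hg : CM g) :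
    Many (cnt g b c 1) ∧ ((∃ x y : ℤ, 0 < x ^ 2 + b * x * y + c * y ^ 2 ∧
        g (x ^ 2 + b * x * y + c * y ^ 2).natAbs = -1) →
      Many (cnt g b c (-1))) := by
  -- shift
  obtain ⟨k, h1, h2⟩ : ∃ k : ℕ, 1 ≤ b + 2 * k ∧ 2 ≤ ff b c k := by
    refine ⟨b.natAbs + c.natAbs + 2, ?_, ?_⟩
    · push_cast
      have := neg_abs_le b
      have := abs_nonneg b
      have := abs_nonneg c
      linarith
    · push_cast
      have hb := neg_abs_le b
      have hc := neg_abs_le c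
      have hb0 := abs_nonneg b
      have hc0 := abs_nonneg c
      simp only [ff]
      nlinarith
  have hns' : ¬ IsSquare ((b + 2 * (k : ℤ)) ^ 2 - 4 * ff b c k) := by
    have : (b + 2 * (k : ℤ)) ^ 2 - 4 * ff b c k = b ^ 2 - 4 * c := by simp only [ff]; ring
    rw [this]; exact hns
  refine ⟨(plus_many h1 h2 hns' hg).shift k (cnt_shift g b c 1 k), fun ⟨x, y, hr0, hr⟩ => ?_⟩
  have e : (x - k * y) ^ 2 + (b + 2 * (k : ℤ)) * (x - k * y) * y + ff b c k * y ^ 2 =
      x ^ 2 + b * x * y + c * y ^ 2 := by simp only [ff]; ring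
  refine (minus_many h1 h2 hns' hg ⟨x - k * y, y, ?_, ?_⟩).shift k (cnt_shift g b c (-1) k)
  · rw [e]; exact hr0
  · rw [e]; exact hr

/-- Liouville's function as a real valued function -/
noncomputable def lamR (n : ℕ) : ℝ := (-1) ^ (ArithmeticFunction.cardFactors n)

theorem lamR_cm : CM lamR := by
  refine ⟨fun m n hm hn => ?_, fun n _ => ?_⟩
  · unfold lamR
    rw [ArithmeticFunction.cardFactors_mul hm.ne' hn.ne', pow_add]
  · unfold lamR
    exact neg_one_pow_eq_or ℝ _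

/-- the Liouville function takes the value `-1` at a positive value of the norm form -/
theorem exists_neg {b c : ℤ} (hns : ¬ IsSquare (b ^ 2 - 4 * c)) :
    ∃ x y : ℤ, 0 < x ^ 2 + b * x * y + c * y ^ 2 ∧
      lamR (x ^ 2 + b * x * y + c * y ^ 2).natAbs = -1 := by
  obtain ⟨v, hv, hpos⟩ := exists_v0 b c hns
  have hn : nm v = v.re ^ 2 + b * v.re * v.im + c * v.im ^ 2 := rfl
  refine ⟨v.re, v.im, by rw [← hn]; exact hpos, ?_⟩
  rw [← hn]
  have h1 : lam (nm v) = -1 := hv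
  unfold lam at h1
  rw [ArithmeticFunction.liouville_apply (Int.natAbs_ne_zero.mpr hpos.ne')] at h1
  unfold lamR
  exact_mod_cast h1

end Pool.Agent.Lib.MP_648c71_nt.HP
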