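import Pool.Agent.Lib.MP_648c71_nt.HP.NDef

/-! Row NA (about 110 lines): the embedding for negative discriminant. -/

set_option autoImplicit false

namespace Pool.Agent.Lib.MP_648c71_nt.HP.Neg

open Finset MeasureTheory

variable {b c : ℤ}

/-- ROW NA. -/
theorem sD_sq (hD : b ^ 2 - 4 * c < 0) : sD b c ^ 2 = -((b : ℝ) ^ 2 - 4 * c) := by
  have h : ((b : ℝ) ^ 2 - 4 * c) < 0 := by exact_mod_cast hD
  exact Real.sq_sqrt (by linarith)

/-- ROW NA.  `-D ≥ 3` (`D ≡ 0, 1` mod 4). -/
theorem sD_ge (hD : b ^ 2 - 4 * c < 0) : 3 ≤ sD b c ^ 2 ∧ 1 < sD b c := by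
  have h1 : b ^ 2 - 4 * c ≤ -3 := by
    rcases Int.even_or_odd' b with ⟨k, hk | hk⟩
    · have e : b ^ 2 - 4 * c = 4 * (k ^ 2 - c) := by rw [hk]; ring
      rw [e] at hD ⊢; omega
    · have e : b ^ 2 - 4 * c = 4 * (k ^ 2 + k - c) + 1 := by rw [hk]; ring
      rw [e] at hD ⊢; omega
  have h2 : ((b : ℝ) ^ 2 - 4 * c) ≤ -3 := by exact_mod_cast h1
  have h3 : 3 ≤ sD b c ^ 2 := by rw [sD_sq hD]; linarith
  have h4 : 0 ≤ sD b c := Real.sqrt_nonneg _
  exact ⟨h3, by nlinarith⟩

private theorem na_wn_sq (hD : b ^ 2 - 4 * c < 0) : wn b c * wn b c = b * wn b c - c := by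
  have h := sD_sq hD
  apply Complex.ext
  · simp only [wn, Complex.mul_re, Complex.sub_re, Complex.intCast_re, Complex.intCast_im]
    nlinarith
  · simp only [wn, Complex.mul_im, Complex.sub_im, Complex.intCast_re, Complex.intCast_im]
    ring

private theorem na_wn_conj : (starRingEnd ℂ) (wn b c) = b - wn b c := by
  apply Complex.ext
  · simp only [wn, Complex.conj_re, Complex.sub_re, Complex.intCast_re]
    ring
  · simp only [wn, Complex.conj_im, Complex.sub_im, Complex.intCast_im]
    ring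

/-- ROW NA.  `wn ^ 2 = b wn - c`. -/
theorem em_mul (hD : b ^ 2 - 4 * c < 0) (z w : O b c) : em (z * w) = em z * em w := by
  have h := na_wn_sq hD
  simp only [em, QuadraticAlgebra.re_mul, QuadraticAlgebra.im_mul]
  push_cast
  linear_combination (-(z.im : ℂ) * w.im) * h

theorem em_add (z w : O b c) : em (z + w) = em z + em w := by
  simp only [em, QuadraticAlgebra.re_add, QuadraticAlgebra.im_add]
  push_cast
  ring

theorem em_smul (k : ℤ) (z : O b c) : em (k • z) = k * em z := by
  simp only [em, QuadraticAlgebra.re_smul, QuadraticAlgebra.im_smul, smul_eq_mul]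
  push_cast
  ring

private theorem na_re (z : O b c) : (em z).re = z.re + z.im * (b / 2) := by
  simp only [em, wn, Complex.add_re, Complex.mul_re, Complex.intCast_re, Complex.intCast_im]
  ring

private theorem na_im (z : O b c) : (em z).im = z.im * (sD b c / 2) := by
  simp only [em, wn, Complex.add_im, Complex.mul_im, Complex.intCast_re, Complex.intCast_im]
  ring

/-- ROW NA.  `|em z|² = nm z`. -/
theorem norm_em (hD : b ^ 2 - 4 * c < 0) (z : O b c) : ‖em z‖ = Real.sqrt (nm z) := by
  have h := sD_sq hD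
  rw [Complex.norm_def, Complex.normSq_apply, na_re, na_im]
  congr 1
  simp only [nm]
  push_cast
  linear_combination ((z.im : ℝ) ^ 2 / 4) * h

theorem nm_pos_iff (hD : b ^ 2 - 4 * c < 0) (z : O b c) : 0 < nm z ↔ z ≠ 0 := by
  have e : 4 * nm z = (2 * z.re + b * z.im) ^ 2 + (-(b ^ 2 - 4 * c)) * z.im ^ 2 := by
    unfold nm; ring
  constructor
  · intro h h0
    rw [h0] at h
    simp [nm] at h
  · intro h
    by_contra hcon
    have h1 : (-(b ^ 2 - 4 * c)) * z.im ^ 2 ≤ 0 := by nlinarith [sq_nonneg (2 * z.re + b * z.im)]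
    have h2 : z.im = 0 := by
      by_contra h3
      have : 0 < z.im ^ 2 := by positivity
      nlinarith
    rw [h2] at e
    have h3 : (2 * z.re) ^ 2 ≤ 0 := by
      have : (2 * z.re + b * 0) ^ 2 = (2 * z.re) ^ 2 := by ring
      nlinarith
    have h4 : 2 * z.re = 0 := by
      have := sq_nonneg (2 * z.re)
      exact pow_eq_zero_iff (two_ne_zero) |>.mp (le_antisymm h3 this)
    apply h
    ext
    · simpa using h4
    · simpa using h2

theorem em_ne_zero (hD : b ^ 2 - 4 * c < 0) (z : O b c) (hz : z ≠ 0) : em z ≠ 0 := by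
  have h1 : (0 : ℝ) < nm z := by exact_mod_cast (nm_pos_iff hD z).mpr hz
  rw [← norm_pos_iff, norm_em hD]
  exact Real.sqrt_pos.mpr h1

/-- ROW NA.  `conj (em v) em w = sc v w + dt v w ω` (`star_mul_eq`). -/
theorem conj_em_mul (hD : b ^ 2 - 4 * c < 0) (v w : O b c) :
    (starRingEnd ℂ) (em v) * em w = (sc v w : ℂ) + (dt v w : ℂ) * wn b c := by
  have h := na_wn_sq hD
  have h2 : (starRingEnd ℂ) (em v) = v.re + v.im * (b - wn b c) := by
    rw [em, map_add, map_mul, na_wn_conj, map_intCast, map_intCast]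
  rw [h2]
  simp only [em, sc, dt]
  push_cast
  linear_combination (-(v.im : ℂ) * w.im) * h

/-- ROW NA.  With `A = ‖em v‖ ‖em w‖`, `φ = π (an w - an v)`: `A sin φ = (√(-D)/2) dt v w`,
`A cos φ = sc v w + (b/2) dt v w`.  (`em z = ‖em z‖ e^{iπ an z}`.) -/
theorem sin_angle (hD : b ^ 2 - 4 * c < 0) (v w : O b c) (hv : v ≠ 0) (hw : w ≠ 0) :
    ‖em v‖ * ‖em w‖ * Real.sin (Real.pi * (an w - an v)) = sD b c / 2 * dt v w ∧
    ‖em v‖ * ‖em w‖ * Real.cos (Real.pi * (an w - an v)) = (sc v w : ℝ) + (b : ℝ) / 2 * dt v w := by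
  have h := conj_em_mul hD v w
  have e1 : Real.pi * (an w - an v) = Complex.arg (em w) - Complex.arg (em v) := by
    unfold an
    field_simp
  have c1 := Complex.norm_mul_cos_arg (em v)
  have c2 := Complex.norm_mul_sin_arg (em v)
  have c3 := Complex.norm_mul_cos_arg (em w)
  have c4 := Complex.norm_mul_sin_arg (em w)
  have hre := congrArg Complex.re h
  have him := congrArg Complex.im h
  simp only [Complex.mul_re, Complex.conj_re, Complex.conj_im, Complex.add_re, Complex.intCast_re,
    Complex.intCast_im, wn] at hre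
  simp only [Complex.mul_im, Complex.conj_re, Complex.conj_im, Complex.add_im, Complex.intCast_re,
    Complex.intCast_im, wn] at him
  rw [e1]
  constructor
  · rw [Real.sin_sub]
    calc ‖em v‖ * ‖em w‖ * (Real.sin (em w).arg * Real.cos (em v).arg -
          Real.cos (em w).arg * Real.sin (em v).arg)
        = (‖em v‖ * Real.cos (em v).arg) * (‖em w‖ * Real.sin (em w).arg) -
          (‖em v‖ * Real.sin (em v).arg) * (‖em w‖ * Real.cos (em w).arg) := by ring
      _ = sD b c / 2 * dt v w := by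
          rw [c1, c2, c3, c4]
          linarith
  · rw [Real.cos_sub]
    calc ‖em v‖ * ‖em w‖ * (Real.cos (em w).arg * Real.cos (em v).arg +
          Real.sin (em w).arg * Real.sin (em v).arg)
        = (‖em v‖ * Real.cos (em v).arg) * (‖em w‖ * Real.cos (em w).arg) +
          (‖em v‖ * Real.sin (em v).arg) * (‖em w‖ * Real.sin (em w).arg) := by ring
      _ = (sc v w : ℝ) + (b : ℝ) / 2 * dt v w := by
          rw [c1, c2, c3, c4]
          linarith

end Pool.Agent.Lib.MP_648c71_nt.HP.Neg
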