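import Pool.Agent.Lib.MP_648c71_nt.HP.NA

/-! Row NB (about 100 lines): angles, sector. -/

set_option autoImplicit false

namespace Pool.Agent.Lib.MP_648c71_nt.HP.Neg

open Finset MeasureTheory

variable {b c : ℤ}

theorem NB_em_re (z : O b c) : (em z).re = z.re + z.im * ((b : ℝ) / 2) := by
  simp [em, wn]

theorem NB_em_im (z : O b c) : (em z).im = z.im * (sD b c / 2) := by
  simp [em, wn]

theorem NB_em_neg (z : O b c) : em (-z) = - em z := by
  apply Complex.ext
  · rw [NB_em_re, Complex.neg_re, NB_em_re]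
    simp only [QuadraticAlgebra.re_neg, QuadraticAlgebra.im_neg]
    push_cast
    ring
  · rw [NB_em_im, Complex.neg_im, NB_em_im]
    simp only [QuadraticAlgebra.im_neg]
    push_cast
    ring

/-- ROW NB.  `arg (em z em w) = arg + arg` modulo `2π`. -/
theorem an_mul (hD : b ^ 2 - 4 * c < 0) (z w : O b c) (hz : z ≠ 0) (hw : w ≠ 0) :
    ∃ k : ℤ, an (z * w) = an z + an w + k := by
  have h1 := Complex.arg_mul_coe_angle (em_ne_zero hD z hz) (em_ne_zero hD w hw)
  rw [← em_mul hD, ← Real.Angle.coe_add, Real.Angle.angle_eq_iff_two_pi_dvd_sub] at h1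
  obtain ⟨k, hk⟩ := h1
  refine ⟨2 * k, ?_⟩
  have hpi := Real.pi_ne_zero
  unfold an
  push_cast
  field_simp
  linarith

/-- ROW NB.  `arg ∈ [0, π)` in the sector (`Complex.arg_nonneg_iff`, `Complex.arg_eq_pi_iff`). -/
theorem an_mem (hD : b ^ 2 - 4 * c < 0) (z : O b c) (hz : z ∈ Sc b c) : 0 ≤ an z ∧ an z < 1 := by
  have hs := (sD_ge hD).2
  have h0 : 0 ≤ (em z).im := by
    rw [NB_em_im]
    rcases hz with h | ⟨h, _⟩
    · have : (0 : ℝ) < z.im := by exact_mod_cast h
      positivity
    · rw [h]; simp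
  have hpi := Real.pi_pos
  constructor
  · exact div_nonneg (Complex.arg_nonneg_iff.2 h0) hpi.le
  · unfold an
    rw [div_lt_one hpi]
    refine lt_of_le_of_ne (Complex.arg_le_pi _) ?_
    intro h
    obtain ⟨h1, h2⟩ := Complex.arg_eq_pi_iff.1 h
    rw [NB_em_im] at h2
    rw [NB_em_re] at h1
    rcases hz with h3 | ⟨h3, h4⟩
    · have : (0 : ℝ) < z.im := by exact_mod_cast h3
      have : 0 < (z.im : ℝ) * (sD b c / 2) := by positivity
      linarith
    · rw [h3] at h1
      have : (0 : ℝ) < z.re := by exact_mod_cast h4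
      simp at h1
      linarith

theorem an_one : an (1 : O b c) = 0 := by
  have h : em (1 : O b c) = 1 := by
    apply Complex.ext
    · rw [NB_em_re, QuadraticAlgebra.re_one, QuadraticAlgebra.im_one]; simp
    · rw [NB_em_im, QuadraticAlgebra.im_one]; simp
  rw [an, h, Complex.arg_one, zero_div]

theorem an_ee1 : an (ee1 b c) = 1 := by
  have h : em (ee1 b c) = -1 := by
    apply Complex.ext
    · rw [NB_em_re]; simp [ee1]
    · rw [NB_em_im]; simp [ee1]
  rw [an, h, Complex.arg_neg_one, div_self Real.pi_ne_zero]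

/-- ROW NB.  `z` or `-z` is in the sector; `arg(-z) = arg z ± π`. -/
theorem to_sec (hD : b ^ 2 - 4 * c < 0) (z : O b c) (hz : z ≠ 0) :
    ∃ s ∈ Sc b c, nm s = nm z ∧ ∃ k : ℤ, an z = an s + k := by
  by_cases h : z ∈ Sc b c
  · exact ⟨z, h, rfl, 0, by simp⟩
  · refine ⟨-z, ?_, ?_, ?_⟩
    · simp only [Sc, Set.mem_ofPred_eq, not_or, not_and, not_lt] at h
      obtain ⟨h1, h2⟩ := h
      simp only [Sc, Set.mem_ofPred_eq, QuadraticAlgebra.im_neg, QuadraticAlgebra.re_neg]
      rcases lt_or_eq_of_le h1 with h3 | h3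
      · left; linarith
      · right
        refine ⟨by rw [h3, neg_zero], ?_⟩
        have h4 := h2 h3
        have h5 : z.re ≠ 0 := by
          intro h6
          apply hz
          ext
          · simpa using h6
          · simpa using h3
        omega
    · rw [nm, nm]
      simp only [QuadraticAlgebra.im_neg, QuadraticAlgebra.re_neg]
      ring
    · have h1 := Complex.arg_neg_coe_angle (em_ne_zero hD z hz)
      rw [← NB_em_neg, ← Real.Angle.coe_add, Real.Angle.angle_eq_iff_two_pi_dvd_sub] at h1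
      obtain ⟨k, hk⟩ := h1
      refine ⟨-(1 + 2 * k), ?_⟩
      have hpi := Real.pi_ne_zero
      unfold an
      push_cast
      field_simp
      linarith

/-- ROW NB.  `0 < an v` means `v` is not on the positive real half line, so `0 < v.im = dt v (-1)`. -/
theorem dt_ee1 (hD : b ^ 2 - 4 * c < 0) (v : O b c) (hv : v ∈ Sc b c) (h : 0 < an v) :
    0 < dt v (ee1 b c) := by
  have h1 : dt v (ee1 b c) = v.im := by
    simp [dt, ee1]
  rw [h1]
  rcases hv with h2 | ⟨h2, h3⟩
  · exact h2
  · exfalso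
    have h4 : em v = ((v.re : ℝ) : ℂ) := by
      apply Complex.ext
      · rw [NB_em_re, h2]; simp
      · rw [NB_em_im, h2]; simp
    have h5 : (0 : ℝ) ≤ v.re := by exact_mod_cast h3.le
    rw [an, h4, Complex.arg_ofReal_of_nonneg h5, zero_div] at h
    exact lt_irrefl _ h

/-- ROW NB.  `φ = π(an w - an v) ∈ (-π, π)` and `A sin φ = (√(-D)/2) dt v w`, `A > 0` (`sin_angle`), so the signs of
`φ` and `dt v w` agree. -/
theorem lt_iff (hD : b ^ 2 - 4 * c < 0) (v : O b c) (hv : v ∈ Sc b c) (w : O b c) (hw : w ∈ Sc b c) :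
    an v < an w ↔ 0 < dt v w := by
  have hs := (sD_ge hD).2
  have hv0 : v ≠ 0 := by
    rintro rfl
    rcases hv with h | ⟨_, h⟩ <;> simp at h
  have hw0 : w ≠ 0 := by
    rintro rfl
    rcases hw with h | ⟨_, h⟩ <;> simp at h
  have hA : 0 < ‖em v‖ * ‖em w‖ :=
    mul_pos (norm_pos_iff.2 (em_ne_zero hD v hv0)) (norm_pos_iff.2 (em_ne_zero hD w hw0))
  have h1 := (sin_angle hD v w hv0 hw0).1
  obtain ⟨hv1, hv2⟩ := an_mem hD v hv
  obtain ⟨hw1, hw2⟩ := an_mem hD w hw
  have hpi := Real.pi_pos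
  constructor
  · intro h
    have h2 : 0 < Real.sin (Real.pi * (an w - an v)) := by
      apply Real.sin_pos_of_pos_of_lt_pi
      · exact mul_pos hpi (by linarith)
      · nlinarith
    have h3 : 0 < sD b c / 2 * (dt v w : ℝ) := by
      rw [← h1]; positivity
    have h4 : (0 : ℝ) < dt v w := by
      by_contra hcon
      push Not at hcon
      nlinarith
    exact_mod_cast h4
  · intro h
    have h4 : (0 : ℝ) < dt v w := by exact_mod_cast h
    by_contra hcon
    push Not at hcon
    have h2 : Real.sin (Real.pi * (an w - an v)) ≤ 0 := by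
      apply Real.sin_nonpos_of_nonpos_of_neg_pi_le
      · exact mul_nonpos_of_nonneg_of_nonpos hpi.le (by linarith)
      · nlinarith
    have h3 : 0 < sD b c / 2 * (dt v w : ℝ) := by positivity
    rw [← h1] at h3
    nlinarith

end Pool.Agent.Lib.MP_648c71_nt.HP.Neg
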