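import Pool.Agent.Lib.MP_648c71_nt.HP.NB

/-! Row NC (about 100 lines): separation, sector facts. -/

set_option autoImplicit false

namespace Pool.Agent.Lib.MP_648c71_nt.HP.Neg

open Finset MeasureTheory

variable {b c : ℤ}

/-- ROW NC.  Separation with constant `1/4`.  If `dt v w = 0` then `v, w` are parallel: `sin(π(an v - an w)) = 0`
(`sin_angle`), so `an v - an w` is an integer.  Otherwise for every integer `k`, with `x = an v - an w - k`:
`π|x| ≥ |sin πx| = |sin(π(an v - an w))| = (√(-D)/2)|dt|/(‖v‖‖w‖) ≥ (√3/2)/√(nm v nm w)`. -/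
theorem sep (hD : b ^ 2 - 4 * c < 0) (v w : O b c) (hv : v ≠ 0) (hw : w ≠ 0) :
    (∃ k : ℤ, an v - an w = k) ∨
      ∀ k : ℤ, 1 / 4 ≤ |an v - an w - k| * Real.sqrt ((nm v : ℝ) * nm w) := by
  have hs := (sin_angle hD v w hv hw).1
  have hnv := norm_em hD v
  have hnw := norm_em hD w
  have hv0 : 0 < ‖em v‖ := norm_pos_iff.mpr (em_ne_zero hD v hv)
  have hw0 : 0 < ‖em w‖ := norm_pos_iff.mpr (em_ne_zero hD w hw)
  have hA : 0 < ‖em v‖ * ‖em w‖ := mul_pos hv0 hw0
  have hnm : (0 : ℝ) ≤ nm v := by exact_mod_cast ((nm_pos_iff hD v).mpr hv).le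
  have hsq : Real.sqrt ((nm v : ℝ) * nm w) = ‖em v‖ * ‖em w‖ := by
    rw [Real.sqrt_mul hnm, hnv, hnw]
  rw [hsq]
  by_cases hdt : dt v w = 0
  · left
    rw [hdt, Int.cast_zero, mul_zero] at hs
    have h1 : Real.sin (Real.pi * (an w - an v)) = 0 := by
      rcases mul_eq_zero.mp hs with h' | h'
      · exact absurd h' hA.ne'
      · exact h'
    obtain ⟨n, hn⟩ := Real.sin_eq_zero_iff.mp h1
    refine ⟨-n, ?_⟩
    have h2 : (n : ℝ) = an w - an v := by
      have h3 : Real.pi * n = Real.pi * (an w - an v) := by rw [← hn]; ring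
      exact mul_left_cancel₀ Real.pi_ne_zero h3
    push_cast
    linarith
  · right
    intro k
    have hdt1 : (1 : ℝ) ≤ |(dt v w : ℝ)| := by
      have : (1 : ℤ) ≤ |dt v w| := Int.one_le_abs hdt
      exact_mod_cast this
    obtain ⟨hsd3, hsd1⟩ := sD_ge (b := b) (c := c) hD
    have hsd : (1.7 : ℝ) ≤ sD b c := by nlinarith
    have h1 : |Real.sin (Real.pi * (an v - an w - k))| =
        |Real.sin (Real.pi * (an w - an v))| := by
      have e1 : Real.pi * (an v - an w - k) = -(Real.pi * (an w - an v)) - k * Real.pi := by ring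
      rw [e1, Real.sin_sub_int_mul_pi, abs_mul, Real.sin_neg, abs_neg]
      have : |((-1 : ℝ)) ^ k| = 1 := by
        rw [abs_zpow, abs_neg, abs_one, one_zpow]
      rw [this, one_mul]
    have h2 : |Real.sin (Real.pi * (an v - an w - k))| ≤ Real.pi * |an v - an w - k| := by
      have := Real.abs_sin_le_abs (x := Real.pi * (an v - an w - k))
      rwa [abs_mul, abs_of_pos Real.pi_pos] at this
    have h3 : ‖em v‖ * ‖em w‖ * |Real.sin (Real.pi * (an w - an v))| =
        sD b c / 2 * |(dt v w : ℝ)| := by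
      have := congrArg abs hs
      rw [abs_mul, abs_of_pos hA, abs_mul, abs_of_pos (show (0 : ℝ) < sD b c / 2 by linarith)]
        at this
      exact this
    rw [← h1] at h3
    have h4 : sD b c / 2 * 1 ≤ sD b c / 2 * |(dt v w : ℝ)| :=
      mul_le_mul_of_nonneg_left hdt1 (by linarith)
    have h5 : ‖em v‖ * ‖em w‖ * |Real.sin (Real.pi * (an v - an w - k))| ≤
        ‖em v‖ * ‖em w‖ * (Real.pi * |an v - an w - k|) :=
      mul_le_mul_of_nonneg_left h2 hA.le
    have h6 : (0.85 : ℝ) ≤ Real.pi * (|an v - an w - k| * (‖em v‖ * ‖em w‖)) := by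
      have : ‖em v‖ * ‖em w‖ * (Real.pi * |an v - an w - k|) =
        Real.pi * (|an v - an w - k| * (‖em v‖ * ‖em w‖)) := by ring
      linarith
    have hpi : Real.pi < 3.15 := Real.pi_lt_d2
    have hpos : 0 ≤ |an v - an w - k| * (‖em v‖ * ‖em w‖) :=
      mul_nonneg (abs_nonneg _) hA.le
    by_contra hcon
    push Not at hcon
    nlinarith [Real.pi_pos]

/-- ROW NC.  `D u = (dt u w) v + (dt v u) w` (`cramer`) is a positive combination: imaginary parts. -/
theorem between (v : O b c) (hv : v ∈ Sc b c) (w : O b c) (hw : w ∈ Sc b c ∨ w = ee1 b c)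
    (h : 0 < dt v w) (u : O b c) (h1 : 0 < dt v u) (h2 : 0 < dt u w) : u ∈ Sc b c := by
  left
  have hc := congrArg QuadraticAlgebra.im (cramer u v w)
  simp only [QuadraticAlgebra.im_smul, QuadraticAlgebra.im_add, smul_eq_mul] at hc
  have hvi : 0 ≤ v.im := by
    rcases hv with h' | h'
    · exact h'.le
    · exact h'.1.ge
  have hwi : 0 ≤ w.im := by
    rcases hw with (h' | h') | h'
    · exact h'.le
    · exact h'.1.ge
    · rw [h']
      exact le_rfl
  have hpos : 0 < dt u w * v.im + dt v u * w.im := by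
    rcases hvi.lt_or_eq with h3 | h3
    · have := mul_pos h2 h3
      have := mul_nonneg h1.le hwi
      linarith
    · rcases hwi.lt_or_eq with h4 | h4
      · have := mul_nonneg h2.le hvi
        have := mul_pos h1 h4
        linarith
      · exfalso
        rw [dt, ← h3, ← h4] at h
        simp at h
  rw [← hc] at hpos
  exact (mul_pos_iff_of_pos_left h).mp hpos

theorem sec_pos (v : O b c) (k : ℤ) (hk : 0 < k) (h : k • v ∈ Sc b c) : v ∈ Sc b c := by
  rcases h with h | h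
  · left
    rw [QuadraticAlgebra.im_smul, smul_eq_mul] at h
    exact (mul_pos_iff_of_pos_left hk).mp h
  · right
    rw [QuadraticAlgebra.im_smul, QuadraticAlgebra.re_smul, smul_eq_mul, smul_eq_mul] at h
    refine ⟨?_, (mul_pos_iff_of_pos_left hk).mp h.2⟩
    rcases mul_eq_zero.mp h.1 with h' | h'
    · exact absurd h' hk.ne'
    · exact h'

theorem sec_neg (v : O b c) (hv : v ∈ Sc b c) : -v ∉ Sc b c := by
  intro h
  rcases hv with h1 | ⟨h1, h1'⟩ <;> rcases h with h2 | ⟨h2, h2'⟩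
  · rw [QuadraticAlgebra.im_neg] at h2; linarith
  · rw [QuadraticAlgebra.im_neg] at h2; linarith
  · rw [QuadraticAlgebra.im_neg] at h2; linarith
  · rw [QuadraticAlgebra.re_neg] at h2'; linarith

/-- ROW NC.  `nm v = (re + b im/2)² + (-D/4) im²`, `-D ≥ 3`. -/
theorem size (hb : 1 ≤ b) (hD : b ^ 2 - 4 * c < 0) (v : O b c) :
    |(v.re : ℝ)| ≤ (b + 2) * Real.sqrt (nm v) ∧ |(v.im : ℝ)| ≤ (b + 2) * Real.sqrt (nm v) := by
  have hbR : (1 : ℝ) ≤ b := by exact_mod_cast hb
  have h3 : (3 : ℝ) ≤ 4 * c - b ^ 2 := by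
    have := (sD_ge (b := b) (c := c) hD).1
    rw [sD_sq hD] at this
    linarith
  obtain ⟨x, hx⟩ : ∃ x : ℝ, x = v.re := ⟨_, rfl⟩
  obtain ⟨y, hy⟩ : ∃ y : ℝ, y = v.im := ⟨_, rfl⟩
  have hnm : (nm v : ℝ) = x ^ 2 + b * x * y + c * y ^ 2 := by
    rw [hx, hy, nm]; push_cast; ring
  have h4 : 4 * (nm v : ℝ) = (2 * x + b * y) ^ 2 + (4 * c - b ^ 2) * y ^ 2 := by
    rw [hnm]; ring
  have hy2 : 3 * y ^ 2 ≤ (4 * c - b ^ 2) * y ^ 2 :=
    mul_le_mul_of_nonneg_right h3 (sq_nonneg y)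
  have hn0 : (0 : ℝ) ≤ nm v := by nlinarith [sq_nonneg (2 * x + b * y), sq_nonneg y]
  obtain ⟨s, hs⟩ : ∃ s, s = Real.sqrt (nm v) := ⟨_, rfl⟩
  have hs0 : 0 ≤ s := by rw [hs]; exact Real.sqrt_nonneg _
  have hss : s ^ 2 = nm v := by rw [hs]; exact Real.sq_sqrt hn0
  rw [← hx, ← hy, ← hs]
  have hyb : |y| ≤ 2 * s := by
    apply abs_le_of_sq_le_sq _ (by linarith)
    nlinarith [sq_nonneg (2 * x + b * y), sq_nonneg y]
  have hxy : |2 * x + b * y| ≤ 2 * s := by
    apply abs_le_of_sq_le_sq _ (by linarith)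
    nlinarith [sq_nonneg y]
  constructor
  · rw [abs_le] at hyb hxy ⊢
    constructor <;> nlinarith
  · nlinarith

/-- ROW NC.  From `size` with `nm t = 1`. -/
theorem unit_fin (hb : 1 ≤ b) (hD : b ^ 2 - 4 * c < 0) (t : O b c) (ht : nm t = 1) : t ∈ Un b c := by
  have h := size hb hD t
  rw [ht, Int.cast_one, Real.sqrt_one, mul_one] at h
  have h1 : |t.re| ≤ b + 2 := by exact_mod_cast h.1
  have h2 : |t.im| ≤ b + 2 := by exact_mod_cast h.2
  rw [abs_le] at h1 h2
  rw [Un, Finset.mem_image]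
  refine ⟨(t.re, t.im), ?_, rfl⟩
  rw [Finset.mem_product, Finset.mem_Icc, Finset.mem_Icc]
  exact ⟨h1, h2⟩

end Pool.Agent.Lib.MP_648c71_nt.HP.Neg
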