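import Pool.Agent.Lib.MP_648c71_nt.HP.NC

/-! Row ND (about 130 lines): neighbours, narrow cone. -/

set_option autoImplicit false

namespace Pool.Agent.Lib.MP_648c71_nt.HP.Neg

open Finset MeasureTheory

variable {b c : ℤ}

theorem ND_em_re (z : O b c) : (em z).re = z.re + z.im * ((b : ℝ) / 2) := by
  simp [em, wn]

theorem ND_em_im (z : O b c) : (em z).im = z.im * (sD b c / 2) := by
  simp [em, wn]

theorem ND_arg_I (z : ℂ) (h1 : z.re = 0) (h2 : 0 < z.im) : Complex.arg z / Real.pi = 1 / 2 := by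
  have h : z = (z.im : ℂ) * Complex.I := by
    apply Complex.ext
    · simp [h1]
    · simp
  rw [h, Complex.arg_real_mul _ h2, Complex.arg_I]
  have := Real.pi_ne_zero
  field_simp

/-- ROW ND.  `uu` is primitive, in the sector, and `em uu = i * positive`: `an uu = 1/2`. -/
theorem uu_prop (hb : 1 ≤ b) (hD : b ^ 2 - 4 * c < 0) :
    uu b c ∈ Sc b c ∧ IsCoprime (uu b c).re (uu b c).im ∧ an (uu b c) = 1 / 2 := by
  have hs := (sD_ge hD).2
  by_cases he : Even b
  · have hu : uu b c = ⟨-(b / 2), 1⟩ := by rw [uu, if_pos he]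
    obtain ⟨k, hk⟩ := he
    have hk2 : b / 2 = k := by omega
    rw [hu, hk2]
    refine ⟨Or.inl one_pos, ⟨0, 1, by simp⟩, ?_⟩
    rw [an]
    apply ND_arg_I
    · rw [ND_em_re]
      simp only
      rw [hk]
      push_cast
      ring
    · rw [ND_em_im]
      simp only
      push_cast
      linarith
  · have hu : uu b c = ⟨-b, 2⟩ := by rw [uu, if_neg he]
    rw [hu]
    refine ⟨Or.inl two_pos, ?_, ?_⟩
    · rw [Int.not_even_iff_odd] at he
      obtain ⟨k, hk⟩ := he
      exact ⟨-1, -k, by rw [hk]; ring⟩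
    · rw [an]
      apply ND_arg_I
      · rw [ND_em_re]
        simp only
        push_cast
        ring
      · rw [ND_em_im]
        simp only
        push_cast
        linarith

theorem ND_ne_zero (v : O b c) (hv : v ∈ Sc b c) : v ≠ 0 := by
  rintro rfl
  rcases hv with h | ⟨_, h⟩ <;> simp at h

theorem ND_sD_le (hc : 2 ≤ c) (hD : b ^ 2 - 4 * c < 0) : sD b c ≤ 2 * c := by
  have h1 := sD_sq hD
  have h2 := (sD_ge hD).2
  have hc' : (2 : ℝ) ≤ c := by exact_mod_cast hc
  have h3 : sD b c ^ 2 ≤ (2 * c) ^ 2 := by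
    rw [h1]
    nlinarith [sq_nonneg (b : ℝ)]
  exact le_of_sq_le_sq h3 (by positivity)

/-- ROW ND.  If `0 ≤ dt uu v` then `an v ≥ 1/2` (`lt_iff`), and if `0 ≤ dt w uu` then `w ≠ -1` and `an w ≤ 1/2`; so
`φ = π(an w - an v) ∈ [0, π/2]` in both cases (`an v, an w ∈ [0,1]`; `φ ≥ 0` from `dt v w = 1` and `sin_angle`).
`φ ≤ (π/2) sin φ` (`Real.mul_le_sin`) and `sin φ = (√(-D)/2)/(‖v‖‖w‖)`; `√(-D) ≤ 2c`... (`-D = 4c - b² ≤ 4c`).
`0 ≤ cos φ` gives `sc v w + b/2 ≥ 0`. -/
theorem near (hb : 1 ≤ b) (hc : 2 ≤ c) (hD : b ^ 2 - 4 * c < 0) (v : O b c) (hv : v ∈ Sc b c) (w : O b c)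
    (hw : w ∈ Sc b c ∨ w = ee1 b c) (h : dt v w = 1) (hu : 0 ≤ dt (uu b c) v ∨ 0 ≤ dt w (uu b c)) :
    an w - an v ≤ ((b : ℝ) + 4 * c) / (Real.sqrt (nm v) * Real.sqrt (nm w)) ∧
      -((b : ℝ) + 4 * c) ≤ (sc v w : ℝ) := by
  obtain ⟨hus, hup, hua⟩ := uu_prop (b := b) (c := c) hb hD
  have hs := (sD_ge hD).2
  have hpi := Real.pi_pos
  have hv0 : v ≠ 0 := ND_ne_zero v hv
  have hw0 : w ≠ 0 := by
    rcases hw with h1 | h1
    · exact ND_ne_zero w h1
    · rw [h1]
      intro h2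
      have := congrArg QuadraticAlgebra.re h2
      simp [ee1] at this
  obtain ⟨hv1, hv2⟩ := an_mem hD v hv
  have hw12 : 0 ≤ an w ∧ an w ≤ 1 := by
    rcases hw with h1 | h1
    · obtain ⟨h2, h3⟩ := an_mem hD w h1
      exact ⟨h2, h3.le⟩
    · rw [h1, an_ee1]; norm_num
  obtain ⟨hw1, hw2⟩ := hw12
  have hanti : ∀ p q : O b c, dt p q = - dt q p := by
    intro p q
    rw [dt, dt]; ring
  obtain ⟨hsin, hcos⟩ := sin_angle hD v w hv0 hw0
  rw [h] at hsin hcos
  have hA : 0 < ‖em v‖ * ‖em w‖ :=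
    mul_pos (norm_pos_iff.2 (em_ne_zero hD v hv0)) (norm_pos_iff.2 (em_ne_zero hD w hw0))
  have hpos : 0 < an w - an v := by
    by_contra hcon
    push Not at hcon
    have h2 : Real.sin (Real.pi * (an w - an v)) ≤ 0 := by
      apply Real.sin_nonpos_of_nonpos_of_neg_pi_le
      · exact mul_nonpos_of_nonneg_of_nonpos hpi.le hcon
      · nlinarith
    have h3 : 0 < sD b c / 2 * ((1 : ℤ) : ℝ) := by
      push_cast
      linarith
    rw [← hsin] at h3
    nlinarith
  have hhalf : an w - an v ≤ 1 / 2 := by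
    rcases hu with h1 | h1
    · have h2 : 1 / 2 ≤ an v := by
        by_contra hcon
        push Not at hcon
        rw [← hua] at hcon
        have h3 := (lt_iff hD v hv (uu b c) hus).1 hcon
        rw [hanti] at h3
        omega
      linarith
    · rcases hw with h4 | h4
      · have h2 : an w ≤ 1 / 2 := by
          by_contra hcon
          push Not at hcon
          rw [← hua] at hcon
          have h3 := (lt_iff hD (uu b c) hus w h4).1 hcon
          rw [hanti] at h3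
          omega
        linarith
      · exfalso
        rw [h4] at h1
        have h5 : dt (ee1 b c) (uu b c) = - (uu b c).im := by
          simp [dt, ee1]
        have h6 : 0 < (uu b c).im := by
          rcases hus with h7 | ⟨h7, h8⟩
          · exact h7
          · exfalso
            unfold uu at h7
            split_ifs at h7 <;> simp at h7
        omega
  have hφ0 : 0 ≤ Real.pi * (an w - an v) := by positivity
  have hφ1 : Real.pi * (an w - an v) ≤ Real.pi / 2 := by nlinarith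
  have hms := Real.mul_le_sin hφ0 hφ1
  have hcos0 : 0 ≤ Real.cos (Real.pi * (an w - an v)) :=
    Real.cos_nonneg_of_neg_pi_div_two_le_of_le (by linarith) hφ1
  have hb' : (1 : ℝ) ≤ b := by exact_mod_cast hb
  have hc' : (2 : ℝ) ≤ c := by exact_mod_cast hc
  constructor
  · rw [← norm_em hD, ← norm_em hD, le_div_iff₀ hA]
    have h1 : 2 / Real.pi * (Real.pi * (an w - an v)) = 2 * (an w - an v) := by
      field_simp
    rw [h1] at hms
    have h2 : (an w - an v) * (‖em v‖ * ‖em w‖) ≤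
        ‖em v‖ * ‖em w‖ * Real.sin (Real.pi * (an w - an v)) := by
      nlinarith
    rw [hsin] at h2
    push_cast at h2
    have h3 := ND_sD_le hc hD
    linarith
  · have h1 : 0 ≤ ‖em v‖ * ‖em w‖ * Real.cos (Real.pi * (an w - an v)) :=
      mul_nonneg hA.le hcos0
    rw [hcos] at h1
    push_cast at h1
    linarith

/-- ROW ND.  Narrow cone, `q0 = 4c`.  `Re em = x + by/2 > 0`, `Im em = y√(-D)/2 > 0` and `Im < Re` (`√(-D) ≤ 2√c ≤ 4c`), so
`arg < π/4`.  `log(conj z) = conj(log z)` (`arg ≠ π`), so with `ω1 = wn`, `ω2 = conj wn`: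
`log z - log (conj z) = 2 i arg z`, `ω1 - ω2 = i√(-D)`, the quotient is `2 arg z/√(-D)`, and
`C0 = √(-D)/(2π)`. -/
theorem narrow (hb : 1 ≤ b) (hc : 2 ≤ c) (hD : b ^ 2 - 4 * c < 0) (x y : ℤ) (hy : 0 < y)
    (hx : 4 * c * y ≤ x) : (⟨x, y⟩ : O b c) ∈ Sc b c ∧ an (⟨x, y⟩ : O b c) < 1 / 4 ∧
      an (⟨x, y⟩ : O b c) = sD b c / (2 * Real.pi) *
        LG (wn b c) ((starRingEnd ℂ) (wn b c)) y 0 x := by
  have hs := (sD_ge hD).2
  have hsc := ND_sD_le hc hD
  have hpi := Real.pi_pos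
  have hb' : (1 : ℝ) ≤ b := by exact_mod_cast hb
  have hc' : (2 : ℝ) ≤ c := by exact_mod_cast hc
  have hy' : (0 : ℝ) < y := by exact_mod_cast hy
  have hx' : 4 * (c : ℝ) * y ≤ x := by exact_mod_cast hx
  have hre : (em (⟨x, y⟩ : O b c)).re = x + y * ((b : ℝ) / 2) := ND_em_re _
  have him : (em (⟨x, y⟩ : O b c)).im = y * (sD b c / 2) := ND_em_im _
  have him0 : 0 < (em (⟨x, y⟩ : O b c)).im := by rw [him]; positivity
  have hlt : (em (⟨x, y⟩ : O b c)).im < (em (⟨x, y⟩ : O b c)).re := by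
    rw [him, hre]
    have h1 : (y : ℝ) * (sD b c / 2) ≤ y * c := by
      apply mul_le_mul_of_nonneg_left _ hy'.le
      linarith
    have h2 : 0 < (y : ℝ) * ((b : ℝ) / 2) := by positivity
    have h3 : 0 < (c : ℝ) * y := by positivity
    nlinarith
  have hre0 : 0 < (em (⟨x, y⟩ : O b c)).re := him0.trans hlt
  have harg0 : 0 ≤ Complex.arg (em (⟨x, y⟩ : O b c)) := Complex.arg_nonneg_iff.2 him0.le
  have harg1 : Complex.arg (em (⟨x, y⟩ : O b c)) < Real.pi / 2 := by
    have := (Complex.abs_arg_lt_pi_div_two_iff).2 (Or.inl hre0)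
    exact (abs_lt.1 this).2
  have harg2 : Complex.arg (em (⟨x, y⟩ : O b c)) < Real.pi / 4 := by
    by_contra hcon
    push Not at hcon
    have h1 : Real.tan (Real.pi / 4) ≤ Real.tan (Complex.arg (em (⟨x, y⟩ : O b c))) := by
      rcases eq_or_lt_of_le hcon with h2 | h2
      · rw [h2]
      · exact (Real.tan_lt_tan_of_nonneg_of_lt_pi_div_two (by positivity) harg1 h2).le
    rw [Real.tan_pi_div_four, Complex.tan_arg, le_div_iff₀ hre0] at h1
    linarith
  refine ⟨Or.inl hy, ?_, ?_⟩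
  · rw [an, div_lt_iff₀ hpi]
    linarith
  · have hz1 : ((x : ℝ) : ℂ) + ((y : ℝ) : ℂ) * wn b c = em (⟨x, y⟩ : O b c) := by
      simp [em]
    have hz2 : ((x : ℝ) : ℂ) + ((y : ℝ) : ℂ) * (starRingEnd ℂ) (wn b c) =
        (starRingEnd ℂ) (em (⟨x, y⟩ : O b c)) := by
      simp [em]
    have hlog := Complex.log_conj (em (⟨x, y⟩ : O b c)) (by
      intro h1
      rw [h1] at harg1
      linarith)
    have hLG : LG (wn b c) ((starRingEnd ℂ) (wn b c)) y 0 x =
        2 * Complex.arg (em (⟨x, y⟩ : O b c)) / sD b c := by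
      have h0 : LG (wn b c) ((starRingEnd ℂ) (wn b c)) y 0 x =
          ((Complex.log (((x : ℝ) : ℂ) + ((y : ℝ) : ℂ) * wn b c) -
            Complex.log (((x : ℝ) : ℂ) + ((y : ℝ) : ℂ) * (starRingEnd ℂ) (wn b c))) /
            (wn b c - (starRingEnd ℂ) (wn b c))).re := rfl
      rw [h0, hz1, hz2, hlog]
      have h1 : Complex.log (em (⟨x, y⟩ : O b c)) -
          (starRingEnd ℂ) (Complex.log (em (⟨x, y⟩ : O b c))) =
          ((2 * Complex.arg (em (⟨x, y⟩ : O b c)) : ℝ) : ℂ) * Complex.I := by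
        apply Complex.ext
        · simp
        · simp [Complex.log_im]; ring
      have h2 : wn b c - (starRingEnd ℂ) (wn b c) = ((sD b c : ℝ) : ℂ) * Complex.I := by
        apply Complex.ext
        · simp
        · simp [wn]
      rw [h1, h2, mul_div_mul_right _ _ Complex.I_ne_zero, ← Complex.ofReal_div, Complex.ofReal_re]
    rw [hLG, an]
    have hs0 : sD b c ≠ 0 := by positivity
    field_simp

theorem wn_ne (hD : b ^ 2 - 4 * c < 0) : wn b c ≠ (starRingEnd ℂ) (wn b c) := by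
  have hs := (sD_ge hD).2
  intro h
  have h1 := congrArg Complex.im h
  simp [wn] at h1
  linarith

end Pool.Agent.Lib.MP_648c71_nt.HP.Neg
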