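import Pool.Agent.Lib.MP_648c71_nt.HP.Geo

/-!
# Negative discriminant: definitions
-/

set_option autoImplicit false

namespace Pool.Agent.Lib.MP_648c71_nt.HP.Neg

open Finset MeasureTheory

variable {b c : ℤ}

/-- `√(-D)` -/
noncomputable def sD (b c : ℤ) : ℝ := Real.sqrt (-((b : ℝ) ^ 2 - 4 * c))

/-- `ω = (b + i√(-D))/2` -/
noncomputable def wn (b c : ℤ) : ℂ := ⟨(b : ℝ) / 2, sD b c / 2⟩

/-- the complex embedding -/
noncomputable def em (z : O b c) : ℂ := (z.re : ℂ) + (z.im : ℂ) * wn b c

/-- elements of positive norm -/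
def MM (b c : ℤ) : Submonoid (O b c) where
  carrier := {z | 0 < nm z}
  one_mem' := by simp [nm_one]
  mul_mem' := by
    intro x y hx hy
    simp only [Set.mem_setOf_eq] at hx hy ⊢
    rw [nm_mul]; exact mul_pos hx hy

/-- the upper half plane with the positive half line -/
def Sc (b c : ℤ) : Set (O b c) := {z | 0 < z.im ∨ (z.im = 0 ∧ 0 < z.re)}

/-- the angle `arg/π` -/
noncomputable def an (z : O b c) : ℝ := Complex.arg (em z) / Real.pi

/-- the last ray -/
def ee1 (b c : ℤ) : O b c := ⟨-1, 0⟩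

open Classical in
/-- the primitive vector in the direction of `i` -/
noncomputable def uu (b c : ℤ) : O b c := if Even b then ⟨-(b / 2), 1⟩ else ⟨-b, 2⟩

open Classical in
/-- a finite set containing all elements of norm 1 -/
noncomputable def Un (b c : ℤ) : Finset (O b c) :=
  ((Icc (-(b + 2)) (b + 2)) ×ˢ (Icc (-(b + 2)) (b + 2))).image (fun p => (⟨p.1, p.2⟩ : O b c))

end Pool.Agent.Lib.MP_648c71_nt.HP.Neg
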