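import Pool.Agent.Lib.MP_648c71_nt.Lattice

/-!
# Real embeddings of `ℤ[ω]` for positive discriminant (copied from `BuildPos.lean`)
-/

set_option autoImplicit false

namespace Pool.Agent.Lib.MP_648c71_nt.PB

open Finset

noncomputable section


/-- square root of the discriminant -/
def rr (b c : ℤ) : ℝ := Real.sqrt ((b : ℝ) ^ 2 - 4 * c)

/-- the larger root -/
def w1 (b c : ℤ) : ℝ := (b + rr b c) / 2

/-- the smaller root -/
def w2 (b c : ℤ) : ℝ := (b - rr b c) / 2

section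

variable {b c : ℤ}

theorem rr_sq (hD : 4 * c < b ^ 2) : rr b c ^ 2 = (b : ℝ) ^ 2 - 4 * c := by
  have h : (4 : ℝ) * c < b ^ 2 := by exact_mod_cast hD
  unfold rr
  rw [Real.sq_sqrt (by linarith)]

theorem rr_pos (hD : 4 * c < b ^ 2) : 0 < rr b c := by
  have h : (4 : ℝ) * c < b ^ 2 := by exact_mod_cast hD
  unfold rr
  apply Real.sqrt_pos_of_pos
  linarith

theorem rr_le (hD : 4 * c < b ^ 2) : rr b c ≤ 1 + |(b : ℝ)| + |(c : ℝ)| := by
  have h1 := rr_sq hD
  have h2 := rr_pos hD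
  have hb := abs_nonneg (b : ℝ)
  have hc := abs_nonneg (c : ℝ)
  apply le_of_sq_le_sq _ (by positivity)
  rw [h1]
  have h3 : (b : ℝ) ^ 2 = |(b : ℝ)| ^ 2 := (sq_abs _).symm
  have h4 := neg_abs_le (c : ℝ)
  rw [h3]
  nlinarith [sq_nonneg (1 - |(c : ℝ)|)]

theorem abs_w1_le (hD : 4 * c < b ^ 2) : |w1 b c| ≤ 1 + |(b : ℝ)| + |(c : ℝ)| := by
  have h1 := rr_le hD
  have h2 := rr_pos hD
  have h3 := neg_abs_le (b : ℝ)
  have h4 := le_abs_self (b : ℝ)
  have hc := abs_nonneg (c : ℝ)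
  unfold w1
  rw [abs_le]
  constructor <;> linarith

theorem abs_w2_le (hD : 4 * c < b ^ 2) : |w2 b c| ≤ 1 + |(b : ℝ)| + |(c : ℝ)| := by
  have h1 := rr_le hD
  have h2 := rr_pos hD
  have h3 := neg_abs_le (b : ℝ)
  have h4 := le_abs_self (b : ℝ)
  have hc := abs_nonneg (c : ℝ)
  unfold w2
  rw [abs_le]
  constructor <;> linarith

/-- the two real embeddings of real vectors -/
def q1 (b c : ℤ) (z : ℝ × ℝ) : ℝ := z.1 + z.2 * w1 b c

/-- the two real embeddings of real vectors -/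
def q2 (b c : ℤ) (z : ℝ × ℝ) : ℝ := z.1 + z.2 * w2 b c

/-- the two real embeddings -/
def p1 (v : O b c) : ℝ := v.re + v.im * w1 b c

/-- the two real embeddings -/
def p2 (v : O b c) : ℝ := v.re + v.im * w2 b c

theorem w_mul (hD : 4 * c < b ^ 2) : w1 b c * w2 b c = c := by
  have h := rr_sq hD
  unfold w1 w2
  linear_combination (-1 / 4 : ℝ) * h

theorem w_add : w1 b c + w2 b c = b := by
  unfold w1 w2; ring

theorem w_sub : w1 b c - w2 b c = rr b c := by
  unfold w1 w2; ring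

theorem w1_sq (hD : 4 * c < b ^ 2) : w1 b c ^ 2 = b * w1 b c - c := by
  have h := rr_sq hD
  unfold w1
  linear_combination (1 / 4 : ℝ) * h

theorem w2_sq (hD : 4 * c < b ^ 2) : w2 b c ^ 2 = b * w2 b c - c := by
  have h := rr_sq hD
  unfold w2
  linear_combination (1 / 4 : ℝ) * h

theorem p1_mul (hD : 4 * c < b ^ 2) (v w : O b c) : p1 (v * w) = p1 v * p1 w := by
  have h := w1_sq hD
  simp only [p1, QuadraticAlgebra.re_mul, QuadraticAlgebra.im_mul]
  push_cast
  linear_combination (-(v.im : ℝ) * w.im) * h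

theorem p2_mul (hD : 4 * c < b ^ 2) (v w : O b c) : p2 (v * w) = p2 v * p2 w := by
  have h := w2_sq hD
  simp only [p2, QuadraticAlgebra.re_mul, QuadraticAlgebra.im_mul]
  push_cast
  linear_combination (-(v.im : ℝ) * w.im) * h

theorem p_mul (hD : 4 * c < b ^ 2) (v : O b c) : p1 v * p2 v = nm v := by
  have h1 := w_mul hD
  have h2 := w_add (b := b) (c := c)
  simp only [p1, p2, nm]
  push_cast
  linear_combination (v.re : ℝ) * v.im * h2 + (v.im : ℝ) ^ 2 * h1

theorem p1_star (v : O b c) : p1 (star v) = p2 v := by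
  have h2 := w_add (b := b) (c := c)
  simp only [p1, p2, QuadraticAlgebra.re_star, QuadraticAlgebra.im_star]
  push_cast
  linear_combination (-(v.im : ℝ)) * h2

theorem p2_star (v : O b c) : p2 (star v) = p1 v := by
  have h2 := w_add (b := b) (c := c)
  simp only [p1, p2, QuadraticAlgebra.re_star, QuadraticAlgebra.im_star]
  push_cast
  linear_combination (-(v.im : ℝ)) * h2

/-- the logarithm of the ratio of the two embeddings -/
def Lg (v : O b c) : ℝ := Real.log (p1 v) - Real.log (p2 v)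

theorem p_ne_zero (hD : 4 * c < b ^ 2) {v : O b c} (hv : nm v ≠ 0) : p1 v ≠ 0 ∧ p2 v ≠ 0 := by
  have h := p_mul hD v
  have h2 : (nm v : ℝ) ≠ 0 := by exact_mod_cast hv
  rw [← h] at h2
  exact mul_ne_zero_iff.mp h2

theorem Lg_mul (hD : 4 * c < b ^ 2) {v w : O b c} (hv : nm v ≠ 0) (hw : nm w ≠ 0) :
    Lg (v * w) = Lg v + Lg w := by
  obtain ⟨h1, h2⟩ := p_ne_zero hD hv
  obtain ⟨h3, h4⟩ := p_ne_zero hD hw
  unfold Lg
  rw [p1_mul hD, p2_mul hD, Real.log_mul h1 h3, Real.log_mul h2 h4]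
  ring

theorem Lg_star (v : O b c) : Lg (star v) = -Lg v := by
  unfold Lg
  rw [p1_star, p2_star]; ring

theorem Lg_one : Lg (1 : O b c) = 0 := by
  simp [Lg, p1, p2, QuadraticAlgebra.re_one, QuadraticAlgebra.im_one]

theorem nm_pow_ne {v : O b c} (hv : nm v ≠ 0) (n : ℕ) : nm (v ^ n) ≠ 0 := by
  induction n with
  | zero => rw [pow_zero, nm_one]; exact one_ne_zero
  | succ n ih => rw [pow_succ, nm_mul]; exact mul_ne_zero ih hv

theorem Lg_pow (hD : 4 * c < b ^ 2) {v : O b c} (hv : nm v ≠ 0) (n : ℕ) :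
    Lg (v ^ n) = n * Lg v := by
  induction n with
  | zero => rw [pow_zero, Lg_one]; simp
  | succ n ih => rw [pow_succ, Lg_mul hD (nm_pow_ne hv n) hv, ih]; push_cast; ring


end

end

end Pool.Agent.Lib.MP_648c71_nt.PB
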