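import Mathlib

/-! Row W1 (about 90 lines): the van der Corput inequality. -/

set_option autoImplicit false

namespace Pool.Agent.Lib.MP_648c71_nt.HP

open Finset MeasureTheory

private lemma w1_sum_shift (N H h : ℕ) (hh : h < H) (F : ℕ → ℂ) :
    ∑ m ∈ range (N + H), (if h ≤ m ∧ m - h < N then F (m - h) else 0) = ∑ n ∈ range N, F n := by
  rw [← Finset.sum_filter]
  symm
  refine Finset.sum_bij (fun n _ => n + h) ?_ ?_ ?_ ?_
  · intro n hn
    simp only [mem_range, mem_filter] at hn ⊢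
    omega
  · intro a _ b _ hab
    simpa using hab
  · intro m hm
    simp only [mem_range, mem_filter] at hm
    refine ⟨m - h, ?_, ?_⟩
    · simp only [mem_range]; omega
    · show m - h + h = m
      omega
  · intro n _
    rw [Nat.add_sub_cancel]

private lemma w1_corr (N H h h' : ℕ) (hh : h < h') (hH : h' < H) (u : ℕ → ℂ) :
    ∑ m ∈ range (N + H), (if h ≤ m ∧ m - h < N then u (m - h) else 0) *
      (starRingEnd ℂ) (if h' ≤ m ∧ m - h' < N then u (m - h') else 0) =
    ∑ n ∈ range (N - (h' - h)), u (n + (h' - h)) * (starRingEnd ℂ) (u n) := by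
  have h1 : ∀ m ∈ range (N + H), (if h ≤ m ∧ m - h < N then u (m - h) else 0) *
      (starRingEnd ℂ) (if h' ≤ m ∧ m - h' < N then u (m - h') else 0) =
      (if h' ≤ m ∧ m - h < N then u (m - h) * (starRingEnd ℂ) (u (m - h')) else 0) := by
    intro m _
    by_cases c1 : h' ≤ m ∧ m - h < N
    · rw [if_pos c1, if_pos ⟨by omega, c1.2⟩, if_pos ⟨c1.1, by omega⟩]
    · rw [if_neg c1]
      by_cases c2 : h' ≤ m ∧ m - h' < N
      · have c3 : ¬ (h ≤ m ∧ m - h < N) := by omega
        rw [if_neg c3, zero_mul]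
      · rw [if_neg c2, map_zero, mul_zero]
  rw [Finset.sum_congr rfl h1, ← Finset.sum_filter]
  symm
  refine Finset.sum_bij (fun n _ => n + h') ?_ ?_ ?_ ?_
  · intro n hn
    simp only [mem_range, mem_filter] at hn ⊢
    omega
  · intro a _ b _ hab
    simpa using hab
  · intro m hm
    simp only [mem_range, mem_filter] at hm
    refine ⟨m - h', ?_, ?_⟩
    · simp only [mem_range]; omega
    · show m - h' + h' = m
      omega
  · intro n _
    rw [Nat.add_sub_cancel]
    congr 2
    omega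

/-- ROW W1.  Extend `u` by zero outside `[0,N)`.  `H ∑ u = ∑_{m < N+H} ∑_{h<H} u(m-h)`, Cauchy-Schwarz gives
`|H ∑ u|² ≤ (N+H) ∑_m |∑_h u(m-h)|² = (N+H) ∑_{h,h'} ∑_m u(m-h) conj(u(m-h'))
≤ 2N (H N + 2 ∑_{r=1}^{H-1} (H-r) |∑_n u(n+r) conj(u n)|)`; divide by `H²`. -/
theorem vdc (N H : ℕ) (hH : 0 < H) (hHN : H ≤ N) (u : ℕ → ℂ) (hu : ∀ n, ‖u n‖ ≤ 1) :
    ‖∑ n ∈ range N, u n‖ ^ 2 ≤ 2 * (N : ℝ) ^ 2 / H + 4 * N / H *
      ∑ h ∈ Ico 1 H, ‖∑ n ∈ range (N - h), u (n + h) * (starRingEnd ℂ) (u n)‖ := by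
  set w : ℕ → ℕ → ℂ := fun m h => if h ≤ m ∧ m - h < N then u (m - h) else 0 with hw
  set b : ℕ → ℝ := fun r => ‖∑ n ∈ range (N - r), u (n + r) * (starRingEnd ℂ) (u n)‖ with hb
  set S := ∑ n ∈ range N, u n with hS
  set B := ∑ r ∈ Ico 1 H, b r with hB
  have hb0 : ∀ r, 0 ≤ b r := fun r => norm_nonneg _
  have hB0 : 0 ≤ B := Finset.sum_nonneg fun r _ => hb0 r
  have hHS : (H : ℂ) * S = ∑ m ∈ range (N + H), ∑ h ∈ range H, w m h := by
    rw [Finset.sum_comm]
    rw [Finset.sum_congr rfl (fun h hh => w1_sum_shift N H h (mem_range.1 hh) u)]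
    simp [hS]
  have hnb : b 0 ≤ N := by
    simp only [hb]
    refine (norm_sum_le _ _).trans ?_
    calc ∑ i ∈ range (N - 0), ‖u (i + 0) * (starRingEnd ℂ) (u i)‖ ≤ ∑ i ∈ range (N - 0), (1 : ℝ) := by
          refine Finset.sum_le_sum fun i _ => ?_
          rw [norm_mul, RCLike.norm_conj]
          exact mul_le_one₀ (hu _) (norm_nonneg _) (hu _)
      _ = N := by simp
  -- correlation
  have hA : ∀ h ∈ range H, ∀ h' ∈ range H,
      ‖∑ m ∈ range (N + H), w m h * (starRingEnd ℂ) (w m h')‖ = b (if h < h' then h' - h else h - h') := by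
    intro h hh h' hh'
    rw [mem_range] at hh hh'
    rcases lt_trichotomy h h' with hlt | heq | hgt
    · rw [if_pos hlt, w1_corr N H h h' hlt hh' u]
    · subst heq
      rw [if_neg (lt_irrefl _), Nat.sub_self]
      have : ∀ m ∈ range (N + H), w m h * (starRingEnd ℂ) (w m h) =
          if h ≤ m ∧ m - h < N then u (m - h) * (starRingEnd ℂ) (u (m - h)) else 0 := by
        intro m _
        simp only [hw]
        split_ifs <;> simp
      rw [Finset.sum_congr rfl this, w1_sum_shift N H h hh (fun n => u n * (starRingEnd ℂ) (u n))]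
      simp [hb]
    · rw [if_neg (by omega)]
      have : ∑ m ∈ range (N + H), w m h * (starRingEnd ℂ) (w m h') =
          (starRingEnd ℂ) (∑ m ∈ range (N + H), w m h' * (starRingEnd ℂ) (w m h)) := by
        rw [map_sum]
        refine Finset.sum_congr rfl fun m _ => ?_
        rw [map_mul, Complex.conj_conj, mul_comm]
      rw [this, RCLike.norm_conj, w1_corr N H h' h hgt hh u]
  have hrow : ∀ h ∈ range H, ∑ h' ∈ range H, b (if h < h' then h' - h else h - h') ≤ N + 2 * B := by
    intro h hh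
    rw [mem_range] at hh
    have hsplit : range H = (range h) ∪ ({h} ∪ Ico (h + 1) H) := by
      ext x; simp only [mem_range, mem_union, mem_singleton, mem_Ico]; omega
    have hd1 : Disjoint (range h) ({h} ∪ Ico (h + 1) H) := by
      rw [Finset.disjoint_left]; intro x hx; simp only [mem_range, mem_union, mem_singleton, mem_Ico] at hx ⊢; omega
    have hd2 : Disjoint ({h} : Finset ℕ) (Ico (h + 1) H) := by
      rw [Finset.disjoint_left]; intro x hx; simp only [mem_singleton, mem_Ico] at hx ⊢; omega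
    rw [hsplit, Finset.sum_union hd1, Finset.sum_union hd2, Finset.sum_singleton]
    have e1 : ∑ x ∈ range h, b (if h < x then x - h else h - x) ≤ B := by
      have : ∑ x ∈ range h, b (if h < x then x - h else h - x) = ∑ y ∈ (range h).image (fun x => h - x), b y := by
        rw [Finset.sum_image]
        · refine Finset.sum_congr rfl fun x hx => ?_
          rw [mem_range] at hx
          rw [if_neg (by omega)]
        · intro x hx y hy hxy
          simp only [coe_range, Set.mem_Iio] at hx hy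
          simp only at hxy
          omega
      rw [this]
      refine Finset.sum_le_sum_of_subset_of_nonneg ?_ fun i _ _ => hb0 i
      intro y hy
      simp only [mem_image, mem_range, mem_Ico] at hy ⊢
      obtain ⟨x, hx, rfl⟩ := hy
      omega
    have e2 : ∑ x ∈ Ico (h + 1) H, b (if h < x then x - h else h - x) ≤ B := by
      have : ∑ x ∈ Ico (h + 1) H, b (if h < x then x - h else h - x) = ∑ y ∈ (Ico (h + 1) H).image (fun x => x - h), b y := by
        rw [Finset.sum_image]
        · refine Finset.sum_congr rfl fun x hx => ?_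
          rw [mem_Ico] at hx
          rw [if_pos (by omega)]
        · intro x hx y hy hxy
          simp only [coe_Ico, Set.mem_Ico] at hx hy
          simp only at hxy
          omega
      rw [this]
      refine Finset.sum_le_sum_of_subset_of_nonneg ?_ fun i _ _ => hb0 i
      intro y hy
      simp only [mem_image, mem_Ico] at hy ⊢
      obtain ⟨x, hx, rfl⟩ := hy
      omega
    have e3 : b (if h < h then h - h else h - h) ≤ N := by
      rw [if_neg (lt_irrefl _), Nat.sub_self]; exact hnb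
    linarith
  -- Cauchy-Schwarz
  have hCS : ‖(H : ℂ) * S‖ ^ 2 ≤ ((N + H : ℕ) : ℝ) * ∑ m ∈ range (N + H), ‖∑ h ∈ range H, w m h‖ ^ 2 := by
    rw [hHS]
    have h1 : ‖∑ m ∈ range (N + H), ∑ h ∈ range H, w m h‖ ≤ ∑ m ∈ range (N + H), ‖∑ h ∈ range H, w m h‖ :=
      norm_sum_le _ _
    have h2 := sq_sum_le_card_mul_sum_sq (s := range (N + H)) (f := fun m => ‖∑ h ∈ range H, w m h‖)
    rw [card_range] at h2
    exact (pow_le_pow_left₀ (norm_nonneg _) h1 2).trans h2
  have hsq : ∑ m ∈ range (N + H), ‖∑ h ∈ range H, w m h‖ ^ 2 ≤ H * (N + 2 * B) := by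
    have h1 : ((∑ m ∈ range (N + H), ‖∑ h ∈ range H, w m h‖ ^ 2 : ℝ) : ℂ) =
        ∑ h ∈ range H, ∑ h' ∈ range H, ∑ m ∈ range (N + H), w m h * (starRingEnd ℂ) (w m h') := by
      push_cast
      have : ∀ m ∈ range (N + H), ((‖∑ h ∈ range H, w m h‖ : ℂ)) ^ 2 =
          ∑ h ∈ range H, ∑ h' ∈ range H, w m h * (starRingEnd ℂ) (w m h') := by
        intro m _
        rw [← Complex.mul_conj', map_sum, Finset.sum_mul_sum]
      rw [Finset.sum_congr rfl this, Finset.sum_comm]
      refine Finset.sum_congr rfl fun h _ => ?_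
      rw [Finset.sum_comm]
    have h2 : ∑ m ∈ range (N + H), ‖∑ h ∈ range H, w m h‖ ^ 2 =
        ‖∑ h ∈ range H, ∑ h' ∈ range H, ∑ m ∈ range (N + H), w m h * (starRingEnd ℂ) (w m h')‖ := by
      rw [← h1, Complex.norm_real, Real.norm_of_nonneg]
      exact Finset.sum_nonneg fun m _ => by positivity
    rw [h2]
    refine (norm_sum_le _ _).trans ?_
    calc ∑ h ∈ range H, ‖∑ h' ∈ range H, ∑ m ∈ range (N + H), w m h * (starRingEnd ℂ) (w m h')‖
        ≤ ∑ h ∈ range H, ((N : ℝ) + 2 * B) := by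
          refine Finset.sum_le_sum fun h hh => ?_
          refine (norm_sum_le _ _).trans ?_
          rw [Finset.sum_congr rfl (fun h' hh' => hA h hh h' hh')]
          exact hrow h hh
      _ = H * (N + 2 * B) := by rw [Finset.sum_const, card_range, nsmul_eq_mul]
  have hH' : (0 : ℝ) < H := by exact_mod_cast hH
  have hHN' : (H : ℝ) ≤ N := by exact_mod_cast hHN
  have hfin : (H : ℝ) ^ 2 * ‖S‖ ^ 2 ≤ 2 * N * (H * (N + 2 * B)) := by
    have e : ‖(H : ℂ) * S‖ ^ 2 = (H : ℝ) ^ 2 * ‖S‖ ^ 2 := by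
      rw [norm_mul, mul_pow, Complex.norm_natCast]
    rw [← e]
    refine hCS.trans ?_
    have h3 : ((N + H : ℕ) : ℝ) ≤ 2 * N := by push_cast; linarith
    have h4 : 0 ≤ ∑ m ∈ range (N + H), ‖∑ h ∈ range H, w m h‖ ^ 2 :=
      Finset.sum_nonneg fun m _ => by positivity
    exact mul_le_mul h3 hsq h4 (by positivity)
  have hgoal : 2 * (N : ℝ) ^ 2 / H + 4 * N / H * B = (2 * N * (H * (N + 2 * B))) / (H : ℝ) ^ 2 := by
    field_simp
    ring
  rw [hgoal, le_div_iff₀ (by positivity)]
  linarith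

end Pool.Agent.Lib.MP_648c71_nt.HP
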