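import Pool.Agent.Lib.MP_648c71_nt.HP.Defs

/-! Row W2 (about 120 lines): the Kusmin-Landau inequality, discrete form. -/

set_option autoImplicit false

namespace Pool.Agent.Lib.MP_648c71_nt.HP

open Finset MeasureTheory

/-- finite difference -/
def dl (a : ℕ → ℝ) : ℕ → ℝ := fun n => a (n + 1) - a n

theorem w2_abel (u : ℕ → ℂ) (c : ℕ → ℝ) (m : ℕ) :
    ∑ n ∈ range (m + 1), (u (n + 1) - u n) * (c n : ℂ) =
      u (m + 1) * (c m : ℂ) - u 0 * (c 0 : ℂ) -
        ∑ n ∈ range m, u (n + 1) * ((c (n + 1) - c n : ℝ) : ℂ) := by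
  induction m with
  | zero => simp; ring
  | succ m ih =>
    rw [sum_range_succ, ih, sum_range_succ (fun n => u (n + 1) * ((c (n + 1) - c n : ℝ) : ℂ)) m]
    push_cast
    ring

theorem w2_bound (u : ℕ → ℂ) (hu : ∀ n, ‖u n‖ ≤ 1) (c : ℕ → ℝ) (K : ℝ) (m : ℕ)
    (h0 : ∀ n, n ≤ m → 0 ≤ c n) (hK : ∀ n, n ≤ m → c n ≤ K)
    (hmono : (∀ n, n < m → c n ≤ c (n + 1)) ∨ (∀ n, n < m → c (n + 1) ≤ c n)) :
    ‖∑ n ∈ range (m + 1), (u (n + 1) - u n) * (c n : ℂ)‖ ≤ 2 * K := by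
  rw [w2_abel]
  have h1 : ‖u (m + 1) * (c m : ℂ)‖ ≤ c m := by
    rw [norm_mul, Complex.norm_real, Real.norm_of_nonneg (h0 m le_rfl)]
    calc ‖u (m + 1)‖ * c m ≤ 1 * c m := by
          gcongr
          · exact h0 m le_rfl
          · exact hu _
      _ = c m := one_mul _
  have h2 : ‖u 0 * (c 0 : ℂ)‖ ≤ c 0 := by
    rw [norm_mul, Complex.norm_real, Real.norm_of_nonneg (h0 0 (Nat.zero_le _))]
    calc ‖u 0‖ * c 0 ≤ 1 * c 0 := by
          gcongr
          · exact h0 0 (Nat.zero_le _)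
          · exact hu _
      _ = c 0 := one_mul _
  have h3 : ‖∑ n ∈ range m, u (n + 1) * ((c (n + 1) - c n : ℝ) : ℂ)‖ ≤
      ∑ n ∈ range m, |c (n + 1) - c n| := by
    refine (norm_sum_le _ _).trans (sum_le_sum fun n _ => ?_)
    rw [norm_mul, Complex.norm_real, Real.norm_eq_abs]
    calc ‖u (n + 1)‖ * |c (n + 1) - c n| ≤ 1 * |c (n + 1) - c n| := by
          gcongr
          exact hu _
      _ = |c (n + 1) - c n| := one_mul _
  have h4 : ‖u (m + 1) * (c m : ℂ) - u 0 * (c 0 : ℂ) -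
      ∑ n ∈ range m, u (n + 1) * ((c (n + 1) - c n : ℝ) : ℂ)‖ ≤
      c m + c 0 + ∑ n ∈ range m, |c (n + 1) - c n| :=
    (norm_sub_le _ _).trans (add_le_add ((norm_sub_le _ _).trans (add_le_add h1 h2)) h3)
  refine h4.trans ?_
  rcases hmono with h | h
  · have h5 : ∑ n ∈ range m, |c (n + 1) - c n| = c m - c 0 := by
      rw [← sum_range_sub c m]
      refine sum_congr rfl fun n hn => abs_of_nonneg ?_
      have := h n (mem_range.mp hn)
      linarith
    rw [h5]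
    have := hK m le_rfl
    linarith
  · have h5 : ∑ n ∈ range m, |c (n + 1) - c n| = c 0 - c m := by
      have h6 := sum_range_sub c m
      have h7 : ∑ n ∈ range m, |c (n + 1) - c n| = - ∑ n ∈ range m, (c (n + 1) - c n) := by
        rw [← sum_neg_distrib]
        refine sum_congr rfl fun n hn => ?_
        have := h n (mem_range.mp hn)
        rw [abs_of_nonpos (by linarith)]
      rw [h7, h6]
      ring
    rw [h5]
    have := hK 0 (Nat.zero_le _)
    linarith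

/-- the cotangent -/
noncomputable def w2_cot (x : ℝ) : ℝ := Real.cos (Real.pi * x) / Real.sin (Real.pi * x)

theorem w2_sin_pos {x : ℝ} (h0 : 0 < x) (h1 : x ≤ 1 / 2) : 0 < Real.sin (Real.pi * x) := by
  apply Real.sin_pos_of_pos_of_lt_pi
  · exact mul_pos Real.pi_pos h0
  · have := Real.pi_pos
    nlinarith

theorem w2_cot_nonneg {x : ℝ} (h0 : 0 < x) (h1 : x ≤ 1 / 2) : 0 ≤ w2_cot x := by
  unfold w2_cot
  apply div_nonneg _ (w2_sin_pos h0 h1).le
  have := Real.pi_pos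
  apply Real.cos_nonneg_of_neg_pi_div_two_le_of_le <;> nlinarith

theorem w2_cot_anti {x y : ℝ} (h0 : 0 < x) (hxy : x ≤ y) (h1 : y ≤ 1 / 2) :
    w2_cot y ≤ w2_cot x := by
  have hpi := Real.pi_pos
  have hx1 : x ≤ 1 / 2 := hxy.trans h1
  have hc : Real.cos (Real.pi * y) ≤ Real.cos (Real.pi * x) := by
    apply Real.cos_le_cos_of_nonneg_of_le_pi
    · positivity
    · nlinarith
    · exact mul_le_mul_of_nonneg_left hxy hpi.le
  have hs : Real.sin (Real.pi * x) ≤ Real.sin (Real.pi * y) := by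
    apply Real.sin_le_sin_of_le_of_le_pi_div_two
    · nlinarith
    · nlinarith
    · exact mul_le_mul_of_nonneg_left hxy hpi.le
  have hcx : 0 ≤ Real.cos (Real.pi * x) := by
    apply Real.cos_nonneg_of_neg_pi_div_two_le_of_le <;> nlinarith
  unfold w2_cot
  exact div_le_div₀ hcx hc (w2_sin_pos h0 hx1) hs

theorem w2_cot_le {x : ℝ} (h0 : 0 < x) (h1 : x ≤ 1 / 2) : w2_cot x ≤ 1 / (2 * x) := by
  have hpi := Real.pi_pos
  unfold w2_cot
  have hs : 2 * x ≤ Real.sin (Real.pi * x) := by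
    have := Real.mul_le_sin (x := Real.pi * x) (by positivity) (by nlinarith)
    calc 2 * x = 2 / Real.pi * (Real.pi * x) := by field_simp
      _ ≤ _ := this
  exact div_le_div₀ zero_le_one (Real.cos_le_one _) (by positivity) hs

theorem w2_alg (s c : ℂ) (hs : s ≠ 0) (hcs : c ^ 2 + s ^ 2 = 1) :
    ((c + s * Complex.I) ^ 2 - 1) * (-(1 / 2) - Complex.I / 2 * (c / s)) = 1 := by
  have hI : Complex.I ^ 2 = -1 := Complex.I_sq
  have h1 : (c + s * Complex.I) ^ 2 - 1 = 2 * s * Complex.I * (c + s * Complex.I) := by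
    linear_combination hcs - s ^ 2 * hI
  have h2 : -(1 / 2) - Complex.I / 2 * (c / s) = -(s + Complex.I * c) / (2 * s) := by
    field_simp
    ring
  rw [h1, h2, mul_div_assoc', div_eq_one_iff_eq (mul_ne_zero two_ne_zero hs)]
  linear_combination (-2 * s * (c ^ 2 + s ^ 2) - 2 * s ^ 2 * c * Complex.I) * hI + 2 * s * hcs

/-- `1/(e(x) - 1) = -1/2 - (i/2) cot(π x)` -/
theorem w2_zeta {x : ℝ} (h0 : 0 < x) (h1 : x ≤ 1 / 2) :
    (ee x - 1) * (-(1 / 2) - Complex.I / 2 * (w2_cot x : ℂ)) = 1 := by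
  have hs := (w2_sin_pos h0 h1).ne'
  have hs' : (Real.sin (Real.pi * x) : ℂ) ≠ 0 := by exact_mod_cast hs
  have he : ee x = ((Real.cos (Real.pi * x) : ℂ) + (Real.sin (Real.pi * x) : ℂ) * Complex.I) ^ 2 := by
    rw [ee, Complex.ofReal_cos, Complex.ofReal_sin, ← Complex.exp_mul_I, ← Complex.exp_nat_mul]
    congr 1
    push_cast
    ring
  have hcs : (Real.cos (Real.pi * x) : ℂ) ^ 2 + (Real.sin (Real.pi * x) : ℂ) ^ 2 = 1 := by
    have := Real.cos_sq_add_sin_sq (Real.pi * x)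
    exact_mod_cast this
  rw [he, w2_cot, Complex.ofReal_div]
  exact w2_alg _ _ hs' hcs

/-- ROW W2.  Kusmin-Landau.  `N ≤ 1` trivial.  With `u n = e(a n)`, `δ_n = dl a n ∈ [lo, 1/2]`,
`ζ_n = 1/(e(δ_n) - 1) = -1/2 - (i/2) cot(π δ_n)`, `u n = (u(n+1) - u n) ζ_n`.  Abel summation over `n < N-1`:
`∑ u n = u(N-1) ζ_{N-2} - u 0 ζ_0 + ∑_{n=1}^{N-2} u n (ζ_{n-1} - ζ_n)`; `|ζ| = 1/(2 sin πδ) ≤ 1/(4 lo)`,
`∑|ζ_{n-1} - ζ_n| = (1/2)|cot πδ_0 - cot πδ_{N-2}| ≤ 1/(2 tan(π lo)) ≤ 1/(2π lo)` by monotonicity.  Together with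
the last term (`1 ≤ 1/(2 lo)`) at most `2/lo`. -/
theorem kusmin_landau (N : ℕ) (a : ℕ → ℝ) (lo : ℝ) (hlo : 0 < lo) (hlo2 : lo ≤ 1 / 2)
    (h1 : ∀ n, n + 1 < N → lo ≤ dl a n ∧ dl a n ≤ 1 / 2)
    (hmono : (∀ n, n + 2 < N → dl a n ≤ dl a (n + 1)) ∨ (∀ n, n + 2 < N → dl a (n + 1) ≤ dl a n)) :
    ‖∑ n ∈ range N, ee (a n)‖ ≤ 2 / lo := by
  have h2lo : 4 ≤ 2 / lo := by
    rw [le_div_iff₀ hlo]
    linarith
  rcases N with _ | _ | m
  · simp; positivity
  · simp [norm_ee]; linarith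
  -- now `N = m + 2`
  set u : ℕ → ℂ := fun n => ee (a n) with hu
  set c : ℕ → ℝ := fun n => w2_cot (dl a n) with hc
  have hun : ∀ n, ‖u n‖ ≤ 1 := fun n => (norm_ee _).le
  have hK : ∀ n, n ≤ m → c n ≤ 1 / (2 * lo) := by
    intro n hn
    obtain ⟨h3, h4⟩ := h1 n (by omega)
    exact (w2_cot_anti hlo h3 h4).trans (w2_cot_le hlo hlo2)
  have h0 : ∀ n, n ≤ m → 0 ≤ c n := by
    intro n hn
    obtain ⟨h3, h4⟩ := h1 n (by omega)
    exact w2_cot_nonneg (lt_of_lt_of_le hlo h3) h4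
  have hm : (∀ n, n < m → c n ≤ c (n + 1)) ∨ (∀ n, n < m → c (n + 1) ≤ c n) := by
    rcases hmono with h | h
    · right
      intro n hn
      obtain ⟨h3, h4⟩ := h1 n (by omega)
      obtain ⟨h5, h6⟩ := h1 (n + 1) (by omega)
      exact w2_cot_anti (lt_of_lt_of_le hlo h3) (h n (by omega)) h6
    · left
      intro n hn
      obtain ⟨h3, h4⟩ := h1 n (by omega)
      obtain ⟨h5, h6⟩ := h1 (n + 1) (by omega)
      exact w2_cot_anti (lt_of_lt_of_le hlo h5) (h n (by omega)) h4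
  have hb := w2_bound u hun c (1 / (2 * lo)) m h0 hK hm
  have hterm : ∀ n ∈ range (m + 1), u n =
      -(1 / 2) * (u (n + 1) - u n) - Complex.I / 2 * ((u (n + 1) - u n) * (c n : ℂ)) := by
    intro n hn
    have hn' : n ≤ m := by have := mem_range.mp hn; omega
    obtain ⟨h3, h4⟩ := h1 n (by omega)
    have h5 := w2_zeta (lt_of_lt_of_le hlo h3) h4
    have h6 : u (n + 1) = u n * ee (dl a n) := by
      rw [hu]
      simp only []
      rw [← ee_add]
      congr 1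
      unfold dl
      ring
    have h7 : c n = w2_cot (dl a n) := rfl
    rw [h7, h6]
    linear_combination (-u n) * h5
  have hsum : ∑ n ∈ range (m + 1), u n = -(1 / 2) * (u (m + 1) - u 0) -
      Complex.I / 2 * ∑ n ∈ range (m + 1), (u (n + 1) - u n) * (c n : ℂ) := by
    rw [sum_congr rfl hterm, sum_sub_distrib, ← mul_sum, ← mul_sum, sum_range_sub]
  rw [sum_range_succ, hsum]
  have e : -(1 / 2) * (u (m + 1) - u 0) -
      Complex.I / 2 * ∑ n ∈ range (m + 1), (u (n + 1) - u n) * (c n : ℂ) + ee (a (m + 1)) =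
      1 / 2 * u (m + 1) + 1 / 2 * u 0 -
      Complex.I / 2 * ∑ n ∈ range (m + 1), (u (n + 1) - u n) * (c n : ℂ) := by
    have : ee (a (m + 1)) = u (m + 1) := rfl
    rw [this]
    ring
  rw [e]
  have n1 : ‖(1 / 2 : ℂ) * u (m + 1)‖ ≤ 1 / 2 := by
    rw [norm_mul]
    have := hun (m + 1)
    have h2 : ‖(1 / 2 : ℂ)‖ = 1 / 2 := by norm_num
    rw [h2]
    linarith
  have n2 : ‖(1 / 2 : ℂ) * u 0‖ ≤ 1 / 2 := by
    rw [norm_mul]
    have := hun 0
    have h2 : ‖(1 / 2 : ℂ)‖ = 1 / 2 := by norm_num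
    rw [h2]
    linarith
  have n3 : ‖Complex.I / 2 * ∑ n ∈ range (m + 1), (u (n + 1) - u n) * (c n : ℂ)‖ ≤
      1 / 2 * (2 * (1 / (2 * lo))) := by
    rw [norm_mul]
    have h2 : ‖Complex.I / 2‖ = 1 / 2 := by
      rw [norm_div, Complex.norm_I]; norm_num
    rw [h2]
    gcongr
  refine (norm_sub_le _ _).trans ((add_le_add ((norm_add_le _ _).trans (add_le_add n1 n2)) n3).trans ?_)
  have h9 : 1 ≤ 1 / (2 * lo) := by
    rw [le_div_iff₀ (by positivity)]
    linarith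
  have h10 : 2 / lo = 4 * (1 / (2 * lo)) := by
    field_simp
    norm_num
  rw [h10]
  linarith

end Pool.Agent.Lib.MP_648c71_nt.HP
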