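import Pool.Agent.Lib.MP_648c71_nt.HP.W2

/-! Row W3 (about 100 lines): difference classes, the case j = 1, the differenced sequence. -/

set_option autoImplicit false

namespace Pool.Agent.Lib.MP_648c71_nt.HP

open Finset MeasureTheory

/-- the `j`-th differences on `[0,N)` lie in `[lo, hi]` and are monotone -/
def DD (j N : ℕ) (lo hi : ℝ) (a : ℕ → ℝ) : Prop :=
  (∀ n, n + j < N → lo ≤ (dl^[j] a) n ∧ (dl^[j] a) n ≤ hi) ∧
  ((∀ n, n + j + 1 < N → (dl^[j] a) n ≤ (dl^[j] a) (n + 1)) ∨
   (∀ n, n + j + 1 < N → (dl^[j] a) (n + 1) ≤ (dl^[j] a) n))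

/-- power saving for sequences with small, not too small `j`-th differences -/
def PP (j : ℕ) : Prop :=
  ∀ ε : ℝ, 0 < ε → ε ≤ 1 → ∀ A : ℝ, 1 ≤ A → ∃ σ C : ℝ, 0 < σ ∧ 0 < C ∧
    ∀ (N : ℕ) (a : ℕ → ℝ) (lo hi : ℝ), 1 ≤ N → DD j N lo hi a → 0 < lo → hi ≤ A * lo →
      (N : ℝ) ^ (-(j : ℝ) + ε) ≤ lo → hi ≤ (N : ℝ) ^ (-ε) →
      ‖∑ n ∈ range N, ee (a n)‖ ≤ C * (N : ℝ) ^ (1 - σ)

/-- ROW W3.  From `kusmin_landau`: if `N^(-ε) ≤ 1/2` the sum is `≤ 2/lo ≤ 2 N^(1-ε)` (if `lo > 1/2` then
`hi ≥ lo`?  note `DD` may be void for `N ≤ 1`: then the sum is `≤ 1`); otherwise `N ≤ 2^(1/ε)` and the sum is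
`≤ N ≤ 2^(1/ε)`.  `σ = ε` (or smaller). -/
theorem PP_one : PP 1 := by
  intro ε hε hε1 A hA
  refine ⟨ε, 2, hε, two_pos, ?_⟩
  intro N a lo hi hN hD hlo hhi h1 h2
  have hN0 : (0 : ℝ) < N := by exact_mod_cast hN
  have hpow : (0 : ℝ) < (N : ℝ) ^ (1 - ε) := Real.rpow_pos_of_pos hN0 _
  by_cases hc : (N : ℝ) ^ (-ε) ≤ 1 / 2
  · have hN2 : 2 ≤ N := by
      by_contra hcon
      have : N = 1 := by omega
      subst this
      rw [Nat.cast_one, Real.one_rpow] at hc
      norm_num at hc
    have hlohi : lo ≤ hi := by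
      have := hD.1 0 (by omega)
      exact this.1.trans this.2
    have hhalf : hi ≤ 1 / 2 := h2.trans hc
    have hk := kusmin_landau N a lo hlo (hlohi.trans hhalf)
      (fun n hn => by
        have := hD.1 n hn
        simp only [Function.iterate_one] at this
        exact ⟨this.1, this.2.trans hhalf⟩)
      (by
        rcases hD.2 with h | h
        · left
          intro n hn
          have := h n (by omega)
          simpa only [Function.iterate_one] using this
        · right
          intro n hn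
          have := h n (by omega)
          simpa only [Function.iterate_one] using this)
    refine hk.trans ?_
    rw [div_le_iff₀ hlo]
    have h3 : (N : ℝ) ^ (1 - ε) * (N : ℝ) ^ (-((1 : ℕ) : ℝ) + ε) = 1 := by
      rw [← Real.rpow_add hN0]
      norm_num
    have h4 : (N : ℝ) ^ (1 - ε) * (N : ℝ) ^ (-((1 : ℕ) : ℝ) + ε) ≤ (N : ℝ) ^ (1 - ε) * lo :=
      mul_le_mul_of_nonneg_left h1 hpow.le
    rw [h3] at h4
    nlinarith
  · push Not at hc
    have h3 : (N : ℝ) ^ (1 - ε) = N * (N : ℝ) ^ (-ε) := by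
      rw [sub_eq_add_neg, Real.rpow_add hN0, Real.rpow_one]
    have h4 : ‖∑ n ∈ range N, ee (a n)‖ ≤ N := by
      refine (norm_sum_le _ _).trans ?_
      simp [norm_ee]
    rw [h3]
    nlinarith

/-- ROW W3.  `dl^[j] (a(·+h) - a) n = ∑_{i<h} dl^[j+1] a (n+i)` (both `dl^[j]` and shifts commute with
differences and sums: `a(n+h) - a n = ∑_{i<h} dl a (n+i)`). -/
theorem dl_shift (j h n : ℕ) (a : ℕ → ℝ) :
    (dl^[j] (fun n => a (n + h) - a n)) n = ∑ i ∈ range h, (dl^[j + 1] a) (n + i) := by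
  induction j generalizing n with
  | zero =>
    simp only [Function.iterate_zero, id_eq, zero_add, Function.iterate_one]
    have := Finset.sum_range_sub (fun i => a (n + i)) h
    simp only [add_zero] at this
    rw [← this]
    rfl
  | succ j ih =>
    rw [Function.iterate_succ_apply' dl j]
    have h1 : ∀ m, (dl^[j + 1 + 1] a) m = (dl^[j + 1] a) (m + 1) - (dl^[j + 1] a) m := by
      intro m
      rw [Function.iterate_succ_apply' dl (j + 1)]
      rfl
    show (dl^[j] (fun n => a (n + h) - a n)) (n + 1) - (dl^[j] (fun n => a (n + h) - a n)) n = _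
    rw [ih, ih, ← Finset.sum_sub_distrib]
    refine Finset.sum_congr rfl fun i _ => ?_
    rw [h1, show n + 1 + i = n + i + 1 by ring]

/-- ROW W3. -/
theorem DD_shift (j N h : ℕ) (lo hi : ℝ) (a : ℕ → ℝ) (hh : 0 < h) (hD : DD (j + 1) N lo hi a) :
    DD j (N - h) (h * lo) (h * hi) (fun n => a (n + h) - a n) := by
  refine ⟨fun n hn => ?_, ?_⟩
  · rw [dl_shift]
    have hb : ∀ i ∈ range h, lo ≤ (dl^[j + 1] a) (n + i) ∧ (dl^[j + 1] a) (n + i) ≤ hi := by
      intro i hi'
      rw [Finset.mem_range] at hi'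
      exact hD.1 (n + i) (by omega)
    constructor
    · have := Finset.card_nsmul_le_sum (range h) (fun i => (dl^[j + 1] a) (n + i)) lo
        (fun i hi' => (hb i hi').1)
      rwa [Finset.card_range, nsmul_eq_mul] at this
    · have := Finset.sum_le_card_nsmul (range h) (fun i => (dl^[j + 1] a) (n + i)) hi
        (fun i hi' => (hb i hi').2)
      rwa [Finset.card_range, nsmul_eq_mul] at this
  · rcases hD.2 with hm | hm
    · left
      intro n hn
      rw [dl_shift, dl_shift]
      refine Finset.sum_le_sum fun i hi' => ?_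
      rw [Finset.mem_range] at hi'
      rw [show n + 1 + i = n + i + 1 by ring]
      exact hm (n + i) (by omega)
    · right
      intro n hn
      rw [dl_shift, dl_shift]
      refine Finset.sum_le_sum fun i hi' => ?_
      rw [Finset.mem_range] at hi'
      rw [show n + 1 + i = n + i + 1 by ring]
      exact hm (n + i) (by omega)

end Pool.Agent.Lib.MP_648c71_nt.HP
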