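import Pool.Agent.Lib.MP_648c71_nt.HP.W1
import Pool.Agent.Lib.MP_648c71_nt.HP.W3

/-! Row W4 (about 150 lines): the induction step of van der Corput estimates. -/

set_option autoImplicit false

namespace Pool.Agent.Lib.MP_648c71_nt.HP

open Finset MeasureTheory

private theorem W4_triv (N : ℕ) (a : ℕ → ℝ) : ‖∑ n ∈ range N, ee (a n)‖ ≤ N := by
  refine (norm_sum_le _ _).trans ?_
  simp [norm_ee]

private theorem W4_conj (x y : ℝ) : ee x * (starRingEnd ℂ) (ee y) = ee (x - y) := by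
  rw [← ee_neg, ← ee_add, sub_eq_add_neg]

/-- the number of `h ∈ [1, H)` below `h₀` is at most `h₀` -/
private theorem W4_count (H : ℕ) (h₀ : ℝ) (h0 : 0 < h₀) :
    (((Ico 1 H).filter (fun h : ℕ => (h : ℝ) < h₀)).card : ℝ) ≤ h₀ := by
  have hsub : (Ico 1 H).filter (fun h : ℕ => (h : ℝ) < h₀) ⊆ Ico 1 ⌈h₀⌉₊ := by
    intro h hh
    rw [mem_filter, mem_Ico] at hh
    rw [mem_Ico]
    exact ⟨hh.1.1, Nat.lt_ceil.2 hh.2⟩
  have h1 := card_le_card hsub
  rw [Nat.card_Ico] at h1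
  have h2 : (⌈h₀⌉₊ : ℝ) < h₀ + 1 := Nat.ceil_lt_add_one h0.le
  have h3 : 1 ≤ ⌈h₀⌉₊ := Nat.one_le_iff_ne_zero.2 (Nat.ceil_pos.2 h0).ne'
  have h4 : (((⌈h₀⌉₊ - 1 : ℕ)) : ℝ) = (⌈h₀⌉₊ : ℝ) - 1 := by
    push_cast [Nat.cast_sub h3]; ring
  have h5 : (((Ico 1 H).filter (fun h : ℕ => (h : ℝ) < h₀)).card : ℝ) ≤ ((⌈h₀⌉₊ - 1 : ℕ) : ℝ) := by
    exact_mod_cast h1
  linarith

/-- ROW W4.  Let `ε' = ε/2` and `σ', C'` from `PP j` for `ε'`, `A`.  Let `N` be large,
`H = ⌊min(N/2, N^(-ε')/hi)⌋ ≥ 1` (`hi ≤ N^(-ε)`), so `H ≥ min(N/2, N^{ε/2})/2`.  `vdc` with `u n = e(a n)`: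
`u(n+h) conj(u n) = e(a(n+h) - a n)`, `N' = N - h ∈ [N/2, N]`, `DD_shift`.  For `1 ≤ h < H` the upper condition
`h hi ≤ N^(-ε') ≤ N'^(-ε')` holds; the lower one `N'^(-j+ε') ≤ 2^j N^(-j+ε') ≤ h lo` holds unless
`h < h₀ = 2^j N^(-j+ε')/lo`.  For `h < h₀` use the trivial bound `N`, otherwise `C' N^(1-σ')`.
`|∑|² ≤ 2N²/H + (4N/H)(h₀ N + H C' N^(1-σ'))` (the number of `h < h₀`, `h ≥ 1` is `≤ h₀`).
`N²/H ≤ C N^{2-ε/2}`.  `h₀/H`: if `H ≥ N/4` it is `≤ C N^{-j-1+ε'}/lo ≤ C N^{ε'-ε}` (as `lo ≥ N^{-j-1+ε}`);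
otherwise `H ≥ N^{-ε'}/(2hi)` and it is `≤ C N^{-j+2ε'} hi/lo ≤ C A N^{-j+ε}`, hmm for `j ≥ 1`, `ε ≤ 1` use
`N^{-j+2ε'} = N^{-j+ε}`: if `ε = 1, j = 1` this is no saving, so FIRST replace `ε` by `min(ε,1/2)` (the hypotheses
of `PP` for `ε` imply those for smaller `ε`).  All constants depend only on `ε, A, j`. -/
theorem PP_step (j : ℕ) (hj : 1 ≤ j) (h : PP j) : PP (j + 1) := by
  intro ε hε hε1 A hA
  obtain ⟨e, he0, he4, h2e⟩ : ∃ e : ℝ, 0 < e ∧ e ≤ 1 / 4 ∧ 2 * e ≤ ε := by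
    refine ⟨min ε (1 / 2) / 2, ?_, ?_, ?_⟩
    · have : 0 < min ε (1 / 2) := lt_min hε (by norm_num)
      linarith
    · have := min_le_right ε (1 / 2)
      linarith
    · have := min_le_left ε (1 / 2)
      linarith
  obtain ⟨σ₁, C₁, hσ₁, hC₁, hP⟩ := h e he0 (by linarith) A hA
  obtain ⟨s, hs0, hs1, hss, hse⟩ : ∃ s : ℝ, 0 < s ∧ s ≤ 1 ∧ s ≤ σ₁ ∧ s ≤ e := by
    refine ⟨min (min σ₁ 1) e, lt_min (lt_min hσ₁ one_pos) he0, ?_, ?_, min_le_right _ _⟩
    · exact (min_le_left _ _).trans (min_le_right _ _)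
    · exact (min_le_left _ _).trans (min_le_left _ _)
  set K : ℝ := 12 + 24 * 2 ^ j * A + 4 * C₁ with hK
  have hpow : (0 : ℝ) < 2 ^ j := by positivity
  have hK1 : 1 ≤ K := by
    have : 0 ≤ 24 * 2 ^ j * A := by positivity
    linarith
  refine ⟨s / 2, K + (j + 4), by linarith, by positivity, ?_⟩
  intro N a lo hi hN hD hlo hA2 hlow hup
  have hX1 : (1 : ℝ) ≤ N := by exact_mod_cast hN
  have hX0 : (0 : ℝ) < N := by linarith
  have hone : (1 : ℝ) ≤ (N : ℝ) ^ (1 - s / 2) := Real.one_le_rpow hX1 (by linarith)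
  by_cases hsmall : N < j + 4
  · have h1 : (N : ℝ) ≤ j + 4 := by exact_mod_cast hsmall.le
    calc ‖∑ n ∈ range N, ee (a n)‖ ≤ N := W4_triv N a
      _ ≤ (j + 4) * 1 := by linarith
      _ ≤ (K + (j + 4)) * (N : ℝ) ^ (1 - s / 2) := by
          apply mul_le_mul _ hone (by norm_num) (by positivity)
          linarith
  push Not at hsmall
  have hX4 : (4 : ℝ) ≤ N := by
    have : 4 ≤ N := by omega
    exact_mod_cast this
  -- hi is positive
  have hhi : 0 < hi := by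
    have := hD.1 0 (by omega)
    linarith [this.1, this.2]
  -- powers
  have hlow' : (N : ℝ) ^ (-((j : ℝ) + 1) + 2 * e) ≤ lo := by
    refine le_trans (Real.rpow_le_rpow_of_exponent_le hX1 ?_) hlow
    push_cast; linarith
  have hup' : hi ≤ (N : ℝ) ^ (-(2 * e)) :=
    hup.trans (Real.rpow_le_rpow_of_exponent_le hX1 (by linarith))
  set q : ℝ := (N : ℝ) ^ (-e) with hq
  have hq0 : 0 < q := Real.rpow_pos_of_pos hX0 _
  have hq1 : q ≤ 1 := Real.rpow_le_one_of_one_le_of_nonpos hX1 (by linarith)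
  have hNq : 1 / (N : ℝ) ≤ q := by
    rw [one_div, ← Real.rpow_neg_one]
    exact Real.rpow_le_rpow_of_exponent_le hX1 (by linarith)
  have hqq : (N : ℝ) ^ (-(2 * e)) = q * q := by
    rw [hq, ← Real.rpow_add hX0]; congr 1; ring
  have hqinv : (N : ℝ) ^ e = q⁻¹ := by
    rw [hq, Real.rpow_neg hX0.le, inv_inv]
  have hhiq : hi ≤ q * q := by rw [← hqq]; exact hup'
  set Y : ℝ := min ((N : ℝ) / 2) (q / hi) with hY
  have hYa : Y ≤ N / 2 := min_le_left _ _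
  have hYb : Y ≤ q / hi := min_le_right _ _
  have hY1 : 1 ≤ Y := by
    refine le_min (by linarith) ?_
    rw [le_div_iff₀ hhi, one_mul]
    exact hhiq.trans (mul_le_of_le_one_right hq0.le hq1)
  have hYinv : 1 / Y ≤ 3 * q := by
    rcases min_choice ((N : ℝ) / 2) (q / hi) with hc | hc
    · rw [hY, hc]
      have : 1 / ((N : ℝ) / 2) = 2 * (1 / N) := by field_simp
      rw [this]; linarith
    · rw [hY, hc, one_div_div, div_le_iff₀ hq0]
      linarith [mul_pos hq0 hq0]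
  set H : ℕ := ⌊Y⌋₊ with hH
  have hHY : (H : ℝ) ≤ Y := Nat.floor_le (by linarith)
  have hHpos : 0 < H := Nat.floor_pos.2 hY1
  have hH1 : (1 : ℝ) ≤ H := by exact_mod_cast hHpos
  have hYH : Y < H + 1 := Nat.lt_floor_add_one Y
  have hHinv : 1 / (H : ℝ) ≤ 2 * (1 / Y) := by
    rw [mul_one_div, div_le_div_iff₀ (by linarith) (by linarith)]
    linarith
  have hHN2 : (H : ℝ) ≤ N / 2 := hHY.trans hYa
  have hHN : H ≤ N := by
    have : (H : ℝ) ≤ N := by linarith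
    exact_mod_cast this
  have hv := vdc N H hHpos hHN (fun n => ee (a n)) (fun n => (norm_ee _).le)
  -- the threshold
  set h₀ : ℝ := 2 ^ j * (N : ℝ) ^ (-(j : ℝ) + e) / lo with hh₀
  have hh0 : 0 < h₀ := by
    have := Real.rpow_pos_of_pos hX0 (-(j : ℝ) + e)
    positivity
  have hterm : ∀ h ∈ Ico 1 H, ‖∑ n ∈ range (N - h), ee (a (n + h)) * (starRingEnd ℂ) (ee (a n))‖ ≤
      (if (h : ℝ) < h₀ then (N : ℝ) else 0) + C₁ * (N : ℝ) ^ (1 - s) := by
    intro h hh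
    rw [mem_Ico] at hh
    have hhH : (h : ℝ) ≤ H := by exact_mod_cast hh.2.le
    have hh1 : (1 : ℝ) ≤ h := by exact_mod_cast hh.1
    have hhN : h ≤ N := by omega
    have hcast : ((N - h : ℕ) : ℝ) = N - h := by rw [Nat.cast_sub hhN]
    have hhalf : (N : ℝ) / 2 ≤ ((N - h : ℕ) : ℝ) := by rw [hcast]; linarith
    have hle : ((N - h : ℕ) : ℝ) ≤ N := by rw [hcast]; linarith
    have hge1 : (1 : ℝ) ≤ ((N - h : ℕ) : ℝ) := by linarith
    have hsum : ∑ n ∈ range (N - h), ee (a (n + h)) * (starRingEnd ℂ) (ee (a n)) =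
        ∑ n ∈ range (N - h), ee ((fun n => a (n + h) - a n) n) :=
      sum_congr rfl fun n _ => W4_conj _ _
    rw [hsum]
    have hnn : 0 ≤ C₁ * (N : ℝ) ^ (1 - s) := by positivity
    split_ifs with hlt
    · have := W4_triv (N - h) (fun n => a (n + h) - a n)
      linarith
    · push Not at hlt
      rw [zero_add]
      have hDD := DD_shift j N h lo hi a (by omega) hD
      have hb := hP (N - h) (fun n => a (n + h) - a n) (h * lo) (h * hi)
        (by exact_mod_cast hge1) hDD (by positivity)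
        (by have h9 := mul_le_mul_of_nonneg_left hA2 (Nat.cast_nonneg h : (0 : ℝ) ≤ h); linarith) ?_ ?_
      · refine hb.trans ?_
        apply mul_le_mul_of_nonneg_left _ hC₁.le
        calc ((N - h : ℕ) : ℝ) ^ (1 - σ₁) ≤ ((N - h : ℕ) : ℝ) ^ (1 - s) :=
              Real.rpow_le_rpow_of_exponent_le hge1 (by linarith)
          _ ≤ (N : ℝ) ^ (1 - s) := Real.rpow_le_rpow (by linarith) hle (by linarith)
      · -- lower condition
        have hjr : (1 : ℝ) ≤ j := by exact_mod_cast hj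
        have hexp : -(j : ℝ) + e ≤ 0 := by linarith
        calc ((N - h : ℕ) : ℝ) ^ (-(j : ℝ) + e) ≤ ((N : ℝ) / 2) ^ (-(j : ℝ) + e) :=
              Real.rpow_le_rpow_of_nonpos (by linarith) hhalf hexp
          _ = (N : ℝ) ^ (-(j : ℝ) + e) * (2 : ℝ) ^ (j - e : ℝ) := by
              rw [Real.div_rpow hX0.le (by norm_num), div_eq_mul_inv, ← Real.rpow_neg (by norm_num)]
              congr 2; ring
          _ ≤ (N : ℝ) ^ (-(j : ℝ) + e) * (2 : ℝ) ^ (j : ℝ) := by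
              apply mul_le_mul_of_nonneg_left _ (by positivity)
              exact Real.rpow_le_rpow_of_exponent_le (by norm_num) (by linarith)
          _ = h₀ * lo := by
              rw [Real.rpow_natCast, hh₀, div_mul_cancel₀ _ hlo.ne']; ring
          _ ≤ h * lo := by apply mul_le_mul_of_nonneg_right hlt hlo.le
      · -- upper condition
        calc (h : ℝ) * hi ≤ Y * hi := by
              apply mul_le_mul_of_nonneg_right _ hhi.le; linarith
          _ ≤ q := by rw [← le_div_iff₀ hhi]; exact hYb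
          _ ≤ ((N - h : ℕ) : ℝ) ^ (-e) :=
              Real.rpow_le_rpow_of_nonpos (by linarith) hle (by linarith)
  have hsumle : ∑ h ∈ Ico 1 H, ‖∑ n ∈ range (N - h), ee (a (n + h)) * (starRingEnd ℂ) (ee (a n))‖ ≤
      N * h₀ + H * (C₁ * (N : ℝ) ^ (1 - s)) := by
    refine (sum_le_sum hterm).trans ?_
    rw [sum_add_distrib, ← sum_filter, sum_const, sum_const, nsmul_eq_mul, nsmul_eq_mul]
    refine add_le_add ?_ ?_
    · rw [mul_comm]
      exact mul_le_mul_of_nonneg_left (W4_count H h₀ hh0) hX0.le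
    · apply mul_le_mul_of_nonneg_right _ (by positivity)
      rw [Nat.card_Ico]
      exact_mod_cast Nat.sub_le _ _
  -- h₀ / H is small
  have hXq : h₀ * (1 / N) ≤ 2 ^ j * q := by
    have h1 : (N : ℝ) ^ (-(j : ℝ) + e) * (1 / N) = q * (N : ℝ) ^ (-((j : ℝ) + 1) + 2 * e) := by
      rw [one_div, ← Real.rpow_neg_one, hq, ← Real.rpow_add hX0, ← Real.rpow_add hX0]
      congr 1; ring
    have h2 : h₀ * (1 / N) = 2 ^ j * (q * (N : ℝ) ^ (-((j : ℝ) + 1) + 2 * e)) / lo := by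
      rw [← h1, hh₀]; ring
    rw [h2, div_le_iff₀ hlo]
    have : q * (N : ℝ) ^ (-((j : ℝ) + 1) + 2 * e) ≤ q * lo := mul_le_mul_of_nonneg_left hlow' hq0.le
    calc 2 ^ j * (q * (N : ℝ) ^ (-((j : ℝ) + 1) + 2 * e)) ≤ 2 ^ j * (q * lo) :=
          mul_le_mul_of_nonneg_left this hpow.le
      _ = 2 ^ j * q * lo := by ring
  have hXh : h₀ * (hi / q) ≤ 2 ^ j * A * q := by
    have hjr : (1 : ℝ) ≤ j := by exact_mod_cast hj
    have h1 : (N : ℝ) ^ (-(j : ℝ) + e) ≤ q * q := by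
      rw [← hqq]
      exact Real.rpow_le_rpow_of_exponent_le hX1 (by linarith)
    have h2 : h₀ * (hi / q) = 2 ^ j * ((N : ℝ) ^ (-(j : ℝ) + e) / q) * (hi / lo) := by
      rw [hh₀]; ring
    rw [h2]
    have h3 : (N : ℝ) ^ (-(j : ℝ) + e) / q ≤ q := by rw [div_le_iff₀ hq0]; exact h1
    have h4 : hi / lo ≤ A := by rw [div_le_iff₀ hlo]; exact hA2
    have h5 : 0 ≤ (N : ℝ) ^ (-(j : ℝ) + e) / q := by positivity
    calc 2 ^ j * ((N : ℝ) ^ (-(j : ℝ) + e) / q) * (hi / lo) ≤ 2 ^ j * q * A := by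
          apply mul_le_mul _ h4 (by positivity) (by positivity)
          exact mul_le_mul_of_nonneg_left h3 hpow.le
      _ = 2 ^ j * A * q := by ring
  have hYinv2 : 1 / Y ≤ 2 * (1 / N) + hi / q := by
    rcases min_choice ((N : ℝ) / 2) (q / hi) with hc | hc
    · rw [hY, hc]
      have : 1 / ((N : ℝ) / 2) = 2 * (1 / N) := by field_simp
      rw [this]
      have : 0 ≤ hi / q := by positivity
      linarith
    · rw [hY, hc, one_div_div]
      have : 0 ≤ 2 * (1 / (N : ℝ)) := by positivity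
      linarith
  have hratio : h₀ * (1 / H) ≤ 6 * 2 ^ j * A * q := by
    have h1 : h₀ * (1 / H) ≤ h₀ * (2 * (2 * (1 / N) + hi / q)) :=
      mul_le_mul_of_nonneg_left (by linarith) hh0.le
    have h2 : 2 ^ j * q ≤ 2 ^ j * A * q := by
      have h9 : 0 < 2 ^ j * q := by positivity
      have h10 := mul_le_mul_of_nonneg_left hA h9.le
      linarith
    have h3 : h₀ * (2 * (2 * (1 / N) + hi / q)) = 4 * (h₀ * (1 / N)) + 2 * (h₀ * (hi / q)) := by ring
    rw [h3] at h1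
    linarith
  have hqs : q ≤ (N : ℝ) ^ (-s) := Real.rpow_le_rpow_of_exponent_le hX1 (by linarith)
  have hNs : (N : ℝ) ^ (1 - s) = N * (N : ℝ) ^ (-s) := by
    rw [sub_eq_add_neg, Real.rpow_add hX0, Real.rpow_one]
  set t : ℝ := (N : ℝ) ^ (-s) with ht
  have ht0 : 0 < t := Real.rpow_pos_of_pos hX0 _
  have hmain : ‖∑ n ∈ range N, ee (a n)‖ ^ 2 ≤ K * ((N : ℝ) ^ 2 * t) := by
    refine hv.trans ?_
    have hH0 : (0 : ℝ) < H := by linarith
    have h1 : 2 * (N : ℝ) ^ 2 / H ≤ 12 * ((N : ℝ) ^ 2 * t) := by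
      have : 1 / (H : ℝ) ≤ 6 * t := by linarith
      calc 2 * (N : ℝ) ^ 2 / H = 2 * (N : ℝ) ^ 2 * (1 / H) := by ring
        _ ≤ 2 * (N : ℝ) ^ 2 * (6 * t) := mul_le_mul_of_nonneg_left this (by positivity)
        _ = 12 * ((N : ℝ) ^ 2 * t) := by ring
    have h2 : 4 * (N : ℝ) / H *
        ∑ h ∈ Ico 1 H, ‖∑ n ∈ range (N - h), ee (a (n + h)) * (starRingEnd ℂ) (ee (a n))‖ ≤
        (24 * 2 ^ j * A + 4 * C₁) * ((N : ℝ) ^ 2 * t) := by
      calc 4 * (N : ℝ) / H *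
            ∑ h ∈ Ico 1 H, ‖∑ n ∈ range (N - h), ee (a (n + h)) * (starRingEnd ℂ) (ee (a n))‖
          ≤ 4 * (N : ℝ) / H * (N * h₀ + H * (C₁ * (N : ℝ) ^ (1 - s))) :=
            mul_le_mul_of_nonneg_left hsumle (by positivity)
        _ = 4 * (N : ℝ) ^ 2 * (h₀ * (1 / H)) + 4 * C₁ * ((N : ℝ) ^ 2 * t) := by
            rw [hNs]; field_simp
        _ ≤ 4 * (N : ℝ) ^ 2 * (6 * 2 ^ j * A * t) + 4 * C₁ * ((N : ℝ) ^ 2 * t) := by
            have : h₀ * (1 / H) ≤ 6 * 2 ^ j * A * t := hratio.trans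
              (mul_le_mul_of_nonneg_left hqs (by positivity))
            gcongr
        _ = (24 * 2 ^ j * A + 4 * C₁) * ((N : ℝ) ^ 2 * t) := by ring
    rw [hK]
    linarith
  have hsq : (N : ℝ) ^ 2 * t = ((N : ℝ) ^ (1 - s / 2)) ^ 2 := by
    rw [ht, ← Real.rpow_natCast, ← Real.rpow_natCast, ← Real.rpow_mul hX0.le, ← Real.rpow_add hX0]
    congr 1; push_cast; ring
  have hfin : ‖∑ n ∈ range N, ee (a n)‖ ^ 2 ≤ (K * (N : ℝ) ^ (1 - s / 2)) ^ 2 := by
    rw [mul_pow, ← hsq]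
    refine hmain.trans ?_
    apply mul_le_mul_of_nonneg_right _ (by positivity)
    rw [sq]
    exact le_mul_of_one_le_left (by linarith) hK1
  have hroot := abs_le_of_sq_le_sq hfin (by positivity)
  have h3 := (abs_le.1 hroot).2
  calc ‖∑ n ∈ range N, ee (a n)‖ ≤ K * (N : ℝ) ^ (1 - s / 2) := h3
    _ ≤ (K + (j + 4)) * (N : ℝ) ^ (1 - s / 2) := by
        apply mul_le_mul_of_nonneg_right _ (by positivity)
        linarith [(Nat.cast_nonneg j : (0 : ℝ) ≤ j)]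

/-- ROW W4. -/
theorem PP_five : PP 5 :=
  PP_step 4 (by norm_num) (PP_step 3 (by norm_num) (PP_step 2 (by norm_num) (PP_step 1 le_rfl PP_one)))

end Pool.Agent.Lib.MP_648c71_nt.HP
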